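import Pool.Agent.Q2.SF.QF
import Pool.Agent.Q2.TF.Rat
import Pool.Agent.Y374.PF.Zero
import Pool.Agent.Y374.PF.Degree

/-!
# Products of formats with a combinatorial inequality, averaged over the group
-/

set_option autoImplicit false

namespace Pool.Agent.Q2.SF

open Finset MvPolynomial Pool.Agent.TH144.NV Pool.Agent.Y374.PF Pool.Agent.Q35.PX
open Pool.Agent.Q2.TF

/-- A weight: a degree and a character of `G`, written additively. -/
abbrev Wt (k G : Type) [Field k] [Group G] : Type := ℤ × Additive (G →* kˣ)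

variable {k : Type} [Field k] {G : Type} [Group G] {N : ℕ}

/-- `p` is homogeneous of positive degree with respect to the weights `w` of the variables, and a
semi-invariant for the action of `G` on the variables by the characters `α`; its degree and its
character are the components of `ω`. -/
structure HasWeight (w : Fin N → ℕ) (α : Fin N → G →* kˣ) (p : MvPolynomial (Fin N) k)
    (ω : Wt k G) : Prop where
  pos : 0 < ω.1
  hom : ∀ n : ℕ, (n : ℤ) = ω.1 → IsWeightedHomogeneous w p n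
  semi : ∀ γ, act (fun i => (α i γ : k)) p = C ((Additive.toMul ω.2 γ : kˣ) : k) * p

theorem HasWeight.homNat {w : Fin N → ℕ} {α : Fin N → G →* kˣ} {p : MvPolynomial (Fin N) k}
    {ω : Wt k G} (h : HasWeight w α p ω) : IsWeightedHomogeneous w p ω.1.toNat :=
  h.hom _ (Int.toNat_of_nonneg h.pos.le)

/-- the character of the group of weights given by an element of `G` and a scalar -/
noncomputable def zc (g : G) (μ : kˣ) : Wt k G →+ Additive kˣ where
  toFun ω := Additive.ofMul (Additive.toMul ω.2 g * μ ^ (- ω.1))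
  map_zero' := by simp
  map_add' a b := by
    rw [← ofMul_mul]
    congr 1
    rw [Prod.snd_add, toMul_add, MonoidHom.mul_apply, Prod.fst_add, neg_add, zpow_add]
    exact mul_mul_mul_comm _ _ _ _

theorem zc_eq_zero {g : G} {μ : kˣ} {ω : Wt k G} (hω : 0 < ω.1) :
    zc g μ ω = 0 ↔ Additive.toMul ω.2 g = μ ^ ω.1.toNat := by
  have h1 : (ω.1.toNat : ℤ) = ω.1 := Int.toNat_of_nonneg hω.le
  show Additive.ofMul (Additive.toMul ω.2 g * μ ^ (- ω.1)) = 0 ↔ _
  rw [ofMul_eq_zero, ← h1, zpow_neg, zpow_natCast, mul_inv_eq_one, Int.toNat_natCast]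

open Classical in
/-- A factor of a product: a nice quadratic format, forms in this format and a combinatorial
inequality. -/
structure Fac (w : Fin N → ℕ) (α : Fin N → G →* kˣ) where
  Q : QF
  nice : Q.Nice
  wt : Fin Q.n → Wt k G
  f : Fin Q.n → MvPolynomial (Fin N) k
  hf : ∀ i, HasWeight w α (f i) (wt i)
  rel : ∀ l t t', wt (Q.a l t) + wt (Q.b l t) = wt (Q.a l t') + wt (Q.b l t')
  e : ℕ
  ex : Fin e → Wt k G
  ex_pos : ∀ j, 0 < (ex j).1
  comb : ∀ z : Wt k G →+ Additive kˣ, (∃ i, z (wt i) = 0) → ∃ x, z (wt x) = 0 ∧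
    2 * (univ.filter fun i => z (wt i) = 0 ∧ Q.opp x i).card ≤
      (univ.filter fun i => z (wt i) = 0).card + (univ.filter fun j => z (ex j) = 0).card

theorem sum_filter_elim {ι : Type} [Fintype ι] {n m : ι → ℕ} {p : ℕ}
    (P : (Σ a, Fin (n a)) ⊕ ((Σ a, Fin (m a)) ⊕ Fin p) → Prop) [DecidablePred P] :
    ∑ j ∈ univ.filter P, (Sum.elim (fun _ => 1 / 2) (Sum.elim (fun _ => 1 / 2) (fun _ => 1)) :
      (Σ a, Fin (n a)) ⊕ ((Σ a, Fin (m a)) ⊕ Fin p) → ℚ) j
    = (1 / 2) * ((∑ a, ((univ.filter fun i => P (Sum.inl ⟨a, i⟩)).card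
      + (univ.filter fun i => P (Sum.inr (Sum.inl ⟨a, i⟩))).card) : ℕ) : ℚ)
      + (univ.filter fun j => P (Sum.inr (Sum.inr j))).card := by
  rw [Finset.sum_filter, Fintype.sum_sum_type, Fintype.sum_sum_type, Fintype.sum_sigma,
    Fintype.sum_sigma]
  simp only [Sum.elim_inl, Sum.elim_inr, ← Finset.sum_filter, Finset.sum_const, nsmul_eq_mul]
  push_cast
  rw [Finset.sum_add_distrib, ← Finset.sum_mul, ← Finset.sum_mul]
  ring

open Classical in
/-- the weights which take no part in level `h` -/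
theorem not_good [IsAlgClosed k] [CharZero k] [Finite G] (hDim : S_Dim) {w : Fin N → ℕ}
    (hw : ∀ i, 0 < w i) {α : Fin N → G →* kˣ} {ι : Type} [Fintype ι] (Φ : ι → Fac w α) {p : ℕ}
    (g : Fin p → MvPolynomial (Fin N) k) (ε : Fin p → Wt k G)
    (hg : ∀ j, HasWeight w α (g j) (ε j)) (h : ℕ)
    (H : ∀ (γ : G) (μ : kˣ), μ ^ h ≠ 1 → ∀ x : Fin N → k,
      (∀ i, (α i γ : k) * x i = (μ : k) ^ w i * x i) →
      (∀ a l, (Φ a).Q.val (fun i => eval x ((Φ a).f i)) l = 0) → (∀ j, eval x (g j) = 0) →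
      x = 0) :
    2 * ∑ i ∈ univ.filter (fun i => ¬ Good h (w i) (α i)), (w i : ℤ) ≤
      ∑ a, (∑ i, ((Φ a).wt i).1 + ∑ j, ((Φ a).ex j).1) + 2 * ∑ j, (ε j).1 := by
  have main := main_ineq_rat (k := k) (G := G) w hw
    (τ := (Σ a, Fin (Φ a).Q.n) ⊕ ((Σ a, Fin (Φ a).e) ⊕ Fin p))
    (Sum.elim (fun s => ((Φ s.1).wt s.2).1.toNat)
      (Sum.elim (fun s => ((Φ s.1).ex s.2).1.toNat) (fun j => (ε j).1.toNat)))
    (by
      rintro (s | s | j)
      · have := ((Φ s.1).hf s.2).pos
        simp only [Sum.elim_inl]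
        omega
      · have := (Φ s.1).ex_pos s.2
        simp only [Sum.elim_inl, Sum.elim_inr]
        omega
      · have := (hg j).pos
        simp only [Sum.elim_inr]
        omega)
    α (Sum.elim (fun s => Additive.toMul ((Φ s.1).wt s.2).2)
      (Sum.elim (fun s => Additive.toMul ((Φ s.1).ex s.2).2) (fun j => Additive.toMul (ε j).2)))
    h (Sum.elim (fun _ => 1 / 2) (Sum.elim (fun _ => 1 / 2) (fun _ => 1)))
    (by rintro (s | s | j) <;> simp) (by
    intro γ μ hμ
    set T := univ.filter fun i => α i γ = μ ^ w i with hTdef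
    have hfix : ∀ x : Fin N → k, (∀ i, i ∉ T → x i = 0) →
        ∀ i, (α i γ : k) * x i = (μ : k) ^ w i * x i := by
      intro x hx i
      by_cases hi : i ∈ T
      · rw [(Finset.mem_filter.1 hi).2, Units.val_pow_eq_pow_val]
      · rw [hx i hi, mul_zero, mul_zero]
    set B := univ.filter fun j => Additive.toMul (ε j).2 γ = μ ^ (ε j).1.toNat with hBdef
    let z : ∀ a, Fin (Φ a).Q.n → kˣ := fun a i => Additive.toMul (zc γ μ ((Φ a).wt i))
    have hz1 : ∀ a i, z a i = 1 ↔ zc γ μ ((Φ a).wt i) = 0 := fun a i => Iff.rfl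
    have hvan : ∀ (q : MvPolynomial (Fin N) k) (ω : Wt k G), HasWeight w α q ω →
        Additive.toMul ω.2 γ ≠ μ ^ ω.1.toNat → ∀ x : Fin N → k, (∀ i, i ∉ T → x i = 0) →
        eval x q = 0 := by
      intro q ω hq hne x hx
      refine eval_eq_zero_of_ne hq.homNat (fun i => (α i γ : k)) _ (hq.semi γ) (μ : k)
        (hfix x hx) ?_
      intro h2
      apply hne
      ext
      rw [h2, Units.val_pow_eq_pow_val]
    -- the vertices
    have hex : ∀ a, ∃ x : Option (Fin (Φ a).Q.n), (∀ i, x = some i → z a i = 1) ∧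
        2 * (univ.filter fun i => z a i = 1 ∧ ∀ j, x = some j → (Φ a).Q.opp j i).card ≤
          (univ.filter fun i => zc γ μ ((Φ a).wt i) = 0).card
            + (univ.filter fun j => zc γ μ ((Φ a).ex j) = 0).card := by
      intro a
      by_cases hne : ∃ i, zc γ μ ((Φ a).wt i) = 0
      · obtain ⟨x, hx1, hx2⟩ := (Φ a).comb (zc γ μ) hne
        refine ⟨some x, ?_, ?_⟩
        · intro i hi
          rw [← Option.some.inj hi]
          exact (hz1 a x).2 hx1
        · refine le_trans (le_of_eq ?_) hx2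
          congr 2
          ext i
          simp only [Finset.mem_filter, mem_univ, true_and, Option.some.injEq, forall_eq', hz1]
      · refine ⟨none, fun i hi => by simp at hi, ?_⟩
        rw [Finset.filter_false_of_mem, Finset.card_empty, mul_zero]
        · exact Nat.zero_le _
        · intro i _ hi
          exact hne ⟨i, (hz1 a i).1 hi.1⟩
    choose x hx1 hx2 using hex
    have h1 := count_prod hDim (fun a => (Φ a).Q) (fun a => (Φ a).nice) hw
      (fun a i => ((Φ a).wt i).1.toNat) (fun a i => by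
        have := ((Φ a).hf i).pos
        omega) (fun a l t t' => by
        have e1 := congrArg Prod.fst ((Φ a).rel l t t')
        have p1 := ((Φ a).hf ((Φ a).Q.a l t)).pos
        have p2 := ((Φ a).hf ((Φ a).Q.b l t)).pos
        have p3 := ((Φ a).hf ((Φ a).Q.a l t')).pos
        have p4 := ((Φ a).hf ((Φ a).Q.b l t')).pos
        rw [Prod.fst_add, Prod.fst_add] at e1
        omega) (fun j => (ε j).1.toNat) (fun j => by
        have := (hg j).pos
        omega) (fun a i => (Φ a).f i) g (fun a i => ((Φ a).hf i).homNat) (fun j => (hg j).homNat)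
      T z (fun a l t t' => by
        have e1 := congrArg (zc γ μ) ((Φ a).rel l t t')
        rw [map_add, map_add] at e1
        exact e1) B (fun a i hi q hq => by
        refine hvan _ _ ((Φ a).hf i) ?_ q hq
        intro h2
        exact hi ((hz1 a i).2 ((zc_eq_zero ((Φ a).hf i).pos).2 h2))) (fun j hj q hq => by
        refine hvan _ _ (hg j) ?_ q hq
        intro h2
        exact hj (Finset.mem_filter.2 ⟨mem_univ _, h2⟩))
      (fun q hq h2 h3 => H γ μ hμ q (hfix q hq) h2 h3) x hx1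
    have h2 : 2 * T.card ≤ ∑ a, ((univ.filter fun i => zc γ μ ((Φ a).wt i) = 0).card
            + (univ.filter fun j => zc γ μ ((Φ a).ex j) = 0).card) + 2 * B.card := by
      refine (Nat.mul_le_mul_left 2 h1).trans ?_
      rw [mul_add, Finset.mul_sum]
      exact Nat.add_le_add_right (Finset.sum_le_sum fun a _ => by convert hx2 a) _
    have h3 : ∑ j ∈ univ.filter (fun j : (Σ a, Fin (Φ a).Q.n) ⊕ ((Σ a, Fin (Φ a).e) ⊕ Fin p) =>
        (Sum.elim (fun s => Additive.toMul ((Φ s.1).wt s.2).2)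
          (Sum.elim (fun s => Additive.toMul ((Φ s.1).ex s.2).2)
            (fun j => Additive.toMul (ε j).2)) : _ → G →* kˣ) j γ
        = μ ^ (Sum.elim (fun s => ((Φ s.1).wt s.2).1.toNat)
          (Sum.elim (fun s => ((Φ s.1).ex s.2).1.toNat) (fun j => (ε j).1.toNat)) : _ → ℕ) j),
        (Sum.elim (fun _ => 1 / 2) (Sum.elim (fun _ => 1 / 2) (fun _ => 1)) : _ → ℚ) j
        = (1 / 2) * ((∑ a, ((univ.filter fun i => zc γ μ ((Φ a).wt i) = 0).card
            + (univ.filter fun j => zc γ μ ((Φ a).ex j) = 0).card) : ℕ) : ℚ) + B.card := by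
      refine (sum_filter_elim (ι := ι) (n := fun a => (Φ a).Q.n)
        (m := fun a => (Φ a).e) (p := p) (fun j =>
        (Sum.elim (fun s => Additive.toMul ((Φ s.1).wt s.2).2)
          (Sum.elim (fun s => Additive.toMul ((Φ s.1).ex s.2).2)
            (fun j => Additive.toMul (ε j).2)) : _ → G →* kˣ) j γ
        = μ ^ (Sum.elim (fun s => ((Φ s.1).wt s.2).1.toNat)
          (Sum.elim (fun s => ((Φ s.1).ex s.2).1.toNat) (fun j => (ε j).1.toNat)) : _ → ℕ) j)).trans
        ?_
      congr 1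
      congr 2
      refine Finset.sum_congr rfl fun a _ => ?_
      congr 2
      · ext i
        rw [Finset.mem_filter, Finset.mem_filter, zc_eq_zero ((Φ a).hf i).pos]
        exact Iff.rfl
      · ext i
        rw [Finset.mem_filter, Finset.mem_filter, zc_eq_zero ((Φ a).ex_pos i)]
        exact Iff.rfl
    rw [h3]
    have h4 : ((2 * T.card : ℕ) : ℚ) ≤ ((∑ a, ((univ.filter fun i => zc γ μ ((Φ a).wt i) = 0).card
            + (univ.filter fun j => zc γ μ ((Φ a).ex j) = 0).card) + 2 * B.card : ℕ) : ℚ) := by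
      exact_mod_cast h2
    rw [Nat.cast_add, Nat.cast_mul, Nat.cast_mul] at h4
    push_cast at h4 ⊢
    linarith)
  rw [Fintype.sum_sum_type, Fintype.sum_sum_type, Fintype.sum_sigma, Fintype.sum_sigma] at main
  simp only [Sum.elim_inl, Sum.elim_inr] at main
  have c1 : ∀ {x : ℤ}, 0 < x → ((x.toNat : ℕ) : ℚ) = (x : ℚ) := by
    intro x hx
    have : ((x.toNat : ℕ) : ℤ) = x := Int.toNat_of_nonneg hx.le
    exact_mod_cast congrArg (Int.cast : ℤ → ℚ) this
  have e1 : ∀ a, ∑ i, (1 / 2 : ℚ) * (((Φ a).wt i).1.toNat : ℕ)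
      = 1 / 2 * ((∑ i, ((Φ a).wt i).1 : ℤ) : ℚ) := by
    intro a
    rw [← Finset.mul_sum, Int.cast_sum]
    congr 1
    exact Finset.sum_congr rfl fun i _ => c1 ((Φ a).hf i).pos
  have e2 : ∀ a, ∑ i, (1 / 2 : ℚ) * (((Φ a).ex i).1.toNat : ℕ)
      = 1 / 2 * ((∑ i, ((Φ a).ex i).1 : ℤ) : ℚ) := by
    intro a
    rw [← Finset.mul_sum, Int.cast_sum]
    congr 1
    exact Finset.sum_congr rfl fun i _ => c1 ((Φ a).ex_pos i)
  have e3 : ∑ j, (1 : ℚ) * ((ε j).1.toNat : ℕ) = ((∑ j, (ε j).1 : ℤ) : ℚ) := by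
    rw [Int.cast_sum]
    exact Finset.sum_congr rfl fun i _ => by rw [one_mul, c1 (hg i).pos]
  simp only [e1, e2] at main
  rw [e3] at main
  have h5 : (2 : ℚ) * ∑ i ∈ univ.filter (fun i => ¬ Good h (w i) (α i)), (w i : ℚ) ≤
      ∑ a, (((∑ i, ((Φ a).wt i).1 : ℤ) : ℚ) + ((∑ j, ((Φ a).ex j).1 : ℤ) : ℚ))
        + 2 * ((∑ j, (ε j).1 : ℤ) : ℚ) := by
    rw [Finset.sum_add_distrib]
    rw [← Finset.mul_sum, ← Finset.mul_sum] at main
    linarith
  exact_mod_cast h5

end Pool.Agent.Q2.SF
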