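import Pool.Agent.Q2.SF.Comb
import Pool.Agent.Q2.SF.Fac

/-!
# The Cayley format in terms of three matrices of size three. Generated.
-/

set_option autoImplicit false

namespace Pool.Agent.Q2.SF

open Finset MvPolynomial

/-- the 27 coordinates -/
def cayleyV {R : Type} (A B C : Matrix (Fin 3) (Fin 3) R) : Fin 27 → R :=
  ![A 0 0, A 0 1, A 0 2, A 1 0, A 1 1, A 1 2, A 2 0, A 2 1, A 2 2,
    B 0 0, B 0 1, B 0 2, B 1 0, B 1 1, B 1 2, B 2 0, B 2 1, B 2 2,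
    C 0 0, C 0 1, C 0 2, C 1 0, C 1 1, C 1 2, C 2 0, C 2 1, C 2 2]

/-- their weights -/
def cayleyW {W : Type} [AddCommGroup W] (a b c : Fin 3 → W) (m : W) : Fin 27 → W :=
  ![a 0 - b 0, a 0 - b 1, a 0 - b 2,
    a 1 - b 0, a 1 - b 1, a 1 - b 2,
    a 2 - b 0, a 2 - b 1, a 2 - b 2,
    b 0 - c 0, b 0 - c 1, b 0 - c 2,
    b 1 - c 0, b 1 - c 1, b 1 - c 2,
    b 2 - c 0, b 2 - c 1, b 2 - c 2,
    m + c 0 - a 0, m + c 0 - a 1, m + c 0 - a 2,
    m + c 1 - a 0, m + c 1 - a 1, m + c 1 - a 2,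
    m + c 2 - a 0, m + c 2 - a 1, m + c 2 - a 2]

theorem cayley_link_A {R : Type} [CommRing R] (A B C : Matrix (Fin 3) (Fin 3) R) (i j : Fin 3) :
    ∃ l, (A.adjugate - B * C) i j = cayley.val (cayleyV A B C) l := by
  rw [Matrix.sub_apply, Matrix.mul_apply, Fin.sum_univ_three, Matrix.adjugate_fin_three]
  fin_cases i
  · fin_cases j
    · refine ⟨(0 : Fin 27), ?_⟩
      show _ = ∑ t : Fin 5, _
      rw [Fin.sum_univ_five]
      show (A 1 1 * A 2 2 - A 1 2 * A 2 1) - (B 0 0 * C 0 0 + B 0 1 * C 1 0 + B 0 2 * C 2 0) = (((1 : ℤ)) : R) * (A 1 1) * (A 2 2) + (((-1 : ℤ)) : R) * (A 1 2) * (A 2 1) + (((-1 : ℤ)) : R) * (B 0 0) * (C 0 0) + (((-1 : ℤ)) : R) * (B 0 1) * (C 1 0) + (((-1 : ℤ)) : R) * (B 0 2) * (C 2 0)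
      push_cast
      ring
    · refine ⟨(1 : Fin 27), ?_⟩
      show _ = ∑ t : Fin 5, _
      rw [Fin.sum_univ_five]
      show (-(A 0 1 * A 2 2) + A 0 2 * A 2 1) - (B 0 0 * C 0 1 + B 0 1 * C 1 1 + B 0 2 * C 2 1) = (((-1 : ℤ)) : R) * (A 0 1) * (A 2 2) + (((1 : ℤ)) : R) * (A 0 2) * (A 2 1) + (((-1 : ℤ)) : R) * (B 0 0) * (C 0 1) + (((-1 : ℤ)) : R) * (B 0 1) * (C 1 1) + (((-1 : ℤ)) : R) * (B 0 2) * (C 2 1)
      push_cast
      ring
    · refine ⟨(2 : Fin 27), ?_⟩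
      show _ = ∑ t : Fin 5, _
      rw [Fin.sum_univ_five]
      show (A 0 1 * A 1 2 - A 0 2 * A 1 1) - (B 0 0 * C 0 2 + B 0 1 * C 1 2 + B 0 2 * C 2 2) = (((1 : ℤ)) : R) * (A 0 1) * (A 1 2) + (((-1 : ℤ)) : R) * (A 0 2) * (A 1 1) + (((-1 : ℤ)) : R) * (B 0 0) * (C 0 2) + (((-1 : ℤ)) : R) * (B 0 1) * (C 1 2) + (((-1 : ℤ)) : R) * (B 0 2) * (C 2 2)
      push_cast
      ring
  · fin_cases j
    · refine ⟨(3 : Fin 27), ?_⟩
      show _ = ∑ t : Fin 5, _
      rw [Fin.sum_univ_five]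
      show (-(A 1 0 * A 2 2) + A 1 2 * A 2 0) - (B 1 0 * C 0 0 + B 1 1 * C 1 0 + B 1 2 * C 2 0) = (((-1 : ℤ)) : R) * (A 1 0) * (A 2 2) + (((1 : ℤ)) : R) * (A 1 2) * (A 2 0) + (((-1 : ℤ)) : R) * (B 1 0) * (C 0 0) + (((-1 : ℤ)) : R) * (B 1 1) * (C 1 0) + (((-1 : ℤ)) : R) * (B 1 2) * (C 2 0)
      push_cast
      ring
    · refine ⟨(4 : Fin 27), ?_⟩
      show _ = ∑ t : Fin 5, _
      rw [Fin.sum_univ_five]
      show (A 0 0 * A 2 2 - A 0 2 * A 2 0) - (B 1 0 * C 0 1 + B 1 1 * C 1 1 + B 1 2 * C 2 1) = (((1 : ℤ)) : R) * (A 0 0) * (A 2 2) + (((-1 : ℤ)) : R) * (A 0 2) * (A 2 0) + (((-1 : ℤ)) : R) * (B 1 0) * (C 0 1) + (((-1 : ℤ)) : R) * (B 1 1) * (C 1 1) + (((-1 : ℤ)) : R) * (B 1 2) * (C 2 1)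
      push_cast
      ring
    · refine ⟨(5 : Fin 27), ?_⟩
      show _ = ∑ t : Fin 5, _
      rw [Fin.sum_univ_five]
      show (-(A 0 0 * A 1 2) + A 0 2 * A 1 0) - (B 1 0 * C 0 2 + B 1 1 * C 1 2 + B 1 2 * C 2 2) = (((-1 : ℤ)) : R) * (A 0 0) * (A 1 2) + (((1 : ℤ)) : R) * (A 0 2) * (A 1 0) + (((-1 : ℤ)) : R) * (B 1 0) * (C 0 2) + (((-1 : ℤ)) : R) * (B 1 1) * (C 1 2) + (((-1 : ℤ)) : R) * (B 1 2) * (C 2 2)
      push_cast
      ring
  · fin_cases j
    · refine ⟨(6 : Fin 27), ?_⟩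
      show _ = ∑ t : Fin 5, _
      rw [Fin.sum_univ_five]
      show (A 1 0 * A 2 1 - A 1 1 * A 2 0) - (B 2 0 * C 0 0 + B 2 1 * C 1 0 + B 2 2 * C 2 0) = (((1 : ℤ)) : R) * (A 1 0) * (A 2 1) + (((-1 : ℤ)) : R) * (A 1 1) * (A 2 0) + (((-1 : ℤ)) : R) * (B 2 0) * (C 0 0) + (((-1 : ℤ)) : R) * (B 2 1) * (C 1 0) + (((-1 : ℤ)) : R) * (B 2 2) * (C 2 0)
      push_cast
      ring
    · refine ⟨(7 : Fin 27), ?_⟩
      show _ = ∑ t : Fin 5, _
      rw [Fin.sum_univ_five]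
      show (-(A 0 0 * A 2 1) + A 0 1 * A 2 0) - (B 2 0 * C 0 1 + B 2 1 * C 1 1 + B 2 2 * C 2 1) = (((-1 : ℤ)) : R) * (A 0 0) * (A 2 1) + (((1 : ℤ)) : R) * (A 0 1) * (A 2 0) + (((-1 : ℤ)) : R) * (B 2 0) * (C 0 1) + (((-1 : ℤ)) : R) * (B 2 1) * (C 1 1) + (((-1 : ℤ)) : R) * (B 2 2) * (C 2 1)
      push_cast
      ring
    · refine ⟨(8 : Fin 27), ?_⟩
      show _ = ∑ t : Fin 5, _
      rw [Fin.sum_univ_five]
      show (A 0 0 * A 1 1 - A 0 1 * A 1 0) - (B 2 0 * C 0 2 + B 2 1 * C 1 2 + B 2 2 * C 2 2) = (((1 : ℤ)) : R) * (A 0 0) * (A 1 1) + (((-1 : ℤ)) : R) * (A 0 1) * (A 1 0) + (((-1 : ℤ)) : R) * (B 2 0) * (C 0 2) + (((-1 : ℤ)) : R) * (B 2 1) * (C 1 2) + (((-1 : ℤ)) : R) * (B 2 2) * (C 2 2)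
      push_cast
      ring

theorem cayley_link_B {R : Type} [CommRing R] (A B C : Matrix (Fin 3) (Fin 3) R) (i j : Fin 3) :
    ∃ l, (B.adjugate - C * A) i j = cayley.val (cayleyV A B C) l := by
  rw [Matrix.sub_apply, Matrix.mul_apply, Fin.sum_univ_three, Matrix.adjugate_fin_three]
  fin_cases i
  · fin_cases j
    · refine ⟨(9 : Fin 27), ?_⟩
      show _ = ∑ t : Fin 5, _
      rw [Fin.sum_univ_five]
      show (B 1 1 * B 2 2 - B 1 2 * B 2 1) - (C 0 0 * A 0 0 + C 0 1 * A 1 0 + C 0 2 * A 2 0) = (((1 : ℤ)) : R) * (B 1 1) * (B 2 2) + (((-1 : ℤ)) : R) * (B 1 2) * (B 2 1) + (((-1 : ℤ)) : R) * (C 0 0) * (A 0 0) + (((-1 : ℤ)) : R) * (C 0 1) * (A 1 0) + (((-1 : ℤ)) : R) * (C 0 2) * (A 2 0)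
      push_cast
      ring
    · refine ⟨(10 : Fin 27), ?_⟩
      show _ = ∑ t : Fin 5, _
      rw [Fin.sum_univ_five]
      show (-(B 0 1 * B 2 2) + B 0 2 * B 2 1) - (C 0 0 * A 0 1 + C 0 1 * A 1 1 + C 0 2 * A 2 1) = (((-1 : ℤ)) : R) * (B 0 1) * (B 2 2) + (((1 : ℤ)) : R) * (B 0 2) * (B 2 1) + (((-1 : ℤ)) : R) * (C 0 0) * (A 0 1) + (((-1 : ℤ)) : R) * (C 0 1) * (A 1 1) + (((-1 : ℤ)) : R) * (C 0 2) * (A 2 1)
      push_cast
      ring
    · refine ⟨(11 : Fin 27), ?_⟩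
      show _ = ∑ t : Fin 5, _
      rw [Fin.sum_univ_five]
      show (B 0 1 * B 1 2 - B 0 2 * B 1 1) - (C 0 0 * A 0 2 + C 0 1 * A 1 2 + C 0 2 * A 2 2) = (((1 : ℤ)) : R) * (B 0 1) * (B 1 2) + (((-1 : ℤ)) : R) * (B 0 2) * (B 1 1) + (((-1 : ℤ)) : R) * (C 0 0) * (A 0 2) + (((-1 : ℤ)) : R) * (C 0 1) * (A 1 2) + (((-1 : ℤ)) : R) * (C 0 2) * (A 2 2)
      push_cast
      ring
  · fin_cases j
    · refine ⟨(12 : Fin 27), ?_⟩
      show _ = ∑ t : Fin 5, _
      rw [Fin.sum_univ_five]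
      show (-(B 1 0 * B 2 2) + B 1 2 * B 2 0) - (C 1 0 * A 0 0 + C 1 1 * A 1 0 + C 1 2 * A 2 0) = (((-1 : ℤ)) : R) * (B 1 0) * (B 2 2) + (((1 : ℤ)) : R) * (B 1 2) * (B 2 0) + (((-1 : ℤ)) : R) * (C 1 0) * (A 0 0) + (((-1 : ℤ)) : R) * (C 1 1) * (A 1 0) + (((-1 : ℤ)) : R) * (C 1 2) * (A 2 0)
      push_cast
      ring
    · refine ⟨(13 : Fin 27), ?_⟩
      show _ = ∑ t : Fin 5, _
      rw [Fin.sum_univ_five]
      show (B 0 0 * B 2 2 - B 0 2 * B 2 0) - (C 1 0 * A 0 1 + C 1 1 * A 1 1 + C 1 2 * A 2 1) = (((1 : ℤ)) : R) * (B 0 0) * (B 2 2) + (((-1 : ℤ)) : R) * (B 0 2) * (B 2 0) + (((-1 : ℤ)) : R) * (C 1 0) * (A 0 1) + (((-1 : ℤ)) : R) * (C 1 1) * (A 1 1) + (((-1 : ℤ)) : R) * (C 1 2) * (A 2 1)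
      push_cast
      ring
    · refine ⟨(14 : Fin 27), ?_⟩
      show _ = ∑ t : Fin 5, _
      rw [Fin.sum_univ_five]
      show (-(B 0 0 * B 1 2) + B 0 2 * B 1 0) - (C 1 0 * A 0 2 + C 1 1 * A 1 2 + C 1 2 * A 2 2) = (((-1 : ℤ)) : R) * (B 0 0) * (B 1 2) + (((1 : ℤ)) : R) * (B 0 2) * (B 1 0) + (((-1 : ℤ)) : R) * (C 1 0) * (A 0 2) + (((-1 : ℤ)) : R) * (C 1 1) * (A 1 2) + (((-1 : ℤ)) : R) * (C 1 2) * (A 2 2)
      push_cast
      ring
  · fin_cases j
    · refine ⟨(15 : Fin 27), ?_⟩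
      show _ = ∑ t : Fin 5, _
      rw [Fin.sum_univ_five]
      show (B 1 0 * B 2 1 - B 1 1 * B 2 0) - (C 2 0 * A 0 0 + C 2 1 * A 1 0 + C 2 2 * A 2 0) = (((1 : ℤ)) : R) * (B 1 0) * (B 2 1) + (((-1 : ℤ)) : R) * (B 1 1) * (B 2 0) + (((-1 : ℤ)) : R) * (C 2 0) * (A 0 0) + (((-1 : ℤ)) : R) * (C 2 1) * (A 1 0) + (((-1 : ℤ)) : R) * (C 2 2) * (A 2 0)
      push_cast
      ring
    · refine ⟨(16 : Fin 27), ?_⟩
      show _ = ∑ t : Fin 5, _
      rw [Fin.sum_univ_five]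
      show (-(B 0 0 * B 2 1) + B 0 1 * B 2 0) - (C 2 0 * A 0 1 + C 2 1 * A 1 1 + C 2 2 * A 2 1) = (((-1 : ℤ)) : R) * (B 0 0) * (B 2 1) + (((1 : ℤ)) : R) * (B 0 1) * (B 2 0) + (((-1 : ℤ)) : R) * (C 2 0) * (A 0 1) + (((-1 : ℤ)) : R) * (C 2 1) * (A 1 1) + (((-1 : ℤ)) : R) * (C 2 2) * (A 2 1)
      push_cast
      ring
    · refine ⟨(17 : Fin 27), ?_⟩
      show _ = ∑ t : Fin 5, _
      rw [Fin.sum_univ_five]
      show (B 0 0 * B 1 1 - B 0 1 * B 1 0) - (C 2 0 * A 0 2 + C 2 1 * A 1 2 + C 2 2 * A 2 2) = (((1 : ℤ)) : R) * (B 0 0) * (B 1 1) + (((-1 : ℤ)) : R) * (B 0 1) * (B 1 0) + (((-1 : ℤ)) : R) * (C 2 0) * (A 0 2) + (((-1 : ℤ)) : R) * (C 2 1) * (A 1 2) + (((-1 : ℤ)) : R) * (C 2 2) * (A 2 2)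
      push_cast
      ring

theorem cayley_link_C {R : Type} [CommRing R] (A B C : Matrix (Fin 3) (Fin 3) R) (i j : Fin 3) :
    ∃ l, (C.adjugate - A * B) i j = cayley.val (cayleyV A B C) l := by
  rw [Matrix.sub_apply, Matrix.mul_apply, Fin.sum_univ_three, Matrix.adjugate_fin_three]
  fin_cases i
  · fin_cases j
    · refine ⟨(18 : Fin 27), ?_⟩
      show _ = ∑ t : Fin 5, _
      rw [Fin.sum_univ_five]
      show (C 1 1 * C 2 2 - C 1 2 * C 2 1) - (A 0 0 * B 0 0 + A 0 1 * B 1 0 + A 0 2 * B 2 0) = (((1 : ℤ)) : R) * (C 1 1) * (C 2 2) + (((-1 : ℤ)) : R) * (C 1 2) * (C 2 1) + (((-1 : ℤ)) : R) * (A 0 0) * (B 0 0) + (((-1 : ℤ)) : R) * (A 0 1) * (B 1 0) + (((-1 : ℤ)) : R) * (A 0 2) * (B 2 0)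
      push_cast
      ring
    · refine ⟨(19 : Fin 27), ?_⟩
      show _ = ∑ t : Fin 5, _
      rw [Fin.sum_univ_five]
      show (-(C 0 1 * C 2 2) + C 0 2 * C 2 1) - (A 0 0 * B 0 1 + A 0 1 * B 1 1 + A 0 2 * B 2 1) = (((-1 : ℤ)) : R) * (C 0 1) * (C 2 2) + (((1 : ℤ)) : R) * (C 0 2) * (C 2 1) + (((-1 : ℤ)) : R) * (A 0 0) * (B 0 1) + (((-1 : ℤ)) : R) * (A 0 1) * (B 1 1) + (((-1 : ℤ)) : R) * (A 0 2) * (B 2 1)
      push_cast
      ring
    · refine ⟨(20 : Fin 27), ?_⟩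
      show _ = ∑ t : Fin 5, _
      rw [Fin.sum_univ_five]
      show (C 0 1 * C 1 2 - C 0 2 * C 1 1) - (A 0 0 * B 0 2 + A 0 1 * B 1 2 + A 0 2 * B 2 2) = (((1 : ℤ)) : R) * (C 0 1) * (C 1 2) + (((-1 : ℤ)) : R) * (C 0 2) * (C 1 1) + (((-1 : ℤ)) : R) * (A 0 0) * (B 0 2) + (((-1 : ℤ)) : R) * (A 0 1) * (B 1 2) + (((-1 : ℤ)) : R) * (A 0 2) * (B 2 2)
      push_cast
      ring
  · fin_cases j
    · refine ⟨(21 : Fin 27), ?_⟩
      show _ = ∑ t : Fin 5, _
      rw [Fin.sum_univ_five]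
      show (-(C 1 0 * C 2 2) + C 1 2 * C 2 0) - (A 1 0 * B 0 0 + A 1 1 * B 1 0 + A 1 2 * B 2 0) = (((-1 : ℤ)) : R) * (C 1 0) * (C 2 2) + (((1 : ℤ)) : R) * (C 1 2) * (C 2 0) + (((-1 : ℤ)) : R) * (A 1 0) * (B 0 0) + (((-1 : ℤ)) : R) * (A 1 1) * (B 1 0) + (((-1 : ℤ)) : R) * (A 1 2) * (B 2 0)
      push_cast
      ring
    · refine ⟨(22 : Fin 27), ?_⟩
      show _ = ∑ t : Fin 5, _
      rw [Fin.sum_univ_five]
      show (C 0 0 * C 2 2 - C 0 2 * C 2 0) - (A 1 0 * B 0 1 + A 1 1 * B 1 1 + A 1 2 * B 2 1) = (((1 : ℤ)) : R) * (C 0 0) * (C 2 2) + (((-1 : ℤ)) : R) * (C 0 2) * (C 2 0) + (((-1 : ℤ)) : R) * (A 1 0) * (B 0 1) + (((-1 : ℤ)) : R) * (A 1 1) * (B 1 1) + (((-1 : ℤ)) : R) * (A 1 2) * (B 2 1)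
      push_cast
      ring
    · refine ⟨(23 : Fin 27), ?_⟩
      show _ = ∑ t : Fin 5, _
      rw [Fin.sum_univ_five]
      show (-(C 0 0 * C 1 2) + C 0 2 * C 1 0) - (A 1 0 * B 0 2 + A 1 1 * B 1 2 + A 1 2 * B 2 2) = (((-1 : ℤ)) : R) * (C 0 0) * (C 1 2) + (((1 : ℤ)) : R) * (C 0 2) * (C 1 0) + (((-1 : ℤ)) : R) * (A 1 0) * (B 0 2) + (((-1 : ℤ)) : R) * (A 1 1) * (B 1 2) + (((-1 : ℤ)) : R) * (A 1 2) * (B 2 2)
      push_cast
      ring
  · fin_cases j
    · refine ⟨(24 : Fin 27), ?_⟩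
      show _ = ∑ t : Fin 5, _
      rw [Fin.sum_univ_five]
      show (C 1 0 * C 2 1 - C 1 1 * C 2 0) - (A 2 0 * B 0 0 + A 2 1 * B 1 0 + A 2 2 * B 2 0) = (((1 : ℤ)) : R) * (C 1 0) * (C 2 1) + (((-1 : ℤ)) : R) * (C 1 1) * (C 2 0) + (((-1 : ℤ)) : R) * (A 2 0) * (B 0 0) + (((-1 : ℤ)) : R) * (A 2 1) * (B 1 0) + (((-1 : ℤ)) : R) * (A 2 2) * (B 2 0)
      push_cast
      ring
    · refine ⟨(25 : Fin 27), ?_⟩
      show _ = ∑ t : Fin 5, _
      rw [Fin.sum_univ_five]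
      show (-(C 0 0 * C 2 1) + C 0 1 * C 2 0) - (A 2 0 * B 0 1 + A 2 1 * B 1 1 + A 2 2 * B 2 1) = (((-1 : ℤ)) : R) * (C 0 0) * (C 2 1) + (((1 : ℤ)) : R) * (C 0 1) * (C 2 0) + (((-1 : ℤ)) : R) * (A 2 0) * (B 0 1) + (((-1 : ℤ)) : R) * (A 2 1) * (B 1 1) + (((-1 : ℤ)) : R) * (A 2 2) * (B 2 1)
      push_cast
      ring
    · refine ⟨(26 : Fin 27), ?_⟩
      show _ = ∑ t : Fin 5, _
      rw [Fin.sum_univ_five]
      show (C 0 0 * C 1 1 - C 0 1 * C 1 0) - (A 2 0 * B 0 2 + A 2 1 * B 1 2 + A 2 2 * B 2 2) = (((1 : ℤ)) : R) * (C 0 0) * (C 1 1) + (((-1 : ℤ)) : R) * (C 0 1) * (C 1 0) + (((-1 : ℤ)) : R) * (A 2 0) * (B 0 2) + (((-1 : ℤ)) : R) * (A 2 1) * (B 1 2) + (((-1 : ℤ)) : R) * (A 2 2) * (B 2 2)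
      push_cast
      ring

theorem cayley_rel_aux {W : Type} [AddCommGroup W] (a b c : Fin 3 → W) (m : W)
    (h1 : m = a 0 + a 1 + a 2 - (b 0 + b 1 + b 2))
    (h2 : c 2 = b 0 + b 1 + b 2 - (a 0 + a 1 + a 2 - (b 0 + b 1 + b 2)) - c 0 - c 1)
    (l : Fin 27) (t : Fin 5) :
    cayleyW a b c m (cayleyA l t) + cayleyW a b c m (cayleyB l t)
      + cayleyW a b c m (cayleyE l) = m := by
  fin_cases l
  · fin_cases t
    · show (a 1 - b 1) + (a 2 - b 2) + (a 0 - b 0) = m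
      simp only [h1]
      abel
    · show (a 1 - b 2) + (a 2 - b 1) + (a 0 - b 0) = m
      simp only [h1]
      abel
    · show (b 0 - c 0) + (m + c 0 - a 0) + (a 0 - b 0) = m
      simp only [h1]
      abel
    · show (b 0 - c 1) + (m + c 1 - a 0) + (a 0 - b 0) = m
      simp only [h1]
      abel
    · show (b 0 - c 2) + (m + c 2 - a 0) + (a 0 - b 0) = m
      simp only [h1, h2]
      abel
  · fin_cases t
    · show (a 0 - b 1) + (a 2 - b 2) + (a 1 - b 0) = m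
      simp only [h1]
      abel
    · show (a 0 - b 2) + (a 2 - b 1) + (a 1 - b 0) = m
      simp only [h1]
      abel
    · show (b 0 - c 0) + (m + c 0 - a 1) + (a 1 - b 0) = m
      simp only [h1]
      abel
    · show (b 0 - c 1) + (m + c 1 - a 1) + (a 1 - b 0) = m
      simp only [h1]
      abel
    · show (b 0 - c 2) + (m + c 2 - a 1) + (a 1 - b 0) = m
      simp only [h1, h2]
      abel
  · fin_cases t
    · show (a 0 - b 1) + (a 1 - b 2) + (a 2 - b 0) = m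
      simp only [h1]
      abel
    · show (a 0 - b 2) + (a 1 - b 1) + (a 2 - b 0) = m
      simp only [h1]
      abel
    · show (b 0 - c 0) + (m + c 0 - a 2) + (a 2 - b 0) = m
      simp only [h1]
      abel
    · show (b 0 - c 1) + (m + c 1 - a 2) + (a 2 - b 0) = m
      simp only [h1]
      abel
    · show (b 0 - c 2) + (m + c 2 - a 2) + (a 2 - b 0) = m
      simp only [h1, h2]
      abel
  · fin_cases t
    · show (a 1 - b 0) + (a 2 - b 2) + (a 0 - b 1) = m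
      simp only [h1]
      abel
    · show (a 1 - b 2) + (a 2 - b 0) + (a 0 - b 1) = m
      simp only [h1]
      abel
    · show (b 1 - c 0) + (m + c 0 - a 0) + (a 0 - b 1) = m
      simp only [h1]
      abel
    · show (b 1 - c 1) + (m + c 1 - a 0) + (a 0 - b 1) = m
      simp only [h1]
      abel
    · show (b 1 - c 2) + (m + c 2 - a 0) + (a 0 - b 1) = m
      simp only [h1, h2]
      abel
  · fin_cases t
    · show (a 0 - b 0) + (a 2 - b 2) + (a 1 - b 1) = m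
      simp only [h1]
      abel
    · show (a 0 - b 2) + (a 2 - b 0) + (a 1 - b 1) = m
      simp only [h1]
      abel
    · show (b 1 - c 0) + (m + c 0 - a 1) + (a 1 - b 1) = m
      simp only [h1]
      abel
    · show (b 1 - c 1) + (m + c 1 - a 1) + (a 1 - b 1) = m
      simp only [h1]
      abel
    · show (b 1 - c 2) + (m + c 2 - a 1) + (a 1 - b 1) = m
      simp only [h1, h2]
      abel
  · fin_cases t
    · show (a 0 - b 0) + (a 1 - b 2) + (a 2 - b 1) = m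
      simp only [h1]
      abel
    · show (a 0 - b 2) + (a 1 - b 0) + (a 2 - b 1) = m
      simp only [h1]
      abel
    · show (b 1 - c 0) + (m + c 0 - a 2) + (a 2 - b 1) = m
      simp only [h1]
      abel
    · show (b 1 - c 1) + (m + c 1 - a 2) + (a 2 - b 1) = m
      simp only [h1]
      abel
    · show (b 1 - c 2) + (m + c 2 - a 2) + (a 2 - b 1) = m
      simp only [h1, h2]
      abel
  · fin_cases t
    · show (a 1 - b 0) + (a 2 - b 1) + (a 0 - b 2) = m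
      simp only [h1]
      abel
    · show (a 1 - b 1) + (a 2 - b 0) + (a 0 - b 2) = m
      simp only [h1]
      abel
    · show (b 2 - c 0) + (m + c 0 - a 0) + (a 0 - b 2) = m
      simp only [h1]
      abel
    · show (b 2 - c 1) + (m + c 1 - a 0) + (a 0 - b 2) = m
      simp only [h1]
      abel
    · show (b 2 - c 2) + (m + c 2 - a 0) + (a 0 - b 2) = m
      simp only [h1, h2]
      abel
  · fin_cases t
    · show (a 0 - b 0) + (a 2 - b 1) + (a 1 - b 2) = m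
      simp only [h1]
      abel
    · show (a 0 - b 1) + (a 2 - b 0) + (a 1 - b 2) = m
      simp only [h1]
      abel
    · show (b 2 - c 0) + (m + c 0 - a 1) + (a 1 - b 2) = m
      simp only [h1]
      abel
    · show (b 2 - c 1) + (m + c 1 - a 1) + (a 1 - b 2) = m
      simp only [h1]
      abel
    · show (b 2 - c 2) + (m + c 2 - a 1) + (a 1 - b 2) = m
      simp only [h1, h2]
      abel
  · fin_cases t
    · show (a 0 - b 0) + (a 1 - b 1) + (a 2 - b 2) = m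
      simp only [h1]
      abel
    · show (a 0 - b 1) + (a 1 - b 0) + (a 2 - b 2) = m
      simp only [h1]
      abel
    · show (b 2 - c 0) + (m + c 0 - a 2) + (a 2 - b 2) = m
      simp only [h1]
      abel
    · show (b 2 - c 1) + (m + c 1 - a 2) + (a 2 - b 2) = m
      simp only [h1]
      abel
    · show (b 2 - c 2) + (m + c 2 - a 2) + (a 2 - b 2) = m
      simp only [h1, h2]
      abel
  · fin_cases t
    · show (b 1 - c 1) + (b 2 - c 2) + (b 0 - c 0) = m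
      simp only [h1, h2]
      abel
    · show (b 1 - c 2) + (b 2 - c 1) + (b 0 - c 0) = m
      simp only [h1, h2]
      abel
    · show (m + c 0 - a 0) + (a 0 - b 0) + (b 0 - c 0) = m
      simp only [h1]
      abel
    · show (m + c 0 - a 1) + (a 1 - b 0) + (b 0 - c 0) = m
      simp only [h1]
      abel
    · show (m + c 0 - a 2) + (a 2 - b 0) + (b 0 - c 0) = m
      simp only [h1]
      abel
  · fin_cases t
    · show (b 0 - c 1) + (b 2 - c 2) + (b 1 - c 0) = m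
      simp only [h1, h2]
      abel
    · show (b 0 - c 2) + (b 2 - c 1) + (b 1 - c 0) = m
      simp only [h1, h2]
      abel
    · show (m + c 0 - a 0) + (a 0 - b 1) + (b 1 - c 0) = m
      simp only [h1]
      abel
    · show (m + c 0 - a 1) + (a 1 - b 1) + (b 1 - c 0) = m
      simp only [h1]
      abel
    · show (m + c 0 - a 2) + (a 2 - b 1) + (b 1 - c 0) = m
      simp only [h1]
      abel
  · fin_cases t
    · show (b 0 - c 1) + (b 1 - c 2) + (b 2 - c 0) = m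
      simp only [h1, h2]
      abel
    · show (b 0 - c 2) + (b 1 - c 1) + (b 2 - c 0) = m
      simp only [h1, h2]
      abel
    · show (m + c 0 - a 0) + (a 0 - b 2) + (b 2 - c 0) = m
      simp only [h1]
      abel
    · show (m + c 0 - a 1) + (a 1 - b 2) + (b 2 - c 0) = m
      simp only [h1]
      abel
    · show (m + c 0 - a 2) + (a 2 - b 2) + (b 2 - c 0) = m
      simp only [h1]
      abel
  · fin_cases t
    · show (b 1 - c 0) + (b 2 - c 2) + (b 0 - c 1) = m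
      simp only [h1, h2]
      abel
    · show (b 1 - c 2) + (b 2 - c 0) + (b 0 - c 1) = m
      simp only [h1, h2]
      abel
    · show (m + c 1 - a 0) + (a 0 - b 0) + (b 0 - c 1) = m
      simp only [h1]
      abel
    · show (m + c 1 - a 1) + (a 1 - b 0) + (b 0 - c 1) = m
      simp only [h1]
      abel
    · show (m + c 1 - a 2) + (a 2 - b 0) + (b 0 - c 1) = m
      simp only [h1]
      abel
  · fin_cases t
    · show (b 0 - c 0) + (b 2 - c 2) + (b 1 - c 1) = m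
      simp only [h1, h2]
      abel
    · show (b 0 - c 2) + (b 2 - c 0) + (b 1 - c 1) = m
      simp only [h1, h2]
      abel
    · show (m + c 1 - a 0) + (a 0 - b 1) + (b 1 - c 1) = m
      simp only [h1]
      abel
    · show (m + c 1 - a 1) + (a 1 - b 1) + (b 1 - c 1) = m
      simp only [h1]
      abel
    · show (m + c 1 - a 2) + (a 2 - b 1) + (b 1 - c 1) = m
      simp only [h1]
      abel
  · fin_cases t
    · show (b 0 - c 0) + (b 1 - c 2) + (b 2 - c 1) = m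
      simp only [h1, h2]
      abel
    · show (b 0 - c 2) + (b 1 - c 0) + (b 2 - c 1) = m
      simp only [h1, h2]
      abel
    · show (m + c 1 - a 0) + (a 0 - b 2) + (b 2 - c 1) = m
      simp only [h1]
      abel
    · show (m + c 1 - a 1) + (a 1 - b 2) + (b 2 - c 1) = m
      simp only [h1]
      abel
    · show (m + c 1 - a 2) + (a 2 - b 2) + (b 2 - c 1) = m
      simp only [h1]
      abel
  · fin_cases t
    · show (b 1 - c 0) + (b 2 - c 1) + (b 0 - c 2) = m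
      simp only [h1, h2]
      abel
    · show (b 1 - c 1) + (b 2 - c 0) + (b 0 - c 2) = m
      simp only [h1, h2]
      abel
    · show (m + c 2 - a 0) + (a 0 - b 0) + (b 0 - c 2) = m
      simp only [h1, h2]
      abel
    · show (m + c 2 - a 1) + (a 1 - b 0) + (b 0 - c 2) = m
      simp only [h1, h2]
      abel
    · show (m + c 2 - a 2) + (a 2 - b 0) + (b 0 - c 2) = m
      simp only [h1, h2]
      abel
  · fin_cases t
    · show (b 0 - c 0) + (b 2 - c 1) + (b 1 - c 2) = m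
      simp only [h1, h2]
      abel
    · show (b 0 - c 1) + (b 2 - c 0) + (b 1 - c 2) = m
      simp only [h1, h2]
      abel
    · show (m + c 2 - a 0) + (a 0 - b 1) + (b 1 - c 2) = m
      simp only [h1, h2]
      abel
    · show (m + c 2 - a 1) + (a 1 - b 1) + (b 1 - c 2) = m
      simp only [h1, h2]
      abel
    · show (m + c 2 - a 2) + (a 2 - b 1) + (b 1 - c 2) = m
      simp only [h1, h2]
      abel
  · fin_cases t
    · show (b 0 - c 0) + (b 1 - c 1) + (b 2 - c 2) = m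
      simp only [h1, h2]
      abel
    · show (b 0 - c 1) + (b 1 - c 0) + (b 2 - c 2) = m
      simp only [h1, h2]
      abel
    · show (m + c 2 - a 0) + (a 0 - b 2) + (b 2 - c 2) = m
      simp only [h1, h2]
      abel
    · show (m + c 2 - a 1) + (a 1 - b 2) + (b 2 - c 2) = m
      simp only [h1, h2]
      abel
    · show (m + c 2 - a 2) + (a 2 - b 2) + (b 2 - c 2) = m
      simp only [h1, h2]
      abel
  · fin_cases t
    · show (m + c 1 - a 1) + (m + c 2 - a 2) + (m + c 0 - a 0) = m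
      simp only [h1, h2]
      abel
    · show (m + c 1 - a 2) + (m + c 2 - a 1) + (m + c 0 - a 0) = m
      simp only [h1, h2]
      abel
    · show (a 0 - b 0) + (b 0 - c 0) + (m + c 0 - a 0) = m
      simp only [h1]
      abel
    · show (a 0 - b 1) + (b 1 - c 0) + (m + c 0 - a 0) = m
      simp only [h1]
      abel
    · show (a 0 - b 2) + (b 2 - c 0) + (m + c 0 - a 0) = m
      simp only [h1]
      abel
  · fin_cases t
    · show (m + c 0 - a 1) + (m + c 2 - a 2) + (m + c 1 - a 0) = m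
      simp only [h1, h2]
      abel
    · show (m + c 0 - a 2) + (m + c 2 - a 1) + (m + c 1 - a 0) = m
      simp only [h1, h2]
      abel
    · show (a 0 - b 0) + (b 0 - c 1) + (m + c 1 - a 0) = m
      simp only [h1]
      abel
    · show (a 0 - b 1) + (b 1 - c 1) + (m + c 1 - a 0) = m
      simp only [h1]
      abel
    · show (a 0 - b 2) + (b 2 - c 1) + (m + c 1 - a 0) = m
      simp only [h1]
      abel
  · fin_cases t
    · show (m + c 0 - a 1) + (m + c 1 - a 2) + (m + c 2 - a 0) = m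
      simp only [h1, h2]
      abel
    · show (m + c 0 - a 2) + (m + c 1 - a 1) + (m + c 2 - a 0) = m
      simp only [h1, h2]
      abel
    · show (a 0 - b 0) + (b 0 - c 2) + (m + c 2 - a 0) = m
      simp only [h1, h2]
      abel
    · show (a 0 - b 1) + (b 1 - c 2) + (m + c 2 - a 0) = m
      simp only [h1, h2]
      abel
    · show (a 0 - b 2) + (b 2 - c 2) + (m + c 2 - a 0) = m
      simp only [h1, h2]
      abel
  · fin_cases t
    · show (m + c 1 - a 0) + (m + c 2 - a 2) + (m + c 0 - a 1) = m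
      simp only [h1, h2]
      abel
    · show (m + c 1 - a 2) + (m + c 2 - a 0) + (m + c 0 - a 1) = m
      simp only [h1, h2]
      abel
    · show (a 1 - b 0) + (b 0 - c 0) + (m + c 0 - a 1) = m
      simp only [h1]
      abel
    · show (a 1 - b 1) + (b 1 - c 0) + (m + c 0 - a 1) = m
      simp only [h1]
      abel
    · show (a 1 - b 2) + (b 2 - c 0) + (m + c 0 - a 1) = m
      simp only [h1]
      abel
  · fin_cases t
    · show (m + c 0 - a 0) + (m + c 2 - a 2) + (m + c 1 - a 1) = m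
      simp only [h1, h2]
      abel
    · show (m + c 0 - a 2) + (m + c 2 - a 0) + (m + c 1 - a 1) = m
      simp only [h1, h2]
      abel
    · show (a 1 - b 0) + (b 0 - c 1) + (m + c 1 - a 1) = m
      simp only [h1]
      abel
    · show (a 1 - b 1) + (b 1 - c 1) + (m + c 1 - a 1) = m
      simp only [h1]
      abel
    · show (a 1 - b 2) + (b 2 - c 1) + (m + c 1 - a 1) = m
      simp only [h1]
      abel
  · fin_cases t
    · show (m + c 0 - a 0) + (m + c 1 - a 2) + (m + c 2 - a 1) = m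
      simp only [h1, h2]
      abel
    · show (m + c 0 - a 2) + (m + c 1 - a 0) + (m + c 2 - a 1) = m
      simp only [h1, h2]
      abel
    · show (a 1 - b 0) + (b 0 - c 2) + (m + c 2 - a 1) = m
      simp only [h1, h2]
      abel
    · show (a 1 - b 1) + (b 1 - c 2) + (m + c 2 - a 1) = m
      simp only [h1, h2]
      abel
    · show (a 1 - b 2) + (b 2 - c 2) + (m + c 2 - a 1) = m
      simp only [h1, h2]
      abel
  · fin_cases t
    · show (m + c 1 - a 0) + (m + c 2 - a 1) + (m + c 0 - a 2) = m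
      simp only [h1, h2]
      abel
    · show (m + c 1 - a 1) + (m + c 2 - a 0) + (m + c 0 - a 2) = m
      simp only [h1, h2]
      abel
    · show (a 2 - b 0) + (b 0 - c 0) + (m + c 0 - a 2) = m
      simp only [h1]
      abel
    · show (a 2 - b 1) + (b 1 - c 0) + (m + c 0 - a 2) = m
      simp only [h1]
      abel
    · show (a 2 - b 2) + (b 2 - c 0) + (m + c 0 - a 2) = m
      simp only [h1]
      abel
  · fin_cases t
    · show (m + c 0 - a 0) + (m + c 2 - a 1) + (m + c 1 - a 2) = m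
      simp only [h1, h2]
      abel
    · show (m + c 0 - a 1) + (m + c 2 - a 0) + (m + c 1 - a 2) = m
      simp only [h1, h2]
      abel
    · show (a 2 - b 0) + (b 0 - c 1) + (m + c 1 - a 2) = m
      simp only [h1]
      abel
    · show (a 2 - b 1) + (b 1 - c 1) + (m + c 1 - a 2) = m
      simp only [h1]
      abel
    · show (a 2 - b 2) + (b 2 - c 1) + (m + c 1 - a 2) = m
      simp only [h1]
      abel
  · fin_cases t
    · show (m + c 0 - a 0) + (m + c 1 - a 1) + (m + c 2 - a 2) = m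
      simp only [h1, h2]
      abel
    · show (m + c 0 - a 1) + (m + c 1 - a 0) + (m + c 2 - a 2) = m
      simp only [h1, h2]
      abel
    · show (a 2 - b 0) + (b 0 - c 2) + (m + c 2 - a 2) = m
      simp only [h1, h2]
      abel
    · show (a 2 - b 1) + (b 1 - c 2) + (m + c 2 - a 2) = m
      simp only [h1, h2]
      abel
    · show (a 2 - b 2) + (b 2 - c 2) + (m + c 2 - a 2) = m
      simp only [h1, h2]
      abel

theorem cayley_rel {W : Type} [AddCommGroup W] (a b c : Fin 3 → W) (m : W)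
    (h1 : ∑ i, a i = m + ∑ i, b i) (h2 : ∑ i, b i = m + ∑ i, c i)
    (l : Fin 27) (t : Fin 5) :
    cayleyW a b c m (cayleyA l t) + cayleyW a b c m (cayleyB l t)
      + cayleyW a b c m (cayleyE l) = m := by
  rw [Fin.sum_univ_three, Fin.sum_univ_three] at h1 h2
  have h3 : m = a 0 + a 1 + a 2 - (b 0 + b 1 + b 2) := by rw [h1]; abel
  refine cayley_rel_aux a b c m h3 ?_ l t
  rw [← h3, h2]
  abel

theorem sum_cayleyW {W : Type} [AddCommGroup W] (a b c : Fin 3 → W) (m : W) :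
    ∑ i, cayleyW a b c m i = 9 • m := by
  have e0 : ∑ i, cayleyW a b c m i = 9 • m := by
    simp only [Fin.sum_univ_succ, Fin.sum_univ_zero]
    show (a 0 - b 0) + ((a 0 - b 1) + ((a 0 - b 2) + ((a 1 - b 0) + ((a 1 - b 1) + ((a 1 - b 2) + ((a 2 - b 0) + ((a 2 - b 1) + ((a 2 - b 2) + ((b 0 - c 0) + ((b 0 - c 1) + ((b 0 - c 2) + ((b 1 - c 0) + ((b 1 - c 1) + ((b 1 - c 2) + ((b 2 - c 0) + ((b 2 - c 1) + ((b 2 - c 2) + ((m + c 0 - a 0) + ((m + c 0 - a 1) + ((m + c 0 - a 2) + ((m + c 1 - a 0) + ((m + c 1 - a 1) + ((m + c 1 - a 2) + ((m + c 2 - a 0) + ((m + c 2 - a 1) + ((m + c 2 - a 2) + 0)))))))))))))))))))))))))) = _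
    abel
  exact e0

end Pool.Agent.Q2.SF
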