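import Pool.Agent.Q2.SF.CayT

/-!
# The Cayley plane format: generic points. Generated.
-/

set_option autoImplicit false

namespace Pool.Agent.Q2.SF

theorem cayley_pt_0 {K : Type} [Field K] (u : Fin 27 → K) (h : u 0 ≠ 0) :
    ∃ y : Fin 27 → K, (∀ j : Fin 27, ¬ cayley.opp (0 : Fin 27) j → y j = u j) ∧
      ∀ l, cayley.val y l = 0 := by
  refine ⟨![u 0, u 1, u 2, u 3, (u 1 * u 3 + u 15 * u 20 + u 16 * u 23 + u 17 * u 26) / u 0, (u 2 * u 3 - u 12 * u 20 - u 13 * u 23 - u 14 * u 26) / u 0, u 6, (u 1 * u 6 - u 15 * u 19 - u 16 * u 22 - u 17 * u 25) / u 0, (u 2 * u 6 + u 12 * u 19 + u 13 * u 22 + u 14 * u 25) / u 0, (u 22 * u 26 - u 23 * u 25 - u 1 * u 12 - u 2 * u 15) / u 0, (-u 19 * u 26 + u 20 * u 25 - u 1 * u 13 - u 2 * u 16) / u 0, (u 19 * u 23 - u 20 * u 22 - u 1 * u 14 - u 2 * u 17) / u 0, u 12, u 13, u 14, u 15, u 16, u 17, (u 13 * u 17 - u 14 * u 16 -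 u 19 * u 3 - u 20 * u 6) / u 0, u 19, u 20, (-u 12 * u 17 + u 14 * u 15 - u 22 * u 3 - u 23 * u 6) / u 0, u 22, u 23, (u 12 * u 16 - u 13 * u 15 - u 25 * u 3 - u 26 * u 6) / u 0, u 25, u 26], ?_, ?_⟩
  · have key : ∀ j : Fin 27, cayley.opp (0 : Fin 27) j ∨ (![u 0, u 1, u 2, u 3, (u 1 * u 3 + u 15 * u 20 + u 16 * u 23 + u 17 * u 26) / u 0, (u 2 * u 3 - u 12 * u 20 - u 13 * u 23 - u 14 * u 26) / u 0, u 6, (u 1 * u 6 - u 15 * u 19 - u 16 * u 22 - u 17 * u 25) / u 0, (u 2 * u 6 + u 12 * u 19 + u 13 * u 22 + u 14 * u 25) / u 0, (u 22 * u 26 - u 23 * u 25 - u 1 * u 12 - u 2 * u 15) / u 0, (-u 19 * u 26 + u 20 * u 25 - u 1 * u 13 - u 2 * u 16) / u 0, (u 19 * u 23 - u 20 * u 22 - u 1 * u 14 - u 2 * u 17) / u 0, u 12, u 13, u 14, u 15, u 16, u 17, (u 13 * u 17 - u 14 * u 16 - u 19 * u 3 - u 20 * u 6) / u 0, u 19, u 20, (-u 12 * u 17 + u 14 * u 15 - u 22 * u 3 - u 23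 * u 6) / u 0, u 22, u 23, (u 12 * u 16 - u 13 * u 15 - u 25 * u 3 - u 26 * u 6) / u 0, u 25, u 26] : Fin 27 → K) j = u j := by
      intro j
      fin_cases j
      · exact Or.inr rfl
      · exact Or.inr rfl
      · exact Or.inr rfl
      · exact Or.inr rfl
      · exact Or.inl ⟨(8 : Fin 27), (0 : Fin 5), Or.inl ⟨rfl, rfl⟩⟩
      · exact Or.inl ⟨(5 : Fin 27), (0 : Fin 5), Or.inl ⟨rfl, rfl⟩⟩
      · exact Or.inr rfl
      · exact Or.inl ⟨(7 : Fin 27), (0 : Fin 5), Or.inl ⟨rfl, rfl⟩⟩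
      · exact Or.inl ⟨(4 : Fin 27), (0 : Fin 5), Or.inl ⟨rfl, rfl⟩⟩
      · exact Or.inl ⟨(18 : Fin 27), (2 : Fin 5), Or.inl ⟨rfl, rfl⟩⟩
      · exact Or.inl ⟨(19 : Fin 27), (2 : Fin 5), Or.inl ⟨rfl, rfl⟩⟩
      · exact Or.inl ⟨(20 : Fin 27), (2 : Fin 5), Or.inl ⟨rfl, rfl⟩⟩
      · exact Or.inr rfl
      · exact Or.inr rfl
      · exact Or.inr rfl
      · exact Or.inr rfl
      · exact Or.inr rfl
      · exact Or.inr rfl
      · exact Or.inl ⟨(9 : Fin 27), (2 : Fin 5), Or.inr ⟨rfl, rfl⟩⟩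
      · exact Or.inr rfl
      · exact Or.inr rfl
      · exact Or.inl ⟨(12 : Fin 27), (2 : Fin 5), Or.inr ⟨rfl, rfl⟩⟩
      · exact Or.inr rfl
      · exact Or.inr rfl
      · exact Or.inl ⟨(15 : Fin 27), (2 : Fin 5), Or.inr ⟨rfl, rfl⟩⟩
      · exact Or.inr rfl
      · exact Or.inr rfl
    intro j hj
    exact (key j).resolve_left hj
  · have hl : ∀ l : Fin 27, cayley.val (![u 0, u 1, u 2, u 3, (u 1 * u 3 + u 15 * u 20 + u 16 * u 23 + u 17 * u 26) / u 0, (u 2 * u 3 - u 12 * u 20 - u 13 * u 23 - u 14 * u 26) / u 0, u 6, (u 1 * u 6 - u 15 * u 19 - u 16 * u 22 - u 17 * u 25) / u 0, (u 2 * u 6 + u 12 * u 19 + u 13 * u 22 + u 14 * u 25) / u 0, (u 22 * u 26 - u 23 * u 25 - u 1 * u 12 - u 2 * u 15) / u 0, (-u 19 * u 26 + u 20 * u 25 - u 1 * u 13 - u 2 * u 16) / u 0, (u 19 * u 23 - u 20 * u 22 - u 1 * u 14 - u 2 * u 17) / u 0, u 12, u 13, u 14, u 15, u 16, u 17, (u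 13 * u 17 - u 14 * u 16 - u 19 * u 3 - u 20 * u 6) / u 0, u 19, u 20, (-u 12 * u 17 + u 14 * u 15 - u 22 * u 3 - u 23 * u 6) / u 0, u 22, u 23, (u 12 * u 16 - u 13 * u 15 - u 25 * u 3 - u 26 * u 6) / u 0, u 25, u 26] : Fin 27 → K) l = 0 := by
      intro l
      unfold QF.val
      fin_cases l
      · show ∑ t : Fin 5, _ = _
        rw [Fin.sum_univ_five]
        show ((1 : ℤ) : K) * ((u 1 * u 3 + u 15 * u 20 + u 16 * u 23 + u 17 * u 26) / u 0) * ((u 2 * u 6 + u 12 * u 19 + u 13 * u 22 + u 14 * u 25) / u 0) + ((-1 : ℤ) : K) * ((u 2 * u 3 - u 12 * u 20 - u 13 * u 23 - u 14 * u 26) / u 0) * ((u 1 * u 6 - u 15 * u 19 - u 16 * u 22 - u 17 * u 25) / u 0) + ((-1 : ℤ) : K) * ((u 22 * u 26 - u 23 * u 25 - u 1 * u 12 - u 2 * u 15) / u 0) * ((u 13 * u 17 - u 14 * u 16 - u 19 * u 3 - u 20 * u 6) / u 0) + ((-1 : ℤ) : K) * ((-u 19 * u 26 + u 20 * u 25 - u 1 * u 13 - u 2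 * u 16) / u 0) * ((-u 12 * u 17 + u 14 * u 15 - u 22 * u 3 - u 23 * u 6) / u 0) + ((-1 : ℤ) : K) * ((u 19 * u 23 - u 20 * u 22 - u 1 * u 14 - u 2 * u 17) / u 0) * ((u 12 * u 16 - u 13 * u 15 - u 25 * u 3 - u 26 * u 6) / u 0) = 0
        push_cast
        field_simp
        ring
      · show ∑ t : Fin 5, _ = _
        rw [Fin.sum_univ_five]
        show ((-1 : ℤ) : K) * (u 1) * ((u 2 * u 6 + u 12 * u 19 + u 13 * u 22 + u 14 * u 25) / u 0) + ((1 : ℤ) : K) * (u 2) * ((u 1 * u 6 - u 15 * u 19 - u 16 * u 22 - u 17 * u 25) / u 0) + ((-1 : ℤ) : K) * ((u 22 * u 26 - u 23 * u 25 - u 1 * u 12 - u 2 * u 15) / u 0) * (u 19) + ((-1 : ℤ) : K) * ((-u 19 * u 26 + u 20 * u 25 - u 1 * u 13 - u 2 * u 16) / u 0) * (u 22) + ((-1 : ℤ) : K) * ((u 19 * u 23 - u 20 * u 22 - u 1 * u 14 - u 2 * u 17) / u 0) * (u 25) = 0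
        push_cast
        field_simp
        ring
      · show ∑ t : Fin 5, _ = _
        rw [Fin.sum_univ_five]
        show ((1 : ℤ) : K) * (u 1) * ((u 2 * u 3 - u 12 * u 20 - u 13 * u 23 - u 14 * u 26) / u 0) + ((-1 : ℤ) : K) * (u 2) * ((u 1 * u 3 + u 15 * u 20 + u 16 * u 23 + u 17 * u 26) / u 0) + ((-1 : ℤ) : K) * ((u 22 * u 26 - u 23 * u 25 - u 1 * u 12 - u 2 * u 15) / u 0) * (u 20) + ((-1 : ℤ) : K) * ((-u 19 * u 26 + u 20 * u 25 - u 1 * u 13 - u 2 * u 16) / u 0) * (u 23) + ((-1 : ℤ) : K) * ((u 19 * u 23 - u 20 * u 22 - u 1 * u 14 - u 2 * u 17) / u 0) * (u 26) = 0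
        push_cast
        field_simp
        ring
      · show ∑ t : Fin 5, _ = _
        rw [Fin.sum_univ_five]
        show ((-1 : ℤ) : K) * (u 3) * ((u 2 * u 6 + u 12 * u 19 + u 13 * u 22 + u 14 * u 25) / u 0) + ((1 : ℤ) : K) * ((u 2 * u 3 - u 12 * u 20 - u 13 * u 23 - u 14 * u 26) / u 0) * (u 6) + ((-1 : ℤ) : K) * (u 12) * ((u 13 * u 17 - u 14 * u 16 - u 19 * u 3 - u 20 * u 6) / u 0) + ((-1 : ℤ) : K) * (u 13) * ((-u 12 * u 17 + u 14 * u 15 - u 22 * u 3 - u 23 * u 6) / u 0) + ((-1 : ℤ) : K) * (u 14) * ((u 12 * u 16 - u 13 * u 15 - u 25 * u 3 - u 26 * u 6) / u 0) = 0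
        push_cast
        field_simp
        ring
      · show ∑ t : Fin 5, _ = _
        rw [Fin.sum_univ_five]
        show ((1 : ℤ) : K) * (u 0) * ((u 2 * u 6 + u 12 * u 19 + u 13 * u 22 + u 14 * u 25) / u 0) + ((-1 : ℤ) : K) * (u 2) * (u 6) + ((-1 : ℤ) : K) * (u 12) * (u 19) + ((-1 : ℤ) : K) * (u 13) * (u 22) + ((-1 : ℤ) : K) * (u 14) * (u 25) = 0
        push_cast
        field_simp
        ring
      · show ∑ t : Fin 5, _ = _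
        rw [Fin.sum_univ_five]
        show ((-1 : ℤ) : K) * (u 0) * ((u 2 * u 3 - u 12 * u 20 - u 13 * u 23 - u 14 * u 26) / u 0) + ((1 : ℤ) : K) * (u 2) * (u 3) + ((-1 : ℤ) : K) * (u 12) * (u 20) + ((-1 : ℤ) : K) * (u 13) * (u 23) + ((-1 : ℤ) : K) * (u 14) * (u 26) = 0
        push_cast
        field_simp
        ring
      · show ∑ t : Fin 5, _ = _
        rw [Fin.sum_univ_five]
        show ((1 : ℤ) : K) * (u 3) * ((u 1 * u 6 - u 15 * u 19 - u 16 * u 22 - u 17 * u 25) / u 0) + ((-1 : ℤ) : K) * ((u 1 * u 3 + u 15 * u 20 + u 16 * u 23 + u 17 * u 26) / u 0) * (u 6) + ((-1 : ℤ) : K) * (u 15) * ((u 13 * u 17 - u 14 * u 16 - u 19 * u 3 - u 20 * u 6) / u 0) + ((-1 : ℤ) : K) * (u 16) * ((-u 12 * u 17 + u 14 * u 15 - u 22 * u 3 - u 23 * u 6) / u 0) + ((-1 : ℤ) : K) * (u 17) * ((u 12 * u 16 - u 13 * u 15 - u 25 * u 3 - u 26 * u 6) / u 0) = 0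
        push_cast
        field_simp
        ring
      · show ∑ t : Fin 5, _ = _
        rw [Fin.sum_univ_five]
        show ((-1 : ℤ) : K) * (u 0) * ((u 1 * u 6 - u 15 * u 19 - u 16 * u 22 - u 17 * u 25) / u 0) + ((1 : ℤ) : K) * (u 1) * (u 6) + ((-1 : ℤ) : K) * (u 15) * (u 19) + ((-1 : ℤ) : K) * (u 16) * (u 22) + ((-1 : ℤ) : K) * (u 17) * (u 25) = 0
        push_cast
        field_simp
        ring
      · show ∑ t : Fin 5, _ = _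
        rw [Fin.sum_univ_five]
        show ((1 : ℤ) : K) * (u 0) * ((u 1 * u 3 + u 15 * u 20 + u 16 * u 23 + u 17 * u 26) / u 0) + ((-1 : ℤ) : K) * (u 1) * (u 3) + ((-1 : ℤ) : K) * (u 15) * (u 20) + ((-1 : ℤ) : K) * (u 16) * (u 23) + ((-1 : ℤ) : K) * (u 17) * (u 26) = 0
        push_cast
        field_simp
        ring
      · show ∑ t : Fin 5, _ = _
        rw [Fin.sum_univ_five]
        show ((1 : ℤ) : K) * (u 13) * (u 17) + ((-1 : ℤ) : K) * (u 14) * (u 16) + ((-1 : ℤ) : K) * ((u 13 * u 17 - u 14 * u 16 - u 19 * u 3 - u 20 * u 6) / u 0) * (u 0) + ((-1 : ℤ) : K) * (u 19) * (u 3) + ((-1 : ℤ) : K) * (u 20) * (u 6) = 0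
        push_cast
        field_simp
        ring
      · show ∑ t : Fin 5, _ = _
        rw [Fin.sum_univ_five]
        show ((-1 : ℤ) : K) * ((-u 19 * u 26 + u 20 * u 25 - u 1 * u 13 - u 2 * u 16) / u 0) * (u 17) + ((1 : ℤ) : K) * ((u 19 * u 23 - u 20 * u 22 - u 1 * u 14 - u 2 * u 17) / u 0) * (u 16) + ((-1 : ℤ) : K) * ((u 13 * u 17 - u 14 * u 16 - u 19 * u 3 - u 20 * u 6) / u 0) * (u 1) + ((-1 : ℤ) : K) * (u 19) * ((u 1 * u 3 + u 15 * u 20 + u 16 * u 23 + u 17 * u 26) / u 0) + ((-1 : ℤ) : K) * (u 20) * ((u 1 * u 6 - u 15 * u 19 - u 16 * u 22 - u 17 * u 25) / u 0) = 0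
        push_cast
        field_simp
        ring
      · show ∑ t : Fin 5, _ = _
        rw [Fin.sum_univ_five]
        show ((1 : ℤ) : K) * ((-u 19 * u 26 + u 20 * u 25 - u 1 * u 13 - u 2 * u 16) / u 0) * (u 14) + ((-1 : ℤ) : K) * ((u 19 * u 23 - u 20 * u 22 - u 1 * u 14 - u 2 * u 17) / u 0) * (u 13) + ((-1 : ℤ) : K) * ((u 13 * u 17 - u 14 * u 16 - u 19 * u 3 - u 20 * u 6) / u 0) * (u 2) + ((-1 : ℤ) : K) * (u 19) * ((u 2 * u 3 - u 12 * u 20 - u 13 * u 23 - u 14 * u 26) / u 0) + ((-1 : ℤ) : K) * (u 20) * ((u 2 * u 6 + u 12 * u 19 + u 13 * u 22 + u 14 * u 25) / u 0) = 0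
        push_cast
        field_simp
        ring
      · show ∑ t : Fin 5, _ = _
        rw [Fin.sum_univ_five]
        show ((-1 : ℤ) : K) * (u 12) * (u 17) + ((1 : ℤ) : K) * (u 14) * (u 15) + ((-1 : ℤ) : K) * ((-u 12 * u 17 + u 14 * u 15 - u 22 * u 3 - u 23 * u 6) / u 0) * (u 0) + ((-1 : ℤ) : K) * (u 22) * (u 3) + ((-1 : ℤ) : K) * (u 23) * (u 6) = 0
        push_cast
        field_simp
        ring
      · show ∑ t : Fin 5, _ = _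
        rw [Fin.sum_univ_five]
        show ((1 : ℤ) : K) * ((u 22 * u 26 - u 23 * u 25 - u 1 * u 12 - u 2 * u 15) / u 0) * (u 17) + ((-1 : ℤ) : K) * ((u 19 * u 23 - u 20 * u 22 - u 1 * u 14 - u 2 * u 17) / u 0) * (u 15) + ((-1 : ℤ) : K) * ((-u 12 * u 17 + u 14 * u 15 - u 22 * u 3 - u 23 * u 6) / u 0) * (u 1) + ((-1 : ℤ) : K) * (u 22) * ((u 1 * u 3 + u 15 * u 20 + u 16 * u 23 + u 17 * u 26) / u 0) + ((-1 : ℤ) : K) * (u 23) * ((u 1 * u 6 - u 15 * u 19 - u 16 * u 22 - u 17 * u 25) / u 0) = 0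
        push_cast
        field_simp
        ring
      · show ∑ t : Fin 5, _ = _
        rw [Fin.sum_univ_five]
        show ((-1 : ℤ) : K) * ((u 22 * u 26 - u 23 * u 25 - u 1 * u 12 - u 2 * u 15) / u 0) * (u 14) + ((1 : ℤ) : K) * ((u 19 * u 23 - u 20 * u 22 - u 1 * u 14 - u 2 * u 17) / u 0) * (u 12) + ((-1 : ℤ) : K) * ((-u 12 * u 17 + u 14 * u 15 - u 22 * u 3 - u 23 * u 6) / u 0) * (u 2) + ((-1 : ℤ) : K) * (u 22) * ((u 2 * u 3 - u 12 * u 20 - u 13 * u 23 - u 14 * u 26) / u 0) + ((-1 : ℤ) : K) * (u 23) * ((u 2 * u 6 + u 12 * u 19 + u 13 * u 22 + u 14 * u 25) / u 0) = 0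
        push_cast
        field_simp
        ring
      · show ∑ t : Fin 5, _ = _
        rw [Fin.sum_univ_five]
        show ((1 : ℤ) : K) * (u 12) * (u 16) + ((-1 : ℤ) : K) * (u 13) * (u 15) + ((-1 : ℤ) : K) * ((u 12 * u 16 - u 13 * u 15 - u 25 * u 3 - u 26 * u 6) / u 0) * (u 0) + ((-1 : ℤ) : K) * (u 25) * (u 3) + ((-1 : ℤ) : K) * (u 26) * (u 6) = 0
        push_cast
        field_simp
        ring
      · show ∑ t : Fin 5, _ = _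
        rw [Fin.sum_univ_five]
        show ((-1 : ℤ) : K) * ((u 22 * u 26 - u 23 * u 25 - u 1 * u 12 - u 2 * u 15) / u 0) * (u 16) + ((1 : ℤ) : K) * ((-u 19 * u 26 + u 20 * u 25 - u 1 * u 13 - u 2 * u 16) / u 0) * (u 15) + ((-1 : ℤ) : K) * ((u 12 * u 16 - u 13 * u 15 - u 25 * u 3 - u 26 * u 6) / u 0) * (u 1) + ((-1 : ℤ) : K) * (u 25) * ((u 1 * u 3 + u 15 * u 20 + u 16 * u 23 + u 17 * u 26) / u 0) + ((-1 : ℤ) : K) * (u 26) * ((u 1 * u 6 - u 15 * u 19 - u 16 * u 22 - u 17 * u 25) / u 0) = 0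
        push_cast
        field_simp
        ring
      · show ∑ t : Fin 5, _ = _
        rw [Fin.sum_univ_five]
        show ((1 : ℤ) : K) * ((u 22 * u 26 - u 23 * u 25 - u 1 * u 12 - u 2 * u 15) / u 0) * (u 13) + ((-1 : ℤ) : K) * ((-u 19 * u 26 + u 20 * u 25 - u 1 * u 13 - u 2 * u 16) / u 0) * (u 12) + ((-1 : ℤ) : K) * ((u 12 * u 16 - u 13 * u 15 - u 25 * u 3 - u 26 * u 6) / u 0) * (u 2) + ((-1 : ℤ) : K) * (u 25) * ((u 2 * u 3 - u 12 * u 20 - u 13 * u 23 - u 14 * u 26) / u 0) + ((-1 : ℤ) : K) * (u 26) * ((u 2 * u 6 + u 12 * u 19 + u 13 * u 22 + u 14 * u 25) / u 0) = 0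
        push_cast
        field_simp
        ring
      · show ∑ t : Fin 5, _ = _
        rw [Fin.sum_univ_five]
        show ((1 : ℤ) : K) * (u 22) * (u 26) + ((-1 : ℤ) : K) * (u 23) * (u 25) + ((-1 : ℤ) : K) * (u 0) * ((u 22 * u 26 - u 23 * u 25 - u 1 * u 12 - u 2 * u 15) / u 0) + ((-1 : ℤ) : K) * (u 1) * (u 12) + ((-1 : ℤ) : K) * (u 2) * (u 15) = 0
        push_cast
        field_simp
        ring
      · show ∑ t : Fin 5, _ = _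
        rw [Fin.sum_univ_five]
        show ((-1 : ℤ) : K) * (u 19) * (u 26) + ((1 : ℤ) : K) * (u 20) * (u 25) + ((-1 : ℤ) : K) * (u 0) * ((-u 19 * u 26 + u 20 * u 25 - u 1 * u 13 - u 2 * u 16) / u 0) + ((-1 : ℤ) : K) * (u 1) * (u 13) + ((-1 : ℤ) : K) * (u 2) * (u 16) = 0
        push_cast
        field_simp
        ring
      · show ∑ t : Fin 5, _ = _
        rw [Fin.sum_univ_five]
        show ((1 : ℤ) : K) * (u 19) * (u 23) + ((-1 : ℤ) : K) * (u 20) * (u 22) + ((-1 : ℤ) : K) * (u 0) * ((u 19 * u 23 - u 20 * u 22 - u 1 * u 14 - u 2 * u 17) / u 0) + ((-1 : ℤ) : K) * (u 1) * (u 14) + ((-1 : ℤ) : K) * (u 2) * (u 17) = 0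
        push_cast
        field_simp
        ring
      · show ∑ t : Fin 5, _ = _
        rw [Fin.sum_univ_five]
        show ((-1 : ℤ) : K) * ((-u 12 * u 17 + u 14 * u 15 - u 22 * u 3 - u 23 * u 6) / u 0) * (u 26) + ((1 : ℤ) : K) * (u 23) * ((u 12 * u 16 - u 13 * u 15 - u 25 * u 3 - u 26 * u 6) / u 0) + ((-1 : ℤ) : K) * (u 3) * ((u 22 * u 26 - u 23 * u 25 - u 1 * u 12 - u 2 * u 15) / u 0) + ((-1 : ℤ) : K) * ((u 1 * u 3 + u 15 * u 20 + u 16 * u 23 + u 17 * u 26) / u 0) * (u 12) + ((-1 : ℤ) : K) * ((u 2 * u 3 - u 12 * u 20 - u 13 * u 23 - u 14 * u 26) / u 0) * (u 15) = 0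
        push_cast
        field_simp
        ring
      · show ∑ t : Fin 5, _ = _
        rw [Fin.sum_univ_five]
        show ((1 : ℤ) : K) * ((u 13 * u 17 - u 14 * u 16 - u 19 * u 3 - u 20 * u 6) / u 0) * (u 26) + ((-1 : ℤ) : K) * (u 20) * ((u 12 * u 16 - u 13 * u 15 - u 25 * u 3 - u 26 * u 6) / u 0) + ((-1 : ℤ) : K) * (u 3) * ((-u 19 * u 26 + u 20 * u 25 - u 1 * u 13 - u 2 * u 16) / u 0) + ((-1 : ℤ) : K) * ((u 1 * u 3 + u 15 * u 20 + u 16 * u 23 + u 17 * u 26) / u 0) * (u 13) + ((-1 : ℤ) : K) * ((u 2 * u 3 - u 12 * u 20 - u 13 * u 23 - u 14 * u 26) / u 0) * (u 16) = 0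
        push_cast
        field_simp
        ring
      · show ∑ t : Fin 5, _ = _
        rw [Fin.sum_univ_five]
        show ((-1 : ℤ) : K) * ((u 13 * u 17 - u 14 * u 16 - u 19 * u 3 - u 20 * u 6) / u 0) * (u 23) + ((1 : ℤ) : K) * (u 20) * ((-u 12 * u 17 + u 14 * u 15 - u 22 * u 3 - u 23 * u 6) / u 0) + ((-1 : ℤ) : K) * (u 3) * ((u 19 * u 23 - u 20 * u 22 - u 1 * u 14 - u 2 * u 17) / u 0) + ((-1 : ℤ) : K) * ((u 1 * u 3 + u 15 * u 20 + u 16 * u 23 + u 17 * u 26) / u 0) * (u 14) + ((-1 : ℤ) : K) * ((u 2 * u 3 - u 12 * u 20 - u 13 * u 23 - u 14 * u 26) / u 0) * (u 17) = 0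
        push_cast
        field_simp
        ring
      · show ∑ t : Fin 5, _ = _
        rw [Fin.sum_univ_five]
        show ((1 : ℤ) : K) * ((-u 12 * u 17 + u 14 * u 15 - u 22 * u 3 - u 23 * u 6) / u 0) * (u 25) + ((-1 : ℤ) : K) * (u 22) * ((u 12 * u 16 - u 13 * u 15 - u 25 * u 3 - u 26 * u 6) / u 0) + ((-1 : ℤ) : K) * (u 6) * ((u 22 * u 26 - u 23 * u 25 - u 1 * u 12 - u 2 * u 15) / u 0) + ((-1 : ℤ) : K) * ((u 1 * u 6 - u 15 * u 19 - u 16 * u 22 - u 17 * u 25) / u 0) * (u 12) + ((-1 : ℤ) : K) * ((u 2 * u 6 + u 12 * u 19 + u 13 * u 22 + u 14 * u 25) / u 0) * (u 15) = 0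
        push_cast
        field_simp
        ring
      · show ∑ t : Fin 5, _ = _
        rw [Fin.sum_univ_five]
        show ((-1 : ℤ) : K) * ((u 13 * u 17 - u 14 * u 16 - u 19 * u 3 - u 20 * u 6) / u 0) * (u 25) + ((1 : ℤ) : K) * (u 19) * ((u 12 * u 16 - u 13 * u 15 - u 25 * u 3 - u 26 * u 6) / u 0) + ((-1 : ℤ) : K) * (u 6) * ((-u 19 * u 26 + u 20 * u 25 - u 1 * u 13 - u 2 * u 16) / u 0) + ((-1 : ℤ) : K) * ((u 1 * u 6 - u 15 * u 19 - u 16 * u 22 - u 17 * u 25) / u 0) * (u 13) + ((-1 : ℤ) : K) * ((u 2 * u 6 + u 12 * u 19 + u 13 * u 22 + u 14 * u 25) / u 0) * (u 16) = 0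
        push_cast
        field_simp
        ring
      · show ∑ t : Fin 5, _ = _
        rw [Fin.sum_univ_five]
        show ((1 : ℤ) : K) * ((u 13 * u 17 - u 14 * u 16 - u 19 * u 3 - u 20 * u 6) / u 0) * (u 22) + ((-1 : ℤ) : K) * (u 19) * ((-u 12 * u 17 + u 14 * u 15 - u 22 * u 3 - u 23 * u 6) / u 0) + ((-1 : ℤ) : K) * (u 6) * ((u 19 * u 23 - u 20 * u 22 - u 1 * u 14 - u 2 * u 17) / u 0) + ((-1 : ℤ) : K) * ((u 1 * u 6 - u 15 * u 19 - u 16 * u 22 - u 17 * u 25) / u 0) * (u 14) + ((-1 : ℤ) : K) * ((u 2 * u 6 + u 12 * u 19 + u 13 * u 22 + u 14 * u 25) / u 0) * (u 17) = 0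
        push_cast
        field_simp
        ring
    exact hl

theorem cayley_pt_1 {K : Type} [Field K] (u : Fin 27 → K) (h : u 1 ≠ 0) :
    ∃ y : Fin 27 → K, (∀ j : Fin 27, ¬ cayley.opp (1 : Fin 27) j → y j = u j) ∧
      ∀ l, cayley.val y l = 0 := by
  refine ⟨![u 0, u 1, u 2, (u 0 * u 4 - u 15 * u 20 - u 16 * u 23 - u 17 * u 26) / u 1, u 4, (u 2 * u 4 + u 9 * u 20 + u 10 * u 23 + u 11 * u 26) / u 1, (u 0 * u 7 + u 15 * u 19 + u 16 * u 22 + u 17 * u 25) / u 1, u 7, (u 2 * u 7 - u 9 * u 19 - u 10 * u 22 - u 11 * u 25) / u 1, u 9, u 10, u 11, (u 22 * u 26 - u 23 * u 25 - u 0 * u 9 - u 2 * u 15) / u 1, (-u 19 * u 26 + u 20 * u 25 - u 0 * u 10 - u 2 * u 16) / u 1, (u 19 * u 23 - u 20 * u 22 - u 0 * u 11 - u 2 * u 17) / u 1, u 15, u 16, u 17, (-u 10 * u 17 + u 11 * u 16 - u 19 * u 4 - u 20 * u 7) / u 1, u 19, u 20, (u 9 * u 17 - u 11 * u 15 - u 22 * u 4 - u 23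 * u 7) / u 1, u 22, u 23, (-u 9 * u 16 + u 10 * u 15 - u 25 * u 4 - u 26 * u 7) / u 1, u 25, u 26], ?_, ?_⟩
  · have key : ∀ j : Fin 27, cayley.opp (1 : Fin 27) j ∨ (![u 0, u 1, u 2, (u 0 * u 4 - u 15 * u 20 - u 16 * u 23 - u 17 * u 26) / u 1, u 4, (u 2 * u 4 + u 9 * u 20 + u 10 * u 23 + u 11 * u 26) / u 1, (u 0 * u 7 + u 15 * u 19 + u 16 * u 22 + u 17 * u 25) / u 1, u 7, (u 2 * u 7 - u 9 * u 19 - u 10 * u 22 - u 11 * u 25) / u 1, u 9, u 10, u 11, (u 22 * u 26 - u 23 * u 25 - u 0 * u 9 - u 2 * u 15) / u 1, (-u 19 * u 26 + u 20 * u 25 - u 0 * u 10 - u 2 * u 16) / u 1, (u 19 * u 23 - u 20 * u 22 - u 0 * u 11 - u 2 * u 17) / u 1, u 15, u 16, u 17, (-u 10 * u 17 + u 11 * u 16 - u 19 * u 4 - u 20 * u 7) / u 1, u 19, u 20, (u 9 * u 17 - u 11 * u 15 - u 22 * u 4 - u 23 * u 7) / u 1, u 22, u 23, (-u 9 * u 16 + u 10 * u 15 - u 25 * u 4 - u 26 * u 7) / u 1, u 25, u 26]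 : Fin 27 → K) j = u j := by
      intro j
      fin_cases j
      · exact Or.inr rfl
      · exact Or.inr rfl
      · exact Or.inr rfl
      · exact Or.inl ⟨(8 : Fin 27), (1 : Fin 5), Or.inl ⟨rfl, rfl⟩⟩
      · exact Or.inr rfl
      · exact Or.inl ⟨(2 : Fin 27), (0 : Fin 5), Or.inl ⟨rfl, rfl⟩⟩
      · exact Or.inl ⟨(7 : Fin 27), (1 : Fin 5), Or.inl ⟨rfl, rfl⟩⟩
      · exact Or.inr rfl
      · exact Or.inl ⟨(1 : Fin 27), (0 : Fin 5), Or.inl ⟨rfl, rfl⟩⟩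
      · exact Or.inr rfl
      · exact Or.inr rfl
      · exact Or.inr rfl
      · exact Or.inl ⟨(18 : Fin 27), (3 : Fin 5), Or.inl ⟨rfl, rfl⟩⟩
      · exact Or.inl ⟨(19 : Fin 27), (3 : Fin 5), Or.inl ⟨rfl, rfl⟩⟩
      · exact Or.inl ⟨(20 : Fin 27), (3 : Fin 5), Or.inl ⟨rfl, rfl⟩⟩
      · exact Or.inr rfl
      · exact Or.inr rfl
      · exact Or.inr rfl
      · exact Or.inl ⟨(10 : Fin 27), (2 : Fin 5), Or.inr ⟨rfl, rfl⟩⟩
      · exact Or.inr rfl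
      · exact Or.inr rfl
      · exact Or.inl ⟨(13 : Fin 27), (2 : Fin 5), Or.inr ⟨rfl, rfl⟩⟩
      · exact Or.inr rfl
      · exact Or.inr rfl
      · exact Or.inl ⟨(16 : Fin 27), (2 : Fin 5), Or.inr ⟨rfl, rfl⟩⟩
      · exact Or.inr rfl
      · exact Or.inr rfl
    intro j hj
    exact (key j).resolve_left hj
  · have hl : ∀ l : Fin 27, cayley.val (![u 0, u 1, u 2, (u 0 * u 4 - u 15 * u 20 - u 16 * u 23 - u 17 * u 26) / u 1, u 4, (u 2 * u 4 + u 9 * u 20 + u 10 * u 23 + u 11 * u 26) / u 1, (u 0 * u 7 + u 15 * u 19 + u 16 * u 22 + u 17 * u 25) / u 1, u 7, (u 2 * u 7 - u 9 * u 19 - u 10 * u 22 - u 11 * u 25) / u 1, u 9, u 10, u 11, (u 22 * u 26 - u 23 * u 25 - u 0 * u 9 - u 2 * u 15) / u 1, (-u 19 * u 26 + u 20 * u 25 - u 0 * u 10 - u 2 * u 16) / u 1, (u 19 * u 23 - u 20 * u 22 - u 0 * u 11 - u 2 * u 17) / u 1, u 15, u 16, u 17, (-u 10 * u 17 + u 11 * u 16 - u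 19 * u 4 - u 20 * u 7) / u 1, u 19, u 20, (u 9 * u 17 - u 11 * u 15 - u 22 * u 4 - u 23 * u 7) / u 1, u 22, u 23, (-u 9 * u 16 + u 10 * u 15 - u 25 * u 4 - u 26 * u 7) / u 1, u 25, u 26] : Fin 27 → K) l = 0 := by
      intro l
      unfold QF.val
      fin_cases l
      · show ∑ t : Fin 5, _ = _
        rw [Fin.sum_univ_five]
        show ((1 : ℤ) : K) * (u 4) * ((u 2 * u 7 - u 9 * u 19 - u 10 * u 22 - u 11 * u 25) / u 1) + ((-1 : ℤ) : K) * ((u 2 * u 4 + u 9 * u 20 + u 10 * u 23 + u 11 * u 26) / u 1) * (u 7) + ((-1 : ℤ) : K) * (u 9) * ((-u 10 * u 17 + u 11 * u 16 - u 19 * u 4 - u 20 * u 7) / u 1) + ((-1 : ℤ) : K) * (u 10) * ((u 9 * u 17 - u 11 * u 15 - u 22 * u 4 - u 23 * u 7) / u 1) + ((-1 : ℤ) : K) * (u 11) * ((-u 9 * u 16 + u 10 * u 15 - u 25 * u 4 - u 26 * u 7) / u 1) = 0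
        push_cast
        field_simp
        ring
      · show ∑ t : Fin 5, _ = _
        rw [Fin.sum_univ_five]
        show ((-1 : ℤ) : K) * (u 1) * ((u 2 * u 7 - u 9 * u 19 - u 10 * u 22 - u 11 * u 25) / u 1) + ((1 : ℤ) : K) * (u 2) * (u 7) + ((-1 : ℤ) : K) * (u 9) * (u 19) + ((-1 : ℤ) : K) * (u 10) * (u 22) + ((-1 : ℤ) : K) * (u 11) * (u 25) = 0
        push_cast
        field_simp
        ring
      · show ∑ t : Fin 5, _ = _
        rw [Fin.sum_univ_five]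
        show ((1 : ℤ) : K) * (u 1) * ((u 2 * u 4 + u 9 * u 20 + u 10 * u 23 + u 11 * u 26) / u 1) + ((-1 : ℤ) : K) * (u 2) * (u 4) + ((-1 : ℤ) : K) * (u 9) * (u 20) + ((-1 : ℤ) : K) * (u 10) * (u 23) + ((-1 : ℤ) : K) * (u 11) * (u 26) = 0
        push_cast
        field_simp
        ring
      · show ∑ t : Fin 5, _ = _
        rw [Fin.sum_univ_five]
        show ((-1 : ℤ) : K) * ((u 0 * u 4 - u 15 * u 20 - u 16 * u 23 - u 17 * u 26) / u 1) * ((u 2 * u 7 - u 9 * u 19 - u 10 * u 22 - u 11 * u 25) / u 1) + ((1 : ℤ) : K) * ((u 2 * u 4 + u 9 * u 20 + u 10 * u 23 + u 11 * u 26) / u 1) * ((u 0 * u 7 + u 15 * u 19 + u 16 * u 22 + u 17 * u 25) / u 1) + ((-1 : ℤ) : K) * ((u 22 * u 26 - u 23 * u 25 - u 0 * u 9 - u 2 * u 15) / u 1) * ((-u 10 * u 17 + u 11 * u 16 - u 19 * u 4 - u 20 * u 7) / u 1) + ((-1 : ℤ) : K) * ((-u 19 * u 26 + u 20 * u 25 - u 0 * u 10 - u 2 * u 16)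 / u 1) * ((u 9 * u 17 - u 11 * u 15 - u 22 * u 4 - u 23 * u 7) / u 1) + ((-1 : ℤ) : K) * ((u 19 * u 23 - u 20 * u 22 - u 0 * u 11 - u 2 * u 17) / u 1) * ((-u 9 * u 16 + u 10 * u 15 - u 25 * u 4 - u 26 * u 7) / u 1) = 0
        push_cast
        field_simp
        ring
      · show ∑ t : Fin 5, _ = _
        rw [Fin.sum_univ_five]
        show ((1 : ℤ) : K) * (u 0) * ((u 2 * u 7 - u 9 * u 19 - u 10 * u 22 - u 11 * u 25) / u 1) + ((-1 : ℤ) : K) * (u 2) * ((u 0 * u 7 + u 15 * u 19 + u 16 * u 22 + u 17 * u 25) / u 1) + ((-1 : ℤ) : K) * ((u 22 * u 26 - u 23 * u 25 - u 0 * u 9 - u 2 * u 15) / u 1) * (u 19) + ((-1 : ℤ) : K) * ((-u 19 * u 26 + u 20 * u 25 - u 0 * u 10 - u 2 * u 16) / u 1) * (u 22) + ((-1 : ℤ) : K) * ((u 19 * u 23 - u 20 * u 22 - u 0 * u 11 - u 2 * u 17) / u 1) * (u 25) = 0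
        push_cast
        field_simp
        ring
      · show ∑ t : Fin 5, _ = _
        rw [Fin.sum_univ_five]
        show ((-1 : ℤ) : K) * (u 0) * ((u 2 * u 4 + u 9 * u 20 + u 10 * u 23 + u 11 * u 26) / u 1) + ((1 : ℤ) : K) * (u 2) * ((u 0 * u 4 - u 15 * u 20 - u 16 * u 23 - u 17 * u 26) / u 1) + ((-1 : ℤ) : K) * ((u 22 * u 26 - u 23 * u 25 - u 0 * u 9 - u 2 * u 15) / u 1) * (u 20) + ((-1 : ℤ) : K) * ((-u 19 * u 26 + u 20 * u 25 - u 0 * u 10 - u 2 * u 16) / u 1) * (u 23) + ((-1 : ℤ) : K) * ((u 19 * u 23 - u 20 * u 22 - u 0 * u 11 - u 2 * u 17) / u 1) * (u 26) = 0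
        push_cast
        field_simp
        ring
      · show ∑ t : Fin 5, _ = _
        rw [Fin.sum_univ_five]
        show ((1 : ℤ) : K) * ((u 0 * u 4 - u 15 * u 20 - u 16 * u 23 - u 17 * u 26) / u 1) * (u 7) + ((-1 : ℤ) : K) * (u 4) * ((u 0 * u 7 + u 15 * u 19 + u 16 * u 22 + u 17 * u 25) / u 1) + ((-1 : ℤ) : K) * (u 15) * ((-u 10 * u 17 + u 11 * u 16 - u 19 * u 4 - u 20 * u 7) / u 1) + ((-1 : ℤ) : K) * (u 16) * ((u 9 * u 17 - u 11 * u 15 - u 22 * u 4 - u 23 * u 7) / u 1) + ((-1 : ℤ) : K) * (u 17) * ((-u 9 * u 16 + u 10 * u 15 - u 25 * u 4 - u 26 * u 7) / u 1) = 0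
        push_cast
        field_simp
        ring
      · show ∑ t : Fin 5, _ = _
        rw [Fin.sum_univ_five]
        show ((-1 : ℤ) : K) * (u 0) * (u 7) + ((1 : ℤ) : K) * (u 1) * ((u 0 * u 7 + u 15 * u 19 + u 16 * u 22 + u 17 * u 25) / u 1) + ((-1 : ℤ) : K) * (u 15) * (u 19) + ((-1 : ℤ) : K) * (u 16) * (u 22) + ((-1 : ℤ) : K) * (u 17) * (u 25) = 0
        push_cast
        field_simp
        ring
      · show ∑ t : Fin 5, _ = _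
        rw [Fin.sum_univ_five]
        show ((1 : ℤ) : K) * (u 0) * (u 4) + ((-1 : ℤ) : K) * (u 1) * ((u 0 * u 4 - u 15 * u 20 - u 16 * u 23 - u 17 * u 26) / u 1) + ((-1 : ℤ) : K) * (u 15) * (u 20) + ((-1 : ℤ) : K) * (u 16) * (u 23) + ((-1 : ℤ) : K) * (u 17) * (u 26) = 0
        push_cast
        field_simp
        ring
      · show ∑ t : Fin 5, _ = _
        rw [Fin.sum_univ_five]
        show ((1 : ℤ) : K) * ((-u 19 * u 26 + u 20 * u 25 - u 0 * u 10 - u 2 * u 16) / u 1) * (u 17) + ((-1 : ℤ) : K) * ((u 19 * u 23 - u 20 * u 22 - u 0 * u 11 - u 2 * u 17) / u 1) * (u 16) + ((-1 : ℤ) : K) * ((-u 10 * u 17 + u 11 * u 16 - u 19 * u 4 - u 20 * u 7) / u 1) * (u 0) + ((-1 : ℤ) : K) * (u 19) * ((u 0 * u 4 - u 15 * u 20 - u 16 * u 23 - u 17 * u 26) / u 1) + ((-1 : ℤ) : K) * (u 20) * ((u 0 * u 7 + u 15 * u 19 + u 16 * u 22 + u 17 * u 25) / u 1) = 0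
        push_cast
        field_simp
        ring
      · show ∑ t : Fin 5, _ = _
        rw [Fin.sum_univ_five]
        show ((-1 : ℤ) : K) * (u 10) * (u 17) + ((1 : ℤ) : K) * (u 11) * (u 16) + ((-1 : ℤ) : K) * ((-u 10 * u 17 + u 11 * u 16 - u 19 * u 4 - u 20 * u 7) / u 1) * (u 1) + ((-1 : ℤ) : K) * (u 19) * (u 4) + ((-1 : ℤ) : K) * (u 20) * (u 7) = 0
        push_cast
        field_simp
        ring
      · show ∑ t : Fin 5, _ = _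
        rw [Fin.sum_univ_five]
        show ((1 : ℤ) : K) * (u 10) * ((u 19 * u 23 - u 20 * u 22 - u 0 * u 11 - u 2 * u 17) / u 1) + ((-1 : ℤ) : K) * (u 11) * ((-u 19 * u 26 + u 20 * u 25 - u 0 * u 10 - u 2 * u 16) / u 1) + ((-1 : ℤ) : K) * ((-u 10 * u 17 + u 11 * u 16 - u 19 * u 4 - u 20 * u 7) / u 1) * (u 2) + ((-1 : ℤ) : K) * (u 19) * ((u 2 * u 4 + u 9 * u 20 + u 10 * u 23 + u 11 * u 26) / u 1) + ((-1 : ℤ) : K) * (u 20) * ((u 2 * u 7 - u 9 * u 19 - u 10 * u 22 - u 11 * u 25) / u 1) = 0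
        push_cast
        field_simp
        ring
      · show ∑ t : Fin 5, _ = _
        rw [Fin.sum_univ_five]
        show ((-1 : ℤ) : K) * ((u 22 * u 26 - u 23 * u 25 - u 0 * u 9 - u 2 * u 15) / u 1) * (u 17) + ((1 : ℤ) : K) * ((u 19 * u 23 - u 20 * u 22 - u 0 * u 11 - u 2 * u 17) / u 1) * (u 15) + ((-1 : ℤ) : K) * ((u 9 * u 17 - u 11 * u 15 - u 22 * u 4 - u 23 * u 7) / u 1) * (u 0) + ((-1 : ℤ) : K) * (u 22) * ((u 0 * u 4 - u 15 * u 20 - u 16 * u 23 - u 17 * u 26) / u 1) + ((-1 : ℤ) : K) * (u 23) * ((u 0 * u 7 + u 15 * u 19 + u 16 * u 22 + u 17 * u 25) / u 1) = 0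
        push_cast
        field_simp
        ring
      · show ∑ t : Fin 5, _ = _
        rw [Fin.sum_univ_five]
        show ((1 : ℤ) : K) * (u 9) * (u 17) + ((-1 : ℤ) : K) * (u 11) * (u 15) + ((-1 : ℤ) : K) * ((u 9 * u 17 - u 11 * u 15 - u 22 * u 4 - u 23 * u 7) / u 1) * (u 1) + ((-1 : ℤ) : K) * (u 22) * (u 4) + ((-1 : ℤ) : K) * (u 23) * (u 7) = 0
        push_cast
        field_simp
        ring
      · show ∑ t : Fin 5, _ = _
        rw [Fin.sum_univ_five]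
        show ((-1 : ℤ) : K) * (u 9) * ((u 19 * u 23 - u 20 * u 22 - u 0 * u 11 - u 2 * u 17) / u 1) + ((1 : ℤ) : K) * (u 11) * ((u 22 * u 26 - u 23 * u 25 - u 0 * u 9 - u 2 * u 15) / u 1) + ((-1 : ℤ) : K) * ((u 9 * u 17 - u 11 * u 15 - u 22 * u 4 - u 23 * u 7) / u 1) * (u 2) + ((-1 : ℤ) : K) * (u 22) * ((u 2 * u 4 + u 9 * u 20 + u 10 * u 23 + u 11 * u 26) / u 1) + ((-1 : ℤ) : K) * (u 23) * ((u 2 * u 7 - u 9 * u 19 - u 10 * u 22 - u 11 * u 25) / u 1) = 0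
        push_cast
        field_simp
        ring
      · show ∑ t : Fin 5, _ = _
        rw [Fin.sum_univ_five]
        show ((1 : ℤ) : K) * ((u 22 * u 26 - u 23 * u 25 - u 0 * u 9 - u 2 * u 15) / u 1) * (u 16) + ((-1 : ℤ) : K) * ((-u 19 * u 26 + u 20 * u 25 - u 0 * u 10 - u 2 * u 16) / u 1) * (u 15) + ((-1 : ℤ) : K) * ((-u 9 * u 16 + u 10 * u 15 - u 25 * u 4 - u 26 * u 7) / u 1) * (u 0) + ((-1 : ℤ) : K) * (u 25) * ((u 0 * u 4 - u 15 * u 20 - u 16 * u 23 - u 17 * u 26) / u 1) + ((-1 : ℤ) : K) * (u 26) * ((u 0 * u 7 + u 15 * u 19 + u 16 * u 22 + u 17 * u 25) / u 1) = 0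
        push_cast
        field_simp
        ring
      · show ∑ t : Fin 5, _ = _
        rw [Fin.sum_univ_five]
        show ((-1 : ℤ) : K) * (u 9) * (u 16) + ((1 : ℤ) : K) * (u 10) * (u 15) + ((-1 : ℤ) : K) * ((-u 9 * u 16 + u 10 * u 15 - u 25 * u 4 - u 26 * u 7) / u 1) * (u 1) + ((-1 : ℤ) : K) * (u 25) * (u 4) + ((-1 : ℤ) : K) * (u 26) * (u 7) = 0
        push_cast
        field_simp
        ring
      · show ∑ t : Fin 5, _ = _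
        rw [Fin.sum_univ_five]
        show ((1 : ℤ) : K) * (u 9) * ((-u 19 * u 26 + u 20 * u 25 - u 0 * u 10 - u 2 * u 16) / u 1) + ((-1 : ℤ) : K) * (u 10) * ((u 22 * u 26 - u 23 * u 25 - u 0 * u 9 - u 2 * u 15) / u 1) + ((-1 : ℤ) : K) * ((-u 9 * u 16 + u 10 * u 15 - u 25 * u 4 - u 26 * u 7) / u 1) * (u 2) + ((-1 : ℤ) : K) * (u 25) * ((u 2 * u 4 + u 9 * u 20 + u 10 * u 23 + u 11 * u 26) / u 1) + ((-1 : ℤ) : K) * (u 26) * ((u 2 * u 7 - u 9 * u 19 - u 10 * u 22 - u 11 * u 25) / u 1) = 0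
        push_cast
        field_simp
        ring
      · show ∑ t : Fin 5, _ = _
        rw [Fin.sum_univ_five]
        show ((1 : ℤ) : K) * (u 22) * (u 26) + ((-1 : ℤ) : K) * (u 23) * (u 25) + ((-1 : ℤ) : K) * (u 0) * (u 9) + ((-1 : ℤ) : K) * (u 1) * ((u 22 * u 26 - u 23 * u 25 - u 0 * u 9 - u 2 * u 15) / u 1) + ((-1 : ℤ) : K) * (u 2) * (u 15) = 0
        push_cast
        field_simp
        ring
      · show ∑ t : Fin 5, _ = _
        rw [Fin.sum_univ_five]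
        show ((-1 : ℤ) : K) * (u 19) * (u 26) + ((1 : ℤ) : K) * (u 20) * (u 25) + ((-1 : ℤ) : K) * (u 0) * (u 10) + ((-1 : ℤ) : K) * (u 1) * ((-u 19 * u 26 + u 20 * u 25 - u 0 * u 10 - u 2 * u 16) / u 1) + ((-1 : ℤ) : K) * (u 2) * (u 16) = 0
        push_cast
        field_simp
        ring
      · show ∑ t : Fin 5, _ = _
        rw [Fin.sum_univ_five]
        show ((1 : ℤ) : K) * (u 19) * (u 23) + ((-1 : ℤ) : K) * (u 20) * (u 22) + ((-1 : ℤ) : K) * (u 0) * (u 11) + ((-1 : ℤ) : K) * (u 1) * ((u 19 * u 23 - u 20 * u 22 - u 0 * u 11 - u 2 * u 17) / u 1) + ((-1 : ℤ) : K) * (u 2) * (u 17) = 0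
        push_cast
        field_simp
        ring
      · show ∑ t : Fin 5, _ = _
        rw [Fin.sum_univ_five]
        show ((-1 : ℤ) : K) * ((u 9 * u 17 - u 11 * u 15 - u 22 * u 4 - u 23 * u 7) / u 1) * (u 26) + ((1 : ℤ) : K) * (u 23) * ((-u 9 * u 16 + u 10 * u 15 - u 25 * u 4 - u 26 * u 7) / u 1) + ((-1 : ℤ) : K) * ((u 0 * u 4 - u 15 * u 20 - u 16 * u 23 - u 17 * u 26) / u 1) * (u 9) + ((-1 : ℤ) : K) * (u 4) * ((u 22 * u 26 - u 23 * u 25 - u 0 * u 9 - u 2 * u 15) / u 1) + ((-1 : ℤ) : K) * ((u 2 * u 4 + u 9 * u 20 + u 10 * u 23 + u 11 * u 26) / u 1) * (u 15) = 0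
        push_cast
        field_simp
        ring
      · show ∑ t : Fin 5, _ = _
        rw [Fin.sum_univ_five]
        show ((1 : ℤ) : K) * ((-u 10 * u 17 + u 11 * u 16 - u 19 * u 4 - u 20 * u 7) / u 1) * (u 26) + ((-1 : ℤ) : K) * (u 20) * ((-u 9 * u 16 + u 10 * u 15 - u 25 * u 4 - u 26 * u 7) / u 1) + ((-1 : ℤ) : K) * ((u 0 * u 4 - u 15 * u 20 - u 16 * u 23 - u 17 * u 26) / u 1) * (u 10) + ((-1 : ℤ) : K) * (u 4) * ((-u 19 * u 26 + u 20 * u 25 - u 0 * u 10 - u 2 * u 16) / u 1) + ((-1 : ℤ) : K) * ((u 2 * u 4 + u 9 * u 20 + u 10 * u 23 + u 11 * u 26) / u 1) * (u 16) = 0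
        push_cast
        field_simp
        ring
      · show ∑ t : Fin 5, _ = _
        rw [Fin.sum_univ_five]
        show ((-1 : ℤ) : K) * ((-u 10 * u 17 + u 11 * u 16 - u 19 * u 4 - u 20 * u 7) / u 1) * (u 23) + ((1 : ℤ) : K) * (u 20) * ((u 9 * u 17 - u 11 * u 15 - u 22 * u 4 - u 23 * u 7) / u 1) + ((-1 : ℤ) : K) * ((u 0 * u 4 - u 15 * u 20 - u 16 * u 23 - u 17 * u 26) / u 1) * (u 11) + ((-1 : ℤ) : K) * (u 4) * ((u 19 * u 23 - u 20 * u 22 - u 0 * u 11 - u 2 * u 17) / u 1) + ((-1 : ℤ) : K) * ((u 2 * u 4 + u 9 * u 20 + u 10 * u 23 + u 11 * u 26) / u 1) * (u 17) = 0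
        push_cast
        field_simp
        ring
      · show ∑ t : Fin 5, _ = _
        rw [Fin.sum_univ_five]
        show ((1 : ℤ) : K) * ((u 9 * u 17 - u 11 * u 15 - u 22 * u 4 - u 23 * u 7) / u 1) * (u 25) + ((-1 : ℤ) : K) * (u 22) * ((-u 9 * u 16 + u 10 * u 15 - u 25 * u 4 - u 26 * u 7) / u 1) + ((-1 : ℤ) : K) * ((u 0 * u 7 + u 15 * u 19 + u 16 * u 22 + u 17 * u 25) / u 1) * (u 9) + ((-1 : ℤ) : K) * (u 7) * ((u 22 * u 26 - u 23 * u 25 - u 0 * u 9 - u 2 * u 15) / u 1) + ((-1 : ℤ) : K) * ((u 2 * u 7 - u 9 * u 19 - u 10 * u 22 - u 11 * u 25) / u 1) * (u 15) = 0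
        push_cast
        field_simp
        ring
      · show ∑ t : Fin 5, _ = _
        rw [Fin.sum_univ_five]
        show ((-1 : ℤ) : K) * ((-u 10 * u 17 + u 11 * u 16 - u 19 * u 4 - u 20 * u 7) / u 1) * (u 25) + ((1 : ℤ) : K) * (u 19) * ((-u 9 * u 16 + u 10 * u 15 - u 25 * u 4 - u 26 * u 7) / u 1) + ((-1 : ℤ) : K) * ((u 0 * u 7 + u 15 * u 19 + u 16 * u 22 + u 17 * u 25) / u 1) * (u 10) + ((-1 : ℤ) : K) * (u 7) * ((-u 19 * u 26 + u 20 * u 25 - u 0 * u 10 - u 2 * u 16) / u 1) + ((-1 : ℤ) : K) * ((u 2 * u 7 - u 9 * u 19 - u 10 * u 22 - u 11 * u 25) / u 1) * (u 16) = 0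
        push_cast
        field_simp
        ring
      · show ∑ t : Fin 5, _ = _
        rw [Fin.sum_univ_five]
        show ((1 : ℤ) : K) * ((-u 10 * u 17 + u 11 * u 16 - u 19 * u 4 - u 20 * u 7) / u 1) * (u 22) + ((-1 : ℤ) : K) * (u 19) * ((u 9 * u 17 - u 11 * u 15 - u 22 * u 4 - u 23 * u 7) / u 1) + ((-1 : ℤ) : K) * ((u 0 * u 7 + u 15 * u 19 + u 16 * u 22 + u 17 * u 25) / u 1) * (u 11) + ((-1 : ℤ) : K) * (u 7) * ((u 19 * u 23 - u 20 * u 22 - u 0 * u 11 - u 2 * u 17) / u 1) + ((-1 : ℤ) : K) * ((u 2 * u 7 - u 9 * u 19 - u 10 * u 22 - u 11 * u 25) / u 1) * (u 17) = 0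
        push_cast
        field_simp
        ring
    exact hl

theorem cayley_pt_2 {K : Type} [Field K] (u : Fin 27 → K) (h : u 2 ≠ 0) :
    ∃ y : Fin 27 → K, (∀ j : Fin 27, ¬ cayley.opp (2 : Fin 27) j → y j = u j) ∧
      ∀ l, cayley.val y l = 0 := by
  refine ⟨![u 0, u 1, u 2, (u 0 * u 5 + u 12 * u 20 + u 13 * u 23 + u 14 * u 26) / u 2, (u 1 * u 5 - u 9 * u 20 - u 10 * u 23 - u 11 * u 26) / u 2, u 5, (u 0 * u 8 - u 12 * u 19 - u 13 * u 22 - u 14 * u 25) / u 2, (u 1 * u 8 + u 9 * u 19 + u 10 * u 22 + u 11 * u 25) / u 2, u 8, u 9, u 10, u 11, u 12, u 13, u 14, (u 22 * u 26 - u 23 * u 25 - u 0 * u 9 - u 1 * u 12) / u 2, (-u 19 * u 26 + u 20 * u 25 - u 0 * u 10 - u 1 * u 13) / u 2, (u 19 * u 23 - u 20 * u 22 - u 0 * u 11 - u 1 * u 14) / u 2, (u 10 * u 14 - u 11 * u 13 - u 19 * u 5 - u 20 * u 8) / u 2, u 19, u 20, (-u 9 * u 14 + u 11 * u 12 - u 22 * u 5 - u 23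 * u 8) / u 2, u 22, u 23, (u 9 * u 13 - u 10 * u 12 - u 25 * u 5 - u 26 * u 8) / u 2, u 25, u 26], ?_, ?_⟩
  · have key : ∀ j : Fin 27, cayley.opp (2 : Fin 27) j ∨ (![u 0, u 1, u 2, (u 0 * u 5 + u 12 * u 20 + u 13 * u 23 + u 14 * u 26) / u 2, (u 1 * u 5 - u 9 * u 20 - u 10 * u 23 - u 11 * u 26) / u 2, u 5, (u 0 * u 8 - u 12 * u 19 - u 13 * u 22 - u 14 * u 25) / u 2, (u 1 * u 8 + u 9 * u 19 + u 10 * u 22 + u 11 * u 25) / u 2, u 8, u 9, u 10, u 11, u 12, u 13, u 14, (u 22 * u 26 - u 23 * u 25 - u 0 * u 9 - u 1 * u 12) / u 2, (-u 19 * u 26 + u 20 * u 25 - u 0 * u 10 - u 1 * u 13) / u 2, (u 19 * u 23 - u 20 * u 22 - u 0 * u 11 - u 1 * u 14) / u 2, (u 10 * u 14 - u 11 * u 13 - u 19 * u 5 - u 20 * u 8) / u 2, u 19, u 20, (-u 9 * u 14 + u 11 * u 12 - u 22 * u 5 - u 23 * u 8) / u 2, u 22, u 23, (u 9 * u 13 - u 10 * u 12 - u 25 * u 5 - u 26 * u 8) / u 2, u 25, u 26]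 : Fin 27 → K) j = u j := by
      intro j
      fin_cases j
      · exact Or.inr rfl
      · exact Or.inr rfl
      · exact Or.inr rfl
      · exact Or.inl ⟨(5 : Fin 27), (1 : Fin 5), Or.inl ⟨rfl, rfl⟩⟩
      · exact Or.inl ⟨(2 : Fin 27), (1 : Fin 5), Or.inl ⟨rfl, rfl⟩⟩
      · exact Or.inr rfl
      · exact Or.inl ⟨(4 : Fin 27), (1 : Fin 5), Or.inl ⟨rfl, rfl⟩⟩
      · exact Or.inl ⟨(1 : Fin 27), (1 : Fin 5), Or.inl ⟨rfl, rfl⟩⟩
      · exact Or.inr rfl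
      · exact Or.inr rfl
      · exact Or.inr rfl
      · exact Or.inr rfl
      · exact Or.inr rfl
      · exact Or.inr rfl
      · exact Or.inr rfl
      · exact Or.inl ⟨(18 : Fin 27), (4 : Fin 5), Or.inl ⟨rfl, rfl⟩⟩
      · exact Or.inl ⟨(19 : Fin 27), (4 : Fin 5), Or.inl ⟨rfl, rfl⟩⟩
      · exact Or.inl ⟨(20 : Fin 27), (4 : Fin 5), Or.inl ⟨rfl, rfl⟩⟩
      · exact Or.inl ⟨(11 : Fin 27), (2 : Fin 5), Or.inr ⟨rfl, rfl⟩⟩
      · exact Or.inr rfl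
      · exact Or.inr rfl
      · exact Or.inl ⟨(14 : Fin 27), (2 : Fin 5), Or.inr ⟨rfl, rfl⟩⟩
      · exact Or.inr rfl
      · exact Or.inr rfl
      · exact Or.inl ⟨(17 : Fin 27), (2 : Fin 5), Or.inr ⟨rfl, rfl⟩⟩
      · exact Or.inr rfl
      · exact Or.inr rfl
    intro j hj
    exact (key j).resolve_left hj
  · have hl : ∀ l : Fin 27, cayley.val (![u 0, u 1, u 2, (u 0 * u 5 + u 12 * u 20 + u 13 * u 23 + u 14 * u 26) / u 2, (u 1 * u 5 - u 9 * u 20 - u 10 * u 23 - u 11 * u 26) / u 2, u 5, (u 0 * u 8 - u 12 * u 19 - u 13 * u 22 - u 14 * u 25) / u 2, (u 1 * u 8 + u 9 * u 19 + u 10 * u 22 + u 11 * u 25) / u 2, u 8, u 9, u 10, u 11, u 12, u 13, u 14, (u 22 * u 26 - u 23 * u 25 - u 0 * u 9 - u 1 * u 12) / u 2, (-u 19 * u 26 + u 20 * u 25 - u 0 * u 10 - u 1 * u 13) / u 2, (u 19 * u 23 - u 20 * u 22 - u 0 * u 11 - u 1 * u 14) / u 2, (u 10 * u 14 - u 11 * u 13 - u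 19 * u 5 - u 20 * u 8) / u 2, u 19, u 20, (-u 9 * u 14 + u 11 * u 12 - u 22 * u 5 - u 23 * u 8) / u 2, u 22, u 23, (u 9 * u 13 - u 10 * u 12 - u 25 * u 5 - u 26 * u 8) / u 2, u 25, u 26] : Fin 27 → K) l = 0 := by
      intro l
      unfold QF.val
      fin_cases l
      · show ∑ t : Fin 5, _ = _
        rw [Fin.sum_univ_five]
        show ((1 : ℤ) : K) * ((u 1 * u 5 - u 9 * u 20 - u 10 * u 23 - u 11 * u 26) / u 2) * (u 8) + ((-1 : ℤ) : K) * (u 5) * ((u 1 * u 8 + u 9 * u 19 + u 10 * u 22 + u 11 * u 25) / u 2) + ((-1 : ℤ) : K) * (u 9) * ((u 10 * u 14 - u 11 * u 13 - u 19 * u 5 - u 20 * u 8) / u 2) + ((-1 : ℤ) : K) * (u 10) * ((-u 9 * u 14 + u 11 * u 12 - u 22 * u 5 - u 23 * u 8) / u 2) + ((-1 : ℤ) : K) * (u 11) * ((u 9 * u 13 - u 10 * u 12 - u 25 * u 5 - u 26 * u 8) / u 2) = 0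
        push_cast
        field_simp
        ring
      · show ∑ t : Fin 5, _ = _
        rw [Fin.sum_univ_five]
        show ((-1 : ℤ) : K) * (u 1) * (u 8) + ((1 : ℤ) : K) * (u 2) * ((u 1 * u 8 + u 9 * u 19 + u 10 * u 22 + u 11 * u 25) / u 2) + ((-1 : ℤ) : K) * (u 9) * (u 19) + ((-1 : ℤ) : K) * (u 10) * (u 22) + ((-1 : ℤ) : K) * (u 11) * (u 25) = 0
        push_cast
        field_simp
        ring
      · show ∑ t : Fin 5, _ = _
        rw [Fin.sum_univ_five]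
        show ((1 : ℤ) : K) * (u 1) * (u 5) + ((-1 : ℤ) : K) * (u 2) * ((u 1 * u 5 - u 9 * u 20 - u 10 * u 23 - u 11 * u 26) / u 2) + ((-1 : ℤ) : K) * (u 9) * (u 20) + ((-1 : ℤ) : K) * (u 10) * (u 23) + ((-1 : ℤ) : K) * (u 11) * (u 26) = 0
        push_cast
        field_simp
        ring
      · show ∑ t : Fin 5, _ = _
        rw [Fin.sum_univ_five]
        show ((-1 : ℤ) : K) * ((u 0 * u 5 + u 12 * u 20 + u 13 * u 23 + u 14 * u 26) / u 2) * (u 8) + ((1 : ℤ) : K) * (u 5) * ((u 0 * u 8 - u 12 * u 19 - u 13 * u 22 - u 14 * u 25) / u 2) + ((-1 : ℤ) : K) * (u 12) * ((u 10 * u 14 - u 11 * u 13 - u 19 * u 5 - u 20 * u 8) / u 2) + ((-1 : ℤ) : K) * (u 13) * ((-u 9 * u 14 + u 11 * u 12 - u 22 * u 5 - u 23 * u 8) / u 2) + ((-1 : ℤ) : K) * (u 14) * ((u 9 * u 13 - u 10 * u 12 - u 25 * u 5 - u 26 * u 8) / u 2) = 0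
        push_cast
        field_simp
        ring
      · show ∑ t : Fin 5, _ = _
        rw [Fin.sum_univ_five]
        show ((1 : ℤ) : K) * (u 0) * (u 8) + ((-1 : ℤ) : K) * (u 2) * ((u 0 * u 8 - u 12 * u 19 - u 13 * u 22 - u 14 * u 25) / u 2) + ((-1 : ℤ) : K) * (u 12) * (u 19) + ((-1 : ℤ) : K) * (u 13) * (u 22) + ((-1 : ℤ) : K) * (u 14) * (u 25) = 0
        push_cast
        field_simp
        ring
      · show ∑ t : Fin 5, _ = _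
        rw [Fin.sum_univ_five]
        show ((-1 : ℤ) : K) * (u 0) * (u 5) + ((1 : ℤ) : K) * (u 2) * ((u 0 * u 5 + u 12 * u 20 + u 13 * u 23 + u 14 * u 26) / u 2) + ((-1 : ℤ) : K) * (u 12) * (u 20) + ((-1 : ℤ) : K) * (u 13) * (u 23) + ((-1 : ℤ) : K) * (u 14) * (u 26) = 0
        push_cast
        field_simp
        ring
      · show ∑ t : Fin 5, _ = _
        rw [Fin.sum_univ_five]
        show ((1 : ℤ) : K) * ((u 0 * u 5 + u 12 * u 20 + u 13 * u 23 + u 14 * u 26) / u 2) * ((u 1 * u 8 + u 9 * u 19 + u 10 * u 22 + u 11 * u 25) / u 2) + ((-1 : ℤ) : K) * ((u 1 * u 5 - u 9 * u 20 - u 10 * u 23 - u 11 * u 26) / u 2) * ((u 0 * u 8 - u 12 * u 19 - u 13 * u 22 - u 14 * u 25) / u 2) + ((-1 : ℤ) : K) * ((u 22 * u 26 - u 23 * u 25 - u 0 * u 9 - u 1 * u 12) / u 2) * ((u 10 * u 14 - u 11 * u 13 - u 19 * u 5 - u 20 * u 8) / u 2) + ((-1 : ℤ) : K) * ((-u 19 * u 26 + u 20 *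 u 25 - u 0 * u 10 - u 1 * u 13) / u 2) * ((-u 9 * u 14 + u 11 * u 12 - u 22 * u 5 - u 23 * u 8) / u 2) + ((-1 : ℤ) : K) * ((u 19 * u 23 - u 20 * u 22 - u 0 * u 11 - u 1 * u 14) / u 2) * ((u 9 * u 13 - u 10 * u 12 - u 25 * u 5 - u 26 * u 8) / u 2) = 0
        push_cast
        field_simp
        ring
      · show ∑ t : Fin 5, _ = _
        rw [Fin.sum_univ_five]
        show ((-1 : ℤ) : K) * (u 0) * ((u 1 * u 8 + u 9 * u 19 + u 10 * u 22 + u 11 * u 25) / u 2) + ((1 : ℤ) : K) * (u 1) * ((u 0 * u 8 - u 12 * u 19 - u 13 * u 22 - u 14 * u 25) / u 2) + ((-1 : ℤ) : K) * ((u 22 * u 26 - u 23 * u 25 - u 0 * u 9 - u 1 * u 12) / u 2) * (u 19) + ((-1 : ℤ) : K) * ((-u 19 * u 26 + u 20 * u 25 - u 0 * u 10 - u 1 * u 13) / u 2) * (u 22) + ((-1 : ℤ) : K) * ((u 19 * u 23 - u 20 * u 22 - u 0 * u 11 - u 1 * u 14) / u 2) * (u 25) = 0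
        push_cast
        field_simp
        ring
      · show ∑ t : Fin 5, _ = _
        rw [Fin.sum_univ_five]
        show ((1 : ℤ) : K) * (u 0) * ((u 1 * u 5 - u 9 * u 20 - u 10 * u 23 - u 11 * u 26) / u 2) + ((-1 : ℤ) : K) * (u 1) * ((u 0 * u 5 + u 12 * u 20 + u 13 * u 23 + u 14 * u 26) / u 2) + ((-1 : ℤ) : K) * ((u 22 * u 26 - u 23 * u 25 - u 0 * u 9 - u 1 * u 12) / u 2) * (u 20) + ((-1 : ℤ) : K) * ((-u 19 * u 26 + u 20 * u 25 - u 0 * u 10 - u 1 * u 13) / u 2) * (u 23) + ((-1 : ℤ) : K) * ((u 19 * u 23 - u 20 * u 22 - u 0 * u 11 - u 1 * u 14) / u 2) * (u 26) = 0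
        push_cast
        field_simp
        ring
      · show ∑ t : Fin 5, _ = _
        rw [Fin.sum_univ_five]
        show ((1 : ℤ) : K) * (u 13) * ((u 19 * u 23 - u 20 * u 22 - u 0 * u 11 - u 1 * u 14) / u 2) + ((-1 : ℤ) : K) * (u 14) * ((-u 19 * u 26 + u 20 * u 25 - u 0 * u 10 - u 1 * u 13) / u 2) + ((-1 : ℤ) : K) * ((u 10 * u 14 - u 11 * u 13 - u 19 * u 5 - u 20 * u 8) / u 2) * (u 0) + ((-1 : ℤ) : K) * (u 19) * ((u 0 * u 5 + u 12 * u 20 + u 13 * u 23 + u 14 * u 26) / u 2) + ((-1 : ℤ) : K) * (u 20) * ((u 0 * u 8 - u 12 * u 19 - u 13 * u 22 - u 14 * u 25) / u 2) = 0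
        push_cast
        field_simp
        ring
      · show ∑ t : Fin 5, _ = _
        rw [Fin.sum_univ_five]
        show ((-1 : ℤ) : K) * (u 10) * ((u 19 * u 23 - u 20 * u 22 - u 0 * u 11 - u 1 * u 14) / u 2) + ((1 : ℤ) : K) * (u 11) * ((-u 19 * u 26 + u 20 * u 25 - u 0 * u 10 - u 1 * u 13) / u 2) + ((-1 : ℤ) : K) * ((u 10 * u 14 - u 11 * u 13 - u 19 * u 5 - u 20 * u 8) / u 2) * (u 1) + ((-1 : ℤ) : K) * (u 19) * ((u 1 * u 5 - u 9 * u 20 - u 10 * u 23 - u 11 * u 26) / u 2) + ((-1 : ℤ) : K) * (u 20) * ((u 1 * u 8 + u 9 * u 19 + u 10 * u 22 + u 11 * u 25) / u 2) = 0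
        push_cast
        field_simp
        ring
      · show ∑ t : Fin 5, _ = _
        rw [Fin.sum_univ_five]
        show ((1 : ℤ) : K) * (u 10) * (u 14) + ((-1 : ℤ) : K) * (u 11) * (u 13) + ((-1 : ℤ) : K) * ((u 10 * u 14 - u 11 * u 13 - u 19 * u 5 - u 20 * u 8) / u 2) * (u 2) + ((-1 : ℤ) : K) * (u 19) * (u 5) + ((-1 : ℤ) : K) * (u 20) * (u 8) = 0
        push_cast
        field_simp
        ring
      · show ∑ t : Fin 5, _ = _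
        rw [Fin.sum_univ_five]
        show ((-1 : ℤ) : K) * (u 12) * ((u 19 * u 23 - u 20 * u 22 - u 0 * u 11 - u 1 * u 14) / u 2) + ((1 : ℤ) : K) * (u 14) * ((u 22 * u 26 - u 23 * u 25 - u 0 * u 9 - u 1 * u 12) / u 2) + ((-1 : ℤ) : K) * ((-u 9 * u 14 + u 11 * u 12 - u 22 * u 5 - u 23 * u 8) / u 2) * (u 0) + ((-1 : ℤ) : K) * (u 22) * ((u 0 * u 5 + u 12 * u 20 + u 13 * u 23 + u 14 * u 26) / u 2) + ((-1 : ℤ) : K) * (u 23) * ((u 0 * u 8 - u 12 * u 19 - u 13 * u 22 - u 14 * u 25) / u 2) = 0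
        push_cast
        field_simp
        ring
      · show ∑ t : Fin 5, _ = _
        rw [Fin.sum_univ_five]
        show ((1 : ℤ) : K) * (u 9) * ((u 19 * u 23 - u 20 * u 22 - u 0 * u 11 - u 1 * u 14) / u 2) + ((-1 : ℤ) : K) * (u 11) * ((u 22 * u 26 - u 23 * u 25 - u 0 * u 9 - u 1 * u 12) / u 2) + ((-1 : ℤ) : K) * ((-u 9 * u 14 + u 11 * u 12 - u 22 * u 5 - u 23 * u 8) / u 2) * (u 1) + ((-1 : ℤ) : K) * (u 22) * ((u 1 * u 5 - u 9 * u 20 - u 10 * u 23 - u 11 * u 26) / u 2) + ((-1 : ℤ) : K) * (u 23) * ((u 1 * u 8 + u 9 * u 19 + u 10 * u 22 + u 11 * u 25) / u 2) = 0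
        push_cast
        field_simp
        ring
      · show ∑ t : Fin 5, _ = _
        rw [Fin.sum_univ_five]
        show ((-1 : ℤ) : K) * (u 9) * (u 14) + ((1 : ℤ) : K) * (u 11) * (u 12) + ((-1 : ℤ) : K) * ((-u 9 * u 14 + u 11 * u 12 - u 22 * u 5 - u 23 * u 8) / u 2) * (u 2) + ((-1 : ℤ) : K) * (u 22) * (u 5) + ((-1 : ℤ) : K) * (u 23) * (u 8) = 0
        push_cast
        field_simp
        ring
      · show ∑ t : Fin 5, _ = _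
        rw [Fin.sum_univ_five]
        show ((1 : ℤ) : K) * (u 12) * ((-u 19 * u 26 + u 20 * u 25 - u 0 * u 10 - u 1 * u 13) / u 2) + ((-1 : ℤ) : K) * (u 13) * ((u 22 * u 26 - u 23 * u 25 - u 0 * u 9 - u 1 * u 12) / u 2) + ((-1 : ℤ) : K) * ((u 9 * u 13 - u 10 * u 12 - u 25 * u 5 - u 26 * u 8) / u 2) * (u 0) + ((-1 : ℤ) : K) * (u 25) * ((u 0 * u 5 + u 12 * u 20 + u 13 * u 23 + u 14 * u 26) / u 2) + ((-1 : ℤ) : K) * (u 26) * ((u 0 * u 8 - u 12 * u 19 - u 13 * u 22 - u 14 * u 25) / u 2) = 0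
        push_cast
        field_simp
        ring
      · show ∑ t : Fin 5, _ = _
        rw [Fin.sum_univ_five]
        show ((-1 : ℤ) : K) * (u 9) * ((-u 19 * u 26 + u 20 * u 25 - u 0 * u 10 - u 1 * u 13) / u 2) + ((1 : ℤ) : K) * (u 10) * ((u 22 * u 26 - u 23 * u 25 - u 0 * u 9 - u 1 * u 12) / u 2) + ((-1 : ℤ) : K) * ((u 9 * u 13 - u 10 * u 12 - u 25 * u 5 - u 26 * u 8) / u 2) * (u 1) + ((-1 : ℤ) : K) * (u 25) * ((u 1 * u 5 - u 9 * u 20 - u 10 * u 23 - u 11 * u 26) / u 2) + ((-1 : ℤ) : K) * (u 26) * ((u 1 * u 8 + u 9 * u 19 + u 10 * u 22 + u 11 * u 25) / u 2) = 0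
        push_cast
        field_simp
        ring
      · show ∑ t : Fin 5, _ = _
        rw [Fin.sum_univ_five]
        show ((1 : ℤ) : K) * (u 9) * (u 13) + ((-1 : ℤ) : K) * (u 10) * (u 12) + ((-1 : ℤ) : K) * ((u 9 * u 13 - u 10 * u 12 - u 25 * u 5 - u 26 * u 8) / u 2) * (u 2) + ((-1 : ℤ) : K) * (u 25) * (u 5) + ((-1 : ℤ) : K) * (u 26) * (u 8) = 0
        push_cast
        field_simp
        ring
      · show ∑ t : Fin 5, _ = _
        rw [Fin.sum_univ_five]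
        show ((1 : ℤ) : K) * (u 22) * (u 26) + ((-1 : ℤ) : K) * (u 23) * (u 25) + ((-1 : ℤ) : K) * (u 0) * (u 9) + ((-1 : ℤ) : K) * (u 1) * (u 12) + ((-1 : ℤ) : K) * (u 2) * ((u 22 * u 26 - u 23 * u 25 - u 0 * u 9 - u 1 * u 12) / u 2) = 0
        push_cast
        field_simp
        ring
      · show ∑ t : Fin 5, _ = _
        rw [Fin.sum_univ_five]
        show ((-1 : ℤ) : K) * (u 19) * (u 26) + ((1 : ℤ) : K) * (u 20) * (u 25) + ((-1 : ℤ) : K) * (u 0) * (u 10) + ((-1 : ℤ) : K) * (u 1) * (u 13) + ((-1 : ℤ) : K) * (u 2) * ((-u 19 * u 26 + u 20 * u 25 - u 0 * u 10 - u 1 * u 13) / u 2) = 0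
        push_cast
        field_simp
        ring
      · show ∑ t : Fin 5, _ = _
        rw [Fin.sum_univ_five]
        show ((1 : ℤ) : K) * (u 19) * (u 23) + ((-1 : ℤ) : K) * (u 20) * (u 22) + ((-1 : ℤ) : K) * (u 0) * (u 11) + ((-1 : ℤ) : K) * (u 1) * (u 14) + ((-1 : ℤ) : K) * (u 2) * ((u 19 * u 23 - u 20 * u 22 - u 0 * u 11 - u 1 * u 14) / u 2) = 0
        push_cast
        field_simp
        ring
      · show ∑ t : Fin 5, _ = _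
        rw [Fin.sum_univ_five]
        show ((-1 : ℤ) : K) * ((-u 9 * u 14 + u 11 * u 12 - u 22 * u 5 - u 23 * u 8) / u 2) * (u 26) + ((1 : ℤ) : K) * (u 23) * ((u 9 * u 13 - u 10 * u 12 - u 25 * u 5 - u 26 * u 8) / u 2) + ((-1 : ℤ) : K) * ((u 0 * u 5 + u 12 * u 20 + u 13 * u 23 + u 14 * u 26) / u 2) * (u 9) + ((-1 : ℤ) : K) * ((u 1 * u 5 - u 9 * u 20 - u 10 * u 23 - u 11 * u 26) / u 2) * (u 12) + ((-1 : ℤ) : K) * (u 5) * ((u 22 * u 26 - u 23 * u 25 - u 0 * u 9 - u 1 * u 12) / u 2) = 0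
        push_cast
        field_simp
        ring
      · show ∑ t : Fin 5, _ = _
        rw [Fin.sum_univ_five]
        show ((1 : ℤ) : K) * ((u 10 * u 14 - u 11 * u 13 - u 19 * u 5 - u 20 * u 8) / u 2) * (u 26) + ((-1 : ℤ) : K) * (u 20) * ((u 9 * u 13 - u 10 * u 12 - u 25 * u 5 - u 26 * u 8) / u 2) + ((-1 : ℤ) : K) * ((u 0 * u 5 + u 12 * u 20 + u 13 * u 23 + u 14 * u 26) / u 2) * (u 10) + ((-1 : ℤ) : K) * ((u 1 * u 5 - u 9 * u 20 - u 10 * u 23 - u 11 * u 26) / u 2) * (u 13) + ((-1 : ℤ) : K) * (u 5) * ((-u 19 * u 26 + u 20 * u 25 - u 0 * u 10 - u 1 * u 13) / u 2) = 0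
        push_cast
        field_simp
        ring
      · show ∑ t : Fin 5, _ = _
        rw [Fin.sum_univ_five]
        show ((-1 : ℤ) : K) * ((u 10 * u 14 - u 11 * u 13 - u 19 * u 5 - u 20 * u 8) / u 2) * (u 23) + ((1 : ℤ) : K) * (u 20) * ((-u 9 * u 14 + u 11 * u 12 - u 22 * u 5 - u 23 * u 8) / u 2) + ((-1 : ℤ) : K) * ((u 0 * u 5 + u 12 * u 20 + u 13 * u 23 + u 14 * u 26) / u 2) * (u 11) + ((-1 : ℤ) : K) * ((u 1 * u 5 - u 9 * u 20 - u 10 * u 23 - u 11 * u 26) / u 2) * (u 14) + ((-1 : ℤ) : K) * (u 5) * ((u 19 * u 23 - u 20 * u 22 - u 0 * u 11 - u 1 * u 14) / u 2) = 0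
        push_cast
        field_simp
        ring
      · show ∑ t : Fin 5, _ = _
        rw [Fin.sum_univ_five]
        show ((1 : ℤ) : K) * ((-u 9 * u 14 + u 11 * u 12 - u 22 * u 5 - u 23 * u 8) / u 2) * (u 25) + ((-1 : ℤ) : K) * (u 22) * ((u 9 * u 13 - u 10 * u 12 - u 25 * u 5 - u 26 * u 8) / u 2) + ((-1 : ℤ) : K) * ((u 0 * u 8 - u 12 * u 19 - u 13 * u 22 - u 14 * u 25) / u 2) * (u 9) + ((-1 : ℤ) : K) * ((u 1 * u 8 + u 9 * u 19 + u 10 * u 22 + u 11 * u 25) / u 2) * (u 12) + ((-1 : ℤ) : K) * (u 8) * ((u 22 * u 26 - u 23 * u 25 - u 0 * u 9 - u 1 * u 12) / u 2) = 0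
        push_cast
        field_simp
        ring
      · show ∑ t : Fin 5, _ = _
        rw [Fin.sum_univ_five]
        show ((-1 : ℤ) : K) * ((u 10 * u 14 - u 11 * u 13 - u 19 * u 5 - u 20 * u 8) / u 2) * (u 25) + ((1 : ℤ) : K) * (u 19) * ((u 9 * u 13 - u 10 * u 12 - u 25 * u 5 - u 26 * u 8) / u 2) + ((-1 : ℤ) : K) * ((u 0 * u 8 - u 12 * u 19 - u 13 * u 22 - u 14 * u 25) / u 2) * (u 10) + ((-1 : ℤ) : K) * ((u 1 * u 8 + u 9 * u 19 + u 10 * u 22 + u 11 * u 25) / u 2) * (u 13) + ((-1 : ℤ) : K) * (u 8) * ((-u 19 * u 26 + u 20 * u 25 - u 0 * u 10 - u 1 * u 13) / u 2) = 0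
        push_cast
        field_simp
        ring
      · show ∑ t : Fin 5, _ = _
        rw [Fin.sum_univ_five]
        show ((1 : ℤ) : K) * ((u 10 * u 14 - u 11 * u 13 - u 19 * u 5 - u 20 * u 8) / u 2) * (u 22) + ((-1 : ℤ) : K) * (u 19) * ((-u 9 * u 14 + u 11 * u 12 - u 22 * u 5 - u 23 * u 8) / u 2) + ((-1 : ℤ) : K) * ((u 0 * u 8 - u 12 * u 19 - u 13 * u 22 - u 14 * u 25) / u 2) * (u 11) + ((-1 : ℤ) : K) * ((u 1 * u 8 + u 9 * u 19 + u 10 * u 22 + u 11 * u 25) / u 2) * (u 14) + ((-1 : ℤ) : K) * (u 8) * ((u 19 * u 23 - u 20 * u 22 - u 0 * u 11 - u 1 * u 14) / u 2) = 0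
        push_cast
        field_simp
        ring
    exact hl

theorem cayley_pt_3 {K : Type} [Field K] (u : Fin 27 → K) (h : u 3 ≠ 0) :
    ∃ y : Fin 27 → K, (∀ j : Fin 27, ¬ cayley.opp (3 : Fin 27) j → y j = u j) ∧
      ∀ l, cayley.val y l = 0 := by
  refine ⟨![u 0, (u 0 * u 4 - u 15 * u 20 - u 16 * u 23 - u 17 * u 26) / u 3, (u 0 * u 5 + u 12 * u 20 + u 13 * u 23 + u 14 * u 26) / u 3, u 3, u 4, u 5, u 6, (u 4 * u 6 + u 15 * u 18 + u 16 * u 21 + u 17 * u 24) / u 3, (u 5 * u 6 - u 12 * u 18 - u 13 * u 21 - u 14 * u 24) / u 3, (-u 21 * u 26 + u 23 * u 24 - u 4 * u 12 - u 5 * u 15) / u 3, (u 18 * u 26 - u 20 * u 24 - u 4 * u 13 - u 5 * u 16) / u 3, (-u 18 * u 23 + u 20 * u 21 - u 4 * u 14 - u 5 * u 17) / u 3, u 12, u 13, u 14, u 15, u 16, u 17, u 18, (u 13 * u 17 - u 14 * u 16 - u 18 * u 0 - u 20 * u 6) / u 3, u 20, u 21, (-u 12 * u 17 + u 14 * u 15 - u 21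 * u 0 - u 23 * u 6) / u 3, u 23, u 24, (u 12 * u 16 - u 13 * u 15 - u 24 * u 0 - u 26 * u 6) / u 3, u 26], ?_, ?_⟩
  · have key : ∀ j : Fin 27, cayley.opp (3 : Fin 27) j ∨ (![u 0, (u 0 * u 4 - u 15 * u 20 - u 16 * u 23 - u 17 * u 26) / u 3, (u 0 * u 5 + u 12 * u 20 + u 13 * u 23 + u 14 * u 26) / u 3, u 3, u 4, u 5, u 6, (u 4 * u 6 + u 15 * u 18 + u 16 * u 21 + u 17 * u 24) / u 3, (u 5 * u 6 - u 12 * u 18 - u 13 * u 21 - u 14 * u 24) / u 3, (-u 21 * u 26 + u 23 * u 24 - u 4 * u 12 - u 5 * u 15) / u 3, (u 18 * u 26 - u 20 * u 24 - u 4 * u 13 - u 5 * u 16) / u 3, (-u 18 * u 23 + u 20 * u 21 - u 4 * u 14 - u 5 * u 17) / u 3, u 12, u 13, u 14, u 15, u 16, u 17, u 18, (u 13 * u 17 - u 14 * u 16 - u 18 * u 0 - u 20 * u 6) / u 3, u 20, u 21, (-u 12 * u 17 + u 14 * u 15 - u 21 * u 0 - u 23 * u 6) / u 3, u 23, u 24, (u 12 * u 16 - u 13 * u 15 - u 24 * u 0 - u 26 * u 6)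 / u 3, u 26] : Fin 27 → K) j = u j := by
      intro j
      fin_cases j
      · exact Or.inr rfl
      · exact Or.inl ⟨(8 : Fin 27), (1 : Fin 5), Or.inr ⟨rfl, rfl⟩⟩
      · exact Or.inl ⟨(5 : Fin 27), (1 : Fin 5), Or.inr ⟨rfl, rfl⟩⟩
      · exact Or.inr rfl
      · exact Or.inr rfl
      · exact Or.inr rfl
      · exact Or.inr rfl
      · exact Or.inl ⟨(6 : Fin 27), (0 : Fin 5), Or.inl ⟨rfl, rfl⟩⟩
      · exact Or.inl ⟨(3 : Fin 27), (0 : Fin 5), Or.inl ⟨rfl, rfl⟩⟩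
      · exact Or.inl ⟨(21 : Fin 27), (2 : Fin 5), Or.inl ⟨rfl, rfl⟩⟩
      · exact Or.inl ⟨(22 : Fin 27), (2 : Fin 5), Or.inl ⟨rfl, rfl⟩⟩
      · exact Or.inl ⟨(23 : Fin 27), (2 : Fin 5), Or.inl ⟨rfl, rfl⟩⟩
      · exact Or.inr rfl
      · exact Or.inr rfl
      · exact Or.inr rfl
      · exact Or.inr rfl
      · exact Or.inr rfl
      · exact Or.inr rfl
      · exact Or.inr rfl
      · exact Or.inl ⟨(9 : Fin 27), (3 : Fin 5), Or.inr ⟨rfl, rfl⟩⟩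
      · exact Or.inr rfl
      · exact Or.inr rfl
      · exact Or.inl ⟨(12 : Fin 27), (3 : Fin 5), Or.inr ⟨rfl, rfl⟩⟩
      · exact Or.inr rfl
      · exact Or.inr rfl
      · exact Or.inl ⟨(15 : Fin 27), (3 : Fin 5), Or.inr ⟨rfl, rfl⟩⟩
      · exact Or.inr rfl
    intro j hj
    exact (key j).resolve_left hj
  · have hl : ∀ l : Fin 27, cayley.val (![u 0, (u 0 * u 4 - u 15 * u 20 - u 16 * u 23 - u 17 * u 26) / u 3, (u 0 * u 5 + u 12 * u 20 + u 13 * u 23 + u 14 * u 26) / u 3, u 3, u 4, u 5, u 6, (u 4 * u 6 + u 15 * u 18 + u 16 * u 21 + u 17 * u 24) / u 3, (u 5 * u 6 - u 12 * u 18 - u 13 * u 21 - u 14 * u 24) / u 3, (-u 21 * u 26 + u 23 * u 24 - u 4 * u 12 - u 5 * u 15) / u 3, (u 18 * u 26 - u 20 * u 24 - u 4 * u 13 - u 5 * u 16) / u 3, (-u 18 * u 23 + u 20 * u 21 - u 4 * u 14 - u 5 * u 17) / u 3, u 12, u 13, u 14, u 15, u 16, u 17, u 18, (u 13 * u 17 - u 14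 * u 16 - u 18 * u 0 - u 20 * u 6) / u 3, u 20, u 21, (-u 12 * u 17 + u 14 * u 15 - u 21 * u 0 - u 23 * u 6) / u 3, u 23, u 24, (u 12 * u 16 - u 13 * u 15 - u 24 * u 0 - u 26 * u 6) / u 3, u 26] : Fin 27 → K) l = 0 := by
      intro l
      unfold QF.val
      fin_cases l
      · show ∑ t : Fin 5, _ = _
        rw [Fin.sum_univ_five]
        show ((1 : ℤ) : K) * (u 4) * ((u 5 * u 6 - u 12 * u 18 - u 13 * u 21 - u 14 * u 24) / u 3) + ((-1 : ℤ) : K) * (u 5) * ((u 4 * u 6 + u 15 * u 18 + u 16 * u 21 + u 17 * u 24) / u 3) + ((-1 : ℤ) : K) * ((-u 21 * u 26 + u 23 * u 24 - u 4 * u 12 - u 5 * u 15) / u 3) * (u 18) + ((-1 : ℤ) : K) * ((u 18 * u 26 - u 20 * u 24 - u 4 * u 13 - u 5 * u 16) / u 3) * (u 21) + ((-1 : ℤ) : K) * ((-u 18 * u 23 + u 20 * u 21 - u 4 * u 14 - u 5 * u 17) / u 3) * (u 24) = 0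
        push_cast
        field_simp
        ring
      · show ∑ t : Fin 5, _ = _
        rw [Fin.sum_univ_five]
        show ((-1 : ℤ) : K) * ((u 0 * u 4 - u 15 * u 20 - u 16 * u 23 - u 17 * u 26) / u 3) * ((u 5 * u 6 - u 12 * u 18 - u 13 * u 21 - u 14 * u 24) / u 3) + ((1 : ℤ) : K) * ((u 0 * u 5 + u 12 * u 20 + u 13 * u 23 + u 14 * u 26) / u 3) * ((u 4 * u 6 + u 15 * u 18 + u 16 * u 21 + u 17 * u 24) / u 3) + ((-1 : ℤ) : K) * ((-u 21 * u 26 + u 23 * u 24 - u 4 * u 12 - u 5 * u 15) / u 3) * ((u 13 * u 17 - u 14 * u 16 - u 18 * u 0 - u 20 * u 6) / u 3) + ((-1 : ℤ) : K) * ((u 18 * u 26 - u 20 * u 24 - u 4 * u 13 - u 5 * u 16) / u 3) * ((-u 12 * u 17 + u 14 * u 15 - u 21 * u 0 - u 23 * u 6) / u 3) + ((-1 : ℤ) : K) * ((-u 18 * u 23 + u 20 * u 21 - u 4 * u 14 - u 5 * u 17) / u 3) * ((u 12 * u 16 - u 13 * u 15 - u 24 * u 0 - u 26 * u 6) / u 3) = 0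
        push_cast
        field_simp
        ring
      · show ∑ t : Fin 5, _ = _
        rw [Fin.sum_univ_five]
        show ((1 : ℤ) : K) * ((u 0 * u 4 - u 15 * u 20 - u 16 * u 23 - u 17 * u 26) / u 3) * (u 5) + ((-1 : ℤ) : K) * ((u 0 * u 5 + u 12 * u 20 + u 13 * u 23 + u 14 * u 26) / u 3) * (u 4) + ((-1 : ℤ) : K) * ((-u 21 * u 26 + u 23 * u 24 - u 4 * u 12 - u 5 * u 15) / u 3) * (u 20) + ((-1 : ℤ) : K) * ((u 18 * u 26 - u 20 * u 24 - u 4 * u 13 - u 5 * u 16) / u 3) * (u 23) + ((-1 : ℤ) : K) * ((-u 18 * u 23 + u 20 * u 21 - u 4 * u 14 - u 5 * u 17) / u 3) * (u 26) = 0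
        push_cast
        field_simp
        ring
      · show ∑ t : Fin 5, _ = _
        rw [Fin.sum_univ_five]
        show ((-1 : ℤ) : K) * (u 3) * ((u 5 * u 6 - u 12 * u 18 - u 13 * u 21 - u 14 * u 24) / u 3) + ((1 : ℤ) : K) * (u 5) * (u 6) + ((-1 : ℤ) : K) * (u 12) * (u 18) + ((-1 : ℤ) : K) * (u 13) * (u 21) + ((-1 : ℤ) : K) * (u 14) * (u 24) = 0
        push_cast
        field_simp
        ring
      · show ∑ t : Fin 5, _ = _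
        rw [Fin.sum_univ_five]
        show ((1 : ℤ) : K) * (u 0) * ((u 5 * u 6 - u 12 * u 18 - u 13 * u 21 - u 14 * u 24) / u 3) + ((-1 : ℤ) : K) * ((u 0 * u 5 + u 12 * u 20 + u 13 * u 23 + u 14 * u 26) / u 3) * (u 6) + ((-1 : ℤ) : K) * (u 12) * ((u 13 * u 17 - u 14 * u 16 - u 18 * u 0 - u 20 * u 6) / u 3) + ((-1 : ℤ) : K) * (u 13) * ((-u 12 * u 17 + u 14 * u 15 - u 21 * u 0 - u 23 * u 6) / u 3) + ((-1 : ℤ) : K) * (u 14) * ((u 12 * u 16 - u 13 * u 15 - u 24 * u 0 - u 26 * u 6) / u 3) = 0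
        push_cast
        field_simp
        ring
      · show ∑ t : Fin 5, _ = _
        rw [Fin.sum_univ_five]
        show ((-1 : ℤ) : K) * (u 0) * (u 5) + ((1 : ℤ) : K) * ((u 0 * u 5 + u 12 * u 20 + u 13 * u 23 + u 14 * u 26) / u 3) * (u 3) + ((-1 : ℤ) : K) * (u 12) * (u 20) + ((-1 : ℤ) : K) * (u 13) * (u 23) + ((-1 : ℤ) : K) * (u 14) * (u 26) = 0
        push_cast
        field_simp
        ring
      · show ∑ t : Fin 5, _ = _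
        rw [Fin.sum_univ_five]
        show ((1 : ℤ) : K) * (u 3) * ((u 4 * u 6 + u 15 * u 18 + u 16 * u 21 + u 17 * u 24) / u 3) + ((-1 : ℤ) : K) * (u 4) * (u 6) + ((-1 : ℤ) : K) * (u 15) * (u 18) + ((-1 : ℤ) : K) * (u 16) * (u 21) + ((-1 : ℤ) : K) * (u 17) * (u 24) = 0
        push_cast
        field_simp
        ring
      · show ∑ t : Fin 5, _ = _
        rw [Fin.sum_univ_five]
        show ((-1 : ℤ) : K) * (u 0) * ((u 4 * u 6 + u 15 * u 18 + u 16 * u 21 + u 17 * u 24) / u 3) + ((1 : ℤ) : K) * ((u 0 * u 4 - u 15 * u 20 - u 16 * u 23 - u 17 * u 26) / u 3) * (u 6) + ((-1 : ℤ) : K) * (u 15) * ((u 13 * u 17 - u 14 * u 16 - u 18 * u 0 - u 20 * u 6) / u 3) + ((-1 : ℤ) : K) * (u 16) * ((-u 12 * u 17 + u 14 * u 15 - u 21 * u 0 - u 23 * u 6) / u 3) + ((-1 : ℤ) : K) * (u 17) * ((u 12 * u 16 - u 13 * u 15 - u 24 * u 0 - u 26 * u 6) / u 3) = 0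
        push_cast
        field_simp
        ring
      · show ∑ t : Fin 5, _ = _
        rw [Fin.sum_univ_five]
        show ((1 : ℤ) : K) * (u 0) * (u 4) + ((-1 : ℤ) : K) * ((u 0 * u 4 - u 15 * u 20 - u 16 * u 23 - u 17 * u 26) / u 3) * (u 3) + ((-1 : ℤ) : K) * (u 15) * (u 20) + ((-1 : ℤ) : K) * (u 16) * (u 23) + ((-1 : ℤ) : K) * (u 17) * (u 26) = 0
        push_cast
        field_simp
        ring
      · show ∑ t : Fin 5, _ = _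
        rw [Fin.sum_univ_five]
        show ((1 : ℤ) : K) * (u 13) * (u 17) + ((-1 : ℤ) : K) * (u 14) * (u 16) + ((-1 : ℤ) : K) * (u 18) * (u 0) + ((-1 : ℤ) : K) * ((u 13 * u 17 - u 14 * u 16 - u 18 * u 0 - u 20 * u 6) / u 3) * (u 3) + ((-1 : ℤ) : K) * (u 20) * (u 6) = 0
        push_cast
        field_simp
        ring
      · show ∑ t : Fin 5, _ = _
        rw [Fin.sum_univ_five]
        show ((-1 : ℤ) : K) * ((u 18 * u 26 - u 20 * u 24 - u 4 * u 13 - u 5 * u 16) / u 3) * (u 17) + ((1 : ℤ) : K) * ((-u 18 * u 23 + u 20 * u 21 - u 4 * u 14 - u 5 * u 17) / u 3) * (u 16) + ((-1 : ℤ) : K) * (u 18) * ((u 0 * u 4 - u 15 * u 20 - u 16 * u 23 - u 17 * u 26) / u 3) + ((-1 : ℤ) : K) * ((u 13 * u 17 - u 14 * u 16 - u 18 * u 0 - u 20 * u 6) / u 3) * (u 4) + ((-1 : ℤ) : K) * (u 20) * ((u 4 * u 6 + u 15 * u 18 + u 16 * u 21 + u 17 * u 24) / u 3) = 0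
        push_cast
        field_simp
        ring
      · show ∑ t : Fin 5, _ = _
        rw [Fin.sum_univ_five]
        show ((1 : ℤ) : K) * ((u 18 * u 26 - u 20 * u 24 - u 4 * u 13 - u 5 * u 16) / u 3) * (u 14) + ((-1 : ℤ) : K) * ((-u 18 * u 23 + u 20 * u 21 - u 4 * u 14 - u 5 * u 17) / u 3) * (u 13) + ((-1 : ℤ) : K) * (u 18) * ((u 0 * u 5 + u 12 * u 20 + u 13 * u 23 + u 14 * u 26) / u 3) + ((-1 : ℤ) : K) * ((u 13 * u 17 - u 14 * u 16 - u 18 * u 0 - u 20 * u 6) / u 3) * (u 5) + ((-1 : ℤ) : K) * (u 20) * ((u 5 * u 6 - u 12 * u 18 - u 13 * u 21 - u 14 * u 24) / u 3) = 0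
        push_cast
        field_simp
        ring
      · show ∑ t : Fin 5, _ = _
        rw [Fin.sum_univ_five]
        show ((-1 : ℤ) : K) * (u 12) * (u 17) + ((1 : ℤ) : K) * (u 14) * (u 15) + ((-1 : ℤ) : K) * (u 21) * (u 0) + ((-1 : ℤ) : K) * ((-u 12 * u 17 + u 14 * u 15 - u 21 * u 0 - u 23 * u 6) / u 3) * (u 3) + ((-1 : ℤ) : K) * (u 23) * (u 6) = 0
        push_cast
        field_simp
        ring
      · show ∑ t : Fin 5, _ = _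
        rw [Fin.sum_univ_five]
        show ((1 : ℤ) : K) * ((-u 21 * u 26 + u 23 * u 24 - u 4 * u 12 - u 5 * u 15) / u 3) * (u 17) + ((-1 : ℤ) : K) * ((-u 18 * u 23 + u 20 * u 21 - u 4 * u 14 - u 5 * u 17) / u 3) * (u 15) + ((-1 : ℤ) : K) * (u 21) * ((u 0 * u 4 - u 15 * u 20 - u 16 * u 23 - u 17 * u 26) / u 3) + ((-1 : ℤ) : K) * ((-u 12 * u 17 + u 14 * u 15 - u 21 * u 0 - u 23 * u 6) / u 3) * (u 4) + ((-1 : ℤ) : K) * (u 23) * ((u 4 * u 6 + u 15 * u 18 + u 16 * u 21 + u 17 * u 24) / u 3) = 0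
        push_cast
        field_simp
        ring
      · show ∑ t : Fin 5, _ = _
        rw [Fin.sum_univ_five]
        show ((-1 : ℤ) : K) * ((-u 21 * u 26 + u 23 * u 24 - u 4 * u 12 - u 5 * u 15) / u 3) * (u 14) + ((1 : ℤ) : K) * ((-u 18 * u 23 + u 20 * u 21 - u 4 * u 14 - u 5 * u 17) / u 3) * (u 12) + ((-1 : ℤ) : K) * (u 21) * ((u 0 * u 5 + u 12 * u 20 + u 13 * u 23 + u 14 * u 26) / u 3) + ((-1 : ℤ) : K) * ((-u 12 * u 17 + u 14 * u 15 - u 21 * u 0 - u 23 * u 6) / u 3) * (u 5) + ((-1 : ℤ) : K) * (u 23) * ((u 5 * u 6 - u 12 * u 18 - u 13 * u 21 - u 14 * u 24) / u 3) = 0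
        push_cast
        field_simp
        ring
      · show ∑ t : Fin 5, _ = _
        rw [Fin.sum_univ_five]
        show ((1 : ℤ) : K) * (u 12) * (u 16) + ((-1 : ℤ) : K) * (u 13) * (u 15) + ((-1 : ℤ) : K) * (u 24) * (u 0) + ((-1 : ℤ) : K) * ((u 12 * u 16 - u 13 * u 15 - u 24 * u 0 - u 26 * u 6) / u 3) * (u 3) + ((-1 : ℤ) : K) * (u 26) * (u 6) = 0
        push_cast
        field_simp
        ring
      · show ∑ t : Fin 5, _ = _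
        rw [Fin.sum_univ_five]
        show ((-1 : ℤ) : K) * ((-u 21 * u 26 + u 23 * u 24 - u 4 * u 12 - u 5 * u 15) / u 3) * (u 16) + ((1 : ℤ) : K) * ((u 18 * u 26 - u 20 * u 24 - u 4 * u 13 - u 5 * u 16) / u 3) * (u 15) + ((-1 : ℤ) : K) * (u 24) * ((u 0 * u 4 - u 15 * u 20 - u 16 * u 23 - u 17 * u 26) / u 3) + ((-1 : ℤ) : K) * ((u 12 * u 16 - u 13 * u 15 - u 24 * u 0 - u 26 * u 6) / u 3) * (u 4) + ((-1 : ℤ) : K) * (u 26) * ((u 4 * u 6 + u 15 * u 18 + u 16 * u 21 + u 17 * u 24) / u 3) = 0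
        push_cast
        field_simp
        ring
      · show ∑ t : Fin 5, _ = _
        rw [Fin.sum_univ_five]
        show ((1 : ℤ) : K) * ((-u 21 * u 26 + u 23 * u 24 - u 4 * u 12 - u 5 * u 15) / u 3) * (u 13) + ((-1 : ℤ) : K) * ((u 18 * u 26 - u 20 * u 24 - u 4 * u 13 - u 5 * u 16) / u 3) * (u 12) + ((-1 : ℤ) : K) * (u 24) * ((u 0 * u 5 + u 12 * u 20 + u 13 * u 23 + u 14 * u 26) / u 3) + ((-1 : ℤ) : K) * ((u 12 * u 16 - u 13 * u 15 - u 24 * u 0 - u 26 * u 6) / u 3) * (u 5) + ((-1 : ℤ) : K) * (u 26) * ((u 5 * u 6 - u 12 * u 18 - u 13 * u 21 - u 14 * u 24) / u 3) = 0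
        push_cast
        field_simp
        ring
      · show ∑ t : Fin 5, _ = _
        rw [Fin.sum_univ_five]
        show ((1 : ℤ) : K) * ((-u 12 * u 17 + u 14 * u 15 - u 21 * u 0 - u 23 * u 6) / u 3) * (u 26) + ((-1 : ℤ) : K) * (u 23) * ((u 12 * u 16 - u 13 * u 15 - u 24 * u 0 - u 26 * u 6) / u 3) + ((-1 : ℤ) : K) * (u 0) * ((-u 21 * u 26 + u 23 * u 24 - u 4 * u 12 - u 5 * u 15) / u 3) + ((-1 : ℤ) : K) * ((u 0 * u 4 - u 15 * u 20 - u 16 * u 23 - u 17 * u 26) / u 3) * (u 12) + ((-1 : ℤ) : K) * ((u 0 * u 5 + u 12 * u 20 + u 13 * u 23 + u 14 * u 26) / u 3) * (u 15) = 0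
        push_cast
        field_simp
        ring
      · show ∑ t : Fin 5, _ = _
        rw [Fin.sum_univ_five]
        show ((-1 : ℤ) : K) * ((u 13 * u 17 - u 14 * u 16 - u 18 * u 0 - u 20 * u 6) / u 3) * (u 26) + ((1 : ℤ) : K) * (u 20) * ((u 12 * u 16 - u 13 * u 15 - u 24 * u 0 - u 26 * u 6) / u 3) + ((-1 : ℤ) : K) * (u 0) * ((u 18 * u 26 - u 20 * u 24 - u 4 * u 13 - u 5 * u 16) / u 3) + ((-1 : ℤ) : K) * ((u 0 * u 4 - u 15 * u 20 - u 16 * u 23 - u 17 * u 26) / u 3) * (u 13) + ((-1 : ℤ) : K) * ((u 0 * u 5 + u 12 * u 20 + u 13 * u 23 + u 14 * u 26) / u 3) * (u 16) = 0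
        push_cast
        field_simp
        ring
      · show ∑ t : Fin 5, _ = _
        rw [Fin.sum_univ_five]
        show ((1 : ℤ) : K) * ((u 13 * u 17 - u 14 * u 16 - u 18 * u 0 - u 20 * u 6) / u 3) * (u 23) + ((-1 : ℤ) : K) * (u 20) * ((-u 12 * u 17 + u 14 * u 15 - u 21 * u 0 - u 23 * u 6) / u 3) + ((-1 : ℤ) : K) * (u 0) * ((-u 18 * u 23 + u 20 * u 21 - u 4 * u 14 - u 5 * u 17) / u 3) + ((-1 : ℤ) : K) * ((u 0 * u 4 - u 15 * u 20 - u 16 * u 23 - u 17 * u 26) / u 3) * (u 14) + ((-1 : ℤ) : K) * ((u 0 * u 5 + u 12 * u 20 + u 13 * u 23 + u 14 * u 26) / u 3) * (u 17) = 0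
        push_cast
        field_simp
        ring
      · show ∑ t : Fin 5, _ = _
        rw [Fin.sum_univ_five]
        show ((-1 : ℤ) : K) * (u 21) * (u 26) + ((1 : ℤ) : K) * (u 23) * (u 24) + ((-1 : ℤ) : K) * (u 3) * ((-u 21 * u 26 + u 23 * u 24 - u 4 * u 12 - u 5 * u 15) / u 3) + ((-1 : ℤ) : K) * (u 4) * (u 12) + ((-1 : ℤ) : K) * (u 5) * (u 15) = 0
        push_cast
        field_simp
        ring
      · show ∑ t : Fin 5, _ = _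
        rw [Fin.sum_univ_five]
        show ((1 : ℤ) : K) * (u 18) * (u 26) + ((-1 : ℤ) : K) * (u 20) * (u 24) + ((-1 : ℤ) : K) * (u 3) * ((u 18 * u 26 - u 20 * u 24 - u 4 * u 13 - u 5 * u 16) / u 3) + ((-1 : ℤ) : K) * (u 4) * (u 13) + ((-1 : ℤ) : K) * (u 5) * (u 16) = 0
        push_cast
        field_simp
        ring
      · show ∑ t : Fin 5, _ = _
        rw [Fin.sum_univ_five]
        show ((-1 : ℤ) : K) * (u 18) * (u 23) + ((1 : ℤ) : K) * (u 20) * (u 21) + ((-1 : ℤ) : K) * (u 3) * ((-u 18 * u 23 + u 20 * u 21 - u 4 * u 14 - u 5 * u 17) / u 3) + ((-1 : ℤ) : K) * (u 4) * (u 14) + ((-1 : ℤ) : K) * (u 5) * (u 17) = 0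
        push_cast
        field_simp
        ring
      · show ∑ t : Fin 5, _ = _
        rw [Fin.sum_univ_five]
        show ((1 : ℤ) : K) * (u 21) * ((u 12 * u 16 - u 13 * u 15 - u 24 * u 0 - u 26 * u 6) / u 3) + ((-1 : ℤ) : K) * ((-u 12 * u 17 + u 14 * u 15 - u 21 * u 0 - u 23 * u 6) / u 3) * (u 24) + ((-1 : ℤ) : K) * (u 6) * ((-u 21 * u 26 + u 23 * u 24 - u 4 * u 12 - u 5 * u 15) / u 3) + ((-1 : ℤ) : K) * ((u 4 * u 6 + u 15 * u 18 + u 16 * u 21 + u 17 * u 24) / u 3) * (u 12) + ((-1 : ℤ) : K) * ((u 5 * u 6 - u 12 * u 18 - u 13 * u 21 - u 14 * u 24) / u 3) * (u 15) = 0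
        push_cast
        field_simp
        ring
      · show ∑ t : Fin 5, _ = _
        rw [Fin.sum_univ_five]
        show ((-1 : ℤ) : K) * (u 18) * ((u 12 * u 16 - u 13 * u 15 - u 24 * u 0 - u 26 * u 6) / u 3) + ((1 : ℤ) : K) * ((u 13 * u 17 - u 14 * u 16 - u 18 * u 0 - u 20 * u 6) / u 3) * (u 24) + ((-1 : ℤ) : K) * (u 6) * ((u 18 * u 26 - u 20 * u 24 - u 4 * u 13 - u 5 * u 16) / u 3) + ((-1 : ℤ) : K) * ((u 4 * u 6 + u 15 * u 18 + u 16 * u 21 + u 17 * u 24) / u 3) * (u 13) + ((-1 : ℤ) : K) * ((u 5 * u 6 - u 12 * u 18 - u 13 * u 21 - u 14 * u 24) / u 3) * (u 16) = 0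
        push_cast
        field_simp
        ring
      · show ∑ t : Fin 5, _ = _
        rw [Fin.sum_univ_five]
        show ((1 : ℤ) : K) * (u 18) * ((-u 12 * u 17 + u 14 * u 15 - u 21 * u 0 - u 23 * u 6) / u 3) + ((-1 : ℤ) : K) * ((u 13 * u 17 - u 14 * u 16 - u 18 * u 0 - u 20 * u 6) / u 3) * (u 21) + ((-1 : ℤ) : K) * (u 6) * ((-u 18 * u 23 + u 20 * u 21 - u 4 * u 14 - u 5 * u 17) / u 3) + ((-1 : ℤ) : K) * ((u 4 * u 6 + u 15 * u 18 + u 16 * u 21 + u 17 * u 24) / u 3) * (u 14) + ((-1 : ℤ) : K) * ((u 5 * u 6 - u 12 * u 18 - u 13 * u 21 - u 14 * u 24) / u 3) * (u 17) = 0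
        push_cast
        field_simp
        ring
    exact hl

theorem cayley_pt_4 {K : Type} [Field K] (u : Fin 27 → K) (h : u 4 ≠ 0) :
    ∃ y : Fin 27 → K, (∀ j : Fin 27, ¬ cayley.opp (4 : Fin 27) j → y j = u j) ∧
      ∀ l, cayley.val y l = 0 := by
  refine ⟨![(u 1 * u 3 + u 15 * u 20 + u 16 * u 23 + u 17 * u 26) / u 4, u 1, (u 1 * u 5 - u 9 * u 20 - u 10 * u 23 - u 11 * u 26) / u 4, u 3, u 4, u 5, (u 3 * u 7 - u 15 * u 18 - u 16 * u 21 - u 17 * u 24) / u 4, u 7, (u 5 * u 7 + u 9 * u 18 + u 10 * u 21 + u 11 * u 24) / u 4, u 9, u 10, u 11, (-u 21 * u 26 + u 23 * u 24 - u 3 * u 9 - u 5 * u 15) / u 4, (u 18 * u 26 - u 20 * u 24 - u 3 * u 10 - u 5 * u 16) / u 4, (-u 18 * u 23 + u 20 * u 21 - u 3 * u 11 - u 5 * u 17) / u 4, u 15, u 16, u 17, u 18, (-u 10 * u 17 + u 11 * u 16 - u 18 * u 1 - u 20 * u 7) / u 4, u 20, u 21, (u 9 * u 17 - u 11 * u 15 - u 21 * u 1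 - u 23 * u 7) / u 4, u 23, u 24, (-u 9 * u 16 + u 10 * u 15 - u 24 * u 1 - u 26 * u 7) / u 4, u 26], ?_, ?_⟩
  · have key : ∀ j : Fin 27, cayley.opp (4 : Fin 27) j ∨ (![(u 1 * u 3 + u 15 * u 20 + u 16 * u 23 + u 17 * u 26) / u 4, u 1, (u 1 * u 5 - u 9 * u 20 - u 10 * u 23 - u 11 * u 26) / u 4, u 3, u 4, u 5, (u 3 * u 7 - u 15 * u 18 - u 16 * u 21 - u 17 * u 24) / u 4, u 7, (u 5 * u 7 + u 9 * u 18 + u 10 * u 21 + u 11 * u 24) / u 4, u 9, u 10, u 11, (-u 21 * u 26 + u 23 * u 24 - u 3 * u 9 - u 5 * u 15) / u 4, (u 18 * u 26 - u 20 * u 24 - u 3 * u 10 - u 5 * u 16) / u 4, (-u 18 * u 23 + u 20 * u 21 - u 3 * u 11 - u 5 * u 17) / u 4, u 15, u 16, u 17, u 18, (-u 10 * u 17 + u 11 * u 16 - u 18 * u 1 - u 20 * u 7) / u 4, u 20, u 21, (u 9 * u 17 - u 11 * u 15 - u 21 * u 1 - u 23 * u 7) / u 4, u 23, u 24, (-u 9 * u 16 + u 10 * u 15 - u 24 * u 1 - u 26 * u 7) / u 4, u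 26] : Fin 27 → K) j = u j := by
      intro j
      fin_cases j
      · exact Or.inl ⟨(8 : Fin 27), (0 : Fin 5), Or.inr ⟨rfl, rfl⟩⟩
      · exact Or.inr rfl
      · exact Or.inl ⟨(2 : Fin 27), (1 : Fin 5), Or.inr ⟨rfl, rfl⟩⟩
      · exact Or.inr rfl
      · exact Or.inr rfl
      · exact Or.inr rfl
      · exact Or.inl ⟨(6 : Fin 27), (1 : Fin 5), Or.inl ⟨rfl, rfl⟩⟩
      · exact Or.inr rfl
      · exact Or.inl ⟨(0 : Fin 27), (0 : Fin 5), Or.inl ⟨rfl, rfl⟩⟩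
      · exact Or.inr rfl
      · exact Or.inr rfl
      · exact Or.inr rfl
      · exact Or.inl ⟨(21 : Fin 27), (3 : Fin 5), Or.inl ⟨rfl, rfl⟩⟩
      · exact Or.inl ⟨(22 : Fin 27), (3 : Fin 5), Or.inl ⟨rfl, rfl⟩⟩
      · exact Or.inl ⟨(23 : Fin 27), (3 : Fin 5), Or.inl ⟨rfl, rfl⟩⟩
      · exact Or.inr rfl
      · exact Or.inr rfl
      · exact Or.inr rfl
      · exact Or.inr rfl
      · exact Or.inl ⟨(10 : Fin 27), (3 : Fin 5), Or.inr ⟨rfl, rfl⟩⟩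
      · exact Or.inr rfl
      · exact Or.inr rfl
      · exact Or.inl ⟨(13 : Fin 27), (3 : Fin 5), Or.inr ⟨rfl, rfl⟩⟩
      · exact Or.inr rfl
      · exact Or.inr rfl
      · exact Or.inl ⟨(16 : Fin 27), (3 : Fin 5), Or.inr ⟨rfl, rfl⟩⟩
      · exact Or.inr rfl
    intro j hj
    exact (key j).resolve_left hj
  · have hl : ∀ l : Fin 27, cayley.val (![(u 1 * u 3 + u 15 * u 20 + u 16 * u 23 + u 17 * u 26) / u 4, u 1, (u 1 * u 5 - u 9 * u 20 - u 10 * u 23 - u 11 * u 26) / u 4, u 3, u 4, u 5, (u 3 * u 7 - u 15 * u 18 - u 16 * u 21 - u 17 * u 24) / u 4, u 7, (u 5 * u 7 + u 9 * u 18 + u 10 * u 21 + u 11 * u 24) / u 4, u 9, u 10, u 11, (-u 21 * u 26 + u 23 * u 24 - u 3 * u 9 - u 5 * u 15) / u 4, (u 18 * u 26 - u 20 * u 24 - u 3 * u 10 - u 5 * u 16) / u 4, (-u 18 * u 23 + u 20 * u 21 - u 3 * u 11 - u 5 * u 17) / u 4, u 15, u 16, u 17, u 18, (-u 10 * u 17 + u 11 * u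 16 - u 18 * u 1 - u 20 * u 7) / u 4, u 20, u 21, (u 9 * u 17 - u 11 * u 15 - u 21 * u 1 - u 23 * u 7) / u 4, u 23, u 24, (-u 9 * u 16 + u 10 * u 15 - u 24 * u 1 - u 26 * u 7) / u 4, u 26] : Fin 27 → K) l = 0 := by
      intro l
      unfold QF.val
      fin_cases l
      · show ∑ t : Fin 5, _ = _
        rw [Fin.sum_univ_five]
        show ((1 : ℤ) : K) * (u 4) * ((u 5 * u 7 + u 9 * u 18 + u 10 * u 21 + u 11 * u 24) / u 4) + ((-1 : ℤ) : K) * (u 5) * (u 7) + ((-1 : ℤ) : K) * (u 9) * (u 18) + ((-1 : ℤ) : K) * (u 10) * (u 21) + ((-1 : ℤ) : K) * (u 11) * (u 24) = 0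
        push_cast
        field_simp
        ring
      · show ∑ t : Fin 5, _ = _
        rw [Fin.sum_univ_five]
        show ((-1 : ℤ) : K) * (u 1) * ((u 5 * u 7 + u 9 * u 18 + u 10 * u 21 + u 11 * u 24) / u 4) + ((1 : ℤ) : K) * ((u 1 * u 5 - u 9 * u 20 - u 10 * u 23 - u 11 * u 26) / u 4) * (u 7) + ((-1 : ℤ) : K) * (u 9) * ((-u 10 * u 17 + u 11 * u 16 - u 18 * u 1 - u 20 * u 7) / u 4) + ((-1 : ℤ) : K) * (u 10) * ((u 9 * u 17 - u 11 * u 15 - u 21 * u 1 - u 23 * u 7) / u 4) + ((-1 : ℤ) : K) * (u 11) * ((-u 9 * u 16 + u 10 * u 15 - u 24 * u 1 - u 26 * u 7) / u 4) = 0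
        push_cast
        field_simp
        ring
      · show ∑ t : Fin 5, _ = _
        rw [Fin.sum_univ_five]
        show ((1 : ℤ) : K) * (u 1) * (u 5) + ((-1 : ℤ) : K) * ((u 1 * u 5 - u 9 * u 20 - u 10 * u 23 - u 11 * u 26) / u 4) * (u 4) + ((-1 : ℤ) : K) * (u 9) * (u 20) + ((-1 : ℤ) : K) * (u 10) * (u 23) + ((-1 : ℤ) : K) * (u 11) * (u 26) = 0
        push_cast
        field_simp
        ring
      · show ∑ t : Fin 5, _ = _
        rw [Fin.sum_univ_five]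
        show ((-1 : ℤ) : K) * (u 3) * ((u 5 * u 7 + u 9 * u 18 + u 10 * u 21 + u 11 * u 24) / u 4) + ((1 : ℤ) : K) * (u 5) * ((u 3 * u 7 - u 15 * u 18 - u 16 * u 21 - u 17 * u 24) / u 4) + ((-1 : ℤ) : K) * ((-u 21 * u 26 + u 23 * u 24 - u 3 * u 9 - u 5 * u 15) / u 4) * (u 18) + ((-1 : ℤ) : K) * ((u 18 * u 26 - u 20 * u 24 - u 3 * u 10 - u 5 * u 16) / u 4) * (u 21) + ((-1 : ℤ) : K) * ((-u 18 * u 23 + u 20 * u 21 - u 3 * u 11 - u 5 * u 17) / u 4) * (u 24) = 0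
        push_cast
        field_simp
        ring
      · show ∑ t : Fin 5, _ = _
        rw [Fin.sum_univ_five]
        show ((1 : ℤ) : K) * ((u 1 * u 3 + u 15 * u 20 + u 16 * u 23 + u 17 * u 26) / u 4) * ((u 5 * u 7 + u 9 * u 18 + u 10 * u 21 + u 11 * u 24) / u 4) + ((-1 : ℤ) : K) * ((u 1 * u 5 - u 9 * u 20 - u 10 * u 23 - u 11 * u 26) / u 4) * ((u 3 * u 7 - u 15 * u 18 - u 16 * u 21 - u 17 * u 24) / u 4) + ((-1 : ℤ) : K) * ((-u 21 * u 26 + u 23 * u 24 - u 3 * u 9 - u 5 * u 15) / u 4) * ((-u 10 * u 17 + u 11 * u 16 - u 18 * u 1 - u 20 * u 7) / u 4) + ((-1 : ℤ) : K) * ((u 18 * u 26 - u 20 * u 24 - u 3 * u 10 - u 5 * u 16) / u 4) * ((u 9 * u 17 - u 11 * u 15 - u 21 * u 1 - u 23 * u 7) / u 4) + ((-1 : ℤ) : K) * ((-u 18 * u 23 + u 20 * u 21 - u 3 * u 11 - u 5 * u 17) / u 4) * ((-u 9 * u 16 + u 10 * u 15 - u 24 * u 1 - u 26 * u 7) / u 4) = 0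
        push_cast
        field_simp
        ring
      · show ∑ t : Fin 5, _ = _
        rw [Fin.sum_univ_five]
        show ((-1 : ℤ) : K) * ((u 1 * u 3 + u 15 * u 20 + u 16 * u 23 + u 17 * u 26) / u 4) * (u 5) + ((1 : ℤ) : K) * ((u 1 * u 5 - u 9 * u 20 - u 10 * u 23 - u 11 * u 26) / u 4) * (u 3) + ((-1 : ℤ) : K) * ((-u 21 * u 26 + u 23 * u 24 - u 3 * u 9 - u 5 * u 15) / u 4) * (u 20) + ((-1 : ℤ) : K) * ((u 18 * u 26 - u 20 * u 24 - u 3 * u 10 - u 5 * u 16) / u 4) * (u 23) + ((-1 : ℤ) : K) * ((-u 18 * u 23 + u 20 * u 21 - u 3 * u 11 - u 5 * u 17) / u 4) * (u 26) = 0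
        push_cast
        field_simp
        ring
      · show ∑ t : Fin 5, _ = _
        rw [Fin.sum_univ_five]
        show ((1 : ℤ) : K) * (u 3) * (u 7) + ((-1 : ℤ) : K) * (u 4) * ((u 3 * u 7 - u 15 * u 18 - u 16 * u 21 - u 17 * u 24) / u 4) + ((-1 : ℤ) : K) * (u 15) * (u 18) + ((-1 : ℤ) : K) * (u 16) * (u 21) + ((-1 : ℤ) : K) * (u 17) * (u 24) = 0
        push_cast
        field_simp
        ring
      · show ∑ t : Fin 5, _ = _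
        rw [Fin.sum_univ_five]
        show ((-1 : ℤ) : K) * ((u 1 * u 3 + u 15 * u 20 + u 16 * u 23 + u 17 * u 26) / u 4) * (u 7) + ((1 : ℤ) : K) * (u 1) * ((u 3 * u 7 - u 15 * u 18 - u 16 * u 21 - u 17 * u 24) / u 4) + ((-1 : ℤ) : K) * (u 15) * ((-u 10 * u 17 + u 11 * u 16 - u 18 * u 1 - u 20 * u 7) / u 4) + ((-1 : ℤ) : K) * (u 16) * ((u 9 * u 17 - u 11 * u 15 - u 21 * u 1 - u 23 * u 7) / u 4) + ((-1 : ℤ) : K) * (u 17) * ((-u 9 * u 16 + u 10 * u 15 - u 24 * u 1 - u 26 * u 7) / u 4) = 0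
        push_cast
        field_simp
        ring
      · show ∑ t : Fin 5, _ = _
        rw [Fin.sum_univ_five]
        show ((1 : ℤ) : K) * ((u 1 * u 3 + u 15 * u 20 + u 16 * u 23 + u 17 * u 26) / u 4) * (u 4) + ((-1 : ℤ) : K) * (u 1) * (u 3) + ((-1 : ℤ) : K) * (u 15) * (u 20) + ((-1 : ℤ) : K) * (u 16) * (u 23) + ((-1 : ℤ) : K) * (u 17) * (u 26) = 0
        push_cast
        field_simp
        ring
      · show ∑ t : Fin 5, _ = _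
        rw [Fin.sum_univ_five]
        show ((1 : ℤ) : K) * ((u 18 * u 26 - u 20 * u 24 - u 3 * u 10 - u 5 * u 16) / u 4) * (u 17) + ((-1 : ℤ) : K) * ((-u 18 * u 23 + u 20 * u 21 - u 3 * u 11 - u 5 * u 17) / u 4) * (u 16) + ((-1 : ℤ) : K) * (u 18) * ((u 1 * u 3 + u 15 * u 20 + u 16 * u 23 + u 17 * u 26) / u 4) + ((-1 : ℤ) : K) * ((-u 10 * u 17 + u 11 * u 16 - u 18 * u 1 - u 20 * u 7) / u 4) * (u 3) + ((-1 : ℤ) : K) * (u 20) * ((u 3 * u 7 - u 15 * u 18 - u 16 * u 21 - u 17 * u 24) / u 4) = 0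
        push_cast
        field_simp
        ring
      · show ∑ t : Fin 5, _ = _
        rw [Fin.sum_univ_five]
        show ((-1 : ℤ) : K) * (u 10) * (u 17) + ((1 : ℤ) : K) * (u 11) * (u 16) + ((-1 : ℤ) : K) * (u 18) * (u 1) + ((-1 : ℤ) : K) * ((-u 10 * u 17 + u 11 * u 16 - u 18 * u 1 - u 20 * u 7) / u 4) * (u 4) + ((-1 : ℤ) : K) * (u 20) * (u 7) = 0
        push_cast
        field_simp
        ring
      · show ∑ t : Fin 5, _ = _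
        rw [Fin.sum_univ_five]
        show ((1 : ℤ) : K) * (u 10) * ((-u 18 * u 23 + u 20 * u 21 - u 3 * u 11 - u 5 * u 17) / u 4) + ((-1 : ℤ) : K) * (u 11) * ((u 18 * u 26 - u 20 * u 24 - u 3 * u 10 - u 5 * u 16) / u 4) + ((-1 : ℤ) : K) * (u 18) * ((u 1 * u 5 - u 9 * u 20 - u 10 * u 23 - u 11 * u 26) / u 4) + ((-1 : ℤ) : K) * ((-u 10 * u 17 + u 11 * u 16 - u 18 * u 1 - u 20 * u 7) / u 4) * (u 5) + ((-1 : ℤ) : K) * (u 20) * ((u 5 * u 7 + u 9 * u 18 + u 10 * u 21 + u 11 * u 24) / u 4) = 0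
        push_cast
        field_simp
        ring
      · show ∑ t : Fin 5, _ = _
        rw [Fin.sum_univ_five]
        show ((-1 : ℤ) : K) * ((-u 21 * u 26 + u 23 * u 24 - u 3 * u 9 - u 5 * u 15) / u 4) * (u 17) + ((1 : ℤ) : K) * ((-u 18 * u 23 + u 20 * u 21 - u 3 * u 11 - u 5 * u 17) / u 4) * (u 15) + ((-1 : ℤ) : K) * (u 21) * ((u 1 * u 3 + u 15 * u 20 + u 16 * u 23 + u 17 * u 26) / u 4) + ((-1 : ℤ) : K) * ((u 9 * u 17 - u 11 * u 15 - u 21 * u 1 - u 23 * u 7) / u 4) * (u 3) + ((-1 : ℤ) : K) * (u 23) * ((u 3 * u 7 - u 15 * u 18 - u 16 * u 21 - u 17 * u 24) / u 4) = 0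
        push_cast
        field_simp
        ring
      · show ∑ t : Fin 5, _ = _
        rw [Fin.sum_univ_five]
        show ((1 : ℤ) : K) * (u 9) * (u 17) + ((-1 : ℤ) : K) * (u 11) * (u 15) + ((-1 : ℤ) : K) * (u 21) * (u 1) + ((-1 : ℤ) : K) * ((u 9 * u 17 - u 11 * u 15 - u 21 * u 1 - u 23 * u 7) / u 4) * (u 4) + ((-1 : ℤ) : K) * (u 23) * (u 7) = 0
        push_cast
        field_simp
        ring
      · show ∑ t : Fin 5, _ = _
        rw [Fin.sum_univ_five]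
        show ((-1 : ℤ) : K) * (u 9) * ((-u 18 * u 23 + u 20 * u 21 - u 3 * u 11 - u 5 * u 17) / u 4) + ((1 : ℤ) : K) * (u 11) * ((-u 21 * u 26 + u 23 * u 24 - u 3 * u 9 - u 5 * u 15) / u 4) + ((-1 : ℤ) : K) * (u 21) * ((u 1 * u 5 - u 9 * u 20 - u 10 * u 23 - u 11 * u 26) / u 4) + ((-1 : ℤ) : K) * ((u 9 * u 17 - u 11 * u 15 - u 21 * u 1 - u 23 * u 7) / u 4) * (u 5) + ((-1 : ℤ) : K) * (u 23) * ((u 5 * u 7 + u 9 * u 18 + u 10 * u 21 + u 11 * u 24) / u 4) = 0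
        push_cast
        field_simp
        ring
      · show ∑ t : Fin 5, _ = _
        rw [Fin.sum_univ_five]
        show ((1 : ℤ) : K) * ((-u 21 * u 26 + u 23 * u 24 - u 3 * u 9 - u 5 * u 15) / u 4) * (u 16) + ((-1 : ℤ) : K) * ((u 18 * u 26 - u 20 * u 24 - u 3 * u 10 - u 5 * u 16) / u 4) * (u 15) + ((-1 : ℤ) : K) * (u 24) * ((u 1 * u 3 + u 15 * u 20 + u 16 * u 23 + u 17 * u 26) / u 4) + ((-1 : ℤ) : K) * ((-u 9 * u 16 + u 10 * u 15 - u 24 * u 1 - u 26 * u 7) / u 4) * (u 3) + ((-1 : ℤ) : K) * (u 26) * ((u 3 * u 7 - u 15 * u 18 - u 16 * u 21 - u 17 * u 24) / u 4) = 0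
        push_cast
        field_simp
        ring
      · show ∑ t : Fin 5, _ = _
        rw [Fin.sum_univ_five]
        show ((-1 : ℤ) : K) * (u 9) * (u 16) + ((1 : ℤ) : K) * (u 10) * (u 15) + ((-1 : ℤ) : K) * (u 24) * (u 1) + ((-1 : ℤ) : K) * ((-u 9 * u 16 + u 10 * u 15 - u 24 * u 1 - u 26 * u 7) / u 4) * (u 4) + ((-1 : ℤ) : K) * (u 26) * (u 7) = 0
        push_cast
        field_simp
        ring
      · show ∑ t : Fin 5, _ = _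
        rw [Fin.sum_univ_five]
        show ((1 : ℤ) : K) * (u 9) * ((u 18 * u 26 - u 20 * u 24 - u 3 * u 10 - u 5 * u 16) / u 4) + ((-1 : ℤ) : K) * (u 10) * ((-u 21 * u 26 + u 23 * u 24 - u 3 * u 9 - u 5 * u 15) / u 4) + ((-1 : ℤ) : K) * (u 24) * ((u 1 * u 5 - u 9 * u 20 - u 10 * u 23 - u 11 * u 26) / u 4) + ((-1 : ℤ) : K) * ((-u 9 * u 16 + u 10 * u 15 - u 24 * u 1 - u 26 * u 7) / u 4) * (u 5) + ((-1 : ℤ) : K) * (u 26) * ((u 5 * u 7 + u 9 * u 18 + u 10 * u 21 + u 11 * u 24) / u 4) = 0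
        push_cast
        field_simp
        ring
      · show ∑ t : Fin 5, _ = _
        rw [Fin.sum_univ_five]
        show ((1 : ℤ) : K) * ((u 9 * u 17 - u 11 * u 15 - u 21 * u 1 - u 23 * u 7) / u 4) * (u 26) + ((-1 : ℤ) : K) * (u 23) * ((-u 9 * u 16 + u 10 * u 15 - u 24 * u 1 - u 26 * u 7) / u 4) + ((-1 : ℤ) : K) * ((u 1 * u 3 + u 15 * u 20 + u 16 * u 23 + u 17 * u 26) / u 4) * (u 9) + ((-1 : ℤ) : K) * (u 1) * ((-u 21 * u 26 + u 23 * u 24 - u 3 * u 9 - u 5 * u 15) / u 4) + ((-1 : ℤ) : K) * ((u 1 * u 5 - u 9 * u 20 - u 10 * u 23 - u 11 * u 26) / u 4) * (u 15) = 0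
        push_cast
        field_simp
        ring
      · show ∑ t : Fin 5, _ = _
        rw [Fin.sum_univ_five]
        show ((-1 : ℤ) : K) * ((-u 10 * u 17 + u 11 * u 16 - u 18 * u 1 - u 20 * u 7) / u 4) * (u 26) + ((1 : ℤ) : K) * (u 20) * ((-u 9 * u 16 + u 10 * u 15 - u 24 * u 1 - u 26 * u 7) / u 4) + ((-1 : ℤ) : K) * ((u 1 * u 3 + u 15 * u 20 + u 16 * u 23 + u 17 * u 26) / u 4) * (u 10) + ((-1 : ℤ) : K) * (u 1) * ((u 18 * u 26 - u 20 * u 24 - u 3 * u 10 - u 5 * u 16) / u 4) + ((-1 : ℤ) : K) * ((u 1 * u 5 - u 9 * u 20 - u 10 * u 23 - u 11 * u 26) / u 4) * (u 16) = 0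
        push_cast
        field_simp
        ring
      · show ∑ t : Fin 5, _ = _
        rw [Fin.sum_univ_five]
        show ((1 : ℤ) : K) * ((-u 10 * u 17 + u 11 * u 16 - u 18 * u 1 - u 20 * u 7) / u 4) * (u 23) + ((-1 : ℤ) : K) * (u 20) * ((u 9 * u 17 - u 11 * u 15 - u 21 * u 1 - u 23 * u 7) / u 4) + ((-1 : ℤ) : K) * ((u 1 * u 3 + u 15 * u 20 + u 16 * u 23 + u 17 * u 26) / u 4) * (u 11) + ((-1 : ℤ) : K) * (u 1) * ((-u 18 * u 23 + u 20 * u 21 - u 3 * u 11 - u 5 * u 17) / u 4) + ((-1 : ℤ) : K) * ((u 1 * u 5 - u 9 * u 20 - u 10 * u 23 - u 11 * u 26) / u 4) * (u 17) = 0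
        push_cast
        field_simp
        ring
      · show ∑ t : Fin 5, _ = _
        rw [Fin.sum_univ_five]
        show ((-1 : ℤ) : K) * (u 21) * (u 26) + ((1 : ℤ) : K) * (u 23) * (u 24) + ((-1 : ℤ) : K) * (u 3) * (u 9) + ((-1 : ℤ) : K) * (u 4) * ((-u 21 * u 26 + u 23 * u 24 - u 3 * u 9 - u 5 * u 15) / u 4) + ((-1 : ℤ) : K) * (u 5) * (u 15) = 0
        push_cast
        field_simp
        ring
      · show ∑ t : Fin 5, _ = _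
        rw [Fin.sum_univ_five]
        show ((1 : ℤ) : K) * (u 18) * (u 26) + ((-1 : ℤ) : K) * (u 20) * (u 24) + ((-1 : ℤ) : K) * (u 3) * (u 10) + ((-1 : ℤ) : K) * (u 4) * ((u 18 * u 26 - u 20 * u 24 - u 3 * u 10 - u 5 * u 16) / u 4) + ((-1 : ℤ) : K) * (u 5) * (u 16) = 0
        push_cast
        field_simp
        ring
      · show ∑ t : Fin 5, _ = _
        rw [Fin.sum_univ_five]
        show ((-1 : ℤ) : K) * (u 18) * (u 23) + ((1 : ℤ) : K) * (u 20) * (u 21) + ((-1 : ℤ) : K) * (u 3) * (u 11) + ((-1 : ℤ) : K) * (u 4) * ((-u 18 * u 23 + u 20 * u 21 - u 3 * u 11 - u 5 * u 17) / u 4) + ((-1 : ℤ) : K) * (u 5) * (u 17) = 0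
        push_cast
        field_simp
        ring
      · show ∑ t : Fin 5, _ = _
        rw [Fin.sum_univ_five]
        show ((1 : ℤ) : K) * (u 21) * ((-u 9 * u 16 + u 10 * u 15 - u 24 * u 1 - u 26 * u 7) / u 4) + ((-1 : ℤ) : K) * ((u 9 * u 17 - u 11 * u 15 - u 21 * u 1 - u 23 * u 7) / u 4) * (u 24) + ((-1 : ℤ) : K) * ((u 3 * u 7 - u 15 * u 18 - u 16 * u 21 - u 17 * u 24) / u 4) * (u 9) + ((-1 : ℤ) : K) * (u 7) * ((-u 21 * u 26 + u 23 * u 24 - u 3 * u 9 - u 5 * u 15) / u 4) + ((-1 : ℤ) : K) * ((u 5 * u 7 + u 9 * u 18 + u 10 * u 21 + u 11 * u 24) / u 4) * (u 15) = 0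
        push_cast
        field_simp
        ring
      · show ∑ t : Fin 5, _ = _
        rw [Fin.sum_univ_five]
        show ((-1 : ℤ) : K) * (u 18) * ((-u 9 * u 16 + u 10 * u 15 - u 24 * u 1 - u 26 * u 7) / u 4) + ((1 : ℤ) : K) * ((-u 10 * u 17 + u 11 * u 16 - u 18 * u 1 - u 20 * u 7) / u 4) * (u 24) + ((-1 : ℤ) : K) * ((u 3 * u 7 - u 15 * u 18 - u 16 * u 21 - u 17 * u 24) / u 4) * (u 10) + ((-1 : ℤ) : K) * (u 7) * ((u 18 * u 26 - u 20 * u 24 - u 3 * u 10 - u 5 * u 16) / u 4) + ((-1 : ℤ) : K) * ((u 5 * u 7 + u 9 * u 18 + u 10 * u 21 + u 11 * u 24) / u 4) * (u 16) = 0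
        push_cast
        field_simp
        ring
      · show ∑ t : Fin 5, _ = _
        rw [Fin.sum_univ_five]
        show ((1 : ℤ) : K) * (u 18) * ((u 9 * u 17 - u 11 * u 15 - u 21 * u 1 - u 23 * u 7) / u 4) + ((-1 : ℤ) : K) * ((-u 10 * u 17 + u 11 * u 16 - u 18 * u 1 - u 20 * u 7) / u 4) * (u 21) + ((-1 : ℤ) : K) * ((u 3 * u 7 - u 15 * u 18 - u 16 * u 21 - u 17 * u 24) / u 4) * (u 11) + ((-1 : ℤ) : K) * (u 7) * ((-u 18 * u 23 + u 20 * u 21 - u 3 * u 11 - u 5 * u 17) / u 4) + ((-1 : ℤ) : K) * ((u 5 * u 7 + u 9 * u 18 + u 10 * u 21 + u 11 * u 24) / u 4) * (u 17) = 0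
        push_cast
        field_simp
        ring
    exact hl

theorem cayley_pt_5 {K : Type} [Field K] (u : Fin 27 → K) (h : u 5 ≠ 0) :
    ∃ y : Fin 27 → K, (∀ j : Fin 27, ¬ cayley.opp (5 : Fin 27) j → y j = u j) ∧
      ∀ l, cayley.val y l = 0 := by
  refine ⟨![(u 2 * u 3 - u 12 * u 20 - u 13 * u 23 - u 14 * u 26) / u 5, (u 2 * u 4 + u 9 * u 20 + u 10 * u 23 + u 11 * u 26) / u 5, u 2, u 3, u 4, u 5, (u 3 * u 8 + u 12 * u 18 + u 13 * u 21 + u 14 * u 24) / u 5, (u 4 * u 8 - u 9 * u 18 - u 10 * u 21 - u 11 * u 24) / u 5, u 8, u 9, u 10, u 11, u 12, u 13, u 14, (-u 21 * u 26 + u 23 * u 24 - u 3 * u 9 - u 4 * u 12) / u 5, (u 18 * u 26 - u 20 * u 24 - u 3 * u 10 - u 4 * u 13) / u 5, (-u 18 * u 23 + u 20 * u 21 - u 3 * u 11 - u 4 * u 14) / u 5, u 18, (u 10 * u 14 - u 11 * u 13 - u 18 * u 2 - u 20 * u 8) / u 5, u 20, u 21, (-u 9 * u 14 + u 11 * u 12 - u 21 * u 2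 - u 23 * u 8) / u 5, u 23, u 24, (u 9 * u 13 - u 10 * u 12 - u 24 * u 2 - u 26 * u 8) / u 5, u 26], ?_, ?_⟩
  · have key : ∀ j : Fin 27, cayley.opp (5 : Fin 27) j ∨ (![(u 2 * u 3 - u 12 * u 20 - u 13 * u 23 - u 14 * u 26) / u 5, (u 2 * u 4 + u 9 * u 20 + u 10 * u 23 + u 11 * u 26) / u 5, u 2, u 3, u 4, u 5, (u 3 * u 8 + u 12 * u 18 + u 13 * u 21 + u 14 * u 24) / u 5, (u 4 * u 8 - u 9 * u 18 - u 10 * u 21 - u 11 * u 24) / u 5, u 8, u 9, u 10, u 11, u 12, u 13, u 14, (-u 21 * u 26 + u 23 * u 24 - u 3 * u 9 - u 4 * u 12) / u 5, (u 18 * u 26 - u 20 * u 24 - u 3 * u 10 - u 4 * u 13) / u 5, (-u 18 * u 23 + u 20 * u 21 - u 3 * u 11 - u 4 * u 14) / u 5, u 18, (u 10 * u 14 - u 11 * u 13 - u 18 * u 2 - u 20 * u 8) / u 5, u 20, u 21, (-u 9 * u 14 + u 11 * u 12 - u 21 * u 2 - u 23 * u 8) / u 5, u 23, u 24, (u 9 * u 13 - u 10 * u 12 - u 24 * u 2 - u 26 * u 8) / u 5, u 26]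 : Fin 27 → K) j = u j := by
      intro j
      fin_cases j
      · exact Or.inl ⟨(5 : Fin 27), (0 : Fin 5), Or.inr ⟨rfl, rfl⟩⟩
      · exact Or.inl ⟨(2 : Fin 27), (0 : Fin 5), Or.inr ⟨rfl, rfl⟩⟩
      · exact Or.inr rfl
      · exact Or.inr rfl
      · exact Or.inr rfl
      · exact Or.inr rfl
      · exact Or.inl ⟨(3 : Fin 27), (1 : Fin 5), Or.inl ⟨rfl, rfl⟩⟩
      · exact Or.inl ⟨(0 : Fin 27), (1 : Fin 5), Or.inl ⟨rfl, rfl⟩⟩
      · exact Or.inr rfl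
      · exact Or.inr rfl
      · exact Or.inr rfl
      · exact Or.inr rfl
      · exact Or.inr rfl
      · exact Or.inr rfl
      · exact Or.inr rfl
      · exact Or.inl ⟨(21 : Fin 27), (4 : Fin 5), Or.inl ⟨rfl, rfl⟩⟩
      · exact Or.inl ⟨(22 : Fin 27), (4 : Fin 5), Or.inl ⟨rfl, rfl⟩⟩
      · exact Or.inl ⟨(23 : Fin 27), (4 : Fin 5), Or.inl ⟨rfl, rfl⟩⟩
      · exact Or.inr rfl
      · exact Or.inl ⟨(11 : Fin 27), (3 : Fin 5), Or.inr ⟨rfl, rfl⟩⟩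
      · exact Or.inr rfl
      · exact Or.inr rfl
      · exact Or.inl ⟨(14 : Fin 27), (3 : Fin 5), Or.inr ⟨rfl, rfl⟩⟩
      · exact Or.inr rfl
      · exact Or.inr rfl
      · exact Or.inl ⟨(17 : Fin 27), (3 : Fin 5), Or.inr ⟨rfl, rfl⟩⟩
      · exact Or.inr rfl
    intro j hj
    exact (key j).resolve_left hj
  · have hl : ∀ l : Fin 27, cayley.val (![(u 2 * u 3 - u 12 * u 20 - u 13 * u 23 - u 14 * u 26) / u 5, (u 2 * u 4 + u 9 * u 20 + u 10 * u 23 + u 11 * u 26) / u 5, u 2, u 3, u 4, u 5, (u 3 * u 8 + u 12 * u 18 + u 13 * u 21 + u 14 * u 24) / u 5, (u 4 * u 8 - u 9 * u 18 - u 10 * u 21 - u 11 * u 24) / u 5, u 8, u 9, u 10, u 11, u 12, u 13, u 14, (-u 21 * u 26 + u 23 * u 24 - u 3 * u 9 - u 4 * u 12) / u 5, (u 18 * u 26 - u 20 * u 24 - u 3 * u 10 - u 4 * u 13) / u 5, (-u 18 * u 23 + u 20 * u 21 - u 3 * u 11 - u 4 * u 14) / u 5, u 18, (u 10 * u 14 - u 11 * u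 13 - u 18 * u 2 - u 20 * u 8) / u 5, u 20, u 21, (-u 9 * u 14 + u 11 * u 12 - u 21 * u 2 - u 23 * u 8) / u 5, u 23, u 24, (u 9 * u 13 - u 10 * u 12 - u 24 * u 2 - u 26 * u 8) / u 5, u 26] : Fin 27 → K) l = 0 := by
      intro l
      unfold QF.val
      fin_cases l
      · show ∑ t : Fin 5, _ = _
        rw [Fin.sum_univ_five]
        show ((1 : ℤ) : K) * (u 4) * (u 8) + ((-1 : ℤ) : K) * (u 5) * ((u 4 * u 8 - u 9 * u 18 - u 10 * u 21 - u 11 * u 24) / u 5) + ((-1 : ℤ) : K) * (u 9) * (u 18) + ((-1 : ℤ) : K) * (u 10) * (u 21) + ((-1 : ℤ) : K) * (u 11) * (u 24) = 0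
        push_cast
        field_simp
        ring
      · show ∑ t : Fin 5, _ = _
        rw [Fin.sum_univ_five]
        show ((-1 : ℤ) : K) * ((u 2 * u 4 + u 9 * u 20 + u 10 * u 23 + u 11 * u 26) / u 5) * (u 8) + ((1 : ℤ) : K) * (u 2) * ((u 4 * u 8 - u 9 * u 18 - u 10 * u 21 - u 11 * u 24) / u 5) + ((-1 : ℤ) : K) * (u 9) * ((u 10 * u 14 - u 11 * u 13 - u 18 * u 2 - u 20 * u 8) / u 5) + ((-1 : ℤ) : K) * (u 10) * ((-u 9 * u 14 + u 11 * u 12 - u 21 * u 2 - u 23 * u 8) / u 5) + ((-1 : ℤ) : K) * (u 11) * ((u 9 * u 13 - u 10 * u 12 - u 24 * u 2 - u 26 * u 8) / u 5) = 0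
        push_cast
        field_simp
        ring
      · show ∑ t : Fin 5, _ = _
        rw [Fin.sum_univ_five]
        show ((1 : ℤ) : K) * ((u 2 * u 4 + u 9 * u 20 + u 10 * u 23 + u 11 * u 26) / u 5) * (u 5) + ((-1 : ℤ) : K) * (u 2) * (u 4) + ((-1 : ℤ) : K) * (u 9) * (u 20) + ((-1 : ℤ) : K) * (u 10) * (u 23) + ((-1 : ℤ) : K) * (u 11) * (u 26) = 0
        push_cast
        field_simp
        ring
      · show ∑ t : Fin 5, _ = _
        rw [Fin.sum_univ_five]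
        show ((-1 : ℤ) : K) * (u 3) * (u 8) + ((1 : ℤ) : K) * (u 5) * ((u 3 * u 8 + u 12 * u 18 + u 13 * u 21 + u 14 * u 24) / u 5) + ((-1 : ℤ) : K) * (u 12) * (u 18) + ((-1 : ℤ) : K) * (u 13) * (u 21) + ((-1 : ℤ) : K) * (u 14) * (u 24) = 0
        push_cast
        field_simp
        ring
      · show ∑ t : Fin 5, _ = _
        rw [Fin.sum_univ_five]
        show ((1 : ℤ) : K) * ((u 2 * u 3 - u 12 * u 20 - u 13 * u 23 - u 14 * u 26) / u 5) * (u 8) + ((-1 : ℤ) : K) * (u 2) * ((u 3 * u 8 + u 12 * u 18 + u 13 * u 21 + u 14 * u 24) / u 5) + ((-1 : ℤ) : K) * (u 12) * ((u 10 * u 14 - u 11 * u 13 - u 18 * u 2 - u 20 * u 8) / u 5) + ((-1 : ℤ) : K) * (u 13) * ((-u 9 * u 14 + u 11 * u 12 - u 21 * u 2 - u 23 * u 8) / u 5) + ((-1 : ℤ) : K) * (u 14) * ((u 9 * u 13 - u 10 * u 12 - u 24 * u 2 - u 26 * u 8) / u 5) = 0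
        push_cast
        field_simp
        ring
      · show ∑ t : Fin 5, _ = _
        rw [Fin.sum_univ_five]
        show ((-1 : ℤ) : K) * ((u 2 * u 3 - u 12 * u 20 - u 13 * u 23 - u 14 * u 26) / u 5) * (u 5) + ((1 : ℤ) : K) * (u 2) * (u 3) + ((-1 : ℤ) : K) * (u 12) * (u 20) + ((-1 : ℤ) : K) * (u 13) * (u 23) + ((-1 : ℤ) : K) * (u 14) * (u 26) = 0
        push_cast
        field_simp
        ring
      · show ∑ t : Fin 5, _ = _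
        rw [Fin.sum_univ_five]
        show ((1 : ℤ) : K) * (u 3) * ((u 4 * u 8 - u 9 * u 18 - u 10 * u 21 - u 11 * u 24) / u 5) + ((-1 : ℤ) : K) * (u 4) * ((u 3 * u 8 + u 12 * u 18 + u 13 * u 21 + u 14 * u 24) / u 5) + ((-1 : ℤ) : K) * ((-u 21 * u 26 + u 23 * u 24 - u 3 * u 9 - u 4 * u 12) / u 5) * (u 18) + ((-1 : ℤ) : K) * ((u 18 * u 26 - u 20 * u 24 - u 3 * u 10 - u 4 * u 13) / u 5) * (u 21) + ((-1 : ℤ) : K) * ((-u 18 * u 23 + u 20 * u 21 - u 3 * u 11 - u 4 * u 14) / u 5) * (u 24) = 0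
        push_cast
        field_simp
        ring
      · show ∑ t : Fin 5, _ = _
        rw [Fin.sum_univ_five]
        show ((-1 : ℤ) : K) * ((u 2 * u 3 - u 12 * u 20 - u 13 * u 23 - u 14 * u 26) / u 5) * ((u 4 * u 8 - u 9 * u 18 - u 10 * u 21 - u 11 * u 24) / u 5) + ((1 : ℤ) : K) * ((u 2 * u 4 + u 9 * u 20 + u 10 * u 23 + u 11 * u 26) / u 5) * ((u 3 * u 8 + u 12 * u 18 + u 13 * u 21 + u 14 * u 24) / u 5) + ((-1 : ℤ) : K) * ((-u 21 * u 26 + u 23 * u 24 - u 3 * u 9 - u 4 * u 12) / u 5) * ((u 10 * u 14 - u 11 * u 13 - u 18 * u 2 - u 20 * u 8) / u 5) + ((-1 : ℤ) : K) * ((u 18 * u 26 - u 20 * u 24 - u 3 * u 10 - u 4 * u 13) / u 5) * ((-u 9 * u 14 + u 11 * u 12 - u 21 * u 2 - u 23 * u 8) / u 5) + ((-1 : ℤ) : K) * ((-u 18 * u 23 + u 20 * u 21 - u 3 * u 11 - u 4 * u 14) / u 5) * ((u 9 * u 13 - u 10 * u 12 - u 24 * u 2 - u 26 * u 8) / u 5) = 0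
        push_cast
        field_simp
        ring
      · show ∑ t : Fin 5, _ = _
        rw [Fin.sum_univ_five]
        show ((1 : ℤ) : K) * ((u 2 * u 3 - u 12 * u 20 - u 13 * u 23 - u 14 * u 26) / u 5) * (u 4) + ((-1 : ℤ) : K) * ((u 2 * u 4 + u 9 * u 20 + u 10 * u 23 + u 11 * u 26) / u 5) * (u 3) + ((-1 : ℤ) : K) * ((-u 21 * u 26 + u 23 * u 24 - u 3 * u 9 - u 4 * u 12) / u 5) * (u 20) + ((-1 : ℤ) : K) * ((u 18 * u 26 - u 20 * u 24 - u 3 * u 10 - u 4 * u 13) / u 5) * (u 23) + ((-1 : ℤ) : K) * ((-u 18 * u 23 + u 20 * u 21 - u 3 * u 11 - u 4 * u 14) / u 5) * (u 26) = 0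
        push_cast
        field_simp
        ring
      · show ∑ t : Fin 5, _ = _
        rw [Fin.sum_univ_five]
        show ((1 : ℤ) : K) * (u 13) * ((-u 18 * u 23 + u 20 * u 21 - u 3 * u 11 - u 4 * u 14) / u 5) + ((-1 : ℤ) : K) * (u 14) * ((u 18 * u 26 - u 20 * u 24 - u 3 * u 10 - u 4 * u 13) / u 5) + ((-1 : ℤ) : K) * (u 18) * ((u 2 * u 3 - u 12 * u 20 - u 13 * u 23 - u 14 * u 26) / u 5) + ((-1 : ℤ) : K) * ((u 10 * u 14 - u 11 * u 13 - u 18 * u 2 - u 20 * u 8) / u 5) * (u 3) + ((-1 : ℤ) : K) * (u 20) * ((u 3 * u 8 + u 12 * u 18 + u 13 * u 21 + u 14 * u 24) / u 5) = 0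
        push_cast
        field_simp
        ring
      · show ∑ t : Fin 5, _ = _
        rw [Fin.sum_univ_five]
        show ((-1 : ℤ) : K) * (u 10) * ((-u 18 * u 23 + u 20 * u 21 - u 3 * u 11 - u 4 * u 14) / u 5) + ((1 : ℤ) : K) * (u 11) * ((u 18 * u 26 - u 20 * u 24 - u 3 * u 10 - u 4 * u 13) / u 5) + ((-1 : ℤ) : K) * (u 18) * ((u 2 * u 4 + u 9 * u 20 + u 10 * u 23 + u 11 * u 26) / u 5) + ((-1 : ℤ) : K) * ((u 10 * u 14 - u 11 * u 13 - u 18 * u 2 - u 20 * u 8) / u 5) * (u 4) + ((-1 : ℤ) : K) * (u 20) * ((u 4 * u 8 - u 9 * u 18 - u 10 * u 21 - u 11 * u 24) / u 5) = 0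
        push_cast
        field_simp
        ring
      · show ∑ t : Fin 5, _ = _
        rw [Fin.sum_univ_five]
        show ((1 : ℤ) : K) * (u 10) * (u 14) + ((-1 : ℤ) : K) * (u 11) * (u 13) + ((-1 : ℤ) : K) * (u 18) * (u 2) + ((-1 : ℤ) : K) * ((u 10 * u 14 - u 11 * u 13 - u 18 * u 2 - u 20 * u 8) / u 5) * (u 5) + ((-1 : ℤ) : K) * (u 20) * (u 8) = 0
        push_cast
        field_simp
        ring
      · show ∑ t : Fin 5, _ = _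
        rw [Fin.sum_univ_five]
        show ((-1 : ℤ) : K) * (u 12) * ((-u 18 * u 23 + u 20 * u 21 - u 3 * u 11 - u 4 * u 14) / u 5) + ((1 : ℤ) : K) * (u 14) * ((-u 21 * u 26 + u 23 * u 24 - u 3 * u 9 - u 4 * u 12) / u 5) + ((-1 : ℤ) : K) * (u 21) * ((u 2 * u 3 - u 12 * u 20 - u 13 * u 23 - u 14 * u 26) / u 5) + ((-1 : ℤ) : K) * ((-u 9 * u 14 + u 11 * u 12 - u 21 * u 2 - u 23 * u 8) / u 5) * (u 3) + ((-1 : ℤ) : K) * (u 23) * ((u 3 * u 8 + u 12 * u 18 + u 13 * u 21 + u 14 * u 24) / u 5) = 0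
        push_cast
        field_simp
        ring
      · show ∑ t : Fin 5, _ = _
        rw [Fin.sum_univ_five]
        show ((1 : ℤ) : K) * (u 9) * ((-u 18 * u 23 + u 20 * u 21 - u 3 * u 11 - u 4 * u 14) / u 5) + ((-1 : ℤ) : K) * (u 11) * ((-u 21 * u 26 + u 23 * u 24 - u 3 * u 9 - u 4 * u 12) / u 5) + ((-1 : ℤ) : K) * (u 21) * ((u 2 * u 4 + u 9 * u 20 + u 10 * u 23 + u 11 * u 26) / u 5) + ((-1 : ℤ) : K) * ((-u 9 * u 14 + u 11 * u 12 - u 21 * u 2 - u 23 * u 8) / u 5) * (u 4) + ((-1 : ℤ) : K) * (u 23) * ((u 4 * u 8 - u 9 * u 18 - u 10 * u 21 - u 11 * u 24) / u 5) = 0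
        push_cast
        field_simp
        ring
      · show ∑ t : Fin 5, _ = _
        rw [Fin.sum_univ_five]
        show ((-1 : ℤ) : K) * (u 9) * (u 14) + ((1 : ℤ) : K) * (u 11) * (u 12) + ((-1 : ℤ) : K) * (u 21) * (u 2) + ((-1 : ℤ) : K) * ((-u 9 * u 14 + u 11 * u 12 - u 21 * u 2 - u 23 * u 8) / u 5) * (u 5) + ((-1 : ℤ) : K) * (u 23) * (u 8) = 0
        push_cast
        field_simp
        ring
      · show ∑ t : Fin 5, _ = _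
        rw [Fin.sum_univ_five]
        show ((1 : ℤ) : K) * (u 12) * ((u 18 * u 26 - u 20 * u 24 - u 3 * u 10 - u 4 * u 13) / u 5) + ((-1 : ℤ) : K) * (u 13) * ((-u 21 * u 26 + u 23 * u 24 - u 3 * u 9 - u 4 * u 12) / u 5) + ((-1 : ℤ) : K) * (u 24) * ((u 2 * u 3 - u 12 * u 20 - u 13 * u 23 - u 14 * u 26) / u 5) + ((-1 : ℤ) : K) * ((u 9 * u 13 - u 10 * u 12 - u 24 * u 2 - u 26 * u 8) / u 5) * (u 3) + ((-1 : ℤ) : K) * (u 26) * ((u 3 * u 8 + u 12 * u 18 + u 13 * u 21 + u 14 * u 24) / u 5) = 0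
        push_cast
        field_simp
        ring
      · show ∑ t : Fin 5, _ = _
        rw [Fin.sum_univ_five]
        show ((-1 : ℤ) : K) * (u 9) * ((u 18 * u 26 - u 20 * u 24 - u 3 * u 10 - u 4 * u 13) / u 5) + ((1 : ℤ) : K) * (u 10) * ((-u 21 * u 26 + u 23 * u 24 - u 3 * u 9 - u 4 * u 12) / u 5) + ((-1 : ℤ) : K) * (u 24) * ((u 2 * u 4 + u 9 * u 20 + u 10 * u 23 + u 11 * u 26) / u 5) + ((-1 : ℤ) : K) * ((u 9 * u 13 - u 10 * u 12 - u 24 * u 2 - u 26 * u 8) / u 5) * (u 4) + ((-1 : ℤ) : K) * (u 26) * ((u 4 * u 8 - u 9 * u 18 - u 10 * u 21 - u 11 * u 24) / u 5) = 0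
        push_cast
        field_simp
        ring
      · show ∑ t : Fin 5, _ = _
        rw [Fin.sum_univ_five]
        show ((1 : ℤ) : K) * (u 9) * (u 13) + ((-1 : ℤ) : K) * (u 10) * (u 12) + ((-1 : ℤ) : K) * (u 24) * (u 2) + ((-1 : ℤ) : K) * ((u 9 * u 13 - u 10 * u 12 - u 24 * u 2 - u 26 * u 8) / u 5) * (u 5) + ((-1 : ℤ) : K) * (u 26) * (u 8) = 0
        push_cast
        field_simp
        ring
      · show ∑ t : Fin 5, _ = _
        rw [Fin.sum_univ_five]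
        show ((1 : ℤ) : K) * ((-u 9 * u 14 + u 11 * u 12 - u 21 * u 2 - u 23 * u 8) / u 5) * (u 26) + ((-1 : ℤ) : K) * (u 23) * ((u 9 * u 13 - u 10 * u 12 - u 24 * u 2 - u 26 * u 8) / u 5) + ((-1 : ℤ) : K) * ((u 2 * u 3 - u 12 * u 20 - u 13 * u 23 - u 14 * u 26) / u 5) * (u 9) + ((-1 : ℤ) : K) * ((u 2 * u 4 + u 9 * u 20 + u 10 * u 23 + u 11 * u 26) / u 5) * (u 12) + ((-1 : ℤ) : K) * (u 2) * ((-u 21 * u 26 + u 23 * u 24 - u 3 * u 9 - u 4 * u 12) / u 5) = 0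
        push_cast
        field_simp
        ring
      · show ∑ t : Fin 5, _ = _
        rw [Fin.sum_univ_five]
        show ((-1 : ℤ) : K) * ((u 10 * u 14 - u 11 * u 13 - u 18 * u 2 - u 20 * u 8) / u 5) * (u 26) + ((1 : ℤ) : K) * (u 20) * ((u 9 * u 13 - u 10 * u 12 - u 24 * u 2 - u 26 * u 8) / u 5) + ((-1 : ℤ) : K) * ((u 2 * u 3 - u 12 * u 20 - u 13 * u 23 - u 14 * u 26) / u 5) * (u 10) + ((-1 : ℤ) : K) * ((u 2 * u 4 + u 9 * u 20 + u 10 * u 23 + u 11 * u 26) / u 5) * (u 13) + ((-1 : ℤ) : K) * (u 2) * ((u 18 * u 26 - u 20 * u 24 - u 3 * u 10 - u 4 * u 13) / u 5) = 0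
        push_cast
        field_simp
        ring
      · show ∑ t : Fin 5, _ = _
        rw [Fin.sum_univ_five]
        show ((1 : ℤ) : K) * ((u 10 * u 14 - u 11 * u 13 - u 18 * u 2 - u 20 * u 8) / u 5) * (u 23) + ((-1 : ℤ) : K) * (u 20) * ((-u 9 * u 14 + u 11 * u 12 - u 21 * u 2 - u 23 * u 8) / u 5) + ((-1 : ℤ) : K) * ((u 2 * u 3 - u 12 * u 20 - u 13 * u 23 - u 14 * u 26) / u 5) * (u 11) + ((-1 : ℤ) : K) * ((u 2 * u 4 + u 9 * u 20 + u 10 * u 23 + u 11 * u 26) / u 5) * (u 14) + ((-1 : ℤ) : K) * (u 2) * ((-u 18 * u 23 + u 20 * u 21 - u 3 * u 11 - u 4 * u 14) / u 5) = 0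
        push_cast
        field_simp
        ring
      · show ∑ t : Fin 5, _ = _
        rw [Fin.sum_univ_five]
        show ((-1 : ℤ) : K) * (u 21) * (u 26) + ((1 : ℤ) : K) * (u 23) * (u 24) + ((-1 : ℤ) : K) * (u 3) * (u 9) + ((-1 : ℤ) : K) * (u 4) * (u 12) + ((-1 : ℤ) : K) * (u 5) * ((-u 21 * u 26 + u 23 * u 24 - u 3 * u 9 - u 4 * u 12) / u 5) = 0
        push_cast
        field_simp
        ring
      · show ∑ t : Fin 5, _ = _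
        rw [Fin.sum_univ_five]
        show ((1 : ℤ) : K) * (u 18) * (u 26) + ((-1 : ℤ) : K) * (u 20) * (u 24) + ((-1 : ℤ) : K) * (u 3) * (u 10) + ((-1 : ℤ) : K) * (u 4) * (u 13) + ((-1 : ℤ) : K) * (u 5) * ((u 18 * u 26 - u 20 * u 24 - u 3 * u 10 - u 4 * u 13) / u 5) = 0
        push_cast
        field_simp
        ring
      · show ∑ t : Fin 5, _ = _
        rw [Fin.sum_univ_five]
        show ((-1 : ℤ) : K) * (u 18) * (u 23) + ((1 : ℤ) : K) * (u 20) * (u 21) + ((-1 : ℤ) : K) * (u 3) * (u 11) + ((-1 : ℤ) : K) * (u 4) * (u 14) + ((-1 : ℤ) : K) * (u 5) * ((-u 18 * u 23 + u 20 * u 21 - u 3 * u 11 - u 4 * u 14) / u 5) = 0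
        push_cast
        field_simp
        ring
      · show ∑ t : Fin 5, _ = _
        rw [Fin.sum_univ_five]
        show ((1 : ℤ) : K) * (u 21) * ((u 9 * u 13 - u 10 * u 12 - u 24 * u 2 - u 26 * u 8) / u 5) + ((-1 : ℤ) : K) * ((-u 9 * u 14 + u 11 * u 12 - u 21 * u 2 - u 23 * u 8) / u 5) * (u 24) + ((-1 : ℤ) : K) * ((u 3 * u 8 + u 12 * u 18 + u 13 * u 21 + u 14 * u 24) / u 5) * (u 9) + ((-1 : ℤ) : K) * ((u 4 * u 8 - u 9 * u 18 - u 10 * u 21 - u 11 * u 24) / u 5) * (u 12) + ((-1 : ℤ) : K) * (u 8) * ((-u 21 * u 26 + u 23 * u 24 - u 3 * u 9 - u 4 * u 12) / u 5) = 0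
        push_cast
        field_simp
        ring
      · show ∑ t : Fin 5, _ = _
        rw [Fin.sum_univ_five]
        show ((-1 : ℤ) : K) * (u 18) * ((u 9 * u 13 - u 10 * u 12 - u 24 * u 2 - u 26 * u 8) / u 5) + ((1 : ℤ) : K) * ((u 10 * u 14 - u 11 * u 13 - u 18 * u 2 - u 20 * u 8) / u 5) * (u 24) + ((-1 : ℤ) : K) * ((u 3 * u 8 + u 12 * u 18 + u 13 * u 21 + u 14 * u 24) / u 5) * (u 10) + ((-1 : ℤ) : K) * ((u 4 * u 8 - u 9 * u 18 - u 10 * u 21 - u 11 * u 24) / u 5) * (u 13) + ((-1 : ℤ) : K) * (u 8) * ((u 18 * u 26 - u 20 * u 24 - u 3 * u 10 - u 4 * u 13) / u 5) = 0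
        push_cast
        field_simp
        ring
      · show ∑ t : Fin 5, _ = _
        rw [Fin.sum_univ_five]
        show ((1 : ℤ) : K) * (u 18) * ((-u 9 * u 14 + u 11 * u 12 - u 21 * u 2 - u 23 * u 8) / u 5) + ((-1 : ℤ) : K) * ((u 10 * u 14 - u 11 * u 13 - u 18 * u 2 - u 20 * u 8) / u 5) * (u 21) + ((-1 : ℤ) : K) * ((u 3 * u 8 + u 12 * u 18 + u 13 * u 21 + u 14 * u 24) / u 5) * (u 11) + ((-1 : ℤ) : K) * ((u 4 * u 8 - u 9 * u 18 - u 10 * u 21 - u 11 * u 24) / u 5) * (u 14) + ((-1 : ℤ) : K) * (u 8) * ((-u 18 * u 23 + u 20 * u 21 - u 3 * u 11 - u 4 * u 14) / u 5) = 0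
        push_cast
        field_simp
        ring
    exact hl

theorem cayley_pt_6 {K : Type} [Field K] (u : Fin 27 → K) (h : u 6 ≠ 0) :
    ∃ y : Fin 27 → K, (∀ j : Fin 27, ¬ cayley.opp (6 : Fin 27) j → y j = u j) ∧
      ∀ l, cayley.val y l = 0 := by
  refine ⟨![u 0, (u 0 * u 7 + u 15 * u 19 + u 16 * u 22 + u 17 * u 25) / u 6, (u 0 * u 8 - u 12 * u 19 - u 13 * u 22 - u 14 * u 25) / u 6, u 3, (u 3 * u 7 - u 15 * u 18 - u 16 * u 21 - u 17 * u 24) / u 6, (u 3 * u 8 + u 12 * u 18 + u 13 * u 21 + u 14 * u 24) / u 6, u 6, u 7, u 8, (u 21 * u 25 - u 22 * u 24 - u 7 * u 12 - u 8 * u 15) / u 6, (-u 18 * u 25 + u 19 * u 24 - u 7 * u 13 - u 8 * u 16) / u 6, (u 18 * u 22 - u 19 * u 21 - u 7 * u 14 - u 8 * u 17) / u 6, u 12, u 13, u 14, u 15, u 16, u 17, u 18, u 19, (u 13 * u 17 - u 14 * u 16 - u 18 * u 0 - u 19 * u 3) / u 6, u 21, u 22, (-u 12 * u 17 + u 14 * u 15 -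 u 21 * u 0 - u 22 * u 3) / u 6, u 24, u 25, (u 12 * u 16 - u 13 * u 15 - u 24 * u 0 - u 25 * u 3) / u 6], ?_, ?_⟩
  · have key : ∀ j : Fin 27, cayley.opp (6 : Fin 27) j ∨ (![u 0, (u 0 * u 7 + u 15 * u 19 + u 16 * u 22 + u 17 * u 25) / u 6, (u 0 * u 8 - u 12 * u 19 - u 13 * u 22 - u 14 * u 25) / u 6, u 3, (u 3 * u 7 - u 15 * u 18 - u 16 * u 21 - u 17 * u 24) / u 6, (u 3 * u 8 + u 12 * u 18 + u 13 * u 21 + u 14 * u 24) / u 6, u 6, u 7, u 8, (u 21 * u 25 - u 22 * u 24 - u 7 * u 12 - u 8 * u 15) / u 6, (-u 18 * u 25 + u 19 * u 24 - u 7 * u 13 - u 8 * u 16) / u 6, (u 18 * u 22 - u 19 * u 21 - u 7 * u 14 - u 8 * u 17) / u 6, u 12, u 13, u 14, u 15, u 16, u 17, u 18, u 19, (u 13 * u 17 - u 14 * u 16 - u 18 * u 0 - u 19 * u 3) / u 6, u 21, u 22, (-u 12 * u 17 + u 14 * u 15 - u 21 * u 0 - u 22 * u 3) / u 6, u 24, u 25, (u 12 * u 16 - u 13 * u 15 - u 24 * u 0 - u 25 *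 u 3) / u 6] : Fin 27 → K) j = u j := by
      intro j
      fin_cases j
      · exact Or.inr rfl
      · exact Or.inl ⟨(7 : Fin 27), (1 : Fin 5), Or.inr ⟨rfl, rfl⟩⟩
      · exact Or.inl ⟨(4 : Fin 27), (1 : Fin 5), Or.inr ⟨rfl, rfl⟩⟩
      · exact Or.inr rfl
      · exact Or.inl ⟨(6 : Fin 27), (1 : Fin 5), Or.inr ⟨rfl, rfl⟩⟩
      · exact Or.inl ⟨(3 : Fin 27), (1 : Fin 5), Or.inr ⟨rfl, rfl⟩⟩
      · exact Or.inr rfl
      · exact Or.inr rfl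
      · exact Or.inr rfl
      · exact Or.inl ⟨(24 : Fin 27), (2 : Fin 5), Or.inl ⟨rfl, rfl⟩⟩
      · exact Or.inl ⟨(25 : Fin 27), (2 : Fin 5), Or.inl ⟨rfl, rfl⟩⟩
      · exact Or.inl ⟨(26 : Fin 27), (2 : Fin 5), Or.inl ⟨rfl, rfl⟩⟩
      · exact Or.inr rfl
      · exact Or.inr rfl
      · exact Or.inr rfl
      · exact Or.inr rfl
      · exact Or.inr rfl
      · exact Or.inr rfl
      · exact Or.inr rfl
      · exact Or.inr rfl
      · exact Or.inl ⟨(9 : Fin 27), (4 : Fin 5), Or.inr ⟨rfl, rfl⟩⟩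
      · exact Or.inr rfl
      · exact Or.inr rfl
      · exact Or.inl ⟨(12 : Fin 27), (4 : Fin 5), Or.inr ⟨rfl, rfl⟩⟩
      · exact Or.inr rfl
      · exact Or.inr rfl
      · exact Or.inl ⟨(15 : Fin 27), (4 : Fin 5), Or.inr ⟨rfl, rfl⟩⟩
    intro j hj
    exact (key j).resolve_left hj
  · have hl : ∀ l : Fin 27, cayley.val (![u 0, (u 0 * u 7 + u 15 * u 19 + u 16 * u 22 + u 17 * u 25) / u 6, (u 0 * u 8 - u 12 * u 19 - u 13 * u 22 - u 14 * u 25) / u 6, u 3, (u 3 * u 7 - u 15 * u 18 - u 16 * u 21 - u 17 * u 24) / u 6, (u 3 * u 8 + u 12 * u 18 + u 13 * u 21 + u 14 * u 24) / u 6, u 6, u 7, u 8, (u 21 * u 25 - u 22 * u 24 - u 7 * u 12 - u 8 * u 15) / u 6, (-u 18 * u 25 + u 19 * u 24 - u 7 * u 13 - u 8 * u 16) / u 6, (u 18 * u 22 - u 19 * u 21 - u 7 * u 14 - u 8 * u 17) / u 6, u 12, u 13, u 14, u 15, u 16, u 17, u 18, u 19, (u 13 * u 17 - u 14 * u 16 - u 18 * u 0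 - u 19 * u 3) / u 6, u 21, u 22, (-u 12 * u 17 + u 14 * u 15 - u 21 * u 0 - u 22 * u 3) / u 6, u 24, u 25, (u 12 * u 16 - u 13 * u 15 - u 24 * u 0 - u 25 * u 3) / u 6] : Fin 27 → K) l = 0 := by
      intro l
      unfold QF.val
      fin_cases l
      · show ∑ t : Fin 5, _ = _
        rw [Fin.sum_univ_five]
        show ((1 : ℤ) : K) * ((u 3 * u 7 - u 15 * u 18 - u 16 * u 21 - u 17 * u 24) / u 6) * (u 8) + ((-1 : ℤ) : K) * ((u 3 * u 8 + u 12 * u 18 + u 13 * u 21 + u 14 * u 24) / u 6) * (u 7) + ((-1 : ℤ) : K) * ((u 21 * u 25 - u 22 * u 24 - u 7 * u 12 - u 8 * u 15) / u 6) * (u 18) + ((-1 : ℤ) : K) * ((-u 18 * u 25 + u 19 * u 24 - u 7 * u 13 - u 8 * u 16) / u 6) * (u 21) + ((-1 : ℤ) : K) * ((u 18 * u 22 - u 19 * u 21 - u 7 * u 14 - u 8 * u 17) / u 6) * (u 24) = 0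
        push_cast
        field_simp
        ring
      · show ∑ t : Fin 5, _ = _
        rw [Fin.sum_univ_five]
        show ((-1 : ℤ) : K) * ((u 0 * u 7 + u 15 * u 19 + u 16 * u 22 + u 17 * u 25) / u 6) * (u 8) + ((1 : ℤ) : K) * ((u 0 * u 8 - u 12 * u 19 - u 13 * u 22 - u 14 * u 25) / u 6) * (u 7) + ((-1 : ℤ) : K) * ((u 21 * u 25 - u 22 * u 24 - u 7 * u 12 - u 8 * u 15) / u 6) * (u 19) + ((-1 : ℤ) : K) * ((-u 18 * u 25 + u 19 * u 24 - u 7 * u 13 - u 8 * u 16) / u 6) * (u 22) + ((-1 : ℤ) : K) * ((u 18 * u 22 - u 19 * u 21 - u 7 * u 14 - u 8 * u 17) / u 6) * (u 25) = 0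
        push_cast
        field_simp
        ring
      · show ∑ t : Fin 5, _ = _
        rw [Fin.sum_univ_five]
        show ((1 : ℤ) : K) * ((u 0 * u 7 + u 15 * u 19 + u 16 * u 22 + u 17 * u 25) / u 6) * ((u 3 * u 8 + u 12 * u 18 + u 13 * u 21 + u 14 * u 24) / u 6) + ((-1 : ℤ) : K) * ((u 0 * u 8 - u 12 * u 19 - u 13 * u 22 - u 14 * u 25) / u 6) * ((u 3 * u 7 - u 15 * u 18 - u 16 * u 21 - u 17 * u 24) / u 6) + ((-1 : ℤ) : K) * ((u 21 * u 25 - u 22 * u 24 - u 7 * u 12 - u 8 * u 15) / u 6) * ((u 13 * u 17 - u 14 * u 16 - u 18 * u 0 - u 19 * u 3) / u 6) + ((-1 : ℤ) : K) * ((-u 18 * u 25 + u 19 * u 24 - u 7 * u 13 - u 8 * u 16) / u 6) * ((-u 12 * u 17 + u 14 * u 15 - u 21 * u 0 - u 22 * u 3) / u 6) + ((-1 : ℤ) : K) * ((u 18 * u 22 - u 19 * u 21 - u 7 * u 14 - u 8 * u 17) / u 6) * ((u 12 * u 16 - u 13 * u 15 - u 24 * u 0 - u 25 * u 3) / u 6) = 0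
        push_cast
        field_simp
        ring
      · show ∑ t : Fin 5, _ = _
        rw [Fin.sum_univ_five]
        show ((-1 : ℤ) : K) * (u 3) * (u 8) + ((1 : ℤ) : K) * ((u 3 * u 8 + u 12 * u 18 + u 13 * u 21 + u 14 * u 24) / u 6) * (u 6) + ((-1 : ℤ) : K) * (u 12) * (u 18) + ((-1 : ℤ) : K) * (u 13) * (u 21) + ((-1 : ℤ) : K) * (u 14) * (u 24) = 0
        push_cast
        field_simp
        ring
      · show ∑ t : Fin 5, _ = _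
        rw [Fin.sum_univ_five]
        show ((1 : ℤ) : K) * (u 0) * (u 8) + ((-1 : ℤ) : K) * ((u 0 * u 8 - u 12 * u 19 - u 13 * u 22 - u 14 * u 25) / u 6) * (u 6) + ((-1 : ℤ) : K) * (u 12) * (u 19) + ((-1 : ℤ) : K) * (u 13) * (u 22) + ((-1 : ℤ) : K) * (u 14) * (u 25) = 0
        push_cast
        field_simp
        ring
      · show ∑ t : Fin 5, _ = _
        rw [Fin.sum_univ_five]
        show ((-1 : ℤ) : K) * (u 0) * ((u 3 * u 8 + u 12 * u 18 + u 13 * u 21 + u 14 * u 24) / u 6) + ((1 : ℤ) : K) * ((u 0 * u 8 - u 12 * u 19 - u 13 * u 22 - u 14 * u 25) / u 6) * (u 3) + ((-1 : ℤ) : K) * (u 12) * ((u 13 * u 17 - u 14 * u 16 - u 18 * u 0 - u 19 * u 3) / u 6) + ((-1 : ℤ) : K) * (u 13) * ((-u 12 * u 17 + u 14 * u 15 - u 21 * u 0 - u 22 * u 3) / u 6) + ((-1 : ℤ) : K) * (u 14) * ((u 12 * u 16 - u 13 * u 15 - u 24 * u 0 - u 25 * u 3) / u 6) = 0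
        push_cast
        field_simp
        ring
      · show ∑ t : Fin 5, _ = _
        rw [Fin.sum_univ_five]
        show ((1 : ℤ) : K) * (u 3) * (u 7) + ((-1 : ℤ) : K) * ((u 3 * u 7 - u 15 * u 18 - u 16 * u 21 - u 17 * u 24) / u 6) * (u 6) + ((-1 : ℤ) : K) * (u 15) * (u 18) + ((-1 : ℤ) : K) * (u 16) * (u 21) + ((-1 : ℤ) : K) * (u 17) * (u 24) = 0
        push_cast
        field_simp
        ring
      · show ∑ t : Fin 5, _ = _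
        rw [Fin.sum_univ_five]
        show ((-1 : ℤ) : K) * (u 0) * (u 7) + ((1 : ℤ) : K) * ((u 0 * u 7 + u 15 * u 19 + u 16 * u 22 + u 17 * u 25) / u 6) * (u 6) + ((-1 : ℤ) : K) * (u 15) * (u 19) + ((-1 : ℤ) : K) * (u 16) * (u 22) + ((-1 : ℤ) : K) * (u 17) * (u 25) = 0
        push_cast
        field_simp
        ring
      · show ∑ t : Fin 5, _ = _
        rw [Fin.sum_univ_five]
        show ((1 : ℤ) : K) * (u 0) * ((u 3 * u 7 - u 15 * u 18 - u 16 * u 21 - u 17 * u 24) / u 6) + ((-1 : ℤ) : K) * ((u 0 * u 7 + u 15 * u 19 + u 16 * u 22 + u 17 * u 25) / u 6) * (u 3) + ((-1 : ℤ) : K) * (u 15) * ((u 13 * u 17 - u 14 * u 16 - u 18 * u 0 - u 19 * u 3) / u 6) + ((-1 : ℤ) : K) * (u 16) * ((-u 12 * u 17 + u 14 * u 15 - u 21 * u 0 - u 22 * u 3) / u 6) + ((-1 : ℤ) : K) * (u 17) * ((u 12 * u 16 - u 13 * u 15 - u 24 * u 0 - u 25 * u 3) / u 6) = 0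
        push_cast
        field_simp
        ring
      · show ∑ t : Fin 5, _ = _
        rw [Fin.sum_univ_five]
        show ((1 : ℤ) : K) * (u 13) * (u 17) + ((-1 : ℤ) : K) * (u 14) * (u 16) + ((-1 : ℤ) : K) * (u 18) * (u 0) + ((-1 : ℤ) : K) * (u 19) * (u 3) + ((-1 : ℤ) : K) * ((u 13 * u 17 - u 14 * u 16 - u 18 * u 0 - u 19 * u 3) / u 6) * (u 6) = 0
        push_cast
        field_simp
        ring
      · show ∑ t : Fin 5, _ = _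
        rw [Fin.sum_univ_five]
        show ((-1 : ℤ) : K) * ((-u 18 * u 25 + u 19 * u 24 - u 7 * u 13 - u 8 * u 16) / u 6) * (u 17) + ((1 : ℤ) : K) * ((u 18 * u 22 - u 19 * u 21 - u 7 * u 14 - u 8 * u 17) / u 6) * (u 16) + ((-1 : ℤ) : K) * (u 18) * ((u 0 * u 7 + u 15 * u 19 + u 16 * u 22 + u 17 * u 25) / u 6) + ((-1 : ℤ) : K) * (u 19) * ((u 3 * u 7 - u 15 * u 18 - u 16 * u 21 - u 17 * u 24) / u 6) + ((-1 : ℤ) : K) * ((u 13 * u 17 - u 14 * u 16 - u 18 * u 0 - u 19 * u 3) / u 6) * (u 7) = 0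
        push_cast
        field_simp
        ring
      · show ∑ t : Fin 5, _ = _
        rw [Fin.sum_univ_five]
        show ((1 : ℤ) : K) * ((-u 18 * u 25 + u 19 * u 24 - u 7 * u 13 - u 8 * u 16) / u 6) * (u 14) + ((-1 : ℤ) : K) * ((u 18 * u 22 - u 19 * u 21 - u 7 * u 14 - u 8 * u 17) / u 6) * (u 13) + ((-1 : ℤ) : K) * (u 18) * ((u 0 * u 8 - u 12 * u 19 - u 13 * u 22 - u 14 * u 25) / u 6) + ((-1 : ℤ) : K) * (u 19) * ((u 3 * u 8 + u 12 * u 18 + u 13 * u 21 + u 14 * u 24) / u 6) + ((-1 : ℤ) : K) * ((u 13 * u 17 - u 14 * u 16 - u 18 * u 0 - u 19 * u 3) / u 6) * (u 8) = 0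
        push_cast
        field_simp
        ring
      · show ∑ t : Fin 5, _ = _
        rw [Fin.sum_univ_five]
        show ((-1 : ℤ) : K) * (u 12) * (u 17) + ((1 : ℤ) : K) * (u 14) * (u 15) + ((-1 : ℤ) : K) * (u 21) * (u 0) + ((-1 : ℤ) : K) * (u 22) * (u 3) + ((-1 : ℤ) : K) * ((-u 12 * u 17 + u 14 * u 15 - u 21 * u 0 - u 22 * u 3) / u 6) * (u 6) = 0
        push_cast
        field_simp
        ring
      · show ∑ t : Fin 5, _ = _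
        rw [Fin.sum_univ_five]
        show ((1 : ℤ) : K) * ((u 21 * u 25 - u 22 * u 24 - u 7 * u 12 - u 8 * u 15) / u 6) * (u 17) + ((-1 : ℤ) : K) * ((u 18 * u 22 - u 19 * u 21 - u 7 * u 14 - u 8 * u 17) / u 6) * (u 15) + ((-1 : ℤ) : K) * (u 21) * ((u 0 * u 7 + u 15 * u 19 + u 16 * u 22 + u 17 * u 25) / u 6) + ((-1 : ℤ) : K) * (u 22) * ((u 3 * u 7 - u 15 * u 18 - u 16 * u 21 - u 17 * u 24) / u 6) + ((-1 : ℤ) : K) * ((-u 12 * u 17 + u 14 * u 15 - u 21 * u 0 - u 22 * u 3) / u 6) * (u 7) = 0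
        push_cast
        field_simp
        ring
      · show ∑ t : Fin 5, _ = _
        rw [Fin.sum_univ_five]
        show ((-1 : ℤ) : K) * ((u 21 * u 25 - u 22 * u 24 - u 7 * u 12 - u 8 * u 15) / u 6) * (u 14) + ((1 : ℤ) : K) * ((u 18 * u 22 - u 19 * u 21 - u 7 * u 14 - u 8 * u 17) / u 6) * (u 12) + ((-1 : ℤ) : K) * (u 21) * ((u 0 * u 8 - u 12 * u 19 - u 13 * u 22 - u 14 * u 25) / u 6) + ((-1 : ℤ) : K) * (u 22) * ((u 3 * u 8 + u 12 * u 18 + u 13 * u 21 + u 14 * u 24) / u 6) + ((-1 : ℤ) : K) * ((-u 12 * u 17 + u 14 * u 15 - u 21 * u 0 - u 22 * u 3) / u 6) * (u 8) = 0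
        push_cast
        field_simp
        ring
      · show ∑ t : Fin 5, _ = _
        rw [Fin.sum_univ_five]
        show ((1 : ℤ) : K) * (u 12) * (u 16) + ((-1 : ℤ) : K) * (u 13) * (u 15) + ((-1 : ℤ) : K) * (u 24) * (u 0) + ((-1 : ℤ) : K) * (u 25) * (u 3) + ((-1 : ℤ) : K) * ((u 12 * u 16 - u 13 * u 15 - u 24 * u 0 - u 25 * u 3) / u 6) * (u 6) = 0
        push_cast
        field_simp
        ring
      · show ∑ t : Fin 5, _ = _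
        rw [Fin.sum_univ_five]
        show ((-1 : ℤ) : K) * ((u 21 * u 25 - u 22 * u 24 - u 7 * u 12 - u 8 * u 15) / u 6) * (u 16) + ((1 : ℤ) : K) * ((-u 18 * u 25 + u 19 * u 24 - u 7 * u 13 - u 8 * u 16) / u 6) * (u 15) + ((-1 : ℤ) : K) * (u 24) * ((u 0 * u 7 + u 15 * u 19 + u 16 * u 22 + u 17 * u 25) / u 6) + ((-1 : ℤ) : K) * (u 25) * ((u 3 * u 7 - u 15 * u 18 - u 16 * u 21 - u 17 * u 24) / u 6) + ((-1 : ℤ) : K) * ((u 12 * u 16 - u 13 * u 15 - u 24 * u 0 - u 25 * u 3) / u 6) * (u 7) = 0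
        push_cast
        field_simp
        ring
      · show ∑ t : Fin 5, _ = _
        rw [Fin.sum_univ_five]
        show ((1 : ℤ) : K) * ((u 21 * u 25 - u 22 * u 24 - u 7 * u 12 - u 8 * u 15) / u 6) * (u 13) + ((-1 : ℤ) : K) * ((-u 18 * u 25 + u 19 * u 24 - u 7 * u 13 - u 8 * u 16) / u 6) * (u 12) + ((-1 : ℤ) : K) * (u 24) * ((u 0 * u 8 - u 12 * u 19 - u 13 * u 22 - u 14 * u 25) / u 6) + ((-1 : ℤ) : K) * (u 25) * ((u 3 * u 8 + u 12 * u 18 + u 13 * u 21 + u 14 * u 24) / u 6) + ((-1 : ℤ) : K) * ((u 12 * u 16 - u 13 * u 15 - u 24 * u 0 - u 25 * u 3) / u 6) * (u 8) = 0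
        push_cast
        field_simp
        ring
      · show ∑ t : Fin 5, _ = _
        rw [Fin.sum_univ_five]
        show ((1 : ℤ) : K) * (u 22) * ((u 12 * u 16 - u 13 * u 15 - u 24 * u 0 - u 25 * u 3) / u 6) + ((-1 : ℤ) : K) * ((-u 12 * u 17 + u 14 * u 15 - u 21 * u 0 - u 22 * u 3) / u 6) * (u 25) + ((-1 : ℤ) : K) * (u 0) * ((u 21 * u 25 - u 22 * u 24 - u 7 * u 12 - u 8 * u 15) / u 6) + ((-1 : ℤ) : K) * ((u 0 * u 7 + u 15 * u 19 + u 16 * u 22 + u 17 * u 25) / u 6) * (u 12) + ((-1 : ℤ) : K) * ((u 0 * u 8 - u 12 * u 19 - u 13 * u 22 - u 14 * u 25) / u 6) * (u 15) = 0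
        push_cast
        field_simp
        ring
      · show ∑ t : Fin 5, _ = _
        rw [Fin.sum_univ_five]
        show ((-1 : ℤ) : K) * (u 19) * ((u 12 * u 16 - u 13 * u 15 - u 24 * u 0 - u 25 * u 3) / u 6) + ((1 : ℤ) : K) * ((u 13 * u 17 - u 14 * u 16 - u 18 * u 0 - u 19 * u 3) / u 6) * (u 25) + ((-1 : ℤ) : K) * (u 0) * ((-u 18 * u 25 + u 19 * u 24 - u 7 * u 13 - u 8 * u 16) / u 6) + ((-1 : ℤ) : K) * ((u 0 * u 7 + u 15 * u 19 + u 16 * u 22 + u 17 * u 25) / u 6) * (u 13) + ((-1 : ℤ) : K) * ((u 0 * u 8 - u 12 * u 19 - u 13 * u 22 - u 14 * u 25) / u 6) * (u 16) = 0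
        push_cast
        field_simp
        ring
      · show ∑ t : Fin 5, _ = _
        rw [Fin.sum_univ_five]
        show ((1 : ℤ) : K) * (u 19) * ((-u 12 * u 17 + u 14 * u 15 - u 21 * u 0 - u 22 * u 3) / u 6) + ((-1 : ℤ) : K) * ((u 13 * u 17 - u 14 * u 16 - u 18 * u 0 - u 19 * u 3) / u 6) * (u 22) + ((-1 : ℤ) : K) * (u 0) * ((u 18 * u 22 - u 19 * u 21 - u 7 * u 14 - u 8 * u 17) / u 6) + ((-1 : ℤ) : K) * ((u 0 * u 7 + u 15 * u 19 + u 16 * u 22 + u 17 * u 25) / u 6) * (u 14) + ((-1 : ℤ) : K) * ((u 0 * u 8 - u 12 * u 19 - u 13 * u 22 - u 14 * u 25) / u 6) * (u 17) = 0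
        push_cast
        field_simp
        ring
      · show ∑ t : Fin 5, _ = _
        rw [Fin.sum_univ_five]
        show ((-1 : ℤ) : K) * (u 21) * ((u 12 * u 16 - u 13 * u 15 - u 24 * u 0 - u 25 * u 3) / u 6) + ((1 : ℤ) : K) * ((-u 12 * u 17 + u 14 * u 15 - u 21 * u 0 - u 22 * u 3) / u 6) * (u 24) + ((-1 : ℤ) : K) * (u 3) * ((u 21 * u 25 - u 22 * u 24 - u 7 * u 12 - u 8 * u 15) / u 6) + ((-1 : ℤ) : K) * ((u 3 * u 7 - u 15 * u 18 - u 16 * u 21 - u 17 * u 24) / u 6) * (u 12) + ((-1 : ℤ) : K) * ((u 3 * u 8 + u 12 * u 18 + u 13 * u 21 + u 14 * u 24) / u 6) * (u 15) = 0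
        push_cast
        field_simp
        ring
      · show ∑ t : Fin 5, _ = _
        rw [Fin.sum_univ_five]
        show ((1 : ℤ) : K) * (u 18) * ((u 12 * u 16 - u 13 * u 15 - u 24 * u 0 - u 25 * u 3) / u 6) + ((-1 : ℤ) : K) * ((u 13 * u 17 - u 14 * u 16 - u 18 * u 0 - u 19 * u 3) / u 6) * (u 24) + ((-1 : ℤ) : K) * (u 3) * ((-u 18 * u 25 + u 19 * u 24 - u 7 * u 13 - u 8 * u 16) / u 6) + ((-1 : ℤ) : K) * ((u 3 * u 7 - u 15 * u 18 - u 16 * u 21 - u 17 * u 24) / u 6) * (u 13) + ((-1 : ℤ) : K) * ((u 3 * u 8 + u 12 * u 18 + u 13 * u 21 + u 14 * u 24) / u 6) * (u 16) = 0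
        push_cast
        field_simp
        ring
      · show ∑ t : Fin 5, _ = _
        rw [Fin.sum_univ_five]
        show ((-1 : ℤ) : K) * (u 18) * ((-u 12 * u 17 + u 14 * u 15 - u 21 * u 0 - u 22 * u 3) / u 6) + ((1 : ℤ) : K) * ((u 13 * u 17 - u 14 * u 16 - u 18 * u 0 - u 19 * u 3) / u 6) * (u 21) + ((-1 : ℤ) : K) * (u 3) * ((u 18 * u 22 - u 19 * u 21 - u 7 * u 14 - u 8 * u 17) / u 6) + ((-1 : ℤ) : K) * ((u 3 * u 7 - u 15 * u 18 - u 16 * u 21 - u 17 * u 24) / u 6) * (u 14) + ((-1 : ℤ) : K) * ((u 3 * u 8 + u 12 * u 18 + u 13 * u 21 + u 14 * u 24) / u 6) * (u 17) = 0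
        push_cast
        field_simp
        ring
      · show ∑ t : Fin 5, _ = _
        rw [Fin.sum_univ_five]
        show ((1 : ℤ) : K) * (u 21) * (u 25) + ((-1 : ℤ) : K) * (u 22) * (u 24) + ((-1 : ℤ) : K) * (u 6) * ((u 21 * u 25 - u 22 * u 24 - u 7 * u 12 - u 8 * u 15) / u 6) + ((-1 : ℤ) : K) * (u 7) * (u 12) + ((-1 : ℤ) : K) * (u 8) * (u 15) = 0
        push_cast
        field_simp
        ring
      · show ∑ t : Fin 5, _ = _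
        rw [Fin.sum_univ_five]
        show ((-1 : ℤ) : K) * (u 18) * (u 25) + ((1 : ℤ) : K) * (u 19) * (u 24) + ((-1 : ℤ) : K) * (u 6) * ((-u 18 * u 25 + u 19 * u 24 - u 7 * u 13 - u 8 * u 16) / u 6) + ((-1 : ℤ) : K) * (u 7) * (u 13) + ((-1 : ℤ) : K) * (u 8) * (u 16) = 0
        push_cast
        field_simp
        ring
      · show ∑ t : Fin 5, _ = _
        rw [Fin.sum_univ_five]
        show ((1 : ℤ) : K) * (u 18) * (u 22) + ((-1 : ℤ) : K) * (u 19) * (u 21) + ((-1 : ℤ) : K) * (u 6) * ((u 18 * u 22 - u 19 * u 21 - u 7 * u 14 - u 8 * u 17) / u 6) + ((-1 : ℤ) : K) * (u 7) * (u 14) + ((-1 : ℤ) : K) * (u 8) * (u 17) = 0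
        push_cast
        field_simp
        ring
    exact hl

theorem cayley_pt_7 {K : Type} [Field K] (u : Fin 27 → K) (h : u 7 ≠ 0) :
    ∃ y : Fin 27 → K, (∀ j : Fin 27, ¬ cayley.opp (7 : Fin 27) j → y j = u j) ∧
      ∀ l, cayley.val y l = 0 := by
  refine ⟨![(u 1 * u 6 - u 15 * u 19 - u 16 * u 22 - u 17 * u 25) / u 7, u 1, (u 1 * u 8 + u 9 * u 19 + u 10 * u 22 + u 11 * u 25) / u 7, (u 4 * u 6 + u 15 * u 18 + u 16 * u 21 + u 17 * u 24) / u 7, u 4, (u 4 * u 8 - u 9 * u 18 - u 10 * u 21 - u 11 * u 24) / u 7, u 6, u 7, u 8, u 9, u 10, u 11, (u 21 * u 25 - u 22 * u 24 - u 6 * u 9 - u 8 * u 15) / u 7, (-u 18 * u 25 + u 19 * u 24 - u 6 * u 10 - u 8 * u 16) / u 7, (u 18 * u 22 - u 19 * u 21 - u 6 * u 11 - u 8 * u 17) / u 7, u 15, u 16, u 17, u 18, u 19, (-u 10 * u 17 + u 11 * u 16 - u 18 * u 1 - u 19 * u 4) / u 7, u 21, u 22, (u 9 * u 17 - u 11 * u 15 - u 21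 * u 1 - u 22 * u 4) / u 7, u 24, u 25, (-u 9 * u 16 + u 10 * u 15 - u 24 * u 1 - u 25 * u 4) / u 7], ?_, ?_⟩
  · have key : ∀ j : Fin 27, cayley.opp (7 : Fin 27) j ∨ (![(u 1 * u 6 - u 15 * u 19 - u 16 * u 22 - u 17 * u 25) / u 7, u 1, (u 1 * u 8 + u 9 * u 19 + u 10 * u 22 + u 11 * u 25) / u 7, (u 4 * u 6 + u 15 * u 18 + u 16 * u 21 + u 17 * u 24) / u 7, u 4, (u 4 * u 8 - u 9 * u 18 - u 10 * u 21 - u 11 * u 24) / u 7, u 6, u 7, u 8, u 9, u 10, u 11, (u 21 * u 25 - u 22 * u 24 - u 6 * u 9 - u 8 * u 15) / u 7, (-u 18 * u 25 + u 19 * u 24 - u 6 * u 10 - u 8 * u 16) / u 7, (u 18 * u 22 - u 19 * u 21 - u 6 * u 11 - u 8 * u 17) / u 7, u 15, u 16, u 17, u 18, u 19, (-u 10 * u 17 + u 11 * u 16 - u 18 * u 1 - u 19 * u 4) / u 7, u 21, u 22, (u 9 * u 17 - u 11 * u 15 - u 21 * u 1 - u 22 * u 4) / u 7, u 24, u 25, (-u 9 * u 16 + u 10 * u 15 - u 24 * u 1 - u 25 * u 4) / u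 7] : Fin 27 → K) j = u j := by
      intro j
      fin_cases j
      · exact Or.inl ⟨(7 : Fin 27), (0 : Fin 5), Or.inr ⟨rfl, rfl⟩⟩
      · exact Or.inr rfl
      · exact Or.inl ⟨(1 : Fin 27), (1 : Fin 5), Or.inr ⟨rfl, rfl⟩⟩
      · exact Or.inl ⟨(6 : Fin 27), (0 : Fin 5), Or.inr ⟨rfl, rfl⟩⟩
      · exact Or.inr rfl
      · exact Or.inl ⟨(0 : Fin 27), (1 : Fin 5), Or.inr ⟨rfl, rfl⟩⟩
      · exact Or.inr rfl
      · exact Or.inr rfl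
      · exact Or.inr rfl
      · exact Or.inr rfl
      · exact Or.inr rfl
      · exact Or.inr rfl
      · exact Or.inl ⟨(24 : Fin 27), (3 : Fin 5), Or.inl ⟨rfl, rfl⟩⟩
      · exact Or.inl ⟨(25 : Fin 27), (3 : Fin 5), Or.inl ⟨rfl, rfl⟩⟩
      · exact Or.inl ⟨(26 : Fin 27), (3 : Fin 5), Or.inl ⟨rfl, rfl⟩⟩
      · exact Or.inr rfl
      · exact Or.inr rfl
      · exact Or.inr rfl
      · exact Or.inr rfl
      · exact Or.inr rfl
      · exact Or.inl ⟨(10 : Fin 27), (4 : Fin 5), Or.inr ⟨rfl, rfl⟩⟩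
      · exact Or.inr rfl
      · exact Or.inr rfl
      · exact Or.inl ⟨(13 : Fin 27), (4 : Fin 5), Or.inr ⟨rfl, rfl⟩⟩
      · exact Or.inr rfl
      · exact Or.inr rfl
      · exact Or.inl ⟨(16 : Fin 27), (4 : Fin 5), Or.inr ⟨rfl, rfl⟩⟩
    intro j hj
    exact (key j).resolve_left hj
  · have hl : ∀ l : Fin 27, cayley.val (![(u 1 * u 6 - u 15 * u 19 - u 16 * u 22 - u 17 * u 25) / u 7, u 1, (u 1 * u 8 + u 9 * u 19 + u 10 * u 22 + u 11 * u 25) / u 7, (u 4 * u 6 + u 15 * u 18 + u 16 * u 21 + u 17 * u 24) / u 7, u 4, (u 4 * u 8 - u 9 * u 18 - u 10 * u 21 - u 11 * u 24) / u 7, u 6, u 7, u 8, u 9, u 10, u 11, (u 21 * u 25 - u 22 * u 24 - u 6 * u 9 - u 8 * u 15) / u 7, (-u 18 * u 25 + u 19 * u 24 - u 6 * u 10 - u 8 * u 16) / u 7, (u 18 * u 22 - u 19 * u 21 - u 6 * u 11 - u 8 * u 17) / u 7, u 15, u 16, u 17, u 18, u 19, (-u 10 * u 17 + u 11 * u 16 - u 18 * u 1 - u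 19 * u 4) / u 7, u 21, u 22, (u 9 * u 17 - u 11 * u 15 - u 21 * u 1 - u 22 * u 4) / u 7, u 24, u 25, (-u 9 * u 16 + u 10 * u 15 - u 24 * u 1 - u 25 * u 4) / u 7] : Fin 27 → K) l = 0 := by
      intro l
      unfold QF.val
      fin_cases l
      · show ∑ t : Fin 5, _ = _
        rw [Fin.sum_univ_five]
        show ((1 : ℤ) : K) * (u 4) * (u 8) + ((-1 : ℤ) : K) * ((u 4 * u 8 - u 9 * u 18 - u 10 * u 21 - u 11 * u 24) / u 7) * (u 7) + ((-1 : ℤ) : K) * (u 9) * (u 18) + ((-1 : ℤ) : K) * (u 10) * (u 21) + ((-1 : ℤ) : K) * (u 11) * (u 24) = 0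
        push_cast
        field_simp
        ring
      · show ∑ t : Fin 5, _ = _
        rw [Fin.sum_univ_five]
        show ((-1 : ℤ) : K) * (u 1) * (u 8) + ((1 : ℤ) : K) * ((u 1 * u 8 + u 9 * u 19 + u 10 * u 22 + u 11 * u 25) / u 7) * (u 7) + ((-1 : ℤ) : K) * (u 9) * (u 19) + ((-1 : ℤ) : K) * (u 10) * (u 22) + ((-1 : ℤ) : K) * (u 11) * (u 25) = 0
        push_cast
        field_simp
        ring
      · show ∑ t : Fin 5, _ = _
        rw [Fin.sum_univ_five]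
        show ((1 : ℤ) : K) * (u 1) * ((u 4 * u 8 - u 9 * u 18 - u 10 * u 21 - u 11 * u 24) / u 7) + ((-1 : ℤ) : K) * ((u 1 * u 8 + u 9 * u 19 + u 10 * u 22 + u 11 * u 25) / u 7) * (u 4) + ((-1 : ℤ) : K) * (u 9) * ((-u 10 * u 17 + u 11 * u 16 - u 18 * u 1 - u 19 * u 4) / u 7) + ((-1 : ℤ) : K) * (u 10) * ((u 9 * u 17 - u 11 * u 15 - u 21 * u 1 - u 22 * u 4) / u 7) + ((-1 : ℤ) : K) * (u 11) * ((-u 9 * u 16 + u 10 * u 15 - u 24 * u 1 - u 25 * u 4) / u 7) = 0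
        push_cast
        field_simp
        ring
      · show ∑ t : Fin 5, _ = _
        rw [Fin.sum_univ_five]
        show ((-1 : ℤ) : K) * ((u 4 * u 6 + u 15 * u 18 + u 16 * u 21 + u 17 * u 24) / u 7) * (u 8) + ((1 : ℤ) : K) * ((u 4 * u 8 - u 9 * u 18 - u 10 * u 21 - u 11 * u 24) / u 7) * (u 6) + ((-1 : ℤ) : K) * ((u 21 * u 25 - u 22 * u 24 - u 6 * u 9 - u 8 * u 15) / u 7) * (u 18) + ((-1 : ℤ) : K) * ((-u 18 * u 25 + u 19 * u 24 - u 6 * u 10 - u 8 * u 16) / u 7) * (u 21) + ((-1 : ℤ) : K) * ((u 18 * u 22 - u 19 * u 21 - u 6 * u 11 - u 8 * u 17) / u 7) * (u 24) = 0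
        push_cast
        field_simp
        ring
      · show ∑ t : Fin 5, _ = _
        rw [Fin.sum_univ_five]
        show ((1 : ℤ) : K) * ((u 1 * u 6 - u 15 * u 19 - u 16 * u 22 - u 17 * u 25) / u 7) * (u 8) + ((-1 : ℤ) : K) * ((u 1 * u 8 + u 9 * u 19 + u 10 * u 22 + u 11 * u 25) / u 7) * (u 6) + ((-1 : ℤ) : K) * ((u 21 * u 25 - u 22 * u 24 - u 6 * u 9 - u 8 * u 15) / u 7) * (u 19) + ((-1 : ℤ) : K) * ((-u 18 * u 25 + u 19 * u 24 - u 6 * u 10 - u 8 * u 16) / u 7) * (u 22) + ((-1 : ℤ) : K) * ((u 18 * u 22 - u 19 * u 21 - u 6 * u 11 - u 8 * u 17) / u 7) * (u 25) = 0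
        push_cast
        field_simp
        ring
      · show ∑ t : Fin 5, _ = _
        rw [Fin.sum_univ_five]
        show ((-1 : ℤ) : K) * ((u 1 * u 6 - u 15 * u 19 - u 16 * u 22 - u 17 * u 25) / u 7) * ((u 4 * u 8 - u 9 * u 18 - u 10 * u 21 - u 11 * u 24) / u 7) + ((1 : ℤ) : K) * ((u 1 * u 8 + u 9 * u 19 + u 10 * u 22 + u 11 * u 25) / u 7) * ((u 4 * u 6 + u 15 * u 18 + u 16 * u 21 + u 17 * u 24) / u 7) + ((-1 : ℤ) : K) * ((u 21 * u 25 - u 22 * u 24 - u 6 * u 9 - u 8 * u 15) / u 7) * ((-u 10 * u 17 + u 11 * u 16 - u 18 * u 1 - u 19 * u 4) / u 7) + ((-1 : ℤ) : K) * ((-u 18 * u 25 + u 19 * u 24 - u 6 * u 10 - u 8 * u 16) / u 7) * ((u 9 * u 17 - u 11 * u 15 - u 21 * u 1 - u 22 * u 4) / u 7) + ((-1 : ℤ) : K) * ((u 18 * u 22 - u 19 * u 21 - u 6 * u 11 - u 8 * u 17) / u 7) * ((-u 9 * u 16 + u 10 * u 15 - u 24 * u 1 - u 25 * u 4) / u 7) = 0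
        push_cast
        field_simp
        ring
      · show ∑ t : Fin 5, _ = _
        rw [Fin.sum_univ_five]
        show ((1 : ℤ) : K) * ((u 4 * u 6 + u 15 * u 18 + u 16 * u 21 + u 17 * u 24) / u 7) * (u 7) + ((-1 : ℤ) : K) * (u 4) * (u 6) + ((-1 : ℤ) : K) * (u 15) * (u 18) + ((-1 : ℤ) : K) * (u 16) * (u 21) + ((-1 : ℤ) : K) * (u 17) * (u 24) = 0
        push_cast
        field_simp
        ring
      · show ∑ t : Fin 5, _ = _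
        rw [Fin.sum_univ_five]
        show ((-1 : ℤ) : K) * ((u 1 * u 6 - u 15 * u 19 - u 16 * u 22 - u 17 * u 25) / u 7) * (u 7) + ((1 : ℤ) : K) * (u 1) * (u 6) + ((-1 : ℤ) : K) * (u 15) * (u 19) + ((-1 : ℤ) : K) * (u 16) * (u 22) + ((-1 : ℤ) : K) * (u 17) * (u 25) = 0
        push_cast
        field_simp
        ring
      · show ∑ t : Fin 5, _ = _
        rw [Fin.sum_univ_five]
        show ((1 : ℤ) : K) * ((u 1 * u 6 - u 15 * u 19 - u 16 * u 22 - u 17 * u 25) / u 7) * (u 4) + ((-1 : ℤ) : K) * (u 1) * ((u 4 * u 6 + u 15 * u 18 + u 16 * u 21 + u 17 * u 24) / u 7) + ((-1 : ℤ) : K) * (u 15) * ((-u 10 * u 17 + u 11 * u 16 - u 18 * u 1 - u 19 * u 4) / u 7) + ((-1 : ℤ) : K) * (u 16) * ((u 9 * u 17 - u 11 * u 15 - u 21 * u 1 - u 22 * u 4) / u 7) + ((-1 : ℤ) : K) * (u 17) * ((-u 9 * u 16 + u 10 * u 15 - u 24 * u 1 - u 25 * u 4) / u 7) = 0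
        push_cast
        field_simp
        ring
      · show ∑ t : Fin 5, _ = _
        rw [Fin.sum_univ_five]
        show ((1 : ℤ) : K) * ((-u 18 * u 25 + u 19 * u 24 - u 6 * u 10 - u 8 * u 16) / u 7) * (u 17) + ((-1 : ℤ) : K) * ((u 18 * u 22 - u 19 * u 21 - u 6 * u 11 - u 8 * u 17) / u 7) * (u 16) + ((-1 : ℤ) : K) * (u 18) * ((u 1 * u 6 - u 15 * u 19 - u 16 * u 22 - u 17 * u 25) / u 7) + ((-1 : ℤ) : K) * (u 19) * ((u 4 * u 6 + u 15 * u 18 + u 16 * u 21 + u 17 * u 24) / u 7) + ((-1 : ℤ) : K) * ((-u 10 * u 17 + u 11 * u 16 - u 18 * u 1 - u 19 * u 4) / u 7) * (u 6) = 0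
        push_cast
        field_simp
        ring
      · show ∑ t : Fin 5, _ = _
        rw [Fin.sum_univ_five]
        show ((-1 : ℤ) : K) * (u 10) * (u 17) + ((1 : ℤ) : K) * (u 11) * (u 16) + ((-1 : ℤ) : K) * (u 18) * (u 1) + ((-1 : ℤ) : K) * (u 19) * (u 4) + ((-1 : ℤ) : K) * ((-u 10 * u 17 + u 11 * u 16 - u 18 * u 1 - u 19 * u 4) / u 7) * (u 7) = 0
        push_cast
        field_simp
        ring
      · show ∑ t : Fin 5, _ = _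
        rw [Fin.sum_univ_five]
        show ((1 : ℤ) : K) * (u 10) * ((u 18 * u 22 - u 19 * u 21 - u 6 * u 11 - u 8 * u 17) / u 7) + ((-1 : ℤ) : K) * (u 11) * ((-u 18 * u 25 + u 19 * u 24 - u 6 * u 10 - u 8 * u 16) / u 7) + ((-1 : ℤ) : K) * (u 18) * ((u 1 * u 8 + u 9 * u 19 + u 10 * u 22 + u 11 * u 25) / u 7) + ((-1 : ℤ) : K) * (u 19) * ((u 4 * u 8 - u 9 * u 18 - u 10 * u 21 - u 11 * u 24) / u 7) + ((-1 : ℤ) : K) * ((-u 10 * u 17 + u 11 * u 16 - u 18 * u 1 - u 19 * u 4) / u 7) * (u 8) = 0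
        push_cast
        field_simp
        ring
      · show ∑ t : Fin 5, _ = _
        rw [Fin.sum_univ_five]
        show ((-1 : ℤ) : K) * ((u 21 * u 25 - u 22 * u 24 - u 6 * u 9 - u 8 * u 15) / u 7) * (u 17) + ((1 : ℤ) : K) * ((u 18 * u 22 - u 19 * u 21 - u 6 * u 11 - u 8 * u 17) / u 7) * (u 15) + ((-1 : ℤ) : K) * (u 21) * ((u 1 * u 6 - u 15 * u 19 - u 16 * u 22 - u 17 * u 25) / u 7) + ((-1 : ℤ) : K) * (u 22) * ((u 4 * u 6 + u 15 * u 18 + u 16 * u 21 + u 17 * u 24) / u 7) + ((-1 : ℤ) : K) * ((u 9 * u 17 - u 11 * u 15 - u 21 * u 1 - u 22 * u 4) / u 7) * (u 6) = 0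
        push_cast
        field_simp
        ring
      · show ∑ t : Fin 5, _ = _
        rw [Fin.sum_univ_five]
        show ((1 : ℤ) : K) * (u 9) * (u 17) + ((-1 : ℤ) : K) * (u 11) * (u 15) + ((-1 : ℤ) : K) * (u 21) * (u 1) + ((-1 : ℤ) : K) * (u 22) * (u 4) + ((-1 : ℤ) : K) * ((u 9 * u 17 - u 11 * u 15 - u 21 * u 1 - u 22 * u 4) / u 7) * (u 7) = 0
        push_cast
        field_simp
        ring
      · show ∑ t : Fin 5, _ = _
        rw [Fin.sum_univ_five]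
        show ((-1 : ℤ) : K) * (u 9) * ((u 18 * u 22 - u 19 * u 21 - u 6 * u 11 - u 8 * u 17) / u 7) + ((1 : ℤ) : K) * (u 11) * ((u 21 * u 25 - u 22 * u 24 - u 6 * u 9 - u 8 * u 15) / u 7) + ((-1 : ℤ) : K) * (u 21) * ((u 1 * u 8 + u 9 * u 19 + u 10 * u 22 + u 11 * u 25) / u 7) + ((-1 : ℤ) : K) * (u 22) * ((u 4 * u 8 - u 9 * u 18 - u 10 * u 21 - u 11 * u 24) / u 7) + ((-1 : ℤ) : K) * ((u 9 * u 17 - u 11 * u 15 - u 21 * u 1 - u 22 * u 4) / u 7) * (u 8) = 0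
        push_cast
        field_simp
        ring
      · show ∑ t : Fin 5, _ = _
        rw [Fin.sum_univ_five]
        show ((1 : ℤ) : K) * ((u 21 * u 25 - u 22 * u 24 - u 6 * u 9 - u 8 * u 15) / u 7) * (u 16) + ((-1 : ℤ) : K) * ((-u 18 * u 25 + u 19 * u 24 - u 6 * u 10 - u 8 * u 16) / u 7) * (u 15) + ((-1 : ℤ) : K) * (u 24) * ((u 1 * u 6 - u 15 * u 19 - u 16 * u 22 - u 17 * u 25) / u 7) + ((-1 : ℤ) : K) * (u 25) * ((u 4 * u 6 + u 15 * u 18 + u 16 * u 21 + u 17 * u 24) / u 7) + ((-1 : ℤ) : K) * ((-u 9 * u 16 + u 10 * u 15 - u 24 * u 1 - u 25 * u 4) / u 7) * (u 6) = 0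
        push_cast
        field_simp
        ring
      · show ∑ t : Fin 5, _ = _
        rw [Fin.sum_univ_five]
        show ((-1 : ℤ) : K) * (u 9) * (u 16) + ((1 : ℤ) : K) * (u 10) * (u 15) + ((-1 : ℤ) : K) * (u 24) * (u 1) + ((-1 : ℤ) : K) * (u 25) * (u 4) + ((-1 : ℤ) : K) * ((-u 9 * u 16 + u 10 * u 15 - u 24 * u 1 - u 25 * u 4) / u 7) * (u 7) = 0
        push_cast
        field_simp
        ring
      · show ∑ t : Fin 5, _ = _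
        rw [Fin.sum_univ_five]
        show ((1 : ℤ) : K) * (u 9) * ((-u 18 * u 25 + u 19 * u 24 - u 6 * u 10 - u 8 * u 16) / u 7) + ((-1 : ℤ) : K) * (u 10) * ((u 21 * u 25 - u 22 * u 24 - u 6 * u 9 - u 8 * u 15) / u 7) + ((-1 : ℤ) : K) * (u 24) * ((u 1 * u 8 + u 9 * u 19 + u 10 * u 22 + u 11 * u 25) / u 7) + ((-1 : ℤ) : K) * (u 25) * ((u 4 * u 8 - u 9 * u 18 - u 10 * u 21 - u 11 * u 24) / u 7) + ((-1 : ℤ) : K) * ((-u 9 * u 16 + u 10 * u 15 - u 24 * u 1 - u 25 * u 4) / u 7) * (u 8) = 0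
        push_cast
        field_simp
        ring
      · show ∑ t : Fin 5, _ = _
        rw [Fin.sum_univ_five]
        show ((1 : ℤ) : K) * (u 22) * ((-u 9 * u 16 + u 10 * u 15 - u 24 * u 1 - u 25 * u 4) / u 7) + ((-1 : ℤ) : K) * ((u 9 * u 17 - u 11 * u 15 - u 21 * u 1 - u 22 * u 4) / u 7) * (u 25) + ((-1 : ℤ) : K) * ((u 1 * u 6 - u 15 * u 19 - u 16 * u 22 - u 17 * u 25) / u 7) * (u 9) + ((-1 : ℤ) : K) * (u 1) * ((u 21 * u 25 - u 22 * u 24 - u 6 * u 9 - u 8 * u 15) / u 7) + ((-1 : ℤ) : K) * ((u 1 * u 8 + u 9 * u 19 + u 10 * u 22 + u 11 * u 25) / u 7) * (u 15) = 0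
        push_cast
        field_simp
        ring
      · show ∑ t : Fin 5, _ = _
        rw [Fin.sum_univ_five]
        show ((-1 : ℤ) : K) * (u 19) * ((-u 9 * u 16 + u 10 * u 15 - u 24 * u 1 - u 25 * u 4) / u 7) + ((1 : ℤ) : K) * ((-u 10 * u 17 + u 11 * u 16 - u 18 * u 1 - u 19 * u 4) / u 7) * (u 25) + ((-1 : ℤ) : K) * ((u 1 * u 6 - u 15 * u 19 - u 16 * u 22 - u 17 * u 25) / u 7) * (u 10) + ((-1 : ℤ) : K) * (u 1) * ((-u 18 * u 25 + u 19 * u 24 - u 6 * u 10 - u 8 * u 16) / u 7) + ((-1 : ℤ) : K) * ((u 1 * u 8 + u 9 * u 19 + u 10 * u 22 + u 11 * u 25) / u 7) * (u 16) = 0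
        push_cast
        field_simp
        ring
      · show ∑ t : Fin 5, _ = _
        rw [Fin.sum_univ_five]
        show ((1 : ℤ) : K) * (u 19) * ((u 9 * u 17 - u 11 * u 15 - u 21 * u 1 - u 22 * u 4) / u 7) + ((-1 : ℤ) : K) * ((-u 10 * u 17 + u 11 * u 16 - u 18 * u 1 - u 19 * u 4) / u 7) * (u 22) + ((-1 : ℤ) : K) * ((u 1 * u 6 - u 15 * u 19 - u 16 * u 22 - u 17 * u 25) / u 7) * (u 11) + ((-1 : ℤ) : K) * (u 1) * ((u 18 * u 22 - u 19 * u 21 - u 6 * u 11 - u 8 * u 17) / u 7) + ((-1 : ℤ) : K) * ((u 1 * u 8 + u 9 * u 19 + u 10 * u 22 + u 11 * u 25) / u 7) * (u 17) = 0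
        push_cast
        field_simp
        ring
      · show ∑ t : Fin 5, _ = _
        rw [Fin.sum_univ_five]
        show ((-1 : ℤ) : K) * (u 21) * ((-u 9 * u 16 + u 10 * u 15 - u 24 * u 1 - u 25 * u 4) / u 7) + ((1 : ℤ) : K) * ((u 9 * u 17 - u 11 * u 15 - u 21 * u 1 - u 22 * u 4) / u 7) * (u 24) + ((-1 : ℤ) : K) * ((u 4 * u 6 + u 15 * u 18 + u 16 * u 21 + u 17 * u 24) / u 7) * (u 9) + ((-1 : ℤ) : K) * (u 4) * ((u 21 * u 25 - u 22 * u 24 - u 6 * u 9 - u 8 * u 15) / u 7) + ((-1 : ℤ) : K) * ((u 4 * u 8 - u 9 * u 18 - u 10 * u 21 - u 11 * u 24) / u 7) * (u 15) = 0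
        push_cast
        field_simp
        ring
      · show ∑ t : Fin 5, _ = _
        rw [Fin.sum_univ_five]
        show ((1 : ℤ) : K) * (u 18) * ((-u 9 * u 16 + u 10 * u 15 - u 24 * u 1 - u 25 * u 4) / u 7) + ((-1 : ℤ) : K) * ((-u 10 * u 17 + u 11 * u 16 - u 18 * u 1 - u 19 * u 4) / u 7) * (u 24) + ((-1 : ℤ) : K) * ((u 4 * u 6 + u 15 * u 18 + u 16 * u 21 + u 17 * u 24) / u 7) * (u 10) + ((-1 : ℤ) : K) * (u 4) * ((-u 18 * u 25 + u 19 * u 24 - u 6 * u 10 - u 8 * u 16) / u 7) + ((-1 : ℤ) : K) * ((u 4 * u 8 - u 9 * u 18 - u 10 * u 21 - u 11 * u 24) / u 7) * (u 16) = 0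
        push_cast
        field_simp
        ring
      · show ∑ t : Fin 5, _ = _
        rw [Fin.sum_univ_five]
        show ((-1 : ℤ) : K) * (u 18) * ((u 9 * u 17 - u 11 * u 15 - u 21 * u 1 - u 22 * u 4) / u 7) + ((1 : ℤ) : K) * ((-u 10 * u 17 + u 11 * u 16 - u 18 * u 1 - u 19 * u 4) / u 7) * (u 21) + ((-1 : ℤ) : K) * ((u 4 * u 6 + u 15 * u 18 + u 16 * u 21 + u 17 * u 24) / u 7) * (u 11) + ((-1 : ℤ) : K) * (u 4) * ((u 18 * u 22 - u 19 * u 21 - u 6 * u 11 - u 8 * u 17) / u 7) + ((-1 : ℤ) : K) * ((u 4 * u 8 - u 9 * u 18 - u 10 * u 21 - u 11 * u 24) / u 7) * (u 17) = 0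
        push_cast
        field_simp
        ring
      · show ∑ t : Fin 5, _ = _
        rw [Fin.sum_univ_five]
        show ((1 : ℤ) : K) * (u 21) * (u 25) + ((-1 : ℤ) : K) * (u 22) * (u 24) + ((-1 : ℤ) : K) * (u 6) * (u 9) + ((-1 : ℤ) : K) * (u 7) * ((u 21 * u 25 - u 22 * u 24 - u 6 * u 9 - u 8 * u 15) / u 7) + ((-1 : ℤ) : K) * (u 8) * (u 15) = 0
        push_cast
        field_simp
        ring
      · show ∑ t : Fin 5, _ = _
        rw [Fin.sum_univ_five]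
        show ((-1 : ℤ) : K) * (u 18) * (u 25) + ((1 : ℤ) : K) * (u 19) * (u 24) + ((-1 : ℤ) : K) * (u 6) * (u 10) + ((-1 : ℤ) : K) * (u 7) * ((-u 18 * u 25 + u 19 * u 24 - u 6 * u 10 - u 8 * u 16) / u 7) + ((-1 : ℤ) : K) * (u 8) * (u 16) = 0
        push_cast
        field_simp
        ring
      · show ∑ t : Fin 5, _ = _
        rw [Fin.sum_univ_five]
        show ((1 : ℤ) : K) * (u 18) * (u 22) + ((-1 : ℤ) : K) * (u 19) * (u 21) + ((-1 : ℤ) : K) * (u 6) * (u 11) + ((-1 : ℤ) : K) * (u 7) * ((u 18 * u 22 - u 19 * u 21 - u 6 * u 11 - u 8 * u 17) / u 7) + ((-1 : ℤ) : K) * (u 8) * (u 17) = 0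
        push_cast
        field_simp
        ring
    exact hl

theorem cayley_pt_8 {K : Type} [Field K] (u : Fin 27 → K) (h : u 8 ≠ 0) :
    ∃ y : Fin 27 → K, (∀ j : Fin 27, ¬ cayley.opp (8 : Fin 27) j → y j = u j) ∧
      ∀ l, cayley.val y l = 0 := by
  refine ⟨![(u 2 * u 6 + u 12 * u 19 + u 13 * u 22 + u 14 * u 25) / u 8, (u 2 * u 7 - u 9 * u 19 - u 10 * u 22 - u 11 * u 25) / u 8, u 2, (u 5 * u 6 - u 12 * u 18 - u 13 * u 21 - u 14 * u 24) / u 8, (u 5 * u 7 + u 9 * u 18 + u 10 * u 21 + u 11 * u 24) / u 8, u 5, u 6, u 7, u 8, u 9, u 10, u 11, u 12, u 13, u 14, (u 21 * u 25 - u 22 * u 24 - u 6 * u 9 - u 7 * u 12) / u 8, (-u 18 * u 25 + u 19 * u 24 - u 6 * u 10 - u 7 * u 13) / u 8, (u 18 * u 22 - u 19 * u 21 - u 6 * u 11 - u 7 * u 14) / u 8, u 18, u 19, (u 10 * u 14 - u 11 * u 13 - u 18 * u 2 - u 19 * u 5) / u 8, u 21, u 22, (-u 9 * u 14 + u 11 * u 12 - u 21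 * u 2 - u 22 * u 5) / u 8, u 24, u 25, (u 9 * u 13 - u 10 * u 12 - u 24 * u 2 - u 25 * u 5) / u 8], ?_, ?_⟩
  · have key : ∀ j : Fin 27, cayley.opp (8 : Fin 27) j ∨ (![(u 2 * u 6 + u 12 * u 19 + u 13 * u 22 + u 14 * u 25) / u 8, (u 2 * u 7 - u 9 * u 19 - u 10 * u 22 - u 11 * u 25) / u 8, u 2, (u 5 * u 6 - u 12 * u 18 - u 13 * u 21 - u 14 * u 24) / u 8, (u 5 * u 7 + u 9 * u 18 + u 10 * u 21 + u 11 * u 24) / u 8, u 5, u 6, u 7, u 8, u 9, u 10, u 11, u 12, u 13, u 14, (u 21 * u 25 - u 22 * u 24 - u 6 * u 9 - u 7 * u 12) / u 8, (-u 18 * u 25 + u 19 * u 24 - u 6 * u 10 - u 7 * u 13) / u 8, (u 18 * u 22 - u 19 * u 21 - u 6 * u 11 - u 7 * u 14) / u 8, u 18, u 19, (u 10 * u 14 - u 11 * u 13 - u 18 * u 2 - u 19 * u 5) / u 8, u 21, u 22, (-u 9 * u 14 + u 11 * u 12 - u 21 * u 2 - u 22 * u 5) / u 8, u 24, u 25, (u 9 * u 13 - u 10 * u 12 - u 24 * u 2 - u 25 * u 5) / u 8]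 : Fin 27 → K) j = u j := by
      intro j
      fin_cases j
      · exact Or.inl ⟨(4 : Fin 27), (0 : Fin 5), Or.inr ⟨rfl, rfl⟩⟩
      · exact Or.inl ⟨(1 : Fin 27), (0 : Fin 5), Or.inr ⟨rfl, rfl⟩⟩
      · exact Or.inr rfl
      · exact Or.inl ⟨(3 : Fin 27), (0 : Fin 5), Or.inr ⟨rfl, rfl⟩⟩
      · exact Or.inl ⟨(0 : Fin 27), (0 : Fin 5), Or.inr ⟨rfl, rfl⟩⟩
      · exact Or.inr rfl
      · exact Or.inr rfl
      · exact Or.inr rfl
      · exact Or.inr rfl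
      · exact Or.inr rfl
      · exact Or.inr rfl
      · exact Or.inr rfl
      · exact Or.inr rfl
      · exact Or.inr rfl
      · exact Or.inr rfl
      · exact Or.inl ⟨(24 : Fin 27), (4 : Fin 5), Or.inl ⟨rfl, rfl⟩⟩
      · exact Or.inl ⟨(25 : Fin 27), (4 : Fin 5), Or.inl ⟨rfl, rfl⟩⟩
      · exact Or.inl ⟨(26 : Fin 27), (4 : Fin 5), Or.inl ⟨rfl, rfl⟩⟩
      · exact Or.inr rfl
      · exact Or.inr rfl
      · exact Or.inl ⟨(11 : Fin 27), (4 : Fin 5), Or.inr ⟨rfl, rfl⟩⟩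
      · exact Or.inr rfl
      · exact Or.inr rfl
      · exact Or.inl ⟨(14 : Fin 27), (4 : Fin 5), Or.inr ⟨rfl, rfl⟩⟩
      · exact Or.inr rfl
      · exact Or.inr rfl
      · exact Or.inl ⟨(17 : Fin 27), (4 : Fin 5), Or.inr ⟨rfl, rfl⟩⟩
    intro j hj
    exact (key j).resolve_left hj
  · have hl : ∀ l : Fin 27, cayley.val (![(u 2 * u 6 + u 12 * u 19 + u 13 * u 22 + u 14 * u 25) / u 8, (u 2 * u 7 - u 9 * u 19 - u 10 * u 22 - u 11 * u 25) / u 8, u 2, (u 5 * u 6 - u 12 * u 18 - u 13 * u 21 - u 14 * u 24) / u 8, (u 5 * u 7 + u 9 * u 18 + u 10 * u 21 + u 11 * u 24) / u 8, u 5, u 6, u 7, u 8, u 9, u 10, u 11, u 12, u 13, u 14, (u 21 * u 25 - u 22 * u 24 - u 6 * u 9 - u 7 * u 12) / u 8, (-u 18 * u 25 + u 19 * u 24 - u 6 * u 10 - u 7 * u 13) / u 8, (u 18 * u 22 - u 19 * u 21 - u 6 * u 11 - u 7 * u 14) / u 8, u 18, u 19, (u 10 * u 14 - u 11 * u 13 - u 18 * u 2 - u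 19 * u 5) / u 8, u 21, u 22, (-u 9 * u 14 + u 11 * u 12 - u 21 * u 2 - u 22 * u 5) / u 8, u 24, u 25, (u 9 * u 13 - u 10 * u 12 - u 24 * u 2 - u 25 * u 5) / u 8] : Fin 27 → K) l = 0 := by
      intro l
      unfold QF.val
      fin_cases l
      · show ∑ t : Fin 5, _ = _
        rw [Fin.sum_univ_five]
        show ((1 : ℤ) : K) * ((u 5 * u 7 + u 9 * u 18 + u 10 * u 21 + u 11 * u 24) / u 8) * (u 8) + ((-1 : ℤ) : K) * (u 5) * (u 7) + ((-1 : ℤ) : K) * (u 9) * (u 18) + ((-1 : ℤ) : K) * (u 10) * (u 21) + ((-1 : ℤ) : K) * (u 11) * (u 24) = 0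
        push_cast
        field_simp
        ring
      · show ∑ t : Fin 5, _ = _
        rw [Fin.sum_univ_five]
        show ((-1 : ℤ) : K) * ((u 2 * u 7 - u 9 * u 19 - u 10 * u 22 - u 11 * u 25) / u 8) * (u 8) + ((1 : ℤ) : K) * (u 2) * (u 7) + ((-1 : ℤ) : K) * (u 9) * (u 19) + ((-1 : ℤ) : K) * (u 10) * (u 22) + ((-1 : ℤ) : K) * (u 11) * (u 25) = 0
        push_cast
        field_simp
        ring
      · show ∑ t : Fin 5, _ = _
        rw [Fin.sum_univ_five]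
        show ((1 : ℤ) : K) * ((u 2 * u 7 - u 9 * u 19 - u 10 * u 22 - u 11 * u 25) / u 8) * (u 5) + ((-1 : ℤ) : K) * (u 2) * ((u 5 * u 7 + u 9 * u 18 + u 10 * u 21 + u 11 * u 24) / u 8) + ((-1 : ℤ) : K) * (u 9) * ((u 10 * u 14 - u 11 * u 13 - u 18 * u 2 - u 19 * u 5) / u 8) + ((-1 : ℤ) : K) * (u 10) * ((-u 9 * u 14 + u 11 * u 12 - u 21 * u 2 - u 22 * u 5) / u 8) + ((-1 : ℤ) : K) * (u 11) * ((u 9 * u 13 - u 10 * u 12 - u 24 * u 2 - u 25 * u 5) / u 8) = 0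
        push_cast
        field_simp
        ring
      · show ∑ t : Fin 5, _ = _
        rw [Fin.sum_univ_five]
        show ((-1 : ℤ) : K) * ((u 5 * u 6 - u 12 * u 18 - u 13 * u 21 - u 14 * u 24) / u 8) * (u 8) + ((1 : ℤ) : K) * (u 5) * (u 6) + ((-1 : ℤ) : K) * (u 12) * (u 18) + ((-1 : ℤ) : K) * (u 13) * (u 21) + ((-1 : ℤ) : K) * (u 14) * (u 24) = 0
        push_cast
        field_simp
        ring
      · show ∑ t : Fin 5, _ = _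
        rw [Fin.sum_univ_five]
        show ((1 : ℤ) : K) * ((u 2 * u 6 + u 12 * u 19 + u 13 * u 22 + u 14 * u 25) / u 8) * (u 8) + ((-1 : ℤ) : K) * (u 2) * (u 6) + ((-1 : ℤ) : K) * (u 12) * (u 19) + ((-1 : ℤ) : K) * (u 13) * (u 22) + ((-1 : ℤ) : K) * (u 14) * (u 25) = 0
        push_cast
        field_simp
        ring
      · show ∑ t : Fin 5, _ = _
        rw [Fin.sum_univ_five]
        show ((-1 : ℤ) : K) * ((u 2 * u 6 + u 12 * u 19 + u 13 * u 22 + u 14 * u 25) / u 8) * (u 5) + ((1 : ℤ) : K) * (u 2) * ((u 5 * u 6 - u 12 * u 18 - u 13 * u 21 - u 14 * u 24) / u 8) + ((-1 : ℤ) : K) * (u 12) * ((u 10 * u 14 - u 11 * u 13 - u 18 * u 2 - u 19 * u 5) / u 8) + ((-1 : ℤ) : K) * (u 13) * ((-u 9 * u 14 + u 11 * u 12 - u 21 * u 2 - u 22 * u 5) / u 8) + ((-1 : ℤ) : K) * (u 14) * ((u 9 * u 13 - u 10 * u 12 - u 24 * u 2 - u 25 * u 5) / u 8) = 0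
        push_cast
        field_simp
        ring
      · show ∑ t : Fin 5, _ = _
        rw [Fin.sum_univ_five]
        show ((1 : ℤ) : K) * ((u 5 * u 6 - u 12 * u 18 - u 13 * u 21 - u 14 * u 24) / u 8) * (u 7) + ((-1 : ℤ) : K) * ((u 5 * u 7 + u 9 * u 18 + u 10 * u 21 + u 11 * u 24) / u 8) * (u 6) + ((-1 : ℤ) : K) * ((u 21 * u 25 - u 22 * u 24 - u 6 * u 9 - u 7 * u 12) / u 8) * (u 18) + ((-1 : ℤ) : K) * ((-u 18 * u 25 + u 19 * u 24 - u 6 * u 10 - u 7 * u 13) / u 8) * (u 21) + ((-1 : ℤ) : K) * ((u 18 * u 22 - u 19 * u 21 - u 6 * u 11 - u 7 * u 14) / u 8) * (u 24) = 0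
        push_cast
        field_simp
        ring
      · show ∑ t : Fin 5, _ = _
        rw [Fin.sum_univ_five]
        show ((-1 : ℤ) : K) * ((u 2 * u 6 + u 12 * u 19 + u 13 * u 22 + u 14 * u 25) / u 8) * (u 7) + ((1 : ℤ) : K) * ((u 2 * u 7 - u 9 * u 19 - u 10 * u 22 - u 11 * u 25) / u 8) * (u 6) + ((-1 : ℤ) : K) * ((u 21 * u 25 - u 22 * u 24 - u 6 * u 9 - u 7 * u 12) / u 8) * (u 19) + ((-1 : ℤ) : K) * ((-u 18 * u 25 + u 19 * u 24 - u 6 * u 10 - u 7 * u 13) / u 8) * (u 22) + ((-1 : ℤ) : K) * ((u 18 * u 22 - u 19 * u 21 - u 6 * u 11 - u 7 * u 14) / u 8) * (u 25) = 0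
        push_cast
        field_simp
        ring
      · show ∑ t : Fin 5, _ = _
        rw [Fin.sum_univ_five]
        show ((1 : ℤ) : K) * ((u 2 * u 6 + u 12 * u 19 + u 13 * u 22 + u 14 * u 25) / u 8) * ((u 5 * u 7 + u 9 * u 18 + u 10 * u 21 + u 11 * u 24) / u 8) + ((-1 : ℤ) : K) * ((u 2 * u 7 - u 9 * u 19 - u 10 * u 22 - u 11 * u 25) / u 8) * ((u 5 * u 6 - u 12 * u 18 - u 13 * u 21 - u 14 * u 24) / u 8) + ((-1 : ℤ) : K) * ((u 21 * u 25 - u 22 * u 24 - u 6 * u 9 - u 7 * u 12) / u 8) * ((u 10 * u 14 - u 11 * u 13 - u 18 * u 2 - u 19 * u 5) / u 8) + ((-1 : ℤ) : K) * ((-u 18 * u 25 + u 19 * u 24 - u 6 * u 10 - u 7 * u 13) / u 8) * ((-u 9 * u 14 + u 11 * u 12 - u 21 * u 2 - u 22 * u 5) / u 8) + ((-1 : ℤ) : K) * ((u 18 * u 22 - u 19 * u 21 - u 6 * u 11 - u 7 * u 14) / u 8) * ((u 9 * u 13 - u 10 * u 12 - u 24 * u 2 - u 25 * u 5) / u 8) = 0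
        push_cast
        field_simp
        ring
      · show ∑ t : Fin 5, _ = _
        rw [Fin.sum_univ_five]
        show ((1 : ℤ) : K) * (u 13) * ((u 18 * u 22 - u 19 * u 21 - u 6 * u 11 - u 7 * u 14) / u 8) + ((-1 : ℤ) : K) * (u 14) * ((-u 18 * u 25 + u 19 * u 24 - u 6 * u 10 - u 7 * u 13) / u 8) + ((-1 : ℤ) : K) * (u 18) * ((u 2 * u 6 + u 12 * u 19 + u 13 * u 22 + u 14 * u 25) / u 8) + ((-1 : ℤ) : K) * (u 19) * ((u 5 * u 6 - u 12 * u 18 - u 13 * u 21 - u 14 * u 24) / u 8) + ((-1 : ℤ) : K) * ((u 10 * u 14 - u 11 * u 13 - u 18 * u 2 - u 19 * u 5) / u 8) * (u 6) = 0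
        push_cast
        field_simp
        ring
      · show ∑ t : Fin 5, _ = _
        rw [Fin.sum_univ_five]
        show ((-1 : ℤ) : K) * (u 10) * ((u 18 * u 22 - u 19 * u 21 - u 6 * u 11 - u 7 * u 14) / u 8) + ((1 : ℤ) : K) * (u 11) * ((-u 18 * u 25 + u 19 * u 24 - u 6 * u 10 - u 7 * u 13) / u 8) + ((-1 : ℤ) : K) * (u 18) * ((u 2 * u 7 - u 9 * u 19 - u 10 * u 22 - u 11 * u 25) / u 8) + ((-1 : ℤ) : K) * (u 19) * ((u 5 * u 7 + u 9 * u 18 + u 10 * u 21 + u 11 * u 24) / u 8) + ((-1 : ℤ) : K) * ((u 10 * u 14 - u 11 * u 13 - u 18 * u 2 - u 19 * u 5) / u 8) * (u 7) = 0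
        push_cast
        field_simp
        ring
      · show ∑ t : Fin 5, _ = _
        rw [Fin.sum_univ_five]
        show ((1 : ℤ) : K) * (u 10) * (u 14) + ((-1 : ℤ) : K) * (u 11) * (u 13) + ((-1 : ℤ) : K) * (u 18) * (u 2) + ((-1 : ℤ) : K) * (u 19) * (u 5) + ((-1 : ℤ) : K) * ((u 10 * u 14 - u 11 * u 13 - u 18 * u 2 - u 19 * u 5) / u 8) * (u 8) = 0
        push_cast
        field_simp
        ring
      · show ∑ t : Fin 5, _ = _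
        rw [Fin.sum_univ_five]
        show ((-1 : ℤ) : K) * (u 12) * ((u 18 * u 22 - u 19 * u 21 - u 6 * u 11 - u 7 * u 14) / u 8) + ((1 : ℤ) : K) * (u 14) * ((u 21 * u 25 - u 22 * u 24 - u 6 * u 9 - u 7 * u 12) / u 8) + ((-1 : ℤ) : K) * (u 21) * ((u 2 * u 6 + u 12 * u 19 + u 13 * u 22 + u 14 * u 25) / u 8) + ((-1 : ℤ) : K) * (u 22) * ((u 5 * u 6 - u 12 * u 18 - u 13 * u 21 - u 14 * u 24) / u 8) + ((-1 : ℤ) : K) * ((-u 9 * u 14 + u 11 * u 12 - u 21 * u 2 - u 22 * u 5) / u 8) * (u 6) = 0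
        push_cast
        field_simp
        ring
      · show ∑ t : Fin 5, _ = _
        rw [Fin.sum_univ_five]
        show ((1 : ℤ) : K) * (u 9) * ((u 18 * u 22 - u 19 * u 21 - u 6 * u 11 - u 7 * u 14) / u 8) + ((-1 : ℤ) : K) * (u 11) * ((u 21 * u 25 - u 22 * u 24 - u 6 * u 9 - u 7 * u 12) / u 8) + ((-1 : ℤ) : K) * (u 21) * ((u 2 * u 7 - u 9 * u 19 - u 10 * u 22 - u 11 * u 25) / u 8) + ((-1 : ℤ) : K) * (u 22) * ((u 5 * u 7 + u 9 * u 18 + u 10 * u 21 + u 11 * u 24) / u 8) + ((-1 : ℤ) : K) * ((-u 9 * u 14 + u 11 * u 12 - u 21 * u 2 - u 22 * u 5) / u 8) * (u 7) = 0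
        push_cast
        field_simp
        ring
      · show ∑ t : Fin 5, _ = _
        rw [Fin.sum_univ_five]
        show ((-1 : ℤ) : K) * (u 9) * (u 14) + ((1 : ℤ) : K) * (u 11) * (u 12) + ((-1 : ℤ) : K) * (u 21) * (u 2) + ((-1 : ℤ) : K) * (u 22) * (u 5) + ((-1 : ℤ) : K) * ((-u 9 * u 14 + u 11 * u 12 - u 21 * u 2 - u 22 * u 5) / u 8) * (u 8) = 0
        push_cast
        field_simp
        ring
      · show ∑ t : Fin 5, _ = _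
        rw [Fin.sum_univ_five]
        show ((1 : ℤ) : K) * (u 12) * ((-u 18 * u 25 + u 19 * u 24 - u 6 * u 10 - u 7 * u 13) / u 8) + ((-1 : ℤ) : K) * (u 13) * ((u 21 * u 25 - u 22 * u 24 - u 6 * u 9 - u 7 * u 12) / u 8) + ((-1 : ℤ) : K) * (u 24) * ((u 2 * u 6 + u 12 * u 19 + u 13 * u 22 + u 14 * u 25) / u 8) + ((-1 : ℤ) : K) * (u 25) * ((u 5 * u 6 - u 12 * u 18 - u 13 * u 21 - u 14 * u 24) / u 8) + ((-1 : ℤ) : K) * ((u 9 * u 13 - u 10 * u 12 - u 24 * u 2 - u 25 * u 5) / u 8) * (u 6) = 0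
        push_cast
        field_simp
        ring
      · show ∑ t : Fin 5, _ = _
        rw [Fin.sum_univ_five]
        show ((-1 : ℤ) : K) * (u 9) * ((-u 18 * u 25 + u 19 * u 24 - u 6 * u 10 - u 7 * u 13) / u 8) + ((1 : ℤ) : K) * (u 10) * ((u 21 * u 25 - u 22 * u 24 - u 6 * u 9 - u 7 * u 12) / u 8) + ((-1 : ℤ) : K) * (u 24) * ((u 2 * u 7 - u 9 * u 19 - u 10 * u 22 - u 11 * u 25) / u 8) + ((-1 : ℤ) : K) * (u 25) * ((u 5 * u 7 + u 9 * u 18 + u 10 * u 21 + u 11 * u 24) / u 8) + ((-1 : ℤ) : K) * ((u 9 * u 13 - u 10 * u 12 - u 24 * u 2 - u 25 * u 5) / u 8) * (u 7) = 0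
        push_cast
        field_simp
        ring
      · show ∑ t : Fin 5, _ = _
        rw [Fin.sum_univ_five]
        show ((1 : ℤ) : K) * (u 9) * (u 13) + ((-1 : ℤ) : K) * (u 10) * (u 12) + ((-1 : ℤ) : K) * (u 24) * (u 2) + ((-1 : ℤ) : K) * (u 25) * (u 5) + ((-1 : ℤ) : K) * ((u 9 * u 13 - u 10 * u 12 - u 24 * u 2 - u 25 * u 5) / u 8) * (u 8) = 0
        push_cast
        field_simp
        ring
      · show ∑ t : Fin 5, _ = _
        rw [Fin.sum_univ_five]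
        show ((1 : ℤ) : K) * (u 22) * ((u 9 * u 13 - u 10 * u 12 - u 24 * u 2 - u 25 * u 5) / u 8) + ((-1 : ℤ) : K) * ((-u 9 * u 14 + u 11 * u 12 - u 21 * u 2 - u 22 * u 5) / u 8) * (u 25) + ((-1 : ℤ) : K) * ((u 2 * u 6 + u 12 * u 19 + u 13 * u 22 + u 14 * u 25) / u 8) * (u 9) + ((-1 : ℤ) : K) * ((u 2 * u 7 - u 9 * u 19 - u 10 * u 22 - u 11 * u 25) / u 8) * (u 12) + ((-1 : ℤ) : K) * (u 2) * ((u 21 * u 25 - u 22 * u 24 - u 6 * u 9 - u 7 * u 12) / u 8) = 0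
        push_cast
        field_simp
        ring
      · show ∑ t : Fin 5, _ = _
        rw [Fin.sum_univ_five]
        show ((-1 : ℤ) : K) * (u 19) * ((u 9 * u 13 - u 10 * u 12 - u 24 * u 2 - u 25 * u 5) / u 8) + ((1 : ℤ) : K) * ((u 10 * u 14 - u 11 * u 13 - u 18 * u 2 - u 19 * u 5) / u 8) * (u 25) + ((-1 : ℤ) : K) * ((u 2 * u 6 + u 12 * u 19 + u 13 * u 22 + u 14 * u 25) / u 8) * (u 10) + ((-1 : ℤ) : K) * ((u 2 * u 7 - u 9 * u 19 - u 10 * u 22 - u 11 * u 25) / u 8) * (u 13) + ((-1 : ℤ) : K) * (u 2) * ((-u 18 * u 25 + u 19 * u 24 - u 6 * u 10 - u 7 * u 13) / u 8) = 0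
        push_cast
        field_simp
        ring
      · show ∑ t : Fin 5, _ = _
        rw [Fin.sum_univ_five]
        show ((1 : ℤ) : K) * (u 19) * ((-u 9 * u 14 + u 11 * u 12 - u 21 * u 2 - u 22 * u 5) / u 8) + ((-1 : ℤ) : K) * ((u 10 * u 14 - u 11 * u 13 - u 18 * u 2 - u 19 * u 5) / u 8) * (u 22) + ((-1 : ℤ) : K) * ((u 2 * u 6 + u 12 * u 19 + u 13 * u 22 + u 14 * u 25) / u 8) * (u 11) + ((-1 : ℤ) : K) * ((u 2 * u 7 - u 9 * u 19 - u 10 * u 22 - u 11 * u 25) / u 8) * (u 14) + ((-1 : ℤ) : K) * (u 2) * ((u 18 * u 22 - u 19 * u 21 - u 6 * u 11 - u 7 * u 14) / u 8) = 0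
        push_cast
        field_simp
        ring
      · show ∑ t : Fin 5, _ = _
        rw [Fin.sum_univ_five]
        show ((-1 : ℤ) : K) * (u 21) * ((u 9 * u 13 - u 10 * u 12 - u 24 * u 2 - u 25 * u 5) / u 8) + ((1 : ℤ) : K) * ((-u 9 * u 14 + u 11 * u 12 - u 21 * u 2 - u 22 * u 5) / u 8) * (u 24) + ((-1 : ℤ) : K) * ((u 5 * u 6 - u 12 * u 18 - u 13 * u 21 - u 14 * u 24) / u 8) * (u 9) + ((-1 : ℤ) : K) * ((u 5 * u 7 + u 9 * u 18 + u 10 * u 21 + u 11 * u 24) / u 8) * (u 12) + ((-1 : ℤ) : K) * (u 5) * ((u 21 * u 25 - u 22 * u 24 - u 6 * u 9 - u 7 * u 12) / u 8) = 0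
        push_cast
        field_simp
        ring
      · show ∑ t : Fin 5, _ = _
        rw [Fin.sum_univ_five]
        show ((1 : ℤ) : K) * (u 18) * ((u 9 * u 13 - u 10 * u 12 - u 24 * u 2 - u 25 * u 5) / u 8) + ((-1 : ℤ) : K) * ((u 10 * u 14 - u 11 * u 13 - u 18 * u 2 - u 19 * u 5) / u 8) * (u 24) + ((-1 : ℤ) : K) * ((u 5 * u 6 - u 12 * u 18 - u 13 * u 21 - u 14 * u 24) / u 8) * (u 10) + ((-1 : ℤ) : K) * ((u 5 * u 7 + u 9 * u 18 + u 10 * u 21 + u 11 * u 24) / u 8) * (u 13) + ((-1 : ℤ) : K) * (u 5) * ((-u 18 * u 25 + u 19 * u 24 - u 6 * u 10 - u 7 * u 13) / u 8) = 0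
        push_cast
        field_simp
        ring
      · show ∑ t : Fin 5, _ = _
        rw [Fin.sum_univ_five]
        show ((-1 : ℤ) : K) * (u 18) * ((-u 9 * u 14 + u 11 * u 12 - u 21 * u 2 - u 22 * u 5) / u 8) + ((1 : ℤ) : K) * ((u 10 * u 14 - u 11 * u 13 - u 18 * u 2 - u 19 * u 5) / u 8) * (u 21) + ((-1 : ℤ) : K) * ((u 5 * u 6 - u 12 * u 18 - u 13 * u 21 - u 14 * u 24) / u 8) * (u 11) + ((-1 : ℤ) : K) * ((u 5 * u 7 + u 9 * u 18 + u 10 * u 21 + u 11 * u 24) / u 8) * (u 14) + ((-1 : ℤ) : K) * (u 5) * ((u 18 * u 22 - u 19 * u 21 - u 6 * u 11 - u 7 * u 14) / u 8) = 0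
        push_cast
        field_simp
        ring
      · show ∑ t : Fin 5, _ = _
        rw [Fin.sum_univ_five]
        show ((1 : ℤ) : K) * (u 21) * (u 25) + ((-1 : ℤ) : K) * (u 22) * (u 24) + ((-1 : ℤ) : K) * (u 6) * (u 9) + ((-1 : ℤ) : K) * (u 7) * (u 12) + ((-1 : ℤ) : K) * (u 8) * ((u 21 * u 25 - u 22 * u 24 - u 6 * u 9 - u 7 * u 12) / u 8) = 0
        push_cast
        field_simp
        ring
      · show ∑ t : Fin 5, _ = _
        rw [Fin.sum_univ_five]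
        show ((-1 : ℤ) : K) * (u 18) * (u 25) + ((1 : ℤ) : K) * (u 19) * (u 24) + ((-1 : ℤ) : K) * (u 6) * (u 10) + ((-1 : ℤ) : K) * (u 7) * (u 13) + ((-1 : ℤ) : K) * (u 8) * ((-u 18 * u 25 + u 19 * u 24 - u 6 * u 10 - u 7 * u 13) / u 8) = 0
        push_cast
        field_simp
        ring
      · show ∑ t : Fin 5, _ = _
        rw [Fin.sum_univ_five]
        show ((1 : ℤ) : K) * (u 18) * (u 22) + ((-1 : ℤ) : K) * (u 19) * (u 21) + ((-1 : ℤ) : K) * (u 6) * (u 11) + ((-1 : ℤ) : K) * (u 7) * (u 14) + ((-1 : ℤ) : K) * (u 8) * ((u 18 * u 22 - u 19 * u 21 - u 6 * u 11 - u 7 * u 14) / u 8) = 0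
        push_cast
        field_simp
        ring
    exact hl

end Pool.Agent.Q2.SF
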