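import Pool.Agent.Q2.SF.CayT

/-!
# The Cayley plane format: generic points. Generated.
-/

set_option autoImplicit false

namespace Pool.Agent.Q2.SF

theorem cayley_pt_18 {K : Type} [Field K] (u : Fin 27 → K) (h : u 18 ≠ 0) :
    ∃ y : Fin 27 → K, (∀ j : Fin 27, ¬ cayley.opp (18 : Fin 27) j → y j = u j) ∧
      ∀ l, cayley.val y l = 0 := by
  refine ⟨![(u 13 * u 17 - u 14 * u 16 - u 19 * u 3 - u 20 * u 6) / u 18, (-u 10 * u 17 + u 11 * u 16 - u 19 * u 4 - u 20 * u 7) / u 18, (u 10 * u 14 - u 11 * u 13 - u 19 * u 5 - u 20 * u 8) / u 18, u 3, u 4, u 5, u 6, u 7, u 8, (u 4 * u 8 - u 5 * u 7 - u 10 * u 21 - u 11 * u 24) / u 18, u 10, u 11, (-u 3 * u 8 + u 5 * u 6 - u 13 * u 21 - u 14 * u 24) / u 18, u 13, u 14, (u 3 * u 7 - u 4 * u 6 - u 16 * u 21 - u 17 * u 24) / u 18, u 16, u 17, u 18, u 19, u 20, u 21, (u 19 * u 21 + u 6 * u 11 + u 7 * u 14 + u 8 * u 17) / u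 18, (u 20 * u 21 - u 3 * u 11 - u 4 * u 14 - u 5 * u 17) / u 18, u 24, (u 19 * u 24 - u 6 * u 10 - u 7 * u 13 - u 8 * u 16) / u 18, (u 20 * u 24 + u 3 * u 10 + u 4 * u 13 + u 5 * u 16) / u 18], ?_, ?_⟩
  · have key : ∀ j : Fin 27, cayley.opp (18 : Fin 27) j ∨ (![(u 13 * u 17 - u 14 * u 16 - u 19 * u 3 - u 20 * u 6) / u 18, (-u 10 * u 17 + u 11 * u 16 - u 19 * u 4 - u 20 * u 7) / u 18, (u 10 * u 14 - u 11 * u 13 - u 19 * u 5 - u 20 * u 8) / u 18, u 3, u 4, u 5, u 6, u 7, u 8, (u 4 * u 8 - u 5 * u 7 - u 10 * u 21 - u 11 * u 24) / u 18, u 10, u 11, (-u 3 * u 8 + u 5 * u 6 - u 13 * u 21 - u 14 * u 24) / u 18, u 13, u 14, (u 3 * u 7 - u 4 * u 6 - u 16 * u 21 - u 17 * u 24) / u 18, u 16, u 17, u 18, u 19, u 20, u 21, (u 19 * u 21 + u 6 * u 11 + u 7 * u 14 + u 8 * u 17) / u 18, (u 20 * u 21 - u 3 * u 11 - u 4 * u 14 - u 5 * u 17) / u 18, u 24, (u 19 * u 24 - u 6 *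 u 10 - u 7 * u 13 - u 8 * u 16) / u 18, (u 20 * u 24 + u 3 * u 10 + u 4 * u 13 + u 5 * u 16) / u 18] : Fin 27 → K) j = u j := by
      intro j
      fin_cases j
      · exact Or.inl ⟨(9 : Fin 27), (2 : Fin 5), Or.inl ⟨rfl, rfl⟩⟩
      · exact Or.inl ⟨(10 : Fin 27), (2 : Fin 5), Or.inl ⟨rfl, rfl⟩⟩
      · exact Or.inl ⟨(11 : Fin 27), (2 : Fin 5), Or.inl ⟨rfl, rfl⟩⟩
      · exact Or.inr rfl
      · exact Or.inr rfl
      · exact Or.inr rfl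
      · exact Or.inr rfl
      · exact Or.inr rfl
      · exact Or.inr rfl
      · exact Or.inl ⟨(0 : Fin 27), (2 : Fin 5), Or.inr ⟨rfl, rfl⟩⟩
      · exact Or.inr rfl
      · exact Or.inr rfl
      · exact Or.inl ⟨(3 : Fin 27), (2 : Fin 5), Or.inr ⟨rfl, rfl⟩⟩
      · exact Or.inr rfl
      · exact Or.inr rfl
      · exact Or.inl ⟨(6 : Fin 27), (2 : Fin 5), Or.inr ⟨rfl, rfl⟩⟩
      · exact Or.inr rfl
      · exact Or.inr rfl
      · exact Or.inr rfl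
      · exact Or.inr rfl
      · exact Or.inr rfl
      · exact Or.inr rfl
      · exact Or.inl ⟨(26 : Fin 27), (0 : Fin 5), Or.inl ⟨rfl, rfl⟩⟩
      · exact Or.inl ⟨(23 : Fin 27), (0 : Fin 5), Or.inl ⟨rfl, rfl⟩⟩
      · exact Or.inr rfl
      · exact Or.inl ⟨(25 : Fin 27), (0 : Fin 5), Or.inl ⟨rfl, rfl⟩⟩
      · exact Or.inl ⟨(22 : Fin 27), (0 : Fin 5), Or.inl ⟨rfl, rfl⟩⟩
    intro j hj
    exact (key j).resolve_left hj
  · have hl : ∀ l : Fin 27, cayley.val (![(u 13 * u 17 - u 14 * u 16 - u 19 * u 3 - u 20 * u 6) / u 18, (-u 10 * u 17 + u 11 * u 16 - u 19 * u 4 - u 20 * u 7) / u 18, (u 10 * u 14 - u 11 * u 13 - u 19 * u 5 - u 20 * u 8) / u 18, u 3, u 4, u 5, u 6, u 7, u 8, (u 4 * u 8 - u 5 * u 7 - u 10 * u 21 - u 11 * u 24) / u 18, u 10, u 11, (-u 3 * u 8 + u 5 * u 6 - u 13 * u 21 - u 14 * u 24) / u 18, u 13, u 14, (u 3 * u 7 - u 4 * u 6 - u 16 * u 21 - u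 17 * u 24) / u 18, u 16, u 17, u 18, u 19, u 20, u 21, (u 19 * u 21 + u 6 * u 11 + u 7 * u 14 + u 8 * u 17) / u 18, (u 20 * u 21 - u 3 * u 11 - u 4 * u 14 - u 5 * u 17) / u 18, u 24, (u 19 * u 24 - u 6 * u 10 - u 7 * u 13 - u 8 * u 16) / u 18, (u 20 * u 24 + u 3 * u 10 + u 4 * u 13 + u 5 * u 16) / u 18] : Fin 27 → K) l = 0 := by
      intro l
      unfold QF.val
      fin_cases l
      · show ∑ t : Fin 5, _ = _
        rw [Fin.sum_univ_five]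
        show ((1 : ℤ) : K) * (u 4) * (u 8) + ((-1 : ℤ) : K) * (u 5) * (u 7) + ((-1 : ℤ) : K) * ((u 4 * u 8 - u 5 * u 7 - u 10 * u 21 - u 11 * u 24) / u 18) * (u 18) + ((-1 : ℤ) : K) * (u 10) * (u 21) + ((-1 : ℤ) : K) * (u 11) * (u 24) = 0
        push_cast
        field_simp
        ring
      · show ∑ t : Fin 5, _ = _
        rw [Fin.sum_univ_five]
        show ((-1 : ℤ) : K) * ((-u 10 * u 17 + u 11 * u 16 - u 19 * u 4 - u 20 * u 7) / u 18) * (u 8) + ((1 : ℤ) : K) * ((u 10 * u 14 - u 11 * u 13 - u 19 * u 5 - u 20 * u 8) / u 18) * (u 7) + ((-1 : ℤ) : K) * ((u 4 * u 8 - u 5 * u 7 - u 10 * u 21 - u 11 * u 24) / u 18) * (u 19) + ((-1 : ℤ) : K) * (u 10) * ((u 19 * u 21 + u 6 * u 11 + u 7 * u 14 + u 8 * u 17) / u 18) + ((-1 : ℤ) : K) * (u 11) * ((u 19 * u 24 - u 6 * u 10 - u 7 * u 13 - u 8 * u 16) / u 18) = 0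
        push_cast
        field_simp
        ring
      · show ∑ t : Fin 5, _ = _
        rw [Fin.sum_univ_five]
        show ((1 : ℤ) : K) * ((-u 10 * u 17 + u 11 * u 16 - u 19 * u 4 - u 20 * u 7) / u 18) * (u 5) + ((-1 : ℤ) : K) * ((u 10 * u 14 - u 11 * u 13 - u 19 * u 5 - u 20 * u 8) / u 18) * (u 4) + ((-1 : ℤ) : K) * ((u 4 * u 8 - u 5 * u 7 - u 10 * u 21 - u 11 * u 24) / u 18) * (u 20) + ((-1 : ℤ) : K) * (u 10) * ((u 20 * u 21 - u 3 * u 11 - u 4 * u 14 - u 5 * u 17) / u 18) + ((-1 : ℤ) : K) * (u 11) * ((u 20 * u 24 + u 3 * u 10 + u 4 * u 13 + u 5 * u 16) / u 18) = 0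
        push_cast
        field_simp
        ring
      · show ∑ t : Fin 5, _ = _
        rw [Fin.sum_univ_five]
        show ((-1 : ℤ) : K) * (u 3) * (u 8) + ((1 : ℤ) : K) * (u 5) * (u 6) + ((-1 : ℤ) : K) * ((-u 3 * u 8 + u 5 * u 6 - u 13 * u 21 - u 14 * u 24) / u 18) * (u 18) + ((-1 : ℤ) : K) * (u 13) * (u 21) + ((-1 : ℤ) : K) * (u 14) * (u 24) = 0
        push_cast
        field_simp
        ring
      · show ∑ t : Fin 5, _ = _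
        rw [Fin.sum_univ_five]
        show ((1 : ℤ) : K) * ((u 13 * u 17 - u 14 * u 16 - u 19 * u 3 - u 20 * u 6) / u 18) * (u 8) + ((-1 : ℤ) : K) * ((u 10 * u 14 - u 11 * u 13 - u 19 * u 5 - u 20 * u 8) / u 18) * (u 6) + ((-1 : ℤ) : K) * ((-u 3 * u 8 + u 5 * u 6 - u 13 * u 21 - u 14 * u 24) / u 18) * (u 19) + ((-1 : ℤ) : K) * (u 13) * ((u 19 * u 21 + u 6 * u 11 + u 7 * u 14 + u 8 * u 17) / u 18) + ((-1 : ℤ) : K) * (u 14) * ((u 19 * u 24 - u 6 * u 10 - u 7 * u 13 - u 8 * u 16) / u 18) = 0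
        push_cast
        field_simp
        ring
      · show ∑ t : Fin 5, _ = _
        rw [Fin.sum_univ_five]
        show ((-1 : ℤ) : K) * ((u 13 * u 17 - u 14 * u 16 - u 19 * u 3 - u 20 * u 6) / u 18) * (u 5) + ((1 : ℤ) : K) * ((u 10 * u 14 - u 11 * u 13 - u 19 * u 5 - u 20 * u 8) / u 18) * (u 3) + ((-1 : ℤ) : K) * ((-u 3 * u 8 + u 5 * u 6 - u 13 * u 21 - u 14 * u 24) / u 18) * (u 20) + ((-1 : ℤ) : K) * (u 13) * ((u 20 * u 21 - u 3 * u 11 - u 4 * u 14 - u 5 * u 17) / u 18) + ((-1 : ℤ) : K) * (u 14) * ((u 20 * u 24 + u 3 * u 10 + u 4 * u 13 + u 5 * u 16) / u 18) = 0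
        push_cast
        field_simp
        ring
      · show ∑ t : Fin 5, _ = _
        rw [Fin.sum_univ_five]
        show ((1 : ℤ) : K) * (u 3) * (u 7) + ((-1 : ℤ) : K) * (u 4) * (u 6) + ((-1 : ℤ) : K) * ((u 3 * u 7 - u 4 * u 6 - u 16 * u 21 - u 17 * u 24) / u 18) * (u 18) + ((-1 : ℤ) : K) * (u 16) * (u 21) + ((-1 : ℤ) : K) * (u 17) * (u 24) = 0
        push_cast
        field_simp
        ring
      · show ∑ t : Fin 5, _ = _
        rw [Fin.sum_univ_five]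
        show ((-1 : ℤ) : K) * ((u 13 * u 17 - u 14 * u 16 - u 19 * u 3 - u 20 * u 6) / u 18) * (u 7) + ((1 : ℤ) : K) * ((-u 10 * u 17 + u 11 * u 16 - u 19 * u 4 - u 20 * u 7) / u 18) * (u 6) + ((-1 : ℤ) : K) * ((u 3 * u 7 - u 4 * u 6 - u 16 * u 21 - u 17 * u 24) / u 18) * (u 19) + ((-1 : ℤ) : K) * (u 16) * ((u 19 * u 21 + u 6 * u 11 + u 7 * u 14 + u 8 * u 17) / u 18) + ((-1 : ℤ) : K) * (u 17) * ((u 19 * u 24 - u 6 * u 10 - u 7 * u 13 - u 8 * u 16) / u 18) = 0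
        push_cast
        field_simp
        ring
      · show ∑ t : Fin 5, _ = _
        rw [Fin.sum_univ_five]
        show ((1 : ℤ) : K) * ((u 13 * u 17 - u 14 * u 16 - u 19 * u 3 - u 20 * u 6) / u 18) * (u 4) + ((-1 : ℤ) : K) * ((-u 10 * u 17 + u 11 * u 16 - u 19 * u 4 - u 20 * u 7) / u 18) * (u 3) + ((-1 : ℤ) : K) * ((u 3 * u 7 - u 4 * u 6 - u 16 * u 21 - u 17 * u 24) / u 18) * (u 20) + ((-1 : ℤ) : K) * (u 16) * ((u 20 * u 21 - u 3 * u 11 - u 4 * u 14 - u 5 * u 17) / u 18) + ((-1 : ℤ) : K) * (u 17) * ((u 20 * u 24 + u 3 * u 10 + u 4 * u 13 + u 5 * u 16) / u 18) = 0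
        push_cast
        field_simp
        ring
      · show ∑ t : Fin 5, _ = _
        rw [Fin.sum_univ_five]
        show ((1 : ℤ) : K) * (u 13) * (u 17) + ((-1 : ℤ) : K) * (u 14) * (u 16) + ((-1 : ℤ) : K) * (u 18) * ((u 13 * u 17 - u 14 * u 16 - u 19 * u 3 - u 20 * u 6) / u 18) + ((-1 : ℤ) : K) * (u 19) * (u 3) + ((-1 : ℤ) : K) * (u 20) * (u 6) = 0
        push_cast
        field_simp
        ring
      · show ∑ t : Fin 5, _ = _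
        rw [Fin.sum_univ_five]
        show ((-1 : ℤ) : K) * (u 10) * (u 17) + ((1 : ℤ) : K) * (u 11) * (u 16) + ((-1 : ℤ) : K) * (u 18) * ((-u 10 * u 17 + u 11 * u 16 - u 19 * u 4 - u 20 * u 7) / u 18) + ((-1 : ℤ) : K) * (u 19) * (u 4) + ((-1 : ℤ) : K) * (u 20) * (u 7) = 0
        push_cast
        field_simp
        ring
      · show ∑ t : Fin 5, _ = _
        rw [Fin.sum_univ_five]
        show ((1 : ℤ) : K) * (u 10) * (u 14) + ((-1 : ℤ) : K) * (u 11) * (u 13) + ((-1 : ℤ) : K) * (u 18) * ((u 10 * u 14 - u 11 * u 13 - u 19 * u 5 - u 20 * u 8) / u 18) + ((-1 : ℤ) : K) * (u 19) * (u 5) + ((-1 : ℤ) : K) * (u 20) * (u 8) = 0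
        push_cast
        field_simp
        ring
      · show ∑ t : Fin 5, _ = _
        rw [Fin.sum_univ_five]
        show ((-1 : ℤ) : K) * ((-u 3 * u 8 + u 5 * u 6 - u 13 * u 21 - u 14 * u 24) / u 18) * (u 17) + ((1 : ℤ) : K) * (u 14) * ((u 3 * u 7 - u 4 * u 6 - u 16 * u 21 - u 17 * u 24) / u 18) + ((-1 : ℤ) : K) * (u 21) * ((u 13 * u 17 - u 14 * u 16 - u 19 * u 3 - u 20 * u 6) / u 18) + ((-1 : ℤ) : K) * ((u 19 * u 21 + u 6 * u 11 + u 7 * u 14 + u 8 * u 17) / u 18) * (u 3) + ((-1 : ℤ) : K) * ((u 20 * u 21 - u 3 * u 11 - u 4 * u 14 - u 5 * u 17) / u 18) * (u 6) = 0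
        push_cast
        field_simp
        ring
      · show ∑ t : Fin 5, _ = _
        rw [Fin.sum_univ_five]
        show ((1 : ℤ) : K) * ((u 4 * u 8 - u 5 * u 7 - u 10 * u 21 - u 11 * u 24) / u 18) * (u 17) + ((-1 : ℤ) : K) * (u 11) * ((u 3 * u 7 - u 4 * u 6 - u 16 * u 21 - u 17 * u 24) / u 18) + ((-1 : ℤ) : K) * (u 21) * ((-u 10 * u 17 + u 11 * u 16 - u 19 * u 4 - u 20 * u 7) / u 18) + ((-1 : ℤ) : K) * ((u 19 * u 21 + u 6 * u 11 + u 7 * u 14 + u 8 * u 17) / u 18) * (u 4) + ((-1 : ℤ) : K) * ((u 20 * u 21 - u 3 * u 11 - u 4 * u 14 - u 5 * u 17) / u 18) * (u 7) = 0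
        push_cast
        field_simp
        ring
      · show ∑ t : Fin 5, _ = _
        rw [Fin.sum_univ_five]
        show ((-1 : ℤ) : K) * ((u 4 * u 8 - u 5 * u 7 - u 10 * u 21 - u 11 * u 24) / u 18) * (u 14) + ((1 : ℤ) : K) * (u 11) * ((-u 3 * u 8 + u 5 * u 6 - u 13 * u 21 - u 14 * u 24) / u 18) + ((-1 : ℤ) : K) * (u 21) * ((u 10 * u 14 - u 11 * u 13 - u 19 * u 5 - u 20 * u 8) / u 18) + ((-1 : ℤ) : K) * ((u 19 * u 21 + u 6 * u 11 + u 7 * u 14 + u 8 * u 17) / u 18) * (u 5) + ((-1 : ℤ) : K) * ((u 20 * u 21 - u 3 * u 11 - u 4 * u 14 - u 5 * u 17) / u 18) * (u 8) = 0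
        push_cast
        field_simp
        ring
      · show ∑ t : Fin 5, _ = _
        rw [Fin.sum_univ_five]
        show ((1 : ℤ) : K) * ((-u 3 * u 8 + u 5 * u 6 - u 13 * u 21 - u 14 * u 24) / u 18) * (u 16) + ((-1 : ℤ) : K) * (u 13) * ((u 3 * u 7 - u 4 * u 6 - u 16 * u 21 - u 17 * u 24) / u 18) + ((-1 : ℤ) : K) * (u 24) * ((u 13 * u 17 - u 14 * u 16 - u 19 * u 3 - u 20 * u 6) / u 18) + ((-1 : ℤ) : K) * ((u 19 * u 24 - u 6 * u 10 - u 7 * u 13 - u 8 * u 16) / u 18) * (u 3) + ((-1 : ℤ) : K) * ((u 20 * u 24 + u 3 * u 10 + u 4 * u 13 + u 5 * u 16) / u 18) * (u 6) = 0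
        push_cast
        field_simp
        ring
      · show ∑ t : Fin 5, _ = _
        rw [Fin.sum_univ_five]
        show ((-1 : ℤ) : K) * ((u 4 * u 8 - u 5 * u 7 - u 10 * u 21 - u 11 * u 24) / u 18) * (u 16) + ((1 : ℤ) : K) * (u 10) * ((u 3 * u 7 - u 4 * u 6 - u 16 * u 21 - u 17 * u 24) / u 18) + ((-1 : ℤ) : K) * (u 24) * ((-u 10 * u 17 + u 11 * u 16 - u 19 * u 4 - u 20 * u 7) / u 18) + ((-1 : ℤ) : K) * ((u 19 * u 24 - u 6 * u 10 - u 7 * u 13 - u 8 * u 16) / u 18) * (u 4) + ((-1 : ℤ) : K) * ((u 20 * u 24 + u 3 * u 10 + u 4 * u 13 + u 5 * u 16) / u 18) * (u 7) = 0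
        push_cast
        field_simp
        ring
      · show ∑ t : Fin 5, _ = _
        rw [Fin.sum_univ_five]
        show ((1 : ℤ) : K) * ((u 4 * u 8 - u 5 * u 7 - u 10 * u 21 - u 11 * u 24) / u 18) * (u 13) + ((-1 : ℤ) : K) * (u 10) * ((-u 3 * u 8 + u 5 * u 6 - u 13 * u 21 - u 14 * u 24) / u 18) + ((-1 : ℤ) : K) * (u 24) * ((u 10 * u 14 - u 11 * u 13 - u 19 * u 5 - u 20 * u 8) / u 18) + ((-1 : ℤ) : K) * ((u 19 * u 24 - u 6 * u 10 - u 7 * u 13 - u 8 * u 16) / u 18) * (u 5) + ((-1 : ℤ) : K) * ((u 20 * u 24 + u 3 * u 10 + u 4 * u 13 + u 5 * u 16) / u 18) * (u 8) = 0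
        push_cast
        field_simp
        ring
      · show ∑ t : Fin 5, _ = _
        rw [Fin.sum_univ_five]
        show ((1 : ℤ) : K) * ((u 19 * u 21 + u 6 * u 11 + u 7 * u 14 + u 8 * u 17) / u 18) * ((u 20 * u 24 + u 3 * u 10 + u 4 * u 13 + u 5 * u 16) / u 18) + ((-1 : ℤ) : K) * ((u 20 * u 21 - u 3 * u 11 - u 4 * u 14 - u 5 * u 17) / u 18) * ((u 19 * u 24 - u 6 * u 10 - u 7 * u 13 - u 8 * u 16) / u 18) + ((-1 : ℤ) : K) * ((u 13 * u 17 - u 14 * u 16 - u 19 * u 3 - u 20 * u 6) / u 18) * ((u 4 * u 8 - u 5 * u 7 - u 10 * u 21 - u 11 * u 24) / u 18) + ((-1 : ℤ) : K) * ((-u 10 * u 17 + u 11 * u 16 - u 19 * u 4 - u 20 * u 7) / u 18) * ((-u 3 * u 8 + u 5 * u 6 - u 13 * u 21 - u 14 * u 24) / u 18) + ((-1 : ℤ) : K) * ((u 10 * u 14 - u 11 * u 13 - u 19 * u 5 - u 20 * u 8) / u 18) * ((u 3 * u 7 - u 4 * u 6 - u 16 * u 21 - u 17 * u 24) / u 18) = 0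
        push_cast
        field_simp
        ring
      · show ∑ t : Fin 5, _ = _
        rw [Fin.sum_univ_five]
        show ((-1 : ℤ) : K) * (u 19) * ((u 20 * u 24 + u 3 * u 10 + u 4 * u 13 + u 5 * u 16) / u 18) + ((1 : ℤ) : K) * (u 20) * ((u 19 * u 24 - u 6 * u 10 - u 7 * u 13 - u 8 * u 16) / u 18) + ((-1 : ℤ) : K) * ((u 13 * u 17 - u 14 * u 16 - u 19 * u 3 - u 20 * u 6) / u 18) * (u 10) + ((-1 : ℤ) : K) * ((-u 10 * u 17 + u 11 * u 16 - u 19 * u 4 - u 20 * u 7) / u 18) * (u 13) + ((-1 : ℤ) : K) * ((u 10 * u 14 - u 11 * u 13 - u 19 * u 5 - u 20 * u 8) / u 18) * (u 16) = 0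
        push_cast
        field_simp
        ring
      · show ∑ t : Fin 5, _ = _
        rw [Fin.sum_univ_five]
        show ((1 : ℤ) : K) * (u 19) * ((u 20 * u 21 - u 3 * u 11 - u 4 * u 14 - u 5 * u 17) / u 18) + ((-1 : ℤ) : K) * (u 20) * ((u 19 * u 21 + u 6 * u 11 + u 7 * u 14 + u 8 * u 17) / u 18) + ((-1 : ℤ) : K) * ((u 13 * u 17 - u 14 * u 16 - u 19 * u 3 - u 20 * u 6) / u 18) * (u 11) + ((-1 : ℤ) : K) * ((-u 10 * u 17 + u 11 * u 16 - u 19 * u 4 - u 20 * u 7) / u 18) * (u 14) + ((-1 : ℤ) : K) * ((u 10 * u 14 - u 11 * u 13 - u 19 * u 5 - u 20 * u 8) / u 18) * (u 17) = 0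
        push_cast
        field_simp
        ring
      · show ∑ t : Fin 5, _ = _
        rw [Fin.sum_univ_five]
        show ((-1 : ℤ) : K) * (u 21) * ((u 20 * u 24 + u 3 * u 10 + u 4 * u 13 + u 5 * u 16) / u 18) + ((1 : ℤ) : K) * ((u 20 * u 21 - u 3 * u 11 - u 4 * u 14 - u 5 * u 17) / u 18) * (u 24) + ((-1 : ℤ) : K) * (u 3) * ((u 4 * u 8 - u 5 * u 7 - u 10 * u 21 - u 11 * u 24) / u 18) + ((-1 : ℤ) : K) * (u 4) * ((-u 3 * u 8 + u 5 * u 6 - u 13 * u 21 - u 14 * u 24) / u 18) + ((-1 : ℤ) : K) * (u 5) * ((u 3 * u 7 - u 4 * u 6 - u 16 * u 21 - u 17 * u 24) / u 18) = 0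
        push_cast
        field_simp
        ring
      · show ∑ t : Fin 5, _ = _
        rw [Fin.sum_univ_five]
        show ((1 : ℤ) : K) * (u 18) * ((u 20 * u 24 + u 3 * u 10 + u 4 * u 13 + u 5 * u 16) / u 18) + ((-1 : ℤ) : K) * (u 20) * (u 24) + ((-1 : ℤ) : K) * (u 3) * (u 10) + ((-1 : ℤ) : K) * (u 4) * (u 13) + ((-1 : ℤ) : K) * (u 5) * (u 16) = 0
        push_cast
        field_simp
        ring
      · show ∑ t : Fin 5, _ = _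
        rw [Fin.sum_univ_five]
        show ((-1 : ℤ) : K) * (u 18) * ((u 20 * u 21 - u 3 * u 11 - u 4 * u 14 - u 5 * u 17) / u 18) + ((1 : ℤ) : K) * (u 20) * (u 21) + ((-1 : ℤ) : K) * (u 3) * (u 11) + ((-1 : ℤ) : K) * (u 4) * (u 14) + ((-1 : ℤ) : K) * (u 5) * (u 17) = 0
        push_cast
        field_simp
        ring
      · show ∑ t : Fin 5, _ = _
        rw [Fin.sum_univ_five]
        show ((1 : ℤ) : K) * (u 21) * ((u 19 * u 24 - u 6 * u 10 - u 7 * u 13 - u 8 * u 16) / u 18) + ((-1 : ℤ) : K) * ((u 19 * u 21 + u 6 * u 11 + u 7 * u 14 + u 8 * u 17) / u 18) * (u 24) + ((-1 : ℤ) : K) * (u 6) * ((u 4 * u 8 - u 5 * u 7 - u 10 * u 21 - u 11 * u 24) / u 18) + ((-1 : ℤ) : K) * (u 7) * ((-u 3 * u 8 + u 5 * u 6 - u 13 * u 21 - u 14 * u 24) / u 18) + ((-1 : ℤ) : K) * (u 8) * ((u 3 * u 7 - u 4 * u 6 - u 16 * u 21 - u 17 * u 24) / u 18) = 0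
        push_cast
        field_simp
        ring
      · show ∑ t : Fin 5, _ = _
        rw [Fin.sum_univ_five]
        show ((-1 : ℤ) : K) * (u 18) * ((u 19 * u 24 - u 6 * u 10 - u 7 * u 13 - u 8 * u 16) / u 18) + ((1 : ℤ) : K) * (u 19) * (u 24) + ((-1 : ℤ) : K) * (u 6) * (u 10) + ((-1 : ℤ) : K) * (u 7) * (u 13) + ((-1 : ℤ) : K) * (u 8) * (u 16) = 0
        push_cast
        field_simp
        ring
      · show ∑ t : Fin 5, _ = _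
        rw [Fin.sum_univ_five]
        show ((1 : ℤ) : K) * (u 18) * ((u 19 * u 21 + u 6 * u 11 + u 7 * u 14 + u 8 * u 17) / u 18) + ((-1 : ℤ) : K) * (u 19) * (u 21) + ((-1 : ℤ) : K) * (u 6) * (u 11) + ((-1 : ℤ) : K) * (u 7) * (u 14) + ((-1 : ℤ) : K) * (u 8) * (u 17) = 0
        push_cast
        field_simp
        ring
    exact hl

theorem cayley_pt_19 {K : Type} [Field K] (u : Fin 27 → K) (h : u 19 ≠ 0) :
    ∃ y : Fin 27 → K, (∀ j : Fin 27, ¬ cayley.opp (19 : Fin 27) j → y j = u j) ∧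
      ∀ l, cayley.val y l = 0 := by
  refine ⟨![u 0, u 1, u 2, (u 13 * u 17 - u 14 * u 16 - u 18 * u 0 - u 20 * u 6) / u 19, (-u 10 * u 17 + u 11 * u 16 - u 18 * u 1 - u 20 * u 7) / u 19, (u 10 * u 14 - u 11 * u 13 - u 18 * u 2 - u 20 * u 8) / u 19, u 6, u 7, u 8, (-u 1 * u 8 + u 2 * u 7 - u 10 * u 22 - u 11 * u 25) / u 19, u 10, u 11, (u 0 * u 8 - u 2 * u 6 - u 13 * u 22 - u 14 * u 25) / u 19, u 13, u 14, (-u 0 * u 7 + u 1 * u 6 - u 16 * u 22 - u 17 * u 25) / u 19, u 16, u 17, u 18, u 19, u 20, (u 18 * u 22 - u 6 * u 11 - u 7 * u 14 - u 8 * u 17) / u 19, u 22, (u 20 * u 22 + u 0 * u 11 + u 1 * u 14 + u 2 * u 17) / u 19, (u 18 * u 25 + u 6 * u 10 + u 7 * u 13 + u 8 * u 16) / u 19, u 25, (u 20 * u 25 - u 0 * u 10 - u 1 * u 13 - u 2 * u 16) / u 19], ?_, ?_⟩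
  · have key : ∀ j : Fin 27, cayley.opp (19 : Fin 27) j ∨ (![u 0, u 1, u 2, (u 13 * u 17 - u 14 * u 16 - u 18 * u 0 - u 20 * u 6) / u 19, (-u 10 * u 17 + u 11 * u 16 - u 18 * u 1 - u 20 * u 7) / u 19, (u 10 * u 14 - u 11 * u 13 - u 18 * u 2 - u 20 * u 8) / u 19, u 6, u 7, u 8, (-u 1 * u 8 + u 2 * u 7 - u 10 * u 22 - u 11 * u 25) / u 19, u 10, u 11, (u 0 * u 8 - u 2 * u 6 - u 13 * u 22 - u 14 * u 25) / u 19, u 13, u 14, (-u 0 * u 7 + u 1 * u 6 - u 16 * u 22 - u 17 * u 25) / u 19, u 16, u 17, u 18, u 19, u 20, (u 18 * u 22 - u 6 * u 11 - u 7 * u 14 - u 8 * u 17) / u 19, u 22, (u 20 * u 22 + u 0 * u 11 + u 1 * u 14 + u 2 * u 17) / u 19, (u 18 * u 25 + u 6 * u 10 + u 7 * u 13 + u 8 * u 16) / u 19, u 25, (u 20 * u 25 - u 0 * u 10 - u 1 * u 13 - u 2 * u 16) / u 19] : Fin 27 → K) j = u j := by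
      intro j
      fin_cases j
      · exact Or.inr rfl
      · exact Or.inr rfl
      · exact Or.inr rfl
      · exact Or.inl ⟨(9 : Fin 27), (3 : Fin 5), Or.inl ⟨rfl, rfl⟩⟩
      · exact Or.inl ⟨(10 : Fin 27), (3 : Fin 5), Or.inl ⟨rfl, rfl⟩⟩
      · exact Or.inl ⟨(11 : Fin 27), (3 : Fin 5), Or.inl ⟨rfl, rfl⟩⟩
      · exact Or.inr rfl
      · exact Or.inr rfl
      · exact Or.inr rfl
      · exact Or.inl ⟨(1 : Fin 27), (2 : Fin 5), Or.inr ⟨rfl, rfl⟩⟩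
      · exact Or.inr rfl
      · exact Or.inr rfl
      · exact Or.inl ⟨(4 : Fin 27), (2 : Fin 5), Or.inr ⟨rfl, rfl⟩⟩
      · exact Or.inr rfl
      · exact Or.inr rfl
      · exact Or.inl ⟨(7 : Fin 27), (2 : Fin 5), Or.inr ⟨rfl, rfl⟩⟩
      · exact Or.inr rfl
      · exact Or.inr rfl
      · exact Or.inr rfl
      · exact Or.inr rfl
      · exact Or.inr rfl
      · exact Or.inl ⟨(26 : Fin 27), (1 : Fin 5), Or.inl ⟨rfl, rfl⟩⟩
      · exact Or.inr rfl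
      · exact Or.inl ⟨(20 : Fin 27), (0 : Fin 5), Or.inl ⟨rfl, rfl⟩⟩
      · exact Or.inl ⟨(25 : Fin 27), (1 : Fin 5), Or.inl ⟨rfl, rfl⟩⟩
      · exact Or.inr rfl
      · exact Or.inl ⟨(19 : Fin 27), (0 : Fin 5), Or.inl ⟨rfl, rfl⟩⟩
    intro j hj
    exact (key j).resolve_left hj
  · have hl : ∀ l : Fin 27, cayley.val (![u 0, u 1, u 2, (u 13 * u 17 - u 14 * u 16 - u 18 * u 0 - u 20 * u 6) / u 19, (-u 10 * u 17 + u 11 * u 16 - u 18 * u 1 - u 20 * u 7) / u 19, (u 10 * u 14 - u 11 * u 13 - u 18 * u 2 - u 20 * u 8) / u 19, u 6, u 7, u 8, (-u 1 * u 8 + u 2 * u 7 - u 10 * u 22 - u 11 * u 25) / u 19, u 10, u 11, (u 0 * u 8 - u 2 * u 6 - u 13 * u 22 - u 14 * u 25) / u 19, u 13, u 14, (-u 0 * u 7 + u 1 * u 6 - u 16 * u 22 - u 17 * u 25) / u 19, u 16, u 17, u 18, u 19, u 20, (u 18 * u 22 - u 6 * u 11 - u 7 * u 14 - u 8 * u 17) / u 19, u 22, (u 20 * u 22 + u 0 * u 11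 + u 1 * u 14 + u 2 * u 17) / u 19, (u 18 * u 25 + u 6 * u 10 + u 7 * u 13 + u 8 * u 16) / u 19, u 25, (u 20 * u 25 - u 0 * u 10 - u 1 * u 13 - u 2 * u 16) / u 19] : Fin 27 → K) l = 0 := by
      intro l
      unfold QF.val
      fin_cases l
      · show ∑ t : Fin 5, _ = _
        rw [Fin.sum_univ_five]
        show ((1 : ℤ) : K) * ((-u 10 * u 17 + u 11 * u 16 - u 18 * u 1 - u 20 * u 7) / u 19) * (u 8) + ((-1 : ℤ) : K) * ((u 10 * u 14 - u 11 * u 13 - u 18 * u 2 - u 20 * u 8) / u 19) * (u 7) + ((-1 : ℤ) : K) * ((-u 1 * u 8 + u 2 * u 7 - u 10 * u 22 - u 11 * u 25) / u 19) * (u 18) + ((-1 : ℤ) : K) * (u 10) * ((u 18 * u 22 - u 6 * u 11 - u 7 * u 14 - u 8 * u 17) / u 19) + ((-1 : ℤ) : K) * (u 11) * ((u 18 * u 25 + u 6 * u 10 + u 7 * u 13 + u 8 * u 16) / u 19) = 0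
        push_cast
        field_simp
        ring
      · show ∑ t : Fin 5, _ = _
        rw [Fin.sum_univ_five]
        show ((-1 : ℤ) : K) * (u 1) * (u 8) + ((1 : ℤ) : K) * (u 2) * (u 7) + ((-1 : ℤ) : K) * ((-u 1 * u 8 + u 2 * u 7 - u 10 * u 22 - u 11 * u 25) / u 19) * (u 19) + ((-1 : ℤ) : K) * (u 10) * (u 22) + ((-1 : ℤ) : K) * (u 11) * (u 25) = 0
        push_cast
        field_simp
        ring
      · show ∑ t : Fin 5, _ = _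
        rw [Fin.sum_univ_five]
        show ((1 : ℤ) : K) * (u 1) * ((u 10 * u 14 - u 11 * u 13 - u 18 * u 2 - u 20 * u 8) / u 19) + ((-1 : ℤ) : K) * (u 2) * ((-u 10 * u 17 + u 11 * u 16 - u 18 * u 1 - u 20 * u 7) / u 19) + ((-1 : ℤ) : K) * ((-u 1 * u 8 + u 2 * u 7 - u 10 * u 22 - u 11 * u 25) / u 19) * (u 20) + ((-1 : ℤ) : K) * (u 10) * ((u 20 * u 22 + u 0 * u 11 + u 1 * u 14 + u 2 * u 17) / u 19) + ((-1 : ℤ) : K) * (u 11) * ((u 20 * u 25 - u 0 * u 10 - u 1 * u 13 - u 2 * u 16) / u 19) = 0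
        push_cast
        field_simp
        ring
      · show ∑ t : Fin 5, _ = _
        rw [Fin.sum_univ_five]
        show ((-1 : ℤ) : K) * ((u 13 * u 17 - u 14 * u 16 - u 18 * u 0 - u 20 * u 6) / u 19) * (u 8) + ((1 : ℤ) : K) * ((u 10 * u 14 - u 11 * u 13 - u 18 * u 2 - u 20 * u 8) / u 19) * (u 6) + ((-1 : ℤ) : K) * ((u 0 * u 8 - u 2 * u 6 - u 13 * u 22 - u 14 * u 25) / u 19) * (u 18) + ((-1 : ℤ) : K) * (u 13) * ((u 18 * u 22 - u 6 * u 11 - u 7 * u 14 - u 8 * u 17) / u 19) + ((-1 : ℤ) : K) * (u 14) * ((u 18 * u 25 + u 6 * u 10 + u 7 * u 13 + u 8 * u 16) / u 19) = 0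
        push_cast
        field_simp
        ring
      · show ∑ t : Fin 5, _ = _
        rw [Fin.sum_univ_five]
        show ((1 : ℤ) : K) * (u 0) * (u 8) + ((-1 : ℤ) : K) * (u 2) * (u 6) + ((-1 : ℤ) : K) * ((u 0 * u 8 - u 2 * u 6 - u 13 * u 22 - u 14 * u 25) / u 19) * (u 19) + ((-1 : ℤ) : K) * (u 13) * (u 22) + ((-1 : ℤ) : K) * (u 14) * (u 25) = 0
        push_cast
        field_simp
        ring
      · show ∑ t : Fin 5, _ = _
        rw [Fin.sum_univ_five]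
        show ((-1 : ℤ) : K) * (u 0) * ((u 10 * u 14 - u 11 * u 13 - u 18 * u 2 - u 20 * u 8) / u 19) + ((1 : ℤ) : K) * (u 2) * ((u 13 * u 17 - u 14 * u 16 - u 18 * u 0 - u 20 * u 6) / u 19) + ((-1 : ℤ) : K) * ((u 0 * u 8 - u 2 * u 6 - u 13 * u 22 - u 14 * u 25) / u 19) * (u 20) + ((-1 : ℤ) : K) * (u 13) * ((u 20 * u 22 + u 0 * u 11 + u 1 * u 14 + u 2 * u 17) / u 19) + ((-1 : ℤ) : K) * (u 14) * ((u 20 * u 25 - u 0 * u 10 - u 1 * u 13 - u 2 * u 16) / u 19) = 0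
        push_cast
        field_simp
        ring
      · show ∑ t : Fin 5, _ = _
        rw [Fin.sum_univ_five]
        show ((1 : ℤ) : K) * ((u 13 * u 17 - u 14 * u 16 - u 18 * u 0 - u 20 * u 6) / u 19) * (u 7) + ((-1 : ℤ) : K) * ((-u 10 * u 17 + u 11 * u 16 - u 18 * u 1 - u 20 * u 7) / u 19) * (u 6) + ((-1 : ℤ) : K) * ((-u 0 * u 7 + u 1 * u 6 - u 16 * u 22 - u 17 * u 25) / u 19) * (u 18) + ((-1 : ℤ) : K) * (u 16) * ((u 18 * u 22 - u 6 * u 11 - u 7 * u 14 - u 8 * u 17) / u 19) + ((-1 : ℤ) : K) * (u 17) * ((u 18 * u 25 + u 6 * u 10 + u 7 * u 13 + u 8 * u 16) / u 19) = 0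
        push_cast
        field_simp
        ring
      · show ∑ t : Fin 5, _ = _
        rw [Fin.sum_univ_five]
        show ((-1 : ℤ) : K) * (u 0) * (u 7) + ((1 : ℤ) : K) * (u 1) * (u 6) + ((-1 : ℤ) : K) * ((-u 0 * u 7 + u 1 * u 6 - u 16 * u 22 - u 17 * u 25) / u 19) * (u 19) + ((-1 : ℤ) : K) * (u 16) * (u 22) + ((-1 : ℤ) : K) * (u 17) * (u 25) = 0
        push_cast
        field_simp
        ring
      · show ∑ t : Fin 5, _ = _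
        rw [Fin.sum_univ_five]
        show ((1 : ℤ) : K) * (u 0) * ((-u 10 * u 17 + u 11 * u 16 - u 18 * u 1 - u 20 * u 7) / u 19) + ((-1 : ℤ) : K) * (u 1) * ((u 13 * u 17 - u 14 * u 16 - u 18 * u 0 - u 20 * u 6) / u 19) + ((-1 : ℤ) : K) * ((-u 0 * u 7 + u 1 * u 6 - u 16 * u 22 - u 17 * u 25) / u 19) * (u 20) + ((-1 : ℤ) : K) * (u 16) * ((u 20 * u 22 + u 0 * u 11 + u 1 * u 14 + u 2 * u 17) / u 19) + ((-1 : ℤ) : K) * (u 17) * ((u 20 * u 25 - u 0 * u 10 - u 1 * u 13 - u 2 * u 16) / u 19) = 0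
        push_cast
        field_simp
        ring
      · show ∑ t : Fin 5, _ = _
        rw [Fin.sum_univ_five]
        show ((1 : ℤ) : K) * (u 13) * (u 17) + ((-1 : ℤ) : K) * (u 14) * (u 16) + ((-1 : ℤ) : K) * (u 18) * (u 0) + ((-1 : ℤ) : K) * (u 19) * ((u 13 * u 17 - u 14 * u 16 - u 18 * u 0 - u 20 * u 6) / u 19) + ((-1 : ℤ) : K) * (u 20) * (u 6) = 0
        push_cast
        field_simp
        ring
      · show ∑ t : Fin 5, _ = _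
        rw [Fin.sum_univ_five]
        show ((-1 : ℤ) : K) * (u 10) * (u 17) + ((1 : ℤ) : K) * (u 11) * (u 16) + ((-1 : ℤ) : K) * (u 18) * (u 1) + ((-1 : ℤ) : K) * (u 19) * ((-u 10 * u 17 + u 11 * u 16 - u 18 * u 1 - u 20 * u 7) / u 19) + ((-1 : ℤ) : K) * (u 20) * (u 7) = 0
        push_cast
        field_simp
        ring
      · show ∑ t : Fin 5, _ = _
        rw [Fin.sum_univ_five]
        show ((1 : ℤ) : K) * (u 10) * (u 14) + ((-1 : ℤ) : K) * (u 11) * (u 13) + ((-1 : ℤ) : K) * (u 18) * (u 2) + ((-1 : ℤ) : K) * (u 19) * ((u 10 * u 14 - u 11 * u 13 - u 18 * u 2 - u 20 * u 8) / u 19) + ((-1 : ℤ) : K) * (u 20) * (u 8) = 0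
        push_cast
        field_simp
        ring
      · show ∑ t : Fin 5, _ = _
        rw [Fin.sum_univ_five]
        show ((-1 : ℤ) : K) * ((u 0 * u 8 - u 2 * u 6 - u 13 * u 22 - u 14 * u 25) / u 19) * (u 17) + ((1 : ℤ) : K) * (u 14) * ((-u 0 * u 7 + u 1 * u 6 - u 16 * u 22 - u 17 * u 25) / u 19) + ((-1 : ℤ) : K) * ((u 18 * u 22 - u 6 * u 11 - u 7 * u 14 - u 8 * u 17) / u 19) * (u 0) + ((-1 : ℤ) : K) * (u 22) * ((u 13 * u 17 - u 14 * u 16 - u 18 * u 0 - u 20 * u 6) / u 19) + ((-1 : ℤ) : K) * ((u 20 * u 22 + u 0 * u 11 + u 1 * u 14 + u 2 * u 17) / u 19) * (u 6) = 0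
        push_cast
        field_simp
        ring
      · show ∑ t : Fin 5, _ = _
        rw [Fin.sum_univ_five]
        show ((1 : ℤ) : K) * ((-u 1 * u 8 + u 2 * u 7 - u 10 * u 22 - u 11 * u 25) / u 19) * (u 17) + ((-1 : ℤ) : K) * (u 11) * ((-u 0 * u 7 + u 1 * u 6 - u 16 * u 22 - u 17 * u 25) / u 19) + ((-1 : ℤ) : K) * ((u 18 * u 22 - u 6 * u 11 - u 7 * u 14 - u 8 * u 17) / u 19) * (u 1) + ((-1 : ℤ) : K) * (u 22) * ((-u 10 * u 17 + u 11 * u 16 - u 18 * u 1 - u 20 * u 7) / u 19) + ((-1 : ℤ) : K) * ((u 20 * u 22 + u 0 * u 11 + u 1 * u 14 + u 2 * u 17) / u 19) * (u 7) = 0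
        push_cast
        field_simp
        ring
      · show ∑ t : Fin 5, _ = _
        rw [Fin.sum_univ_five]
        show ((-1 : ℤ) : K) * ((-u 1 * u 8 + u 2 * u 7 - u 10 * u 22 - u 11 * u 25) / u 19) * (u 14) + ((1 : ℤ) : K) * (u 11) * ((u 0 * u 8 - u 2 * u 6 - u 13 * u 22 - u 14 * u 25) / u 19) + ((-1 : ℤ) : K) * ((u 18 * u 22 - u 6 * u 11 - u 7 * u 14 - u 8 * u 17) / u 19) * (u 2) + ((-1 : ℤ) : K) * (u 22) * ((u 10 * u 14 - u 11 * u 13 - u 18 * u 2 - u 20 * u 8) / u 19) + ((-1 : ℤ) : K) * ((u 20 * u 22 + u 0 * u 11 + u 1 * u 14 + u 2 * u 17) / u 19) * (u 8) = 0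
        push_cast
        field_simp
        ring
      · show ∑ t : Fin 5, _ = _
        rw [Fin.sum_univ_five]
        show ((1 : ℤ) : K) * ((u 0 * u 8 - u 2 * u 6 - u 13 * u 22 - u 14 * u 25) / u 19) * (u 16) + ((-1 : ℤ) : K) * (u 13) * ((-u 0 * u 7 + u 1 * u 6 - u 16 * u 22 - u 17 * u 25) / u 19) + ((-1 : ℤ) : K) * ((u 18 * u 25 + u 6 * u 10 + u 7 * u 13 + u 8 * u 16) / u 19) * (u 0) + ((-1 : ℤ) : K) * (u 25) * ((u 13 * u 17 - u 14 * u 16 - u 18 * u 0 - u 20 * u 6) / u 19) + ((-1 : ℤ) : K) * ((u 20 * u 25 - u 0 * u 10 - u 1 * u 13 - u 2 * u 16) / u 19) * (u 6) = 0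
        push_cast
        field_simp
        ring
      · show ∑ t : Fin 5, _ = _
        rw [Fin.sum_univ_five]
        show ((-1 : ℤ) : K) * ((-u 1 * u 8 + u 2 * u 7 - u 10 * u 22 - u 11 * u 25) / u 19) * (u 16) + ((1 : ℤ) : K) * (u 10) * ((-u 0 * u 7 + u 1 * u 6 - u 16 * u 22 - u 17 * u 25) / u 19) + ((-1 : ℤ) : K) * ((u 18 * u 25 + u 6 * u 10 + u 7 * u 13 + u 8 * u 16) / u 19) * (u 1) + ((-1 : ℤ) : K) * (u 25) * ((-u 10 * u 17 + u 11 * u 16 - u 18 * u 1 - u 20 * u 7) / u 19) + ((-1 : ℤ) : K) * ((u 20 * u 25 - u 0 * u 10 - u 1 * u 13 - u 2 * u 16) / u 19) * (u 7) = 0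
        push_cast
        field_simp
        ring
      · show ∑ t : Fin 5, _ = _
        rw [Fin.sum_univ_five]
        show ((1 : ℤ) : K) * ((-u 1 * u 8 + u 2 * u 7 - u 10 * u 22 - u 11 * u 25) / u 19) * (u 13) + ((-1 : ℤ) : K) * (u 10) * ((u 0 * u 8 - u 2 * u 6 - u 13 * u 22 - u 14 * u 25) / u 19) + ((-1 : ℤ) : K) * ((u 18 * u 25 + u 6 * u 10 + u 7 * u 13 + u 8 * u 16) / u 19) * (u 2) + ((-1 : ℤ) : K) * (u 25) * ((u 10 * u 14 - u 11 * u 13 - u 18 * u 2 - u 20 * u 8) / u 19) + ((-1 : ℤ) : K) * ((u 20 * u 25 - u 0 * u 10 - u 1 * u 13 - u 2 * u 16) / u 19) * (u 8) = 0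
        push_cast
        field_simp
        ring
      · show ∑ t : Fin 5, _ = _
        rw [Fin.sum_univ_five]
        show ((1 : ℤ) : K) * (u 22) * ((u 20 * u 25 - u 0 * u 10 - u 1 * u 13 - u 2 * u 16) / u 19) + ((-1 : ℤ) : K) * ((u 20 * u 22 + u 0 * u 11 + u 1 * u 14 + u 2 * u 17) / u 19) * (u 25) + ((-1 : ℤ) : K) * (u 0) * ((-u 1 * u 8 + u 2 * u 7 - u 10 * u 22 - u 11 * u 25) / u 19) + ((-1 : ℤ) : K) * (u 1) * ((u 0 * u 8 - u 2 * u 6 - u 13 * u 22 - u 14 * u 25) / u 19) + ((-1 : ℤ) : K) * (u 2) * ((-u 0 * u 7 + u 1 * u 6 - u 16 * u 22 - u 17 * u 25) / u 19) = 0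
        push_cast
        field_simp
        ring
      · show ∑ t : Fin 5, _ = _
        rw [Fin.sum_univ_five]
        show ((-1 : ℤ) : K) * (u 19) * ((u 20 * u 25 - u 0 * u 10 - u 1 * u 13 - u 2 * u 16) / u 19) + ((1 : ℤ) : K) * (u 20) * (u 25) + ((-1 : ℤ) : K) * (u 0) * (u 10) + ((-1 : ℤ) : K) * (u 1) * (u 13) + ((-1 : ℤ) : K) * (u 2) * (u 16) = 0
        push_cast
        field_simp
        ring
      · show ∑ t : Fin 5, _ = _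
        rw [Fin.sum_univ_five]
        show ((1 : ℤ) : K) * (u 19) * ((u 20 * u 22 + u 0 * u 11 + u 1 * u 14 + u 2 * u 17) / u 19) + ((-1 : ℤ) : K) * (u 20) * (u 22) + ((-1 : ℤ) : K) * (u 0) * (u 11) + ((-1 : ℤ) : K) * (u 1) * (u 14) + ((-1 : ℤ) : K) * (u 2) * (u 17) = 0
        push_cast
        field_simp
        ring
      · show ∑ t : Fin 5, _ = _
        rw [Fin.sum_univ_five]
        show ((-1 : ℤ) : K) * ((u 18 * u 22 - u 6 * u 11 - u 7 * u 14 - u 8 * u 17) / u 19) * ((u 20 * u 25 - u 0 * u 10 - u 1 * u 13 - u 2 * u 16) / u 19) + ((1 : ℤ) : K) * ((u 20 * u 22 + u 0 * u 11 + u 1 * u 14 + u 2 * u 17) / u 19) * ((u 18 * u 25 + u 6 * u 10 + u 7 * u 13 + u 8 * u 16) / u 19) + ((-1 : ℤ) : K) * ((u 13 * u 17 - u 14 * u 16 - u 18 * u 0 - u 20 * u 6) / u 19) * ((-u 1 * u 8 + u 2 * u 7 - u 10 * u 22 - u 11 * u 25) / u 19) + ((-1 : ℤ) : K) * ((-u 10 * u 17 + u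 11 * u 16 - u 18 * u 1 - u 20 * u 7) / u 19) * ((u 0 * u 8 - u 2 * u 6 - u 13 * u 22 - u 14 * u 25) / u 19) + ((-1 : ℤ) : K) * ((u 10 * u 14 - u 11 * u 13 - u 18 * u 2 - u 20 * u 8) / u 19) * ((-u 0 * u 7 + u 1 * u 6 - u 16 * u 22 - u 17 * u 25) / u 19) = 0
        push_cast
        field_simp
        ring
      · show ∑ t : Fin 5, _ = _
        rw [Fin.sum_univ_five]
        show ((1 : ℤ) : K) * (u 18) * ((u 20 * u 25 - u 0 * u 10 - u 1 * u 13 - u 2 * u 16) / u 19) + ((-1 : ℤ) : K) * (u 20) * ((u 18 * u 25 + u 6 * u 10 + u 7 * u 13 + u 8 * u 16) / u 19) + ((-1 : ℤ) : K) * ((u 13 * u 17 - u 14 * u 16 - u 18 * u 0 - u 20 * u 6) / u 19) * (u 10) + ((-1 : ℤ) : K) * ((-u 10 * u 17 + u 11 * u 16 - u 18 * u 1 - u 20 * u 7) / u 19) * (u 13) + ((-1 : ℤ) : K) * ((u 10 * u 14 - u 11 * u 13 - u 18 * u 2 - u 20 * u 8) / u 19) * (u 16) = 0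
        push_cast
        field_simp
        ring
      · show ∑ t : Fin 5, _ = _
        rw [Fin.sum_univ_five]
        show ((-1 : ℤ) : K) * (u 18) * ((u 20 * u 22 + u 0 * u 11 + u 1 * u 14 + u 2 * u 17) / u 19) + ((1 : ℤ) : K) * (u 20) * ((u 18 * u 22 - u 6 * u 11 - u 7 * u 14 - u 8 * u 17) / u 19) + ((-1 : ℤ) : K) * ((u 13 * u 17 - u 14 * u 16 - u 18 * u 0 - u 20 * u 6) / u 19) * (u 11) + ((-1 : ℤ) : K) * ((-u 10 * u 17 + u 11 * u 16 - u 18 * u 1 - u 20 * u 7) / u 19) * (u 14) + ((-1 : ℤ) : K) * ((u 10 * u 14 - u 11 * u 13 - u 18 * u 2 - u 20 * u 8) / u 19) * (u 17) = 0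
        push_cast
        field_simp
        ring
      · show ∑ t : Fin 5, _ = _
        rw [Fin.sum_univ_five]
        show ((1 : ℤ) : K) * ((u 18 * u 22 - u 6 * u 11 - u 7 * u 14 - u 8 * u 17) / u 19) * (u 25) + ((-1 : ℤ) : K) * (u 22) * ((u 18 * u 25 + u 6 * u 10 + u 7 * u 13 + u 8 * u 16) / u 19) + ((-1 : ℤ) : K) * (u 6) * ((-u 1 * u 8 + u 2 * u 7 - u 10 * u 22 - u 11 * u 25) / u 19) + ((-1 : ℤ) : K) * (u 7) * ((u 0 * u 8 - u 2 * u 6 - u 13 * u 22 - u 14 * u 25) / u 19) + ((-1 : ℤ) : K) * (u 8) * ((-u 0 * u 7 + u 1 * u 6 - u 16 * u 22 - u 17 * u 25) / u 19) = 0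
        push_cast
        field_simp
        ring
      · show ∑ t : Fin 5, _ = _
        rw [Fin.sum_univ_five]
        show ((-1 : ℤ) : K) * (u 18) * (u 25) + ((1 : ℤ) : K) * (u 19) * ((u 18 * u 25 + u 6 * u 10 + u 7 * u 13 + u 8 * u 16) / u 19) + ((-1 : ℤ) : K) * (u 6) * (u 10) + ((-1 : ℤ) : K) * (u 7) * (u 13) + ((-1 : ℤ) : K) * (u 8) * (u 16) = 0
        push_cast
        field_simp
        ring
      · show ∑ t : Fin 5, _ = _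
        rw [Fin.sum_univ_five]
        show ((1 : ℤ) : K) * (u 18) * (u 22) + ((-1 : ℤ) : K) * (u 19) * ((u 18 * u 22 - u 6 * u 11 - u 7 * u 14 - u 8 * u 17) / u 19) + ((-1 : ℤ) : K) * (u 6) * (u 11) + ((-1 : ℤ) : K) * (u 7) * (u 14) + ((-1 : ℤ) : K) * (u 8) * (u 17) = 0
        push_cast
        field_simp
        ring
    exact hl

theorem cayley_pt_20 {K : Type} [Field K] (u : Fin 27 → K) (h : u 20 ≠ 0) :
    ∃ y : Fin 27 → K, (∀ j : Fin 27, ¬ cayley.opp (20 : Fin 27) j → y j = u j) ∧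
      ∀ l, cayley.val y l = 0 := by
  refine ⟨![u 0, u 1, u 2, u 3, u 4, u 5, (u 13 * u 17 - u 14 * u 16 - u 18 * u 0 - u 19 * u 3) / u 20, (-u 10 * u 17 + u 11 * u 16 - u 18 * u 1 - u 19 * u 4) / u 20, (u 10 * u 14 - u 11 * u 13 - u 18 * u 2 - u 19 * u 5) / u 20, (u 1 * u 5 - u 2 * u 4 - u 10 * u 23 - u 11 * u 26) / u 20, u 10, u 11, (-u 0 * u 5 + u 2 * u 3 - u 13 * u 23 - u 14 * u 26) / u 20, u 13, u 14, (u 0 * u 4 - u 1 * u 3 - u 16 * u 23 - u 17 * u 26) / u 20, u 16, u 17, u 18, u 19, u 20, (u 18 * u 23 + u 3 * u 11 + u 4 * u 14 + u 5 * u 17) / u 20, (u 19 * u 23 - u 0 * u 11 - u 1 * u 14 - u 2 * u 17) / u 20, u 23, (u 18 * u 26 - u 3 * u 10 - u 4 * u 13 - u 5 * u 16) / u 20, (u 19 * u 26 + u 0 * u 10 + u 1 * u 13 + u 2 * u 16) / u 20, u 26], ?_, ?_⟩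
  · have key : ∀ j : Fin 27, cayley.opp (20 : Fin 27) j ∨ (![u 0, u 1, u 2, u 3, u 4, u 5, (u 13 * u 17 - u 14 * u 16 - u 18 * u 0 - u 19 * u 3) / u 20, (-u 10 * u 17 + u 11 * u 16 - u 18 * u 1 - u 19 * u 4) / u 20, (u 10 * u 14 - u 11 * u 13 - u 18 * u 2 - u 19 * u 5) / u 20, (u 1 * u 5 - u 2 * u 4 - u 10 * u 23 - u 11 * u 26) / u 20, u 10, u 11, (-u 0 * u 5 + u 2 * u 3 - u 13 * u 23 - u 14 * u 26) / u 20, u 13, u 14, (u 0 * u 4 - u 1 * u 3 - u 16 * u 23 - u 17 * u 26) / u 20, u 16, u 17, u 18, u 19, u 20, (u 18 * u 23 + u 3 * u 11 + u 4 * u 14 + u 5 * u 17) / u 20, (u 19 * u 23 - u 0 * u 11 - u 1 * u 14 - u 2 * u 17) / u 20, u 23, (u 18 * u 26 - u 3 * u 10 - u 4 * u 13 - u 5 * u 16) / u 20, (u 19 * u 26 + u 0 * u 10 + u 1 * u 13 + u 2 * u 16) / u 20, u 26] : Fin 27 → K) j = u j := by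
      intro j
      fin_cases j
      · exact Or.inr rfl
      · exact Or.inr rfl
      · exact Or.inr rfl
      · exact Or.inr rfl
      · exact Or.inr rfl
      · exact Or.inr rfl
      · exact Or.inl ⟨(9 : Fin 27), (4 : Fin 5), Or.inl ⟨rfl, rfl⟩⟩
      · exact Or.inl ⟨(10 : Fin 27), (4 : Fin 5), Or.inl ⟨rfl, rfl⟩⟩
      · exact Or.inl ⟨(11 : Fin 27), (4 : Fin 5), Or.inl ⟨rfl, rfl⟩⟩
      · exact Or.inl ⟨(2 : Fin 27), (2 : Fin 5), Or.inr ⟨rfl, rfl⟩⟩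
      · exact Or.inr rfl
      · exact Or.inr rfl
      · exact Or.inl ⟨(5 : Fin 27), (2 : Fin 5), Or.inr ⟨rfl, rfl⟩⟩
      · exact Or.inr rfl
      · exact Or.inr rfl
      · exact Or.inl ⟨(8 : Fin 27), (2 : Fin 5), Or.inr ⟨rfl, rfl⟩⟩
      · exact Or.inr rfl
      · exact Or.inr rfl
      · exact Or.inr rfl
      · exact Or.inr rfl
      · exact Or.inr rfl
      · exact Or.inl ⟨(23 : Fin 27), (1 : Fin 5), Or.inl ⟨rfl, rfl⟩⟩
      · exact Or.inl ⟨(20 : Fin 27), (1 : Fin 5), Or.inl ⟨rfl, rfl⟩⟩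
      · exact Or.inr rfl
      · exact Or.inl ⟨(22 : Fin 27), (1 : Fin 5), Or.inl ⟨rfl, rfl⟩⟩
      · exact Or.inl ⟨(19 : Fin 27), (1 : Fin 5), Or.inl ⟨rfl, rfl⟩⟩
      · exact Or.inr rfl
    intro j hj
    exact (key j).resolve_left hj
  · have hl : ∀ l : Fin 27, cayley.val (![u 0, u 1, u 2, u 3, u 4, u 5, (u 13 * u 17 - u 14 * u 16 - u 18 * u 0 - u 19 * u 3) / u 20, (-u 10 * u 17 + u 11 * u 16 - u 18 * u 1 - u 19 * u 4) / u 20, (u 10 * u 14 - u 11 * u 13 - u 18 * u 2 - u 19 * u 5) / u 20, (u 1 * u 5 - u 2 * u 4 - u 10 * u 23 - u 11 * u 26) / u 20, u 10, u 11, (-u 0 * u 5 + u 2 * u 3 - u 13 * u 23 - u 14 * u 26) / u 20, u 13, u 14, (u 0 * u 4 - u 1 * u 3 - u 16 * u 23 - u 17 * u 26) / u 20, u 16, u 17, u 18, u 19, u 20, (u 18 * u 23 + u 3 * u 11 + u 4 * u 14 + u 5 * u 17) / u 20, (u 19 * u 23 - u 0 * u 11 - u 1 * u 14 - u 2 * u 17) / u 20, u 23, (u 18 * u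 26 - u 3 * u 10 - u 4 * u 13 - u 5 * u 16) / u 20, (u 19 * u 26 + u 0 * u 10 + u 1 * u 13 + u 2 * u 16) / u 20, u 26] : Fin 27 → K) l = 0 := by
      intro l
      unfold QF.val
      fin_cases l
      · show ∑ t : Fin 5, _ = _
        rw [Fin.sum_univ_five]
        show ((1 : ℤ) : K) * (u 4) * ((u 10 * u 14 - u 11 * u 13 - u 18 * u 2 - u 19 * u 5) / u 20) + ((-1 : ℤ) : K) * (u 5) * ((-u 10 * u 17 + u 11 * u 16 - u 18 * u 1 - u 19 * u 4) / u 20) + ((-1 : ℤ) : K) * ((u 1 * u 5 - u 2 * u 4 - u 10 * u 23 - u 11 * u 26) / u 20) * (u 18) + ((-1 : ℤ) : K) * (u 10) * ((u 18 * u 23 + u 3 * u 11 + u 4 * u 14 + u 5 * u 17) / u 20) + ((-1 : ℤ) : K) * (u 11) * ((u 18 * u 26 - u 3 * u 10 - u 4 * u 13 - u 5 * u 16) / u 20) = 0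
        push_cast
        field_simp
        ring
      · show ∑ t : Fin 5, _ = _
        rw [Fin.sum_univ_five]
        show ((-1 : ℤ) : K) * (u 1) * ((u 10 * u 14 - u 11 * u 13 - u 18 * u 2 - u 19 * u 5) / u 20) + ((1 : ℤ) : K) * (u 2) * ((-u 10 * u 17 + u 11 * u 16 - u 18 * u 1 - u 19 * u 4) / u 20) + ((-1 : ℤ) : K) * ((u 1 * u 5 - u 2 * u 4 - u 10 * u 23 - u 11 * u 26) / u 20) * (u 19) + ((-1 : ℤ) : K) * (u 10) * ((u 19 * u 23 - u 0 * u 11 - u 1 * u 14 - u 2 * u 17) / u 20) + ((-1 : ℤ) : K) * (u 11) * ((u 19 * u 26 + u 0 * u 10 + u 1 * u 13 + u 2 * u 16) / u 20) = 0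
        push_cast
        field_simp
        ring
      · show ∑ t : Fin 5, _ = _
        rw [Fin.sum_univ_five]
        show ((1 : ℤ) : K) * (u 1) * (u 5) + ((-1 : ℤ) : K) * (u 2) * (u 4) + ((-1 : ℤ) : K) * ((u 1 * u 5 - u 2 * u 4 - u 10 * u 23 - u 11 * u 26) / u 20) * (u 20) + ((-1 : ℤ) : K) * (u 10) * (u 23) + ((-1 : ℤ) : K) * (u 11) * (u 26) = 0
        push_cast
        field_simp
        ring
      · show ∑ t : Fin 5, _ = _
        rw [Fin.sum_univ_five]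
        show ((-1 : ℤ) : K) * (u 3) * ((u 10 * u 14 - u 11 * u 13 - u 18 * u 2 - u 19 * u 5) / u 20) + ((1 : ℤ) : K) * (u 5) * ((u 13 * u 17 - u 14 * u 16 - u 18 * u 0 - u 19 * u 3) / u 20) + ((-1 : ℤ) : K) * ((-u 0 * u 5 + u 2 * u 3 - u 13 * u 23 - u 14 * u 26) / u 20) * (u 18) + ((-1 : ℤ) : K) * (u 13) * ((u 18 * u 23 + u 3 * u 11 + u 4 * u 14 + u 5 * u 17) / u 20) + ((-1 : ℤ) : K) * (u 14) * ((u 18 * u 26 - u 3 * u 10 - u 4 * u 13 - u 5 * u 16) / u 20) = 0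
        push_cast
        field_simp
        ring
      · show ∑ t : Fin 5, _ = _
        rw [Fin.sum_univ_five]
        show ((1 : ℤ) : K) * (u 0) * ((u 10 * u 14 - u 11 * u 13 - u 18 * u 2 - u 19 * u 5) / u 20) + ((-1 : ℤ) : K) * (u 2) * ((u 13 * u 17 - u 14 * u 16 - u 18 * u 0 - u 19 * u 3) / u 20) + ((-1 : ℤ) : K) * ((-u 0 * u 5 + u 2 * u 3 - u 13 * u 23 - u 14 * u 26) / u 20) * (u 19) + ((-1 : ℤ) : K) * (u 13) * ((u 19 * u 23 - u 0 * u 11 - u 1 * u 14 - u 2 * u 17) / u 20) + ((-1 : ℤ) : K) * (u 14) * ((u 19 * u 26 + u 0 * u 10 + u 1 * u 13 + u 2 * u 16) / u 20) = 0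
        push_cast
        field_simp
        ring
      · show ∑ t : Fin 5, _ = _
        rw [Fin.sum_univ_five]
        show ((-1 : ℤ) : K) * (u 0) * (u 5) + ((1 : ℤ) : K) * (u 2) * (u 3) + ((-1 : ℤ) : K) * ((-u 0 * u 5 + u 2 * u 3 - u 13 * u 23 - u 14 * u 26) / u 20) * (u 20) + ((-1 : ℤ) : K) * (u 13) * (u 23) + ((-1 : ℤ) : K) * (u 14) * (u 26) = 0
        push_cast
        field_simp
        ring
      · show ∑ t : Fin 5, _ = _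
        rw [Fin.sum_univ_five]
        show ((1 : ℤ) : K) * (u 3) * ((-u 10 * u 17 + u 11 * u 16 - u 18 * u 1 - u 19 * u 4) / u 20) + ((-1 : ℤ) : K) * (u 4) * ((u 13 * u 17 - u 14 * u 16 - u 18 * u 0 - u 19 * u 3) / u 20) + ((-1 : ℤ) : K) * ((u 0 * u 4 - u 1 * u 3 - u 16 * u 23 - u 17 * u 26) / u 20) * (u 18) + ((-1 : ℤ) : K) * (u 16) * ((u 18 * u 23 + u 3 * u 11 + u 4 * u 14 + u 5 * u 17) / u 20) + ((-1 : ℤ) : K) * (u 17) * ((u 18 * u 26 - u 3 * u 10 - u 4 * u 13 - u 5 * u 16) / u 20) = 0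
        push_cast
        field_simp
        ring
      · show ∑ t : Fin 5, _ = _
        rw [Fin.sum_univ_five]
        show ((-1 : ℤ) : K) * (u 0) * ((-u 10 * u 17 + u 11 * u 16 - u 18 * u 1 - u 19 * u 4) / u 20) + ((1 : ℤ) : K) * (u 1) * ((u 13 * u 17 - u 14 * u 16 - u 18 * u 0 - u 19 * u 3) / u 20) + ((-1 : ℤ) : K) * ((u 0 * u 4 - u 1 * u 3 - u 16 * u 23 - u 17 * u 26) / u 20) * (u 19) + ((-1 : ℤ) : K) * (u 16) * ((u 19 * u 23 - u 0 * u 11 - u 1 * u 14 - u 2 * u 17) / u 20) + ((-1 : ℤ) : K) * (u 17) * ((u 19 * u 26 + u 0 * u 10 + u 1 * u 13 + u 2 * u 16) / u 20) = 0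
        push_cast
        field_simp
        ring
      · show ∑ t : Fin 5, _ = _
        rw [Fin.sum_univ_five]
        show ((1 : ℤ) : K) * (u 0) * (u 4) + ((-1 : ℤ) : K) * (u 1) * (u 3) + ((-1 : ℤ) : K) * ((u 0 * u 4 - u 1 * u 3 - u 16 * u 23 - u 17 * u 26) / u 20) * (u 20) + ((-1 : ℤ) : K) * (u 16) * (u 23) + ((-1 : ℤ) : K) * (u 17) * (u 26) = 0
        push_cast
        field_simp
        ring
      · show ∑ t : Fin 5, _ = _
        rw [Fin.sum_univ_five]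
        show ((1 : ℤ) : K) * (u 13) * (u 17) + ((-1 : ℤ) : K) * (u 14) * (u 16) + ((-1 : ℤ) : K) * (u 18) * (u 0) + ((-1 : ℤ) : K) * (u 19) * (u 3) + ((-1 : ℤ) : K) * (u 20) * ((u 13 * u 17 - u 14 * u 16 - u 18 * u 0 - u 19 * u 3) / u 20) = 0
        push_cast
        field_simp
        ring
      · show ∑ t : Fin 5, _ = _
        rw [Fin.sum_univ_five]
        show ((-1 : ℤ) : K) * (u 10) * (u 17) + ((1 : ℤ) : K) * (u 11) * (u 16) + ((-1 : ℤ) : K) * (u 18) * (u 1) + ((-1 : ℤ) : K) * (u 19) * (u 4) + ((-1 : ℤ) : K) * (u 20) * ((-u 10 * u 17 + u 11 * u 16 - u 18 * u 1 - u 19 * u 4) / u 20) = 0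
        push_cast
        field_simp
        ring
      · show ∑ t : Fin 5, _ = _
        rw [Fin.sum_univ_five]
        show ((1 : ℤ) : K) * (u 10) * (u 14) + ((-1 : ℤ) : K) * (u 11) * (u 13) + ((-1 : ℤ) : K) * (u 18) * (u 2) + ((-1 : ℤ) : K) * (u 19) * (u 5) + ((-1 : ℤ) : K) * (u 20) * ((u 10 * u 14 - u 11 * u 13 - u 18 * u 2 - u 19 * u 5) / u 20) = 0
        push_cast
        field_simp
        ring
      · show ∑ t : Fin 5, _ = _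
        rw [Fin.sum_univ_five]
        show ((-1 : ℤ) : K) * ((-u 0 * u 5 + u 2 * u 3 - u 13 * u 23 - u 14 * u 26) / u 20) * (u 17) + ((1 : ℤ) : K) * (u 14) * ((u 0 * u 4 - u 1 * u 3 - u 16 * u 23 - u 17 * u 26) / u 20) + ((-1 : ℤ) : K) * ((u 18 * u 23 + u 3 * u 11 + u 4 * u 14 + u 5 * u 17) / u 20) * (u 0) + ((-1 : ℤ) : K) * ((u 19 * u 23 - u 0 * u 11 - u 1 * u 14 - u 2 * u 17) / u 20) * (u 3) + ((-1 : ℤ) : K) * (u 23) * ((u 13 * u 17 - u 14 * u 16 - u 18 * u 0 - u 19 * u 3) / u 20) = 0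
        push_cast
        field_simp
        ring
      · show ∑ t : Fin 5, _ = _
        rw [Fin.sum_univ_five]
        show ((1 : ℤ) : K) * ((u 1 * u 5 - u 2 * u 4 - u 10 * u 23 - u 11 * u 26) / u 20) * (u 17) + ((-1 : ℤ) : K) * (u 11) * ((u 0 * u 4 - u 1 * u 3 - u 16 * u 23 - u 17 * u 26) / u 20) + ((-1 : ℤ) : K) * ((u 18 * u 23 + u 3 * u 11 + u 4 * u 14 + u 5 * u 17) / u 20) * (u 1) + ((-1 : ℤ) : K) * ((u 19 * u 23 - u 0 * u 11 - u 1 * u 14 - u 2 * u 17) / u 20) * (u 4) + ((-1 : ℤ) : K) * (u 23) * ((-u 10 * u 17 + u 11 * u 16 - u 18 * u 1 - u 19 * u 4) / u 20) = 0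
        push_cast
        field_simp
        ring
      · show ∑ t : Fin 5, _ = _
        rw [Fin.sum_univ_five]
        show ((-1 : ℤ) : K) * ((u 1 * u 5 - u 2 * u 4 - u 10 * u 23 - u 11 * u 26) / u 20) * (u 14) + ((1 : ℤ) : K) * (u 11) * ((-u 0 * u 5 + u 2 * u 3 - u 13 * u 23 - u 14 * u 26) / u 20) + ((-1 : ℤ) : K) * ((u 18 * u 23 + u 3 * u 11 + u 4 * u 14 + u 5 * u 17) / u 20) * (u 2) + ((-1 : ℤ) : K) * ((u 19 * u 23 - u 0 * u 11 - u 1 * u 14 - u 2 * u 17) / u 20) * (u 5) + ((-1 : ℤ) : K) * (u 23) * ((u 10 * u 14 - u 11 * u 13 - u 18 * u 2 - u 19 * u 5) / u 20) = 0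
        push_cast
        field_simp
        ring
      · show ∑ t : Fin 5, _ = _
        rw [Fin.sum_univ_five]
        show ((1 : ℤ) : K) * ((-u 0 * u 5 + u 2 * u 3 - u 13 * u 23 - u 14 * u 26) / u 20) * (u 16) + ((-1 : ℤ) : K) * (u 13) * ((u 0 * u 4 - u 1 * u 3 - u 16 * u 23 - u 17 * u 26) / u 20) + ((-1 : ℤ) : K) * ((u 18 * u 26 - u 3 * u 10 - u 4 * u 13 - u 5 * u 16) / u 20) * (u 0) + ((-1 : ℤ) : K) * ((u 19 * u 26 + u 0 * u 10 + u 1 * u 13 + u 2 * u 16) / u 20) * (u 3) + ((-1 : ℤ) : K) * (u 26) * ((u 13 * u 17 - u 14 * u 16 - u 18 * u 0 - u 19 * u 3) / u 20) = 0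
        push_cast
        field_simp
        ring
      · show ∑ t : Fin 5, _ = _
        rw [Fin.sum_univ_five]
        show ((-1 : ℤ) : K) * ((u 1 * u 5 - u 2 * u 4 - u 10 * u 23 - u 11 * u 26) / u 20) * (u 16) + ((1 : ℤ) : K) * (u 10) * ((u 0 * u 4 - u 1 * u 3 - u 16 * u 23 - u 17 * u 26) / u 20) + ((-1 : ℤ) : K) * ((u 18 * u 26 - u 3 * u 10 - u 4 * u 13 - u 5 * u 16) / u 20) * (u 1) + ((-1 : ℤ) : K) * ((u 19 * u 26 + u 0 * u 10 + u 1 * u 13 + u 2 * u 16) / u 20) * (u 4) + ((-1 : ℤ) : K) * (u 26) * ((-u 10 * u 17 + u 11 * u 16 - u 18 * u 1 - u 19 * u 4) / u 20) = 0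
        push_cast
        field_simp
        ring
      · show ∑ t : Fin 5, _ = _
        rw [Fin.sum_univ_five]
        show ((1 : ℤ) : K) * ((u 1 * u 5 - u 2 * u 4 - u 10 * u 23 - u 11 * u 26) / u 20) * (u 13) + ((-1 : ℤ) : K) * (u 10) * ((-u 0 * u 5 + u 2 * u 3 - u 13 * u 23 - u 14 * u 26) / u 20) + ((-1 : ℤ) : K) * ((u 18 * u 26 - u 3 * u 10 - u 4 * u 13 - u 5 * u 16) / u 20) * (u 2) + ((-1 : ℤ) : K) * ((u 19 * u 26 + u 0 * u 10 + u 1 * u 13 + u 2 * u 16) / u 20) * (u 5) + ((-1 : ℤ) : K) * (u 26) * ((u 10 * u 14 - u 11 * u 13 - u 18 * u 2 - u 19 * u 5) / u 20) = 0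
        push_cast
        field_simp
        ring
      · show ∑ t : Fin 5, _ = _
        rw [Fin.sum_univ_five]
        show ((1 : ℤ) : K) * ((u 19 * u 23 - u 0 * u 11 - u 1 * u 14 - u 2 * u 17) / u 20) * (u 26) + ((-1 : ℤ) : K) * (u 23) * ((u 19 * u 26 + u 0 * u 10 + u 1 * u 13 + u 2 * u 16) / u 20) + ((-1 : ℤ) : K) * (u 0) * ((u 1 * u 5 - u 2 * u 4 - u 10 * u 23 - u 11 * u 26) / u 20) + ((-1 : ℤ) : K) * (u 1) * ((-u 0 * u 5 + u 2 * u 3 - u 13 * u 23 - u 14 * u 26) / u 20) + ((-1 : ℤ) : K) * (u 2) * ((u 0 * u 4 - u 1 * u 3 - u 16 * u 23 - u 17 * u 26) / u 20) = 0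
        push_cast
        field_simp
        ring
      · show ∑ t : Fin 5, _ = _
        rw [Fin.sum_univ_five]
        show ((-1 : ℤ) : K) * (u 19) * (u 26) + ((1 : ℤ) : K) * (u 20) * ((u 19 * u 26 + u 0 * u 10 + u 1 * u 13 + u 2 * u 16) / u 20) + ((-1 : ℤ) : K) * (u 0) * (u 10) + ((-1 : ℤ) : K) * (u 1) * (u 13) + ((-1 : ℤ) : K) * (u 2) * (u 16) = 0
        push_cast
        field_simp
        ring
      · show ∑ t : Fin 5, _ = _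
        rw [Fin.sum_univ_five]
        show ((1 : ℤ) : K) * (u 19) * (u 23) + ((-1 : ℤ) : K) * (u 20) * ((u 19 * u 23 - u 0 * u 11 - u 1 * u 14 - u 2 * u 17) / u 20) + ((-1 : ℤ) : K) * (u 0) * (u 11) + ((-1 : ℤ) : K) * (u 1) * (u 14) + ((-1 : ℤ) : K) * (u 2) * (u 17) = 0
        push_cast
        field_simp
        ring
      · show ∑ t : Fin 5, _ = _
        rw [Fin.sum_univ_five]
        show ((-1 : ℤ) : K) * ((u 18 * u 23 + u 3 * u 11 + u 4 * u 14 + u 5 * u 17) / u 20) * (u 26) + ((1 : ℤ) : K) * (u 23) * ((u 18 * u 26 - u 3 * u 10 - u 4 * u 13 - u 5 * u 16) / u 20) + ((-1 : ℤ) : K) * (u 3) * ((u 1 * u 5 - u 2 * u 4 - u 10 * u 23 - u 11 * u 26) / u 20) + ((-1 : ℤ) : K) * (u 4) * ((-u 0 * u 5 + u 2 * u 3 - u 13 * u 23 - u 14 * u 26) / u 20) + ((-1 : ℤ) : K) * (u 5) * ((u 0 * u 4 - u 1 * u 3 - u 16 * u 23 - u 17 * u 26) / u 20) = 0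
        push_cast
        field_simp
        ring
      · show ∑ t : Fin 5, _ = _
        rw [Fin.sum_univ_five]
        show ((1 : ℤ) : K) * (u 18) * (u 26) + ((-1 : ℤ) : K) * (u 20) * ((u 18 * u 26 - u 3 * u 10 - u 4 * u 13 - u 5 * u 16) / u 20) + ((-1 : ℤ) : K) * (u 3) * (u 10) + ((-1 : ℤ) : K) * (u 4) * (u 13) + ((-1 : ℤ) : K) * (u 5) * (u 16) = 0
        push_cast
        field_simp
        ring
      · show ∑ t : Fin 5, _ = _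
        rw [Fin.sum_univ_five]
        show ((-1 : ℤ) : K) * (u 18) * (u 23) + ((1 : ℤ) : K) * (u 20) * ((u 18 * u 23 + u 3 * u 11 + u 4 * u 14 + u 5 * u 17) / u 20) + ((-1 : ℤ) : K) * (u 3) * (u 11) + ((-1 : ℤ) : K) * (u 4) * (u 14) + ((-1 : ℤ) : K) * (u 5) * (u 17) = 0
        push_cast
        field_simp
        ring
      · show ∑ t : Fin 5, _ = _
        rw [Fin.sum_univ_five]
        show ((1 : ℤ) : K) * ((u 18 * u 23 + u 3 * u 11 + u 4 * u 14 + u 5 * u 17) / u 20) * ((u 19 * u 26 + u 0 * u 10 + u 1 * u 13 + u 2 * u 16) / u 20) + ((-1 : ℤ) : K) * ((u 19 * u 23 - u 0 * u 11 - u 1 * u 14 - u 2 * u 17) / u 20) * ((u 18 * u 26 - u 3 * u 10 - u 4 * u 13 - u 5 * u 16) / u 20) + ((-1 : ℤ) : K) * ((u 13 * u 17 - u 14 * u 16 - u 18 * u 0 - u 19 * u 3) / u 20) * ((u 1 * u 5 - u 2 * u 4 - u 10 * u 23 - u 11 * u 26) / u 20) + ((-1 : ℤ) : K) * ((-u 10 * u 17 + u 11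 * u 16 - u 18 * u 1 - u 19 * u 4) / u 20) * ((-u 0 * u 5 + u 2 * u 3 - u 13 * u 23 - u 14 * u 26) / u 20) + ((-1 : ℤ) : K) * ((u 10 * u 14 - u 11 * u 13 - u 18 * u 2 - u 19 * u 5) / u 20) * ((u 0 * u 4 - u 1 * u 3 - u 16 * u 23 - u 17 * u 26) / u 20) = 0
        push_cast
        field_simp
        ring
      · show ∑ t : Fin 5, _ = _
        rw [Fin.sum_univ_five]
        show ((-1 : ℤ) : K) * (u 18) * ((u 19 * u 26 + u 0 * u 10 + u 1 * u 13 + u 2 * u 16) / u 20) + ((1 : ℤ) : K) * (u 19) * ((u 18 * u 26 - u 3 * u 10 - u 4 * u 13 - u 5 * u 16) / u 20) + ((-1 : ℤ) : K) * ((u 13 * u 17 - u 14 * u 16 - u 18 * u 0 - u 19 * u 3) / u 20) * (u 10) + ((-1 : ℤ) : K) * ((-u 10 * u 17 + u 11 * u 16 - u 18 * u 1 - u 19 * u 4) / u 20) * (u 13) + ((-1 : ℤ) : K) * ((u 10 * u 14 - u 11 * u 13 - u 18 * u 2 - u 19 * u 5) / u 20) * (u 16) = 0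
        push_cast
        field_simp
        ring
      · show ∑ t : Fin 5, _ = _
        rw [Fin.sum_univ_five]
        show ((1 : ℤ) : K) * (u 18) * ((u 19 * u 23 - u 0 * u 11 - u 1 * u 14 - u 2 * u 17) / u 20) + ((-1 : ℤ) : K) * (u 19) * ((u 18 * u 23 + u 3 * u 11 + u 4 * u 14 + u 5 * u 17) / u 20) + ((-1 : ℤ) : K) * ((u 13 * u 17 - u 14 * u 16 - u 18 * u 0 - u 19 * u 3) / u 20) * (u 11) + ((-1 : ℤ) : K) * ((-u 10 * u 17 + u 11 * u 16 - u 18 * u 1 - u 19 * u 4) / u 20) * (u 14) + ((-1 : ℤ) : K) * ((u 10 * u 14 - u 11 * u 13 - u 18 * u 2 - u 19 * u 5) / u 20) * (u 17) = 0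
        push_cast
        field_simp
        ring
    exact hl

theorem cayley_pt_21 {K : Type} [Field K] (u : Fin 27 → K) (h : u 21 ≠ 0) :
    ∃ y : Fin 27 → K, (∀ j : Fin 27, ¬ cayley.opp (21 : Fin 27) j → y j = u j) ∧
      ∀ l, cayley.val y l = 0 := by
  refine ⟨![(-u 12 * u 17 + u 14 * u 15 - u 22 * u 3 - u 23 * u 6) / u 21, (u 9 * u 17 - u 11 * u 15 - u 22 * u 4 - u 23 * u 7) / u 21, (-u 9 * u 14 + u 11 * u 12 - u 22 * u 5 - u 23 * u 8) / u 21, u 3, u 4, u 5, u 6, u 7, u 8, u 9, (u 4 * u 8 - u 5 * u 7 - u 9 * u 18 - u 11 * u 24) / u 21, u 11, u 12, (-u 3 * u 8 + u 5 * u 6 - u 12 * u 18 - u 14 * u 24) / u 21, u 14, u 15, (u 3 * u 7 - u 4 * u 6 - u 15 * u 18 - u 17 * u 24) / u 21, u 17, u 18, (u 18 * u 22 - u 6 * u 11 - u 7 * u 14 - u 8 * u 17) / u 21, (u 18 * u 23 + u 3 * u 11 + u 4 * u 14 + u 5 * u 17) / u 21, u 21, u 22, u 23, u 24, (u 22 * u 24 + u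 6 * u 9 + u 7 * u 12 + u 8 * u 15) / u 21, (u 23 * u 24 - u 3 * u 9 - u 4 * u 12 - u 5 * u 15) / u 21], ?_, ?_⟩
  · have key : ∀ j : Fin 27, cayley.opp (21 : Fin 27) j ∨ (![(-u 12 * u 17 + u 14 * u 15 - u 22 * u 3 - u 23 * u 6) / u 21, (u 9 * u 17 - u 11 * u 15 - u 22 * u 4 - u 23 * u 7) / u 21, (-u 9 * u 14 + u 11 * u 12 - u 22 * u 5 - u 23 * u 8) / u 21, u 3, u 4, u 5, u 6, u 7, u 8, u 9, (u 4 * u 8 - u 5 * u 7 - u 9 * u 18 - u 11 * u 24) / u 21, u 11, u 12, (-u 3 * u 8 + u 5 * u 6 - u 12 * u 18 - u 14 * u 24) / u 21, u 14, u 15, (u 3 * u 7 - u 4 * u 6 - u 15 * u 18 - u 17 * u 24) / u 21, u 17, u 18, (u 18 * u 22 - u 6 * u 11 - u 7 * u 14 - u 8 * u 17) / u 21, (u 18 * u 23 + u 3 * u 11 + u 4 * u 14 + u 5 * u 17) / u 21, u 21, u 22, u 23, u 24, (u 22 * u 24 + u 6 * u 9 + u 7 * u 12 + u 8 * u 15) / u 21, (u 23 * u 24 - u 3 * u 9 - u 4 * u 12 - u 5 * u 15) /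 u 21] : Fin 27 → K) j = u j := by
      intro j
      fin_cases j
      · exact Or.inl ⟨(12 : Fin 27), (2 : Fin 5), Or.inl ⟨rfl, rfl⟩⟩
      · exact Or.inl ⟨(13 : Fin 27), (2 : Fin 5), Or.inl ⟨rfl, rfl⟩⟩
      · exact Or.inl ⟨(14 : Fin 27), (2 : Fin 5), Or.inl ⟨rfl, rfl⟩⟩
      · exact Or.inr rfl
      · exact Or.inr rfl
      · exact Or.inr rfl
      · exact Or.inr rfl
      · exact Or.inr rfl
      · exact Or.inr rfl
      · exact Or.inr rfl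
      · exact Or.inl ⟨(0 : Fin 27), (3 : Fin 5), Or.inr ⟨rfl, rfl⟩⟩
      · exact Or.inr rfl
      · exact Or.inr rfl
      · exact Or.inl ⟨(3 : Fin 27), (3 : Fin 5), Or.inr ⟨rfl, rfl⟩⟩
      · exact Or.inr rfl
      · exact Or.inr rfl
      · exact Or.inl ⟨(6 : Fin 27), (3 : Fin 5), Or.inr ⟨rfl, rfl⟩⟩
      · exact Or.inr rfl
      · exact Or.inr rfl
      · exact Or.inl ⟨(26 : Fin 27), (1 : Fin 5), Or.inr ⟨rfl, rfl⟩⟩
      · exact Or.inl ⟨(23 : Fin 27), (1 : Fin 5), Or.inr ⟨rfl, rfl⟩⟩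
      · exact Or.inr rfl
      · exact Or.inr rfl
      · exact Or.inr rfl
      · exact Or.inr rfl
      · exact Or.inl ⟨(24 : Fin 27), (0 : Fin 5), Or.inl ⟨rfl, rfl⟩⟩
      · exact Or.inl ⟨(21 : Fin 27), (0 : Fin 5), Or.inl ⟨rfl, rfl⟩⟩
    intro j hj
    exact (key j).resolve_left hj
  · have hl : ∀ l : Fin 27, cayley.val (![(-u 12 * u 17 + u 14 * u 15 - u 22 * u 3 - u 23 * u 6) / u 21, (u 9 * u 17 - u 11 * u 15 - u 22 * u 4 - u 23 * u 7) / u 21, (-u 9 * u 14 + u 11 * u 12 - u 22 * u 5 - u 23 * u 8) / u 21, u 3, u 4, u 5, u 6, u 7, u 8, u 9, (u 4 * u 8 - u 5 * u 7 - u 9 * u 18 - u 11 * u 24) / u 21, u 11, u 12, (-u 3 * u 8 + u 5 * u 6 - u 12 * u 18 - u 14 * u 24) / u 21, u 14, u 15, (u 3 * u 7 - u 4 * u 6 - u 15 * u 18 - u 17 * u 24) / u 21, u 17, u 18, (u 18 * u 22 - u 6 * u 11 - u 7 * u 14 - u 8 * u 17) / u 21, (u 18 * u 23 + u 3 * u 11 + u 4 * u 14 + u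 5 * u 17) / u 21, u 21, u 22, u 23, u 24, (u 22 * u 24 + u 6 * u 9 + u 7 * u 12 + u 8 * u 15) / u 21, (u 23 * u 24 - u 3 * u 9 - u 4 * u 12 - u 5 * u 15) / u 21] : Fin 27 → K) l = 0 := by
      intro l
      unfold QF.val
      fin_cases l
      · show ∑ t : Fin 5, _ = _
        rw [Fin.sum_univ_five]
        show ((1 : ℤ) : K) * (u 4) * (u 8) + ((-1 : ℤ) : K) * (u 5) * (u 7) + ((-1 : ℤ) : K) * (u 9) * (u 18) + ((-1 : ℤ) : K) * ((u 4 * u 8 - u 5 * u 7 - u 9 * u 18 - u 11 * u 24) / u 21) * (u 21) + ((-1 : ℤ) : K) * (u 11) * (u 24) = 0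
        push_cast
        field_simp
        ring
      · show ∑ t : Fin 5, _ = _
        rw [Fin.sum_univ_five]
        show ((-1 : ℤ) : K) * ((u 9 * u 17 - u 11 * u 15 - u 22 * u 4 - u 23 * u 7) / u 21) * (u 8) + ((1 : ℤ) : K) * ((-u 9 * u 14 + u 11 * u 12 - u 22 * u 5 - u 23 * u 8) / u 21) * (u 7) + ((-1 : ℤ) : K) * (u 9) * ((u 18 * u 22 - u 6 * u 11 - u 7 * u 14 - u 8 * u 17) / u 21) + ((-1 : ℤ) : K) * ((u 4 * u 8 - u 5 * u 7 - u 9 * u 18 - u 11 * u 24) / u 21) * (u 22) + ((-1 : ℤ) : K) * (u 11) * ((u 22 * u 24 + u 6 * u 9 + u 7 * u 12 + u 8 * u 15) / u 21) = 0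
        push_cast
        field_simp
        ring
      · show ∑ t : Fin 5, _ = _
        rw [Fin.sum_univ_five]
        show ((1 : ℤ) : K) * ((u 9 * u 17 - u 11 * u 15 - u 22 * u 4 - u 23 * u 7) / u 21) * (u 5) + ((-1 : ℤ) : K) * ((-u 9 * u 14 + u 11 * u 12 - u 22 * u 5 - u 23 * u 8) / u 21) * (u 4) + ((-1 : ℤ) : K) * (u 9) * ((u 18 * u 23 + u 3 * u 11 + u 4 * u 14 + u 5 * u 17) / u 21) + ((-1 : ℤ) : K) * ((u 4 * u 8 - u 5 * u 7 - u 9 * u 18 - u 11 * u 24) / u 21) * (u 23) + ((-1 : ℤ) : K) * (u 11) * ((u 23 * u 24 - u 3 * u 9 - u 4 * u 12 - u 5 * u 15) / u 21) = 0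
        push_cast
        field_simp
        ring
      · show ∑ t : Fin 5, _ = _
        rw [Fin.sum_univ_five]
        show ((-1 : ℤ) : K) * (u 3) * (u 8) + ((1 : ℤ) : K) * (u 5) * (u 6) + ((-1 : ℤ) : K) * (u 12) * (u 18) + ((-1 : ℤ) : K) * ((-u 3 * u 8 + u 5 * u 6 - u 12 * u 18 - u 14 * u 24) / u 21) * (u 21) + ((-1 : ℤ) : K) * (u 14) * (u 24) = 0
        push_cast
        field_simp
        ring
      · show ∑ t : Fin 5, _ = _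
        rw [Fin.sum_univ_five]
        show ((1 : ℤ) : K) * ((-u 12 * u 17 + u 14 * u 15 - u 22 * u 3 - u 23 * u 6) / u 21) * (u 8) + ((-1 : ℤ) : K) * ((-u 9 * u 14 + u 11 * u 12 - u 22 * u 5 - u 23 * u 8) / u 21) * (u 6) + ((-1 : ℤ) : K) * (u 12) * ((u 18 * u 22 - u 6 * u 11 - u 7 * u 14 - u 8 * u 17) / u 21) + ((-1 : ℤ) : K) * ((-u 3 * u 8 + u 5 * u 6 - u 12 * u 18 - u 14 * u 24) / u 21) * (u 22) + ((-1 : ℤ) : K) * (u 14) * ((u 22 * u 24 + u 6 * u 9 + u 7 * u 12 + u 8 * u 15) / u 21) = 0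
        push_cast
        field_simp
        ring
      · show ∑ t : Fin 5, _ = _
        rw [Fin.sum_univ_five]
        show ((-1 : ℤ) : K) * ((-u 12 * u 17 + u 14 * u 15 - u 22 * u 3 - u 23 * u 6) / u 21) * (u 5) + ((1 : ℤ) : K) * ((-u 9 * u 14 + u 11 * u 12 - u 22 * u 5 - u 23 * u 8) / u 21) * (u 3) + ((-1 : ℤ) : K) * (u 12) * ((u 18 * u 23 + u 3 * u 11 + u 4 * u 14 + u 5 * u 17) / u 21) + ((-1 : ℤ) : K) * ((-u 3 * u 8 + u 5 * u 6 - u 12 * u 18 - u 14 * u 24) / u 21) * (u 23) + ((-1 : ℤ) : K) * (u 14) * ((u 23 * u 24 - u 3 * u 9 - u 4 * u 12 - u 5 * u 15) / u 21) = 0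
        push_cast
        field_simp
        ring
      · show ∑ t : Fin 5, _ = _
        rw [Fin.sum_univ_five]
        show ((1 : ℤ) : K) * (u 3) * (u 7) + ((-1 : ℤ) : K) * (u 4) * (u 6) + ((-1 : ℤ) : K) * (u 15) * (u 18) + ((-1 : ℤ) : K) * ((u 3 * u 7 - u 4 * u 6 - u 15 * u 18 - u 17 * u 24) / u 21) * (u 21) + ((-1 : ℤ) : K) * (u 17) * (u 24) = 0
        push_cast
        field_simp
        ring
      · show ∑ t : Fin 5, _ = _
        rw [Fin.sum_univ_five]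
        show ((-1 : ℤ) : K) * ((-u 12 * u 17 + u 14 * u 15 - u 22 * u 3 - u 23 * u 6) / u 21) * (u 7) + ((1 : ℤ) : K) * ((u 9 * u 17 - u 11 * u 15 - u 22 * u 4 - u 23 * u 7) / u 21) * (u 6) + ((-1 : ℤ) : K) * (u 15) * ((u 18 * u 22 - u 6 * u 11 - u 7 * u 14 - u 8 * u 17) / u 21) + ((-1 : ℤ) : K) * ((u 3 * u 7 - u 4 * u 6 - u 15 * u 18 - u 17 * u 24) / u 21) * (u 22) + ((-1 : ℤ) : K) * (u 17) * ((u 22 * u 24 + u 6 * u 9 + u 7 * u 12 + u 8 * u 15) / u 21) = 0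
        push_cast
        field_simp
        ring
      · show ∑ t : Fin 5, _ = _
        rw [Fin.sum_univ_five]
        show ((1 : ℤ) : K) * ((-u 12 * u 17 + u 14 * u 15 - u 22 * u 3 - u 23 * u 6) / u 21) * (u 4) + ((-1 : ℤ) : K) * ((u 9 * u 17 - u 11 * u 15 - u 22 * u 4 - u 23 * u 7) / u 21) * (u 3) + ((-1 : ℤ) : K) * (u 15) * ((u 18 * u 23 + u 3 * u 11 + u 4 * u 14 + u 5 * u 17) / u 21) + ((-1 : ℤ) : K) * ((u 3 * u 7 - u 4 * u 6 - u 15 * u 18 - u 17 * u 24) / u 21) * (u 23) + ((-1 : ℤ) : K) * (u 17) * ((u 23 * u 24 - u 3 * u 9 - u 4 * u 12 - u 5 * u 15) / u 21) = 0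
        push_cast
        field_simp
        ring
      · show ∑ t : Fin 5, _ = _
        rw [Fin.sum_univ_five]
        show ((1 : ℤ) : K) * ((-u 3 * u 8 + u 5 * u 6 - u 12 * u 18 - u 14 * u 24) / u 21) * (u 17) + ((-1 : ℤ) : K) * (u 14) * ((u 3 * u 7 - u 4 * u 6 - u 15 * u 18 - u 17 * u 24) / u 21) + ((-1 : ℤ) : K) * (u 18) * ((-u 12 * u 17 + u 14 * u 15 - u 22 * u 3 - u 23 * u 6) / u 21) + ((-1 : ℤ) : K) * ((u 18 * u 22 - u 6 * u 11 - u 7 * u 14 - u 8 * u 17) / u 21) * (u 3) + ((-1 : ℤ) : K) * ((u 18 * u 23 + u 3 * u 11 + u 4 * u 14 + u 5 * u 17) / u 21) * (u 6) = 0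
        push_cast
        field_simp
        ring
      · show ∑ t : Fin 5, _ = _
        rw [Fin.sum_univ_five]
        show ((-1 : ℤ) : K) * ((u 4 * u 8 - u 5 * u 7 - u 9 * u 18 - u 11 * u 24) / u 21) * (u 17) + ((1 : ℤ) : K) * (u 11) * ((u 3 * u 7 - u 4 * u 6 - u 15 * u 18 - u 17 * u 24) / u 21) + ((-1 : ℤ) : K) * (u 18) * ((u 9 * u 17 - u 11 * u 15 - u 22 * u 4 - u 23 * u 7) / u 21) + ((-1 : ℤ) : K) * ((u 18 * u 22 - u 6 * u 11 - u 7 * u 14 - u 8 * u 17) / u 21) * (u 4) + ((-1 : ℤ) : K) * ((u 18 * u 23 + u 3 * u 11 + u 4 * u 14 + u 5 * u 17) / u 21) * (u 7) = 0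
        push_cast
        field_simp
        ring
      · show ∑ t : Fin 5, _ = _
        rw [Fin.sum_univ_five]
        show ((1 : ℤ) : K) * ((u 4 * u 8 - u 5 * u 7 - u 9 * u 18 - u 11 * u 24) / u 21) * (u 14) + ((-1 : ℤ) : K) * (u 11) * ((-u 3 * u 8 + u 5 * u 6 - u 12 * u 18 - u 14 * u 24) / u 21) + ((-1 : ℤ) : K) * (u 18) * ((-u 9 * u 14 + u 11 * u 12 - u 22 * u 5 - u 23 * u 8) / u 21) + ((-1 : ℤ) : K) * ((u 18 * u 22 - u 6 * u 11 - u 7 * u 14 - u 8 * u 17) / u 21) * (u 5) + ((-1 : ℤ) : K) * ((u 18 * u 23 + u 3 * u 11 + u 4 * u 14 + u 5 * u 17) / u 21) * (u 8) = 0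
        push_cast
        field_simp
        ring
      · show ∑ t : Fin 5, _ = _
        rw [Fin.sum_univ_five]
        show ((-1 : ℤ) : K) * (u 12) * (u 17) + ((1 : ℤ) : K) * (u 14) * (u 15) + ((-1 : ℤ) : K) * (u 21) * ((-u 12 * u 17 + u 14 * u 15 - u 22 * u 3 - u 23 * u 6) / u 21) + ((-1 : ℤ) : K) * (u 22) * (u 3) + ((-1 : ℤ) : K) * (u 23) * (u 6) = 0
        push_cast
        field_simp
        ring
      · show ∑ t : Fin 5, _ = _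
        rw [Fin.sum_univ_five]
        show ((1 : ℤ) : K) * (u 9) * (u 17) + ((-1 : ℤ) : K) * (u 11) * (u 15) + ((-1 : ℤ) : K) * (u 21) * ((u 9 * u 17 - u 11 * u 15 - u 22 * u 4 - u 23 * u 7) / u 21) + ((-1 : ℤ) : K) * (u 22) * (u 4) + ((-1 : ℤ) : K) * (u 23) * (u 7) = 0
        push_cast
        field_simp
        ring
      · show ∑ t : Fin 5, _ = _
        rw [Fin.sum_univ_five]
        show ((-1 : ℤ) : K) * (u 9) * (u 14) + ((1 : ℤ) : K) * (u 11) * (u 12) + ((-1 : ℤ) : K) * (u 21) * ((-u 9 * u 14 + u 11 * u 12 - u 22 * u 5 - u 23 * u 8) / u 21) + ((-1 : ℤ) : K) * (u 22) * (u 5) + ((-1 : ℤ) : K) * (u 23) * (u 8) = 0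
        push_cast
        field_simp
        ring
      · show ∑ t : Fin 5, _ = _
        rw [Fin.sum_univ_five]
        show ((1 : ℤ) : K) * (u 12) * ((u 3 * u 7 - u 4 * u 6 - u 15 * u 18 - u 17 * u 24) / u 21) + ((-1 : ℤ) : K) * ((-u 3 * u 8 + u 5 * u 6 - u 12 * u 18 - u 14 * u 24) / u 21) * (u 15) + ((-1 : ℤ) : K) * (u 24) * ((-u 12 * u 17 + u 14 * u 15 - u 22 * u 3 - u 23 * u 6) / u 21) + ((-1 : ℤ) : K) * ((u 22 * u 24 + u 6 * u 9 + u 7 * u 12 + u 8 * u 15) / u 21) * (u 3) + ((-1 : ℤ) : K) * ((u 23 * u 24 - u 3 * u 9 - u 4 * u 12 - u 5 * u 15) / u 21) * (u 6) = 0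
        push_cast
        field_simp
        ring
      · show ∑ t : Fin 5, _ = _
        rw [Fin.sum_univ_five]
        show ((-1 : ℤ) : K) * (u 9) * ((u 3 * u 7 - u 4 * u 6 - u 15 * u 18 - u 17 * u 24) / u 21) + ((1 : ℤ) : K) * ((u 4 * u 8 - u 5 * u 7 - u 9 * u 18 - u 11 * u 24) / u 21) * (u 15) + ((-1 : ℤ) : K) * (u 24) * ((u 9 * u 17 - u 11 * u 15 - u 22 * u 4 - u 23 * u 7) / u 21) + ((-1 : ℤ) : K) * ((u 22 * u 24 + u 6 * u 9 + u 7 * u 12 + u 8 * u 15) / u 21) * (u 4) + ((-1 : ℤ) : K) * ((u 23 * u 24 - u 3 * u 9 - u 4 * u 12 - u 5 * u 15) / u 21) * (u 7) = 0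
        push_cast
        field_simp
        ring
      · show ∑ t : Fin 5, _ = _
        rw [Fin.sum_univ_five]
        show ((1 : ℤ) : K) * (u 9) * ((-u 3 * u 8 + u 5 * u 6 - u 12 * u 18 - u 14 * u 24) / u 21) + ((-1 : ℤ) : K) * ((u 4 * u 8 - u 5 * u 7 - u 9 * u 18 - u 11 * u 24) / u 21) * (u 12) + ((-1 : ℤ) : K) * (u 24) * ((-u 9 * u 14 + u 11 * u 12 - u 22 * u 5 - u 23 * u 8) / u 21) + ((-1 : ℤ) : K) * ((u 22 * u 24 + u 6 * u 9 + u 7 * u 12 + u 8 * u 15) / u 21) * (u 5) + ((-1 : ℤ) : K) * ((u 23 * u 24 - u 3 * u 9 - u 4 * u 12 - u 5 * u 15) / u 21) * (u 8) = 0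
        push_cast
        field_simp
        ring
      · show ∑ t : Fin 5, _ = _
        rw [Fin.sum_univ_five]
        show ((1 : ℤ) : K) * (u 22) * ((u 23 * u 24 - u 3 * u 9 - u 4 * u 12 - u 5 * u 15) / u 21) + ((-1 : ℤ) : K) * (u 23) * ((u 22 * u 24 + u 6 * u 9 + u 7 * u 12 + u 8 * u 15) / u 21) + ((-1 : ℤ) : K) * ((-u 12 * u 17 + u 14 * u 15 - u 22 * u 3 - u 23 * u 6) / u 21) * (u 9) + ((-1 : ℤ) : K) * ((u 9 * u 17 - u 11 * u 15 - u 22 * u 4 - u 23 * u 7) / u 21) * (u 12) + ((-1 : ℤ) : K) * ((-u 9 * u 14 + u 11 * u 12 - u 22 * u 5 - u 23 * u 8) / u 21) * (u 15) = 0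
        push_cast
        field_simp
        ring
      · show ∑ t : Fin 5, _ = _
        rw [Fin.sum_univ_five]
        show ((-1 : ℤ) : K) * ((u 18 * u 22 - u 6 * u 11 - u 7 * u 14 - u 8 * u 17) / u 21) * ((u 23 * u 24 - u 3 * u 9 - u 4 * u 12 - u 5 * u 15) / u 21) + ((1 : ℤ) : K) * ((u 18 * u 23 + u 3 * u 11 + u 4 * u 14 + u 5 * u 17) / u 21) * ((u 22 * u 24 + u 6 * u 9 + u 7 * u 12 + u 8 * u 15) / u 21) + ((-1 : ℤ) : K) * ((-u 12 * u 17 + u 14 * u 15 - u 22 * u 3 - u 23 * u 6) / u 21) * ((u 4 * u 8 - u 5 * u 7 - u 9 * u 18 - u 11 * u 24) / u 21) + ((-1 : ℤ) : K) * ((u 9 * u 17 - u 11 * u 15 - u 22 * u 4 - u 23 * u 7) / u 21) * ((-u 3 * u 8 + u 5 * u 6 - u 12 * u 18 - u 14 * u 24) / u 21) + ((-1 : ℤ) : K) * ((-u 9 * u 14 + u 11 * u 12 - u 22 * u 5 - u 23 * u 8) / u 21) * ((u 3 * u 7 - u 4 * u 6 - u 15 * u 18 - u 17 * u 24) / u 21) = 0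
        push_cast
        field_simp
        ring
      · show ∑ t : Fin 5, _ = _
        rw [Fin.sum_univ_five]
        show ((1 : ℤ) : K) * ((u 18 * u 22 - u 6 * u 11 - u 7 * u 14 - u 8 * u 17) / u 21) * (u 23) + ((-1 : ℤ) : K) * ((u 18 * u 23 + u 3 * u 11 + u 4 * u 14 + u 5 * u 17) / u 21) * (u 22) + ((-1 : ℤ) : K) * ((-u 12 * u 17 + u 14 * u 15 - u 22 * u 3 - u 23 * u 6) / u 21) * (u 11) + ((-1 : ℤ) : K) * ((u 9 * u 17 - u 11 * u 15 - u 22 * u 4 - u 23 * u 7) / u 21) * (u 14) + ((-1 : ℤ) : K) * ((-u 9 * u 14 + u 11 * u 12 - u 22 * u 5 - u 23 * u 8) / u 21) * (u 17) = 0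
        push_cast
        field_simp
        ring
      · show ∑ t : Fin 5, _ = _
        rw [Fin.sum_univ_five]
        show ((-1 : ℤ) : K) * (u 21) * ((u 23 * u 24 - u 3 * u 9 - u 4 * u 12 - u 5 * u 15) / u 21) + ((1 : ℤ) : K) * (u 23) * (u 24) + ((-1 : ℤ) : K) * (u 3) * (u 9) + ((-1 : ℤ) : K) * (u 4) * (u 12) + ((-1 : ℤ) : K) * (u 5) * (u 15) = 0
        push_cast
        field_simp
        ring
      · show ∑ t : Fin 5, _ = _
        rw [Fin.sum_univ_five]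
        show ((1 : ℤ) : K) * (u 18) * ((u 23 * u 24 - u 3 * u 9 - u 4 * u 12 - u 5 * u 15) / u 21) + ((-1 : ℤ) : K) * ((u 18 * u 23 + u 3 * u 11 + u 4 * u 14 + u 5 * u 17) / u 21) * (u 24) + ((-1 : ℤ) : K) * (u 3) * ((u 4 * u 8 - u 5 * u 7 - u 9 * u 18 - u 11 * u 24) / u 21) + ((-1 : ℤ) : K) * (u 4) * ((-u 3 * u 8 + u 5 * u 6 - u 12 * u 18 - u 14 * u 24) / u 21) + ((-1 : ℤ) : K) * (u 5) * ((u 3 * u 7 - u 4 * u 6 - u 15 * u 18 - u 17 * u 24) / u 21) = 0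
        push_cast
        field_simp
        ring
      · show ∑ t : Fin 5, _ = _
        rw [Fin.sum_univ_five]
        show ((-1 : ℤ) : K) * (u 18) * (u 23) + ((1 : ℤ) : K) * ((u 18 * u 23 + u 3 * u 11 + u 4 * u 14 + u 5 * u 17) / u 21) * (u 21) + ((-1 : ℤ) : K) * (u 3) * (u 11) + ((-1 : ℤ) : K) * (u 4) * (u 14) + ((-1 : ℤ) : K) * (u 5) * (u 17) = 0
        push_cast
        field_simp
        ring
      · show ∑ t : Fin 5, _ = _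
        rw [Fin.sum_univ_five]
        show ((1 : ℤ) : K) * (u 21) * ((u 22 * u 24 + u 6 * u 9 + u 7 * u 12 + u 8 * u 15) / u 21) + ((-1 : ℤ) : K) * (u 22) * (u 24) + ((-1 : ℤ) : K) * (u 6) * (u 9) + ((-1 : ℤ) : K) * (u 7) * (u 12) + ((-1 : ℤ) : K) * (u 8) * (u 15) = 0
        push_cast
        field_simp
        ring
      · show ∑ t : Fin 5, _ = _
        rw [Fin.sum_univ_five]
        show ((-1 : ℤ) : K) * (u 18) * ((u 22 * u 24 + u 6 * u 9 + u 7 * u 12 + u 8 * u 15) / u 21) + ((1 : ℤ) : K) * ((u 18 * u 22 - u 6 * u 11 - u 7 * u 14 - u 8 * u 17) / u 21) * (u 24) + ((-1 : ℤ) : K) * (u 6) * ((u 4 * u 8 - u 5 * u 7 - u 9 * u 18 - u 11 * u 24) / u 21) + ((-1 : ℤ) : K) * (u 7) * ((-u 3 * u 8 + u 5 * u 6 - u 12 * u 18 - u 14 * u 24) / u 21) + ((-1 : ℤ) : K) * (u 8) * ((u 3 * u 7 - u 4 * u 6 - u 15 * u 18 - u 17 * u 24) / u 21) = 0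
        push_cast
        field_simp
        ring
      · show ∑ t : Fin 5, _ = _
        rw [Fin.sum_univ_five]
        show ((1 : ℤ) : K) * (u 18) * (u 22) + ((-1 : ℤ) : K) * ((u 18 * u 22 - u 6 * u 11 - u 7 * u 14 - u 8 * u 17) / u 21) * (u 21) + ((-1 : ℤ) : K) * (u 6) * (u 11) + ((-1 : ℤ) : K) * (u 7) * (u 14) + ((-1 : ℤ) : K) * (u 8) * (u 17) = 0
        push_cast
        field_simp
        ring
    exact hl

theorem cayley_pt_22 {K : Type} [Field K] (u : Fin 27 → K) (h : u 22 ≠ 0) :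
    ∃ y : Fin 27 → K, (∀ j : Fin 27, ¬ cayley.opp (22 : Fin 27) j → y j = u j) ∧
      ∀ l, cayley.val y l = 0 := by
  refine ⟨![u 0, u 1, u 2, (-u 12 * u 17 + u 14 * u 15 - u 21 * u 0 - u 23 * u 6) / u 22, (u 9 * u 17 - u 11 * u 15 - u 21 * u 1 - u 23 * u 7) / u 22, (-u 9 * u 14 + u 11 * u 12 - u 21 * u 2 - u 23 * u 8) / u 22, u 6, u 7, u 8, u 9, (-u 1 * u 8 + u 2 * u 7 - u 9 * u 19 - u 11 * u 25) / u 22, u 11, u 12, (u 0 * u 8 - u 2 * u 6 - u 12 * u 19 - u 14 * u 25) / u 22, u 14, u 15, (-u 0 * u 7 + u 1 * u 6 - u 15 * u 19 - u 17 * u 25) / u 22, u 17, (u 19 * u 21 + u 6 * u 11 + u 7 * u 14 + u 8 * u 17) / u 22, u 19, (u 19 * u 23 - u 0 * u 11 - u 1 * u 14 - u 2 * u 17) / u 22, u 21, u 22, u 23, (u 21 * u 25 - u 6 * u 9 - u 7 * u 12 - u 8 * u 15) / u 22, u 25, (u 23 * u 25 + u 0 * u 9 + u 1 * u 12 + u 2 * u 15) / u 22], ?_, ?_⟩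
  · have key : ∀ j : Fin 27, cayley.opp (22 : Fin 27) j ∨ (![u 0, u 1, u 2, (-u 12 * u 17 + u 14 * u 15 - u 21 * u 0 - u 23 * u 6) / u 22, (u 9 * u 17 - u 11 * u 15 - u 21 * u 1 - u 23 * u 7) / u 22, (-u 9 * u 14 + u 11 * u 12 - u 21 * u 2 - u 23 * u 8) / u 22, u 6, u 7, u 8, u 9, (-u 1 * u 8 + u 2 * u 7 - u 9 * u 19 - u 11 * u 25) / u 22, u 11, u 12, (u 0 * u 8 - u 2 * u 6 - u 12 * u 19 - u 14 * u 25) / u 22, u 14, u 15, (-u 0 * u 7 + u 1 * u 6 - u 15 * u 19 - u 17 * u 25) / u 22, u 17, (u 19 * u 21 + u 6 * u 11 + u 7 * u 14 + u 8 * u 17) / u 22, u 19, (u 19 * u 23 - u 0 * u 11 - u 1 * u 14 - u 2 * u 17) / u 22, u 21, u 22, u 23, (u 21 * u 25 - u 6 * u 9 - u 7 * u 12 - u 8 * u 15) / u 22, u 25, (u 23 * u 25 + u 0 * u 9 + u 1 * u 12 + u 2 * u 15) / u 22] : Fin 27 → K) j = u j := by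
      intro j
      fin_cases j
      · exact Or.inr rfl
      · exact Or.inr rfl
      · exact Or.inr rfl
      · exact Or.inl ⟨(12 : Fin 27), (3 : Fin 5), Or.inl ⟨rfl, rfl⟩⟩
      · exact Or.inl ⟨(13 : Fin 27), (3 : Fin 5), Or.inl ⟨rfl, rfl⟩⟩
      · exact Or.inl ⟨(14 : Fin 27), (3 : Fin 5), Or.inl ⟨rfl, rfl⟩⟩
      · exact Or.inr rfl
      · exact Or.inr rfl
      · exact Or.inr rfl
      · exact Or.inr rfl
      · exact Or.inl ⟨(1 : Fin 27), (3 : Fin 5), Or.inr ⟨rfl, rfl⟩⟩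
      · exact Or.inr rfl
      · exact Or.inr rfl
      · exact Or.inl ⟨(4 : Fin 27), (3 : Fin 5), Or.inr ⟨rfl, rfl⟩⟩
      · exact Or.inr rfl
      · exact Or.inr rfl
      · exact Or.inl ⟨(7 : Fin 27), (3 : Fin 5), Or.inr ⟨rfl, rfl⟩⟩
      · exact Or.inr rfl
      · exact Or.inl ⟨(26 : Fin 27), (0 : Fin 5), Or.inr ⟨rfl, rfl⟩⟩
      · exact Or.inr rfl
      · exact Or.inl ⟨(20 : Fin 27), (1 : Fin 5), Or.inr ⟨rfl, rfl⟩⟩
      · exact Or.inr rfl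
      · exact Or.inr rfl
      · exact Or.inr rfl
      · exact Or.inl ⟨(24 : Fin 27), (1 : Fin 5), Or.inl ⟨rfl, rfl⟩⟩
      · exact Or.inr rfl
      · exact Or.inl ⟨(18 : Fin 27), (0 : Fin 5), Or.inl ⟨rfl, rfl⟩⟩
    intro j hj
    exact (key j).resolve_left hj
  · have hl : ∀ l : Fin 27, cayley.val (![u 0, u 1, u 2, (-u 12 * u 17 + u 14 * u 15 - u 21 * u 0 - u 23 * u 6) / u 22, (u 9 * u 17 - u 11 * u 15 - u 21 * u 1 - u 23 * u 7) / u 22, (-u 9 * u 14 + u 11 * u 12 - u 21 * u 2 - u 23 * u 8) / u 22, u 6, u 7, u 8, u 9, (-u 1 * u 8 + u 2 * u 7 - u 9 * u 19 - u 11 * u 25) / u 22, u 11, u 12, (u 0 * u 8 - u 2 * u 6 - u 12 * u 19 - u 14 * u 25) / u 22, u 14, u 15, (-u 0 * u 7 + u 1 * u 6 - u 15 * u 19 - u 17 * u 25) / u 22, u 17, (u 19 * u 21 + u 6 * u 11 + u 7 * u 14 + u 8 * u 17) / u 22, u 19, (u 19 * u 23 - u 0 * u 11 - u 1 * u 14 - u 2 * u 17) / u 22, u 21,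 u 22, u 23, (u 21 * u 25 - u 6 * u 9 - u 7 * u 12 - u 8 * u 15) / u 22, u 25, (u 23 * u 25 + u 0 * u 9 + u 1 * u 12 + u 2 * u 15) / u 22] : Fin 27 → K) l = 0 := by
      intro l
      unfold QF.val
      fin_cases l
      · show ∑ t : Fin 5, _ = _
        rw [Fin.sum_univ_five]
        show ((1 : ℤ) : K) * ((u 9 * u 17 - u 11 * u 15 - u 21 * u 1 - u 23 * u 7) / u 22) * (u 8) + ((-1 : ℤ) : K) * ((-u 9 * u 14 + u 11 * u 12 - u 21 * u 2 - u 23 * u 8) / u 22) * (u 7) + ((-1 : ℤ) : K) * (u 9) * ((u 19 * u 21 + u 6 * u 11 + u 7 * u 14 + u 8 * u 17) / u 22) + ((-1 : ℤ) : K) * ((-u 1 * u 8 + u 2 * u 7 - u 9 * u 19 - u 11 * u 25) / u 22) * (u 21) + ((-1 : ℤ) : K) * (u 11) * ((u 21 * u 25 - u 6 * u 9 - u 7 * u 12 - u 8 * u 15) / u 22) = 0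
        push_cast
        field_simp
        ring
      · show ∑ t : Fin 5, _ = _
        rw [Fin.sum_univ_five]
        show ((-1 : ℤ) : K) * (u 1) * (u 8) + ((1 : ℤ) : K) * (u 2) * (u 7) + ((-1 : ℤ) : K) * (u 9) * (u 19) + ((-1 : ℤ) : K) * ((-u 1 * u 8 + u 2 * u 7 - u 9 * u 19 - u 11 * u 25) / u 22) * (u 22) + ((-1 : ℤ) : K) * (u 11) * (u 25) = 0
        push_cast
        field_simp
        ring
      · show ∑ t : Fin 5, _ = _
        rw [Fin.sum_univ_five]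
        show ((1 : ℤ) : K) * (u 1) * ((-u 9 * u 14 + u 11 * u 12 - u 21 * u 2 - u 23 * u 8) / u 22) + ((-1 : ℤ) : K) * (u 2) * ((u 9 * u 17 - u 11 * u 15 - u 21 * u 1 - u 23 * u 7) / u 22) + ((-1 : ℤ) : K) * (u 9) * ((u 19 * u 23 - u 0 * u 11 - u 1 * u 14 - u 2 * u 17) / u 22) + ((-1 : ℤ) : K) * ((-u 1 * u 8 + u 2 * u 7 - u 9 * u 19 - u 11 * u 25) / u 22) * (u 23) + ((-1 : ℤ) : K) * (u 11) * ((u 23 * u 25 + u 0 * u 9 + u 1 * u 12 + u 2 * u 15) / u 22) = 0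
        push_cast
        field_simp
        ring
      · show ∑ t : Fin 5, _ = _
        rw [Fin.sum_univ_five]
        show ((-1 : ℤ) : K) * ((-u 12 * u 17 + u 14 * u 15 - u 21 * u 0 - u 23 * u 6) / u 22) * (u 8) + ((1 : ℤ) : K) * ((-u 9 * u 14 + u 11 * u 12 - u 21 * u 2 - u 23 * u 8) / u 22) * (u 6) + ((-1 : ℤ) : K) * (u 12) * ((u 19 * u 21 + u 6 * u 11 + u 7 * u 14 + u 8 * u 17) / u 22) + ((-1 : ℤ) : K) * ((u 0 * u 8 - u 2 * u 6 - u 12 * u 19 - u 14 * u 25) / u 22) * (u 21) + ((-1 : ℤ) : K) * (u 14) * ((u 21 * u 25 - u 6 * u 9 - u 7 * u 12 - u 8 * u 15) / u 22) = 0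
        push_cast
        field_simp
        ring
      · show ∑ t : Fin 5, _ = _
        rw [Fin.sum_univ_five]
        show ((1 : ℤ) : K) * (u 0) * (u 8) + ((-1 : ℤ) : K) * (u 2) * (u 6) + ((-1 : ℤ) : K) * (u 12) * (u 19) + ((-1 : ℤ) : K) * ((u 0 * u 8 - u 2 * u 6 - u 12 * u 19 - u 14 * u 25) / u 22) * (u 22) + ((-1 : ℤ) : K) * (u 14) * (u 25) = 0
        push_cast
        field_simp
        ring
      · show ∑ t : Fin 5, _ = _
        rw [Fin.sum_univ_five]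
        show ((-1 : ℤ) : K) * (u 0) * ((-u 9 * u 14 + u 11 * u 12 - u 21 * u 2 - u 23 * u 8) / u 22) + ((1 : ℤ) : K) * (u 2) * ((-u 12 * u 17 + u 14 * u 15 - u 21 * u 0 - u 23 * u 6) / u 22) + ((-1 : ℤ) : K) * (u 12) * ((u 19 * u 23 - u 0 * u 11 - u 1 * u 14 - u 2 * u 17) / u 22) + ((-1 : ℤ) : K) * ((u 0 * u 8 - u 2 * u 6 - u 12 * u 19 - u 14 * u 25) / u 22) * (u 23) + ((-1 : ℤ) : K) * (u 14) * ((u 23 * u 25 + u 0 * u 9 + u 1 * u 12 + u 2 * u 15) / u 22) = 0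
        push_cast
        field_simp
        ring
      · show ∑ t : Fin 5, _ = _
        rw [Fin.sum_univ_five]
        show ((1 : ℤ) : K) * ((-u 12 * u 17 + u 14 * u 15 - u 21 * u 0 - u 23 * u 6) / u 22) * (u 7) + ((-1 : ℤ) : K) * ((u 9 * u 17 - u 11 * u 15 - u 21 * u 1 - u 23 * u 7) / u 22) * (u 6) + ((-1 : ℤ) : K) * (u 15) * ((u 19 * u 21 + u 6 * u 11 + u 7 * u 14 + u 8 * u 17) / u 22) + ((-1 : ℤ) : K) * ((-u 0 * u 7 + u 1 * u 6 - u 15 * u 19 - u 17 * u 25) / u 22) * (u 21) + ((-1 : ℤ) : K) * (u 17) * ((u 21 * u 25 - u 6 * u 9 - u 7 * u 12 - u 8 * u 15) / u 22) = 0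
        push_cast
        field_simp
        ring
      · show ∑ t : Fin 5, _ = _
        rw [Fin.sum_univ_five]
        show ((-1 : ℤ) : K) * (u 0) * (u 7) + ((1 : ℤ) : K) * (u 1) * (u 6) + ((-1 : ℤ) : K) * (u 15) * (u 19) + ((-1 : ℤ) : K) * ((-u 0 * u 7 + u 1 * u 6 - u 15 * u 19 - u 17 * u 25) / u 22) * (u 22) + ((-1 : ℤ) : K) * (u 17) * (u 25) = 0
        push_cast
        field_simp
        ring
      · show ∑ t : Fin 5, _ = _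
        rw [Fin.sum_univ_five]
        show ((1 : ℤ) : K) * (u 0) * ((u 9 * u 17 - u 11 * u 15 - u 21 * u 1 - u 23 * u 7) / u 22) + ((-1 : ℤ) : K) * (u 1) * ((-u 12 * u 17 + u 14 * u 15 - u 21 * u 0 - u 23 * u 6) / u 22) + ((-1 : ℤ) : K) * (u 15) * ((u 19 * u 23 - u 0 * u 11 - u 1 * u 14 - u 2 * u 17) / u 22) + ((-1 : ℤ) : K) * ((-u 0 * u 7 + u 1 * u 6 - u 15 * u 19 - u 17 * u 25) / u 22) * (u 23) + ((-1 : ℤ) : K) * (u 17) * ((u 23 * u 25 + u 0 * u 9 + u 1 * u 12 + u 2 * u 15) / u 22) = 0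
        push_cast
        field_simp
        ring
      · show ∑ t : Fin 5, _ = _
        rw [Fin.sum_univ_five]
        show ((1 : ℤ) : K) * ((u 0 * u 8 - u 2 * u 6 - u 12 * u 19 - u 14 * u 25) / u 22) * (u 17) + ((-1 : ℤ) : K) * (u 14) * ((-u 0 * u 7 + u 1 * u 6 - u 15 * u 19 - u 17 * u 25) / u 22) + ((-1 : ℤ) : K) * ((u 19 * u 21 + u 6 * u 11 + u 7 * u 14 + u 8 * u 17) / u 22) * (u 0) + ((-1 : ℤ) : K) * (u 19) * ((-u 12 * u 17 + u 14 * u 15 - u 21 * u 0 - u 23 * u 6) / u 22) + ((-1 : ℤ) : K) * ((u 19 * u 23 - u 0 * u 11 - u 1 * u 14 - u 2 * u 17) / u 22) * (u 6) = 0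
        push_cast
        field_simp
        ring
      · show ∑ t : Fin 5, _ = _
        rw [Fin.sum_univ_five]
        show ((-1 : ℤ) : K) * ((-u 1 * u 8 + u 2 * u 7 - u 9 * u 19 - u 11 * u 25) / u 22) * (u 17) + ((1 : ℤ) : K) * (u 11) * ((-u 0 * u 7 + u 1 * u 6 - u 15 * u 19 - u 17 * u 25) / u 22) + ((-1 : ℤ) : K) * ((u 19 * u 21 + u 6 * u 11 + u 7 * u 14 + u 8 * u 17) / u 22) * (u 1) + ((-1 : ℤ) : K) * (u 19) * ((u 9 * u 17 - u 11 * u 15 - u 21 * u 1 - u 23 * u 7) / u 22) + ((-1 : ℤ) : K) * ((u 19 * u 23 - u 0 * u 11 - u 1 * u 14 - u 2 * u 17) / u 22) * (u 7) = 0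
        push_cast
        field_simp
        ring
      · show ∑ t : Fin 5, _ = _
        rw [Fin.sum_univ_five]
        show ((1 : ℤ) : K) * ((-u 1 * u 8 + u 2 * u 7 - u 9 * u 19 - u 11 * u 25) / u 22) * (u 14) + ((-1 : ℤ) : K) * (u 11) * ((u 0 * u 8 - u 2 * u 6 - u 12 * u 19 - u 14 * u 25) / u 22) + ((-1 : ℤ) : K) * ((u 19 * u 21 + u 6 * u 11 + u 7 * u 14 + u 8 * u 17) / u 22) * (u 2) + ((-1 : ℤ) : K) * (u 19) * ((-u 9 * u 14 + u 11 * u 12 - u 21 * u 2 - u 23 * u 8) / u 22) + ((-1 : ℤ) : K) * ((u 19 * u 23 - u 0 * u 11 - u 1 * u 14 - u 2 * u 17) / u 22) * (u 8) = 0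
        push_cast
        field_simp
        ring
      · show ∑ t : Fin 5, _ = _
        rw [Fin.sum_univ_five]
        show ((-1 : ℤ) : K) * (u 12) * (u 17) + ((1 : ℤ) : K) * (u 14) * (u 15) + ((-1 : ℤ) : K) * (u 21) * (u 0) + ((-1 : ℤ) : K) * (u 22) * ((-u 12 * u 17 + u 14 * u 15 - u 21 * u 0 - u 23 * u 6) / u 22) + ((-1 : ℤ) : K) * (u 23) * (u 6) = 0
        push_cast
        field_simp
        ring
      · show ∑ t : Fin 5, _ = _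
        rw [Fin.sum_univ_five]
        show ((1 : ℤ) : K) * (u 9) * (u 17) + ((-1 : ℤ) : K) * (u 11) * (u 15) + ((-1 : ℤ) : K) * (u 21) * (u 1) + ((-1 : ℤ) : K) * (u 22) * ((u 9 * u 17 - u 11 * u 15 - u 21 * u 1 - u 23 * u 7) / u 22) + ((-1 : ℤ) : K) * (u 23) * (u 7) = 0
        push_cast
        field_simp
        ring
      · show ∑ t : Fin 5, _ = _
        rw [Fin.sum_univ_five]
        show ((-1 : ℤ) : K) * (u 9) * (u 14) + ((1 : ℤ) : K) * (u 11) * (u 12) + ((-1 : ℤ) : K) * (u 21) * (u 2) + ((-1 : ℤ) : K) * (u 22) * ((-u 9 * u 14 + u 11 * u 12 - u 21 * u 2 - u 23 * u 8) / u 22) + ((-1 : ℤ) : K) * (u 23) * (u 8) = 0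
        push_cast
        field_simp
        ring
      · show ∑ t : Fin 5, _ = _
        rw [Fin.sum_univ_five]
        show ((1 : ℤ) : K) * (u 12) * ((-u 0 * u 7 + u 1 * u 6 - u 15 * u 19 - u 17 * u 25) / u 22) + ((-1 : ℤ) : K) * ((u 0 * u 8 - u 2 * u 6 - u 12 * u 19 - u 14 * u 25) / u 22) * (u 15) + ((-1 : ℤ) : K) * ((u 21 * u 25 - u 6 * u 9 - u 7 * u 12 - u 8 * u 15) / u 22) * (u 0) + ((-1 : ℤ) : K) * (u 25) * ((-u 12 * u 17 + u 14 * u 15 - u 21 * u 0 - u 23 * u 6) / u 22) + ((-1 : ℤ) : K) * ((u 23 * u 25 + u 0 * u 9 + u 1 * u 12 + u 2 * u 15) / u 22) * (u 6) = 0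
        push_cast
        field_simp
        ring
      · show ∑ t : Fin 5, _ = _
        rw [Fin.sum_univ_five]
        show ((-1 : ℤ) : K) * (u 9) * ((-u 0 * u 7 + u 1 * u 6 - u 15 * u 19 - u 17 * u 25) / u 22) + ((1 : ℤ) : K) * ((-u 1 * u 8 + u 2 * u 7 - u 9 * u 19 - u 11 * u 25) / u 22) * (u 15) + ((-1 : ℤ) : K) * ((u 21 * u 25 - u 6 * u 9 - u 7 * u 12 - u 8 * u 15) / u 22) * (u 1) + ((-1 : ℤ) : K) * (u 25) * ((u 9 * u 17 - u 11 * u 15 - u 21 * u 1 - u 23 * u 7) / u 22) + ((-1 : ℤ) : K) * ((u 23 * u 25 + u 0 * u 9 + u 1 * u 12 + u 2 * u 15) / u 22) * (u 7) = 0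
        push_cast
        field_simp
        ring
      · show ∑ t : Fin 5, _ = _
        rw [Fin.sum_univ_five]
        show ((1 : ℤ) : K) * (u 9) * ((u 0 * u 8 - u 2 * u 6 - u 12 * u 19 - u 14 * u 25) / u 22) + ((-1 : ℤ) : K) * ((-u 1 * u 8 + u 2 * u 7 - u 9 * u 19 - u 11 * u 25) / u 22) * (u 12) + ((-1 : ℤ) : K) * ((u 21 * u 25 - u 6 * u 9 - u 7 * u 12 - u 8 * u 15) / u 22) * (u 2) + ((-1 : ℤ) : K) * (u 25) * ((-u 9 * u 14 + u 11 * u 12 - u 21 * u 2 - u 23 * u 8) / u 22) + ((-1 : ℤ) : K) * ((u 23 * u 25 + u 0 * u 9 + u 1 * u 12 + u 2 * u 15) / u 22) * (u 8) = 0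
        push_cast
        field_simp
        ring
      · show ∑ t : Fin 5, _ = _
        rw [Fin.sum_univ_five]
        show ((1 : ℤ) : K) * (u 22) * ((u 23 * u 25 + u 0 * u 9 + u 1 * u 12 + u 2 * u 15) / u 22) + ((-1 : ℤ) : K) * (u 23) * (u 25) + ((-1 : ℤ) : K) * (u 0) * (u 9) + ((-1 : ℤ) : K) * (u 1) * (u 12) + ((-1 : ℤ) : K) * (u 2) * (u 15) = 0
        push_cast
        field_simp
        ring
      · show ∑ t : Fin 5, _ = _
        rw [Fin.sum_univ_five]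
        show ((-1 : ℤ) : K) * (u 19) * ((u 23 * u 25 + u 0 * u 9 + u 1 * u 12 + u 2 * u 15) / u 22) + ((1 : ℤ) : K) * ((u 19 * u 23 - u 0 * u 11 - u 1 * u 14 - u 2 * u 17) / u 22) * (u 25) + ((-1 : ℤ) : K) * (u 0) * ((-u 1 * u 8 + u 2 * u 7 - u 9 * u 19 - u 11 * u 25) / u 22) + ((-1 : ℤ) : K) * (u 1) * ((u 0 * u 8 - u 2 * u 6 - u 12 * u 19 - u 14 * u 25) / u 22) + ((-1 : ℤ) : K) * (u 2) * ((-u 0 * u 7 + u 1 * u 6 - u 15 * u 19 - u 17 * u 25) / u 22) = 0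
        push_cast
        field_simp
        ring
      · show ∑ t : Fin 5, _ = _
        rw [Fin.sum_univ_five]
        show ((1 : ℤ) : K) * (u 19) * (u 23) + ((-1 : ℤ) : K) * ((u 19 * u 23 - u 0 * u 11 - u 1 * u 14 - u 2 * u 17) / u 22) * (u 22) + ((-1 : ℤ) : K) * (u 0) * (u 11) + ((-1 : ℤ) : K) * (u 1) * (u 14) + ((-1 : ℤ) : K) * (u 2) * (u 17) = 0
        push_cast
        field_simp
        ring
      · show ∑ t : Fin 5, _ = _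
        rw [Fin.sum_univ_five]
        show ((-1 : ℤ) : K) * (u 21) * ((u 23 * u 25 + u 0 * u 9 + u 1 * u 12 + u 2 * u 15) / u 22) + ((1 : ℤ) : K) * (u 23) * ((u 21 * u 25 - u 6 * u 9 - u 7 * u 12 - u 8 * u 15) / u 22) + ((-1 : ℤ) : K) * ((-u 12 * u 17 + u 14 * u 15 - u 21 * u 0 - u 23 * u 6) / u 22) * (u 9) + ((-1 : ℤ) : K) * ((u 9 * u 17 - u 11 * u 15 - u 21 * u 1 - u 23 * u 7) / u 22) * (u 12) + ((-1 : ℤ) : K) * ((-u 9 * u 14 + u 11 * u 12 - u 21 * u 2 - u 23 * u 8) / u 22) * (u 15) = 0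
        push_cast
        field_simp
        ring
      · show ∑ t : Fin 5, _ = _
        rw [Fin.sum_univ_five]
        show ((1 : ℤ) : K) * ((u 19 * u 21 + u 6 * u 11 + u 7 * u 14 + u 8 * u 17) / u 22) * ((u 23 * u 25 + u 0 * u 9 + u 1 * u 12 + u 2 * u 15) / u 22) + ((-1 : ℤ) : K) * ((u 19 * u 23 - u 0 * u 11 - u 1 * u 14 - u 2 * u 17) / u 22) * ((u 21 * u 25 - u 6 * u 9 - u 7 * u 12 - u 8 * u 15) / u 22) + ((-1 : ℤ) : K) * ((-u 12 * u 17 + u 14 * u 15 - u 21 * u 0 - u 23 * u 6) / u 22) * ((-u 1 * u 8 + u 2 * u 7 - u 9 * u 19 - u 11 * u 25) / u 22) + ((-1 : ℤ) : K) * ((u 9 * u 17 - u 11 * u 15 - u 21 * u 1 - u 23 * u 7) / u 22) * ((u 0 * u 8 - u 2 * u 6 - u 12 * u 19 - u 14 * u 25) / u 22) + ((-1 : ℤ) : K) * ((-u 9 * u 14 + u 11 * u 12 - u 21 * u 2 - u 23 * u 8) / u 22) * ((-u 0 * u 7 + u 1 * u 6 - u 15 * u 19 - u 17 * u 25) / u 22) = 0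
        push_cast
        field_simp
        ring
      · show ∑ t : Fin 5, _ = _
        rw [Fin.sum_univ_five]
        show ((-1 : ℤ) : K) * ((u 19 * u 21 + u 6 * u 11 + u 7 * u 14 + u 8 * u 17) / u 22) * (u 23) + ((1 : ℤ) : K) * ((u 19 * u 23 - u 0 * u 11 - u 1 * u 14 - u 2 * u 17) / u 22) * (u 21) + ((-1 : ℤ) : K) * ((-u 12 * u 17 + u 14 * u 15 - u 21 * u 0 - u 23 * u 6) / u 22) * (u 11) + ((-1 : ℤ) : K) * ((u 9 * u 17 - u 11 * u 15 - u 21 * u 1 - u 23 * u 7) / u 22) * (u 14) + ((-1 : ℤ) : K) * ((-u 9 * u 14 + u 11 * u 12 - u 21 * u 2 - u 23 * u 8) / u 22) * (u 17) = 0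
        push_cast
        field_simp
        ring
      · show ∑ t : Fin 5, _ = _
        rw [Fin.sum_univ_five]
        show ((1 : ℤ) : K) * (u 21) * (u 25) + ((-1 : ℤ) : K) * (u 22) * ((u 21 * u 25 - u 6 * u 9 - u 7 * u 12 - u 8 * u 15) / u 22) + ((-1 : ℤ) : K) * (u 6) * (u 9) + ((-1 : ℤ) : K) * (u 7) * (u 12) + ((-1 : ℤ) : K) * (u 8) * (u 15) = 0
        push_cast
        field_simp
        ring
      · show ∑ t : Fin 5, _ = _
        rw [Fin.sum_univ_five]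
        show ((-1 : ℤ) : K) * ((u 19 * u 21 + u 6 * u 11 + u 7 * u 14 + u 8 * u 17) / u 22) * (u 25) + ((1 : ℤ) : K) * (u 19) * ((u 21 * u 25 - u 6 * u 9 - u 7 * u 12 - u 8 * u 15) / u 22) + ((-1 : ℤ) : K) * (u 6) * ((-u 1 * u 8 + u 2 * u 7 - u 9 * u 19 - u 11 * u 25) / u 22) + ((-1 : ℤ) : K) * (u 7) * ((u 0 * u 8 - u 2 * u 6 - u 12 * u 19 - u 14 * u 25) / u 22) + ((-1 : ℤ) : K) * (u 8) * ((-u 0 * u 7 + u 1 * u 6 - u 15 * u 19 - u 17 * u 25) / u 22) = 0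
        push_cast
        field_simp
        ring
      · show ∑ t : Fin 5, _ = _
        rw [Fin.sum_univ_five]
        show ((1 : ℤ) : K) * ((u 19 * u 21 + u 6 * u 11 + u 7 * u 14 + u 8 * u 17) / u 22) * (u 22) + ((-1 : ℤ) : K) * (u 19) * (u 21) + ((-1 : ℤ) : K) * (u 6) * (u 11) + ((-1 : ℤ) : K) * (u 7) * (u 14) + ((-1 : ℤ) : K) * (u 8) * (u 17) = 0
        push_cast
        field_simp
        ring
    exact hl

theorem cayley_pt_23 {K : Type} [Field K] (u : Fin 27 → K) (h : u 23 ≠ 0) :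
    ∃ y : Fin 27 → K, (∀ j : Fin 27, ¬ cayley.opp (23 : Fin 27) j → y j = u j) ∧
      ∀ l, cayley.val y l = 0 := by
  refine ⟨![u 0, u 1, u 2, u 3, u 4, u 5, (-u 12 * u 17 + u 14 * u 15 - u 21 * u 0 - u 22 * u 3) / u 23, (u 9 * u 17 - u 11 * u 15 - u 21 * u 1 - u 22 * u 4) / u 23, (-u 9 * u 14 + u 11 * u 12 - u 21 * u 2 - u 22 * u 5) / u 23, u 9, (u 1 * u 5 - u 2 * u 4 - u 9 * u 20 - u 11 * u 26) / u 23, u 11, u 12, (-u 0 * u 5 + u 2 * u 3 - u 12 * u 20 - u 14 * u 26) / u 23, u 14, u 15, (u 0 * u 4 - u 1 * u 3 - u 15 * u 20 - u 17 * u 26) / u 23, u 17, (u 20 * u 21 - u 3 * u 11 - u 4 * u 14 - u 5 * u 17) / u 23, (u 20 * u 22 + u 0 * u 11 + u 1 * u 14 + u 2 * u 17) / u 23, u 20, u 21, u 22, u 23, (u 21 * u 26 + u 3 * u 9 + u 4 * u 12 + u 5 * u 15) / u 23, (u 22 * u 26 - u 0 * u 9 - u 1 * u 12 - u 2 * u 15) / u 23, u 26], ?_, ?_⟩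
  · have key : ∀ j : Fin 27, cayley.opp (23 : Fin 27) j ∨ (![u 0, u 1, u 2, u 3, u 4, u 5, (-u 12 * u 17 + u 14 * u 15 - u 21 * u 0 - u 22 * u 3) / u 23, (u 9 * u 17 - u 11 * u 15 - u 21 * u 1 - u 22 * u 4) / u 23, (-u 9 * u 14 + u 11 * u 12 - u 21 * u 2 - u 22 * u 5) / u 23, u 9, (u 1 * u 5 - u 2 * u 4 - u 9 * u 20 - u 11 * u 26) / u 23, u 11, u 12, (-u 0 * u 5 + u 2 * u 3 - u 12 * u 20 - u 14 * u 26) / u 23, u 14, u 15, (u 0 * u 4 - u 1 * u 3 - u 15 * u 20 - u 17 * u 26) / u 23, u 17, (u 20 * u 21 - u 3 * u 11 - u 4 * u 14 - u 5 * u 17) / u 23, (u 20 * u 22 + u 0 * u 11 + u 1 * u 14 + u 2 * u 17) / u 23, u 20, u 21, u 22, u 23, (u 21 * u 26 + u 3 * u 9 + u 4 * u 12 + u 5 * u 15) / u 23, (u 22 * u 26 - u 0 * u 9 - u 1 * u 12 - u 2 * u 15) / u 23, u 26] : Fin 27 → K) j = u j := by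
      intro j
      fin_cases j
      · exact Or.inr rfl
      · exact Or.inr rfl
      · exact Or.inr rfl
      · exact Or.inr rfl
      · exact Or.inr rfl
      · exact Or.inr rfl
      · exact Or.inl ⟨(12 : Fin 27), (4 : Fin 5), Or.inl ⟨rfl, rfl⟩⟩
      · exact Or.inl ⟨(13 : Fin 27), (4 : Fin 5), Or.inl ⟨rfl, rfl⟩⟩
      · exact Or.inl ⟨(14 : Fin 27), (4 : Fin 5), Or.inl ⟨rfl, rfl⟩⟩
      · exact Or.inr rfl
      · exact Or.inl ⟨(2 : Fin 27), (3 : Fin 5), Or.inr ⟨rfl, rfl⟩⟩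
      · exact Or.inr rfl
      · exact Or.inr rfl
      · exact Or.inl ⟨(5 : Fin 27), (3 : Fin 5), Or.inr ⟨rfl, rfl⟩⟩
      · exact Or.inr rfl
      · exact Or.inr rfl
      · exact Or.inl ⟨(8 : Fin 27), (3 : Fin 5), Or.inr ⟨rfl, rfl⟩⟩
      · exact Or.inr rfl
      · exact Or.inl ⟨(23 : Fin 27), (0 : Fin 5), Or.inr ⟨rfl, rfl⟩⟩
      · exact Or.inl ⟨(20 : Fin 27), (0 : Fin 5), Or.inr ⟨rfl, rfl⟩⟩
      · exact Or.inr rfl
      · exact Or.inr rfl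
      · exact Or.inr rfl
      · exact Or.inr rfl
      · exact Or.inl ⟨(21 : Fin 27), (1 : Fin 5), Or.inl ⟨rfl, rfl⟩⟩
      · exact Or.inl ⟨(18 : Fin 27), (1 : Fin 5), Or.inl ⟨rfl, rfl⟩⟩
      · exact Or.inr rfl
    intro j hj
    exact (key j).resolve_left hj
  · have hl : ∀ l : Fin 27, cayley.val (![u 0, u 1, u 2, u 3, u 4, u 5, (-u 12 * u 17 + u 14 * u 15 - u 21 * u 0 - u 22 * u 3) / u 23, (u 9 * u 17 - u 11 * u 15 - u 21 * u 1 - u 22 * u 4) / u 23, (-u 9 * u 14 + u 11 * u 12 - u 21 * u 2 - u 22 * u 5) / u 23, u 9, (u 1 * u 5 - u 2 * u 4 - u 9 * u 20 - u 11 * u 26) / u 23, u 11, u 12, (-u 0 * u 5 + u 2 * u 3 - u 12 * u 20 - u 14 * u 26) / u 23, u 14, u 15, (u 0 * u 4 - u 1 * u 3 - u 15 * u 20 - u 17 * u 26) / u 23, u 17, (u 20 * u 21 - u 3 * u 11 - u 4 * u 14 - u 5 * u 17) / u 23, (u 20 * u 22 + u 0 * u 11 + u 1 * u 14 + u 2 * u 17) / u 23, u 20, u 21,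 u 22, u 23, (u 21 * u 26 + u 3 * u 9 + u 4 * u 12 + u 5 * u 15) / u 23, (u 22 * u 26 - u 0 * u 9 - u 1 * u 12 - u 2 * u 15) / u 23, u 26] : Fin 27 → K) l = 0 := by
      intro l
      unfold QF.val
      fin_cases l
      · show ∑ t : Fin 5, _ = _
        rw [Fin.sum_univ_five]
        show ((1 : ℤ) : K) * (u 4) * ((-u 9 * u 14 + u 11 * u 12 - u 21 * u 2 - u 22 * u 5) / u 23) + ((-1 : ℤ) : K) * (u 5) * ((u 9 * u 17 - u 11 * u 15 - u 21 * u 1 - u 22 * u 4) / u 23) + ((-1 : ℤ) : K) * (u 9) * ((u 20 * u 21 - u 3 * u 11 - u 4 * u 14 - u 5 * u 17) / u 23) + ((-1 : ℤ) : K) * ((u 1 * u 5 - u 2 * u 4 - u 9 * u 20 - u 11 * u 26) / u 23) * (u 21) + ((-1 : ℤ) : K) * (u 11) * ((u 21 * u 26 + u 3 * u 9 + u 4 * u 12 + u 5 * u 15) / u 23) = 0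
        push_cast
        field_simp
        ring
      · show ∑ t : Fin 5, _ = _
        rw [Fin.sum_univ_five]
        show ((-1 : ℤ) : K) * (u 1) * ((-u 9 * u 14 + u 11 * u 12 - u 21 * u 2 - u 22 * u 5) / u 23) + ((1 : ℤ) : K) * (u 2) * ((u 9 * u 17 - u 11 * u 15 - u 21 * u 1 - u 22 * u 4) / u 23) + ((-1 : ℤ) : K) * (u 9) * ((u 20 * u 22 + u 0 * u 11 + u 1 * u 14 + u 2 * u 17) / u 23) + ((-1 : ℤ) : K) * ((u 1 * u 5 - u 2 * u 4 - u 9 * u 20 - u 11 * u 26) / u 23) * (u 22) + ((-1 : ℤ) : K) * (u 11) * ((u 22 * u 26 - u 0 * u 9 - u 1 * u 12 - u 2 * u 15) / u 23) = 0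
        push_cast
        field_simp
        ring
      · show ∑ t : Fin 5, _ = _
        rw [Fin.sum_univ_five]
        show ((1 : ℤ) : K) * (u 1) * (u 5) + ((-1 : ℤ) : K) * (u 2) * (u 4) + ((-1 : ℤ) : K) * (u 9) * (u 20) + ((-1 : ℤ) : K) * ((u 1 * u 5 - u 2 * u 4 - u 9 * u 20 - u 11 * u 26) / u 23) * (u 23) + ((-1 : ℤ) : K) * (u 11) * (u 26) = 0
        push_cast
        field_simp
        ring
      · show ∑ t : Fin 5, _ = _
        rw [Fin.sum_univ_five]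
        show ((-1 : ℤ) : K) * (u 3) * ((-u 9 * u 14 + u 11 * u 12 - u 21 * u 2 - u 22 * u 5) / u 23) + ((1 : ℤ) : K) * (u 5) * ((-u 12 * u 17 + u 14 * u 15 - u 21 * u 0 - u 22 * u 3) / u 23) + ((-1 : ℤ) : K) * (u 12) * ((u 20 * u 21 - u 3 * u 11 - u 4 * u 14 - u 5 * u 17) / u 23) + ((-1 : ℤ) : K) * ((-u 0 * u 5 + u 2 * u 3 - u 12 * u 20 - u 14 * u 26) / u 23) * (u 21) + ((-1 : ℤ) : K) * (u 14) * ((u 21 * u 26 + u 3 * u 9 + u 4 * u 12 + u 5 * u 15) / u 23) = 0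
        push_cast
        field_simp
        ring
      · show ∑ t : Fin 5, _ = _
        rw [Fin.sum_univ_five]
        show ((1 : ℤ) : K) * (u 0) * ((-u 9 * u 14 + u 11 * u 12 - u 21 * u 2 - u 22 * u 5) / u 23) + ((-1 : ℤ) : K) * (u 2) * ((-u 12 * u 17 + u 14 * u 15 - u 21 * u 0 - u 22 * u 3) / u 23) + ((-1 : ℤ) : K) * (u 12) * ((u 20 * u 22 + u 0 * u 11 + u 1 * u 14 + u 2 * u 17) / u 23) + ((-1 : ℤ) : K) * ((-u 0 * u 5 + u 2 * u 3 - u 12 * u 20 - u 14 * u 26) / u 23) * (u 22) + ((-1 : ℤ) : K) * (u 14) * ((u 22 * u 26 - u 0 * u 9 - u 1 * u 12 - u 2 * u 15) / u 23) = 0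
        push_cast
        field_simp
        ring
      · show ∑ t : Fin 5, _ = _
        rw [Fin.sum_univ_five]
        show ((-1 : ℤ) : K) * (u 0) * (u 5) + ((1 : ℤ) : K) * (u 2) * (u 3) + ((-1 : ℤ) : K) * (u 12) * (u 20) + ((-1 : ℤ) : K) * ((-u 0 * u 5 + u 2 * u 3 - u 12 * u 20 - u 14 * u 26) / u 23) * (u 23) + ((-1 : ℤ) : K) * (u 14) * (u 26) = 0
        push_cast
        field_simp
        ring
      · show ∑ t : Fin 5, _ = _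
        rw [Fin.sum_univ_five]
        show ((1 : ℤ) : K) * (u 3) * ((u 9 * u 17 - u 11 * u 15 - u 21 * u 1 - u 22 * u 4) / u 23) + ((-1 : ℤ) : K) * (u 4) * ((-u 12 * u 17 + u 14 * u 15 - u 21 * u 0 - u 22 * u 3) / u 23) + ((-1 : ℤ) : K) * (u 15) * ((u 20 * u 21 - u 3 * u 11 - u 4 * u 14 - u 5 * u 17) / u 23) + ((-1 : ℤ) : K) * ((u 0 * u 4 - u 1 * u 3 - u 15 * u 20 - u 17 * u 26) / u 23) * (u 21) + ((-1 : ℤ) : K) * (u 17) * ((u 21 * u 26 + u 3 * u 9 + u 4 * u 12 + u 5 * u 15) / u 23) = 0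
        push_cast
        field_simp
        ring
      · show ∑ t : Fin 5, _ = _
        rw [Fin.sum_univ_five]
        show ((-1 : ℤ) : K) * (u 0) * ((u 9 * u 17 - u 11 * u 15 - u 21 * u 1 - u 22 * u 4) / u 23) + ((1 : ℤ) : K) * (u 1) * ((-u 12 * u 17 + u 14 * u 15 - u 21 * u 0 - u 22 * u 3) / u 23) + ((-1 : ℤ) : K) * (u 15) * ((u 20 * u 22 + u 0 * u 11 + u 1 * u 14 + u 2 * u 17) / u 23) + ((-1 : ℤ) : K) * ((u 0 * u 4 - u 1 * u 3 - u 15 * u 20 - u 17 * u 26) / u 23) * (u 22) + ((-1 : ℤ) : K) * (u 17) * ((u 22 * u 26 - u 0 * u 9 - u 1 * u 12 - u 2 * u 15) / u 23) = 0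
        push_cast
        field_simp
        ring
      · show ∑ t : Fin 5, _ = _
        rw [Fin.sum_univ_five]
        show ((1 : ℤ) : K) * (u 0) * (u 4) + ((-1 : ℤ) : K) * (u 1) * (u 3) + ((-1 : ℤ) : K) * (u 15) * (u 20) + ((-1 : ℤ) : K) * ((u 0 * u 4 - u 1 * u 3 - u 15 * u 20 - u 17 * u 26) / u 23) * (u 23) + ((-1 : ℤ) : K) * (u 17) * (u 26) = 0
        push_cast
        field_simp
        ring
      · show ∑ t : Fin 5, _ = _
        rw [Fin.sum_univ_five]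
        show ((1 : ℤ) : K) * ((-u 0 * u 5 + u 2 * u 3 - u 12 * u 20 - u 14 * u 26) / u 23) * (u 17) + ((-1 : ℤ) : K) * (u 14) * ((u 0 * u 4 - u 1 * u 3 - u 15 * u 20 - u 17 * u 26) / u 23) + ((-1 : ℤ) : K) * ((u 20 * u 21 - u 3 * u 11 - u 4 * u 14 - u 5 * u 17) / u 23) * (u 0) + ((-1 : ℤ) : K) * ((u 20 * u 22 + u 0 * u 11 + u 1 * u 14 + u 2 * u 17) / u 23) * (u 3) + ((-1 : ℤ) : K) * (u 20) * ((-u 12 * u 17 + u 14 * u 15 - u 21 * u 0 - u 22 * u 3) / u 23) = 0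
        push_cast
        field_simp
        ring
      · show ∑ t : Fin 5, _ = _
        rw [Fin.sum_univ_five]
        show ((-1 : ℤ) : K) * ((u 1 * u 5 - u 2 * u 4 - u 9 * u 20 - u 11 * u 26) / u 23) * (u 17) + ((1 : ℤ) : K) * (u 11) * ((u 0 * u 4 - u 1 * u 3 - u 15 * u 20 - u 17 * u 26) / u 23) + ((-1 : ℤ) : K) * ((u 20 * u 21 - u 3 * u 11 - u 4 * u 14 - u 5 * u 17) / u 23) * (u 1) + ((-1 : ℤ) : K) * ((u 20 * u 22 + u 0 * u 11 + u 1 * u 14 + u 2 * u 17) / u 23) * (u 4) + ((-1 : ℤ) : K) * (u 20) * ((u 9 * u 17 - u 11 * u 15 - u 21 * u 1 - u 22 * u 4) / u 23) = 0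
        push_cast
        field_simp
        ring
      · show ∑ t : Fin 5, _ = _
        rw [Fin.sum_univ_five]
        show ((1 : ℤ) : K) * ((u 1 * u 5 - u 2 * u 4 - u 9 * u 20 - u 11 * u 26) / u 23) * (u 14) + ((-1 : ℤ) : K) * (u 11) * ((-u 0 * u 5 + u 2 * u 3 - u 12 * u 20 - u 14 * u 26) / u 23) + ((-1 : ℤ) : K) * ((u 20 * u 21 - u 3 * u 11 - u 4 * u 14 - u 5 * u 17) / u 23) * (u 2) + ((-1 : ℤ) : K) * ((u 20 * u 22 + u 0 * u 11 + u 1 * u 14 + u 2 * u 17) / u 23) * (u 5) + ((-1 : ℤ) : K) * (u 20) * ((-u 9 * u 14 + u 11 * u 12 - u 21 * u 2 - u 22 * u 5) / u 23) = 0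
        push_cast
        field_simp
        ring
      · show ∑ t : Fin 5, _ = _
        rw [Fin.sum_univ_five]
        show ((-1 : ℤ) : K) * (u 12) * (u 17) + ((1 : ℤ) : K) * (u 14) * (u 15) + ((-1 : ℤ) : K) * (u 21) * (u 0) + ((-1 : ℤ) : K) * (u 22) * (u 3) + ((-1 : ℤ) : K) * (u 23) * ((-u 12 * u 17 + u 14 * u 15 - u 21 * u 0 - u 22 * u 3) / u 23) = 0
        push_cast
        field_simp
        ring
      · show ∑ t : Fin 5, _ = _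
        rw [Fin.sum_univ_five]
        show ((1 : ℤ) : K) * (u 9) * (u 17) + ((-1 : ℤ) : K) * (u 11) * (u 15) + ((-1 : ℤ) : K) * (u 21) * (u 1) + ((-1 : ℤ) : K) * (u 22) * (u 4) + ((-1 : ℤ) : K) * (u 23) * ((u 9 * u 17 - u 11 * u 15 - u 21 * u 1 - u 22 * u 4) / u 23) = 0
        push_cast
        field_simp
        ring
      · show ∑ t : Fin 5, _ = _
        rw [Fin.sum_univ_five]
        show ((-1 : ℤ) : K) * (u 9) * (u 14) + ((1 : ℤ) : K) * (u 11) * (u 12) + ((-1 : ℤ) : K) * (u 21) * (u 2) + ((-1 : ℤ) : K) * (u 22) * (u 5) + ((-1 : ℤ) : K) * (u 23) * ((-u 9 * u 14 + u 11 * u 12 - u 21 * u 2 - u 22 * u 5) / u 23) = 0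
        push_cast
        field_simp
        ring
      · show ∑ t : Fin 5, _ = _
        rw [Fin.sum_univ_five]
        show ((1 : ℤ) : K) * (u 12) * ((u 0 * u 4 - u 1 * u 3 - u 15 * u 20 - u 17 * u 26) / u 23) + ((-1 : ℤ) : K) * ((-u 0 * u 5 + u 2 * u 3 - u 12 * u 20 - u 14 * u 26) / u 23) * (u 15) + ((-1 : ℤ) : K) * ((u 21 * u 26 + u 3 * u 9 + u 4 * u 12 + u 5 * u 15) / u 23) * (u 0) + ((-1 : ℤ) : K) * ((u 22 * u 26 - u 0 * u 9 - u 1 * u 12 - u 2 * u 15) / u 23) * (u 3) + ((-1 : ℤ) : K) * (u 26) * ((-u 12 * u 17 + u 14 * u 15 - u 21 * u 0 - u 22 * u 3) / u 23) = 0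
        push_cast
        field_simp
        ring
      · show ∑ t : Fin 5, _ = _
        rw [Fin.sum_univ_five]
        show ((-1 : ℤ) : K) * (u 9) * ((u 0 * u 4 - u 1 * u 3 - u 15 * u 20 - u 17 * u 26) / u 23) + ((1 : ℤ) : K) * ((u 1 * u 5 - u 2 * u 4 - u 9 * u 20 - u 11 * u 26) / u 23) * (u 15) + ((-1 : ℤ) : K) * ((u 21 * u 26 + u 3 * u 9 + u 4 * u 12 + u 5 * u 15) / u 23) * (u 1) + ((-1 : ℤ) : K) * ((u 22 * u 26 - u 0 * u 9 - u 1 * u 12 - u 2 * u 15) / u 23) * (u 4) + ((-1 : ℤ) : K) * (u 26) * ((u 9 * u 17 - u 11 * u 15 - u 21 * u 1 - u 22 * u 4) / u 23) = 0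
        push_cast
        field_simp
        ring
      · show ∑ t : Fin 5, _ = _
        rw [Fin.sum_univ_five]
        show ((1 : ℤ) : K) * (u 9) * ((-u 0 * u 5 + u 2 * u 3 - u 12 * u 20 - u 14 * u 26) / u 23) + ((-1 : ℤ) : K) * ((u 1 * u 5 - u 2 * u 4 - u 9 * u 20 - u 11 * u 26) / u 23) * (u 12) + ((-1 : ℤ) : K) * ((u 21 * u 26 + u 3 * u 9 + u 4 * u 12 + u 5 * u 15) / u 23) * (u 2) + ((-1 : ℤ) : K) * ((u 22 * u 26 - u 0 * u 9 - u 1 * u 12 - u 2 * u 15) / u 23) * (u 5) + ((-1 : ℤ) : K) * (u 26) * ((-u 9 * u 14 + u 11 * u 12 - u 21 * u 2 - u 22 * u 5) / u 23) = 0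
        push_cast
        field_simp
        ring
      · show ∑ t : Fin 5, _ = _
        rw [Fin.sum_univ_five]
        show ((1 : ℤ) : K) * (u 22) * (u 26) + ((-1 : ℤ) : K) * (u 23) * ((u 22 * u 26 - u 0 * u 9 - u 1 * u 12 - u 2 * u 15) / u 23) + ((-1 : ℤ) : K) * (u 0) * (u 9) + ((-1 : ℤ) : K) * (u 1) * (u 12) + ((-1 : ℤ) : K) * (u 2) * (u 15) = 0
        push_cast
        field_simp
        ring
      · show ∑ t : Fin 5, _ = _
        rw [Fin.sum_univ_five]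
        show ((-1 : ℤ) : K) * ((u 20 * u 22 + u 0 * u 11 + u 1 * u 14 + u 2 * u 17) / u 23) * (u 26) + ((1 : ℤ) : K) * (u 20) * ((u 22 * u 26 - u 0 * u 9 - u 1 * u 12 - u 2 * u 15) / u 23) + ((-1 : ℤ) : K) * (u 0) * ((u 1 * u 5 - u 2 * u 4 - u 9 * u 20 - u 11 * u 26) / u 23) + ((-1 : ℤ) : K) * (u 1) * ((-u 0 * u 5 + u 2 * u 3 - u 12 * u 20 - u 14 * u 26) / u 23) + ((-1 : ℤ) : K) * (u 2) * ((u 0 * u 4 - u 1 * u 3 - u 15 * u 20 - u 17 * u 26) / u 23) = 0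
        push_cast
        field_simp
        ring
      · show ∑ t : Fin 5, _ = _
        rw [Fin.sum_univ_five]
        show ((1 : ℤ) : K) * ((u 20 * u 22 + u 0 * u 11 + u 1 * u 14 + u 2 * u 17) / u 23) * (u 23) + ((-1 : ℤ) : K) * (u 20) * (u 22) + ((-1 : ℤ) : K) * (u 0) * (u 11) + ((-1 : ℤ) : K) * (u 1) * (u 14) + ((-1 : ℤ) : K) * (u 2) * (u 17) = 0
        push_cast
        field_simp
        ring
      · show ∑ t : Fin 5, _ = _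
        rw [Fin.sum_univ_five]
        show ((-1 : ℤ) : K) * (u 21) * (u 26) + ((1 : ℤ) : K) * (u 23) * ((u 21 * u 26 + u 3 * u 9 + u 4 * u 12 + u 5 * u 15) / u 23) + ((-1 : ℤ) : K) * (u 3) * (u 9) + ((-1 : ℤ) : K) * (u 4) * (u 12) + ((-1 : ℤ) : K) * (u 5) * (u 15) = 0
        push_cast
        field_simp
        ring
      · show ∑ t : Fin 5, _ = _
        rw [Fin.sum_univ_five]
        show ((1 : ℤ) : K) * ((u 20 * u 21 - u 3 * u 11 - u 4 * u 14 - u 5 * u 17) / u 23) * (u 26) + ((-1 : ℤ) : K) * (u 20) * ((u 21 * u 26 + u 3 * u 9 + u 4 * u 12 + u 5 * u 15) / u 23) + ((-1 : ℤ) : K) * (u 3) * ((u 1 * u 5 - u 2 * u 4 - u 9 * u 20 - u 11 * u 26) / u 23) + ((-1 : ℤ) : K) * (u 4) * ((-u 0 * u 5 + u 2 * u 3 - u 12 * u 20 - u 14 * u 26) / u 23) + ((-1 : ℤ) : K) * (u 5) * ((u 0 * u 4 - u 1 * u 3 - u 15 * u 20 - u 17 * u 26) / u 23) = 0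
        push_cast
        field_simp
        ring
      · show ∑ t : Fin 5, _ = _
        rw [Fin.sum_univ_five]
        show ((-1 : ℤ) : K) * ((u 20 * u 21 - u 3 * u 11 - u 4 * u 14 - u 5 * u 17) / u 23) * (u 23) + ((1 : ℤ) : K) * (u 20) * (u 21) + ((-1 : ℤ) : K) * (u 3) * (u 11) + ((-1 : ℤ) : K) * (u 4) * (u 14) + ((-1 : ℤ) : K) * (u 5) * (u 17) = 0
        push_cast
        field_simp
        ring
      · show ∑ t : Fin 5, _ = _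
        rw [Fin.sum_univ_five]
        show ((1 : ℤ) : K) * (u 21) * ((u 22 * u 26 - u 0 * u 9 - u 1 * u 12 - u 2 * u 15) / u 23) + ((-1 : ℤ) : K) * (u 22) * ((u 21 * u 26 + u 3 * u 9 + u 4 * u 12 + u 5 * u 15) / u 23) + ((-1 : ℤ) : K) * ((-u 12 * u 17 + u 14 * u 15 - u 21 * u 0 - u 22 * u 3) / u 23) * (u 9) + ((-1 : ℤ) : K) * ((u 9 * u 17 - u 11 * u 15 - u 21 * u 1 - u 22 * u 4) / u 23) * (u 12) + ((-1 : ℤ) : K) * ((-u 9 * u 14 + u 11 * u 12 - u 21 * u 2 - u 22 * u 5) / u 23) * (u 15) = 0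
        push_cast
        field_simp
        ring
      · show ∑ t : Fin 5, _ = _
        rw [Fin.sum_univ_five]
        show ((-1 : ℤ) : K) * ((u 20 * u 21 - u 3 * u 11 - u 4 * u 14 - u 5 * u 17) / u 23) * ((u 22 * u 26 - u 0 * u 9 - u 1 * u 12 - u 2 * u 15) / u 23) + ((1 : ℤ) : K) * ((u 20 * u 22 + u 0 * u 11 + u 1 * u 14 + u 2 * u 17) / u 23) * ((u 21 * u 26 + u 3 * u 9 + u 4 * u 12 + u 5 * u 15) / u 23) + ((-1 : ℤ) : K) * ((-u 12 * u 17 + u 14 * u 15 - u 21 * u 0 - u 22 * u 3) / u 23) * ((u 1 * u 5 - u 2 * u 4 - u 9 * u 20 - u 11 * u 26) / u 23) + ((-1 : ℤ) : K) * ((u 9 * u 17 - u 11 * u 15 - u 21 * u 1 - u 22 * u 4) / u 23) * ((-u 0 * u 5 + u 2 * u 3 - u 12 * u 20 - u 14 * u 26) / u 23) + ((-1 : ℤ) : K) * ((-u 9 * u 14 + u 11 * u 12 - u 21 * u 2 - u 22 * u 5) / u 23) * ((u 0 * u 4 - u 1 * u 3 - u 15 * u 20 - u 17 * u 26) / u 23) = 0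
        push_cast
        field_simp
        ring
      · show ∑ t : Fin 5, _ = _
        rw [Fin.sum_univ_five]
        show ((1 : ℤ) : K) * ((u 20 * u 21 - u 3 * u 11 - u 4 * u 14 - u 5 * u 17) / u 23) * (u 22) + ((-1 : ℤ) : K) * ((u 20 * u 22 + u 0 * u 11 + u 1 * u 14 + u 2 * u 17) / u 23) * (u 21) + ((-1 : ℤ) : K) * ((-u 12 * u 17 + u 14 * u 15 - u 21 * u 0 - u 22 * u 3) / u 23) * (u 11) + ((-1 : ℤ) : K) * ((u 9 * u 17 - u 11 * u 15 - u 21 * u 1 - u 22 * u 4) / u 23) * (u 14) + ((-1 : ℤ) : K) * ((-u 9 * u 14 + u 11 * u 12 - u 21 * u 2 - u 22 * u 5) / u 23) * (u 17) = 0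
        push_cast
        field_simp
        ring
    exact hl

theorem cayley_pt_24 {K : Type} [Field K] (u : Fin 27 → K) (h : u 24 ≠ 0) :
    ∃ y : Fin 27 → K, (∀ j : Fin 27, ¬ cayley.opp (24 : Fin 27) j → y j = u j) ∧
      ∀ l, cayley.val y l = 0 := by
  refine ⟨![(u 12 * u 16 - u 13 * u 15 - u 25 * u 3 - u 26 * u 6) / u 24, (-u 9 * u 16 + u 10 * u 15 - u 25 * u 4 - u 26 * u 7) / u 24, (u 9 * u 13 - u 10 * u 12 - u 25 * u 5 - u 26 * u 8) / u 24, u 3, u 4, u 5, u 6, u 7, u 8, u 9, u 10, (u 4 * u 8 - u 5 * u 7 - u 9 * u 18 - u 10 * u 21) / u 24, u 12, u 13, (-u 3 * u 8 + u 5 * u 6 - u 12 * u 18 - u 13 * u 21) / u 24, u 15, u 16, (u 3 * u 7 - u 4 * u 6 - u 15 * u 18 - u 16 * u 21) / u 24, u 18, (u 18 * u 25 + u 6 * u 10 + u 7 * u 13 + u 8 * u 16) / u 24, (u 18 * u 26 - u 3 * u 10 - u 4 * u 13 - u 5 * u 16) / u 24, u 21, (u 21 * u 25 - u 6 * u 9 - u 7 * u 12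 - u 8 * u 15) / u 24, (u 21 * u 26 + u 3 * u 9 + u 4 * u 12 + u 5 * u 15) / u 24, u 24, u 25, u 26], ?_, ?_⟩
  · have key : ∀ j : Fin 27, cayley.opp (24 : Fin 27) j ∨ (![(u 12 * u 16 - u 13 * u 15 - u 25 * u 3 - u 26 * u 6) / u 24, (-u 9 * u 16 + u 10 * u 15 - u 25 * u 4 - u 26 * u 7) / u 24, (u 9 * u 13 - u 10 * u 12 - u 25 * u 5 - u 26 * u 8) / u 24, u 3, u 4, u 5, u 6, u 7, u 8, u 9, u 10, (u 4 * u 8 - u 5 * u 7 - u 9 * u 18 - u 10 * u 21) / u 24, u 12, u 13, (-u 3 * u 8 + u 5 * u 6 - u 12 * u 18 - u 13 * u 21) / u 24, u 15, u 16, (u 3 * u 7 - u 4 * u 6 - u 15 * u 18 - u 16 * u 21) / u 24, u 18, (u 18 * u 25 + u 6 * u 10 + u 7 * u 13 + u 8 * u 16) / u 24, (u 18 * u 26 - u 3 * u 10 - u 4 * u 13 - u 5 * u 16) / u 24, u 21, (u 21 * u 25 - u 6 * u 9 - u 7 * u 12 - u 8 * u 15) / u 24, (u 21 * u 26 + u 3 * u 9 + u 4 * u 12 + u 5 * u 15) / u 24, u 24, u 25, u 26]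 : Fin 27 → K) j = u j := by
      intro j
      fin_cases j
      · exact Or.inl ⟨(15 : Fin 27), (2 : Fin 5), Or.inl ⟨rfl, rfl⟩⟩
      · exact Or.inl ⟨(16 : Fin 27), (2 : Fin 5), Or.inl ⟨rfl, rfl⟩⟩
      · exact Or.inl ⟨(17 : Fin 27), (2 : Fin 5), Or.inl ⟨rfl, rfl⟩⟩
      · exact Or.inr rfl
      · exact Or.inr rfl
      · exact Or.inr rfl
      · exact Or.inr rfl
      · exact Or.inr rfl
      · exact Or.inr rfl
      · exact Or.inr rfl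
      · exact Or.inr rfl
      · exact Or.inl ⟨(0 : Fin 27), (4 : Fin 5), Or.inr ⟨rfl, rfl⟩⟩
      · exact Or.inr rfl
      · exact Or.inr rfl
      · exact Or.inl ⟨(3 : Fin 27), (4 : Fin 5), Or.inr ⟨rfl, rfl⟩⟩
      · exact Or.inr rfl
      · exact Or.inr rfl
      · exact Or.inl ⟨(6 : Fin 27), (4 : Fin 5), Or.inr ⟨rfl, rfl⟩⟩
      · exact Or.inr rfl
      · exact Or.inl ⟨(25 : Fin 27), (1 : Fin 5), Or.inr ⟨rfl, rfl⟩⟩
      · exact Or.inl ⟨(22 : Fin 27), (1 : Fin 5), Or.inr ⟨rfl, rfl⟩⟩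
      · exact Or.inr rfl
      · exact Or.inl ⟨(24 : Fin 27), (1 : Fin 5), Or.inr ⟨rfl, rfl⟩⟩
      · exact Or.inl ⟨(21 : Fin 27), (1 : Fin 5), Or.inr ⟨rfl, rfl⟩⟩
      · exact Or.inr rfl
      · exact Or.inr rfl
      · exact Or.inr rfl
    intro j hj
    exact (key j).resolve_left hj
  · have hl : ∀ l : Fin 27, cayley.val (![(u 12 * u 16 - u 13 * u 15 - u 25 * u 3 - u 26 * u 6) / u 24, (-u 9 * u 16 + u 10 * u 15 - u 25 * u 4 - u 26 * u 7) / u 24, (u 9 * u 13 - u 10 * u 12 - u 25 * u 5 - u 26 * u 8) / u 24, u 3, u 4, u 5, u 6, u 7, u 8, u 9, u 10, (u 4 * u 8 - u 5 * u 7 - u 9 * u 18 - u 10 * u 21) / u 24, u 12, u 13, (-u 3 * u 8 + u 5 * u 6 - u 12 * u 18 - u 13 * u 21) / u 24, u 15, u 16, (u 3 * u 7 - u 4 * u 6 - u 15 * u 18 - u 16 * u 21) / u 24, u 18, (u 18 * u 25 + u 6 * u 10 + u 7 * u 13 + u 8 * u 16) / u 24, (u 18 * u 26 - u 3 * u 10 - u 4 * u 13 - u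 5 * u 16) / u 24, u 21, (u 21 * u 25 - u 6 * u 9 - u 7 * u 12 - u 8 * u 15) / u 24, (u 21 * u 26 + u 3 * u 9 + u 4 * u 12 + u 5 * u 15) / u 24, u 24, u 25, u 26] : Fin 27 → K) l = 0 := by
      intro l
      unfold QF.val
      fin_cases l
      · show ∑ t : Fin 5, _ = _
        rw [Fin.sum_univ_five]
        show ((1 : ℤ) : K) * (u 4) * (u 8) + ((-1 : ℤ) : K) * (u 5) * (u 7) + ((-1 : ℤ) : K) * (u 9) * (u 18) + ((-1 : ℤ) : K) * (u 10) * (u 21) + ((-1 : ℤ) : K) * ((u 4 * u 8 - u 5 * u 7 - u 9 * u 18 - u 10 * u 21) / u 24) * (u 24) = 0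
        push_cast
        field_simp
        ring
      · show ∑ t : Fin 5, _ = _
        rw [Fin.sum_univ_five]
        show ((-1 : ℤ) : K) * ((-u 9 * u 16 + u 10 * u 15 - u 25 * u 4 - u 26 * u 7) / u 24) * (u 8) + ((1 : ℤ) : K) * ((u 9 * u 13 - u 10 * u 12 - u 25 * u 5 - u 26 * u 8) / u 24) * (u 7) + ((-1 : ℤ) : K) * (u 9) * ((u 18 * u 25 + u 6 * u 10 + u 7 * u 13 + u 8 * u 16) / u 24) + ((-1 : ℤ) : K) * (u 10) * ((u 21 * u 25 - u 6 * u 9 - u 7 * u 12 - u 8 * u 15) / u 24) + ((-1 : ℤ) : K) * ((u 4 * u 8 - u 5 * u 7 - u 9 * u 18 - u 10 * u 21) / u 24) * (u 25) = 0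
        push_cast
        field_simp
        ring
      · show ∑ t : Fin 5, _ = _
        rw [Fin.sum_univ_five]
        show ((1 : ℤ) : K) * ((-u 9 * u 16 + u 10 * u 15 - u 25 * u 4 - u 26 * u 7) / u 24) * (u 5) + ((-1 : ℤ) : K) * ((u 9 * u 13 - u 10 * u 12 - u 25 * u 5 - u 26 * u 8) / u 24) * (u 4) + ((-1 : ℤ) : K) * (u 9) * ((u 18 * u 26 - u 3 * u 10 - u 4 * u 13 - u 5 * u 16) / u 24) + ((-1 : ℤ) : K) * (u 10) * ((u 21 * u 26 + u 3 * u 9 + u 4 * u 12 + u 5 * u 15) / u 24) + ((-1 : ℤ) : K) * ((u 4 * u 8 - u 5 * u 7 - u 9 * u 18 - u 10 * u 21) / u 24) * (u 26) = 0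
        push_cast
        field_simp
        ring
      · show ∑ t : Fin 5, _ = _
        rw [Fin.sum_univ_five]
        show ((-1 : ℤ) : K) * (u 3) * (u 8) + ((1 : ℤ) : K) * (u 5) * (u 6) + ((-1 : ℤ) : K) * (u 12) * (u 18) + ((-1 : ℤ) : K) * (u 13) * (u 21) + ((-1 : ℤ) : K) * ((-u 3 * u 8 + u 5 * u 6 - u 12 * u 18 - u 13 * u 21) / u 24) * (u 24) = 0
        push_cast
        field_simp
        ring
      · show ∑ t : Fin 5, _ = _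
        rw [Fin.sum_univ_five]
        show ((1 : ℤ) : K) * ((u 12 * u 16 - u 13 * u 15 - u 25 * u 3 - u 26 * u 6) / u 24) * (u 8) + ((-1 : ℤ) : K) * ((u 9 * u 13 - u 10 * u 12 - u 25 * u 5 - u 26 * u 8) / u 24) * (u 6) + ((-1 : ℤ) : K) * (u 12) * ((u 18 * u 25 + u 6 * u 10 + u 7 * u 13 + u 8 * u 16) / u 24) + ((-1 : ℤ) : K) * (u 13) * ((u 21 * u 25 - u 6 * u 9 - u 7 * u 12 - u 8 * u 15) / u 24) + ((-1 : ℤ) : K) * ((-u 3 * u 8 + u 5 * u 6 - u 12 * u 18 - u 13 * u 21) / u 24) * (u 25) = 0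
        push_cast
        field_simp
        ring
      · show ∑ t : Fin 5, _ = _
        rw [Fin.sum_univ_five]
        show ((-1 : ℤ) : K) * ((u 12 * u 16 - u 13 * u 15 - u 25 * u 3 - u 26 * u 6) / u 24) * (u 5) + ((1 : ℤ) : K) * ((u 9 * u 13 - u 10 * u 12 - u 25 * u 5 - u 26 * u 8) / u 24) * (u 3) + ((-1 : ℤ) : K) * (u 12) * ((u 18 * u 26 - u 3 * u 10 - u 4 * u 13 - u 5 * u 16) / u 24) + ((-1 : ℤ) : K) * (u 13) * ((u 21 * u 26 + u 3 * u 9 + u 4 * u 12 + u 5 * u 15) / u 24) + ((-1 : ℤ) : K) * ((-u 3 * u 8 + u 5 * u 6 - u 12 * u 18 - u 13 * u 21) / u 24) * (u 26) = 0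
        push_cast
        field_simp
        ring
      · show ∑ t : Fin 5, _ = _
        rw [Fin.sum_univ_five]
        show ((1 : ℤ) : K) * (u 3) * (u 7) + ((-1 : ℤ) : K) * (u 4) * (u 6) + ((-1 : ℤ) : K) * (u 15) * (u 18) + ((-1 : ℤ) : K) * (u 16) * (u 21) + ((-1 : ℤ) : K) * ((u 3 * u 7 - u 4 * u 6 - u 15 * u 18 - u 16 * u 21) / u 24) * (u 24) = 0
        push_cast
        field_simp
        ring
      · show ∑ t : Fin 5, _ = _
        rw [Fin.sum_univ_five]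
        show ((-1 : ℤ) : K) * ((u 12 * u 16 - u 13 * u 15 - u 25 * u 3 - u 26 * u 6) / u 24) * (u 7) + ((1 : ℤ) : K) * ((-u 9 * u 16 + u 10 * u 15 - u 25 * u 4 - u 26 * u 7) / u 24) * (u 6) + ((-1 : ℤ) : K) * (u 15) * ((u 18 * u 25 + u 6 * u 10 + u 7 * u 13 + u 8 * u 16) / u 24) + ((-1 : ℤ) : K) * (u 16) * ((u 21 * u 25 - u 6 * u 9 - u 7 * u 12 - u 8 * u 15) / u 24) + ((-1 : ℤ) : K) * ((u 3 * u 7 - u 4 * u 6 - u 15 * u 18 - u 16 * u 21) / u 24) * (u 25) = 0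
        push_cast
        field_simp
        ring
      · show ∑ t : Fin 5, _ = _
        rw [Fin.sum_univ_five]
        show ((1 : ℤ) : K) * ((u 12 * u 16 - u 13 * u 15 - u 25 * u 3 - u 26 * u 6) / u 24) * (u 4) + ((-1 : ℤ) : K) * ((-u 9 * u 16 + u 10 * u 15 - u 25 * u 4 - u 26 * u 7) / u 24) * (u 3) + ((-1 : ℤ) : K) * (u 15) * ((u 18 * u 26 - u 3 * u 10 - u 4 * u 13 - u 5 * u 16) / u 24) + ((-1 : ℤ) : K) * (u 16) * ((u 21 * u 26 + u 3 * u 9 + u 4 * u 12 + u 5 * u 15) / u 24) + ((-1 : ℤ) : K) * ((u 3 * u 7 - u 4 * u 6 - u 15 * u 18 - u 16 * u 21) / u 24) * (u 26) = 0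
        push_cast
        field_simp
        ring
      · show ∑ t : Fin 5, _ = _
        rw [Fin.sum_univ_five]
        show ((1 : ℤ) : K) * (u 13) * ((u 3 * u 7 - u 4 * u 6 - u 15 * u 18 - u 16 * u 21) / u 24) + ((-1 : ℤ) : K) * ((-u 3 * u 8 + u 5 * u 6 - u 12 * u 18 - u 13 * u 21) / u 24) * (u 16) + ((-1 : ℤ) : K) * (u 18) * ((u 12 * u 16 - u 13 * u 15 - u 25 * u 3 - u 26 * u 6) / u 24) + ((-1 : ℤ) : K) * ((u 18 * u 25 + u 6 * u 10 + u 7 * u 13 + u 8 * u 16) / u 24) * (u 3) + ((-1 : ℤ) : K) * ((u 18 * u 26 - u 3 * u 10 - u 4 * u 13 - u 5 * u 16) / u 24) * (u 6) = 0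
        push_cast
        field_simp
        ring
      · show ∑ t : Fin 5, _ = _
        rw [Fin.sum_univ_five]
        show ((-1 : ℤ) : K) * (u 10) * ((u 3 * u 7 - u 4 * u 6 - u 15 * u 18 - u 16 * u 21) / u 24) + ((1 : ℤ) : K) * ((u 4 * u 8 - u 5 * u 7 - u 9 * u 18 - u 10 * u 21) / u 24) * (u 16) + ((-1 : ℤ) : K) * (u 18) * ((-u 9 * u 16 + u 10 * u 15 - u 25 * u 4 - u 26 * u 7) / u 24) + ((-1 : ℤ) : K) * ((u 18 * u 25 + u 6 * u 10 + u 7 * u 13 + u 8 * u 16) / u 24) * (u 4) + ((-1 : ℤ) : K) * ((u 18 * u 26 - u 3 * u 10 - u 4 * u 13 - u 5 * u 16) / u 24) * (u 7) = 0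
        push_cast
        field_simp
        ring
      · show ∑ t : Fin 5, _ = _
        rw [Fin.sum_univ_five]
        show ((1 : ℤ) : K) * (u 10) * ((-u 3 * u 8 + u 5 * u 6 - u 12 * u 18 - u 13 * u 21) / u 24) + ((-1 : ℤ) : K) * ((u 4 * u 8 - u 5 * u 7 - u 9 * u 18 - u 10 * u 21) / u 24) * (u 13) + ((-1 : ℤ) : K) * (u 18) * ((u 9 * u 13 - u 10 * u 12 - u 25 * u 5 - u 26 * u 8) / u 24) + ((-1 : ℤ) : K) * ((u 18 * u 25 + u 6 * u 10 + u 7 * u 13 + u 8 * u 16) / u 24) * (u 5) + ((-1 : ℤ) : K) * ((u 18 * u 26 - u 3 * u 10 - u 4 * u 13 - u 5 * u 16) / u 24) * (u 8) = 0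
        push_cast
        field_simp
        ring
      · show ∑ t : Fin 5, _ = _
        rw [Fin.sum_univ_five]
        show ((-1 : ℤ) : K) * (u 12) * ((u 3 * u 7 - u 4 * u 6 - u 15 * u 18 - u 16 * u 21) / u 24) + ((1 : ℤ) : K) * ((-u 3 * u 8 + u 5 * u 6 - u 12 * u 18 - u 13 * u 21) / u 24) * (u 15) + ((-1 : ℤ) : K) * (u 21) * ((u 12 * u 16 - u 13 * u 15 - u 25 * u 3 - u 26 * u 6) / u 24) + ((-1 : ℤ) : K) * ((u 21 * u 25 - u 6 * u 9 - u 7 * u 12 - u 8 * u 15) / u 24) * (u 3) + ((-1 : ℤ) : K) * ((u 21 * u 26 + u 3 * u 9 + u 4 * u 12 + u 5 * u 15) / u 24) * (u 6) = 0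
        push_cast
        field_simp
        ring
      · show ∑ t : Fin 5, _ = _
        rw [Fin.sum_univ_five]
        show ((1 : ℤ) : K) * (u 9) * ((u 3 * u 7 - u 4 * u 6 - u 15 * u 18 - u 16 * u 21) / u 24) + ((-1 : ℤ) : K) * ((u 4 * u 8 - u 5 * u 7 - u 9 * u 18 - u 10 * u 21) / u 24) * (u 15) + ((-1 : ℤ) : K) * (u 21) * ((-u 9 * u 16 + u 10 * u 15 - u 25 * u 4 - u 26 * u 7) / u 24) + ((-1 : ℤ) : K) * ((u 21 * u 25 - u 6 * u 9 - u 7 * u 12 - u 8 * u 15) / u 24) * (u 4) + ((-1 : ℤ) : K) * ((u 21 * u 26 + u 3 * u 9 + u 4 * u 12 + u 5 * u 15) / u 24) * (u 7) = 0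
        push_cast
        field_simp
        ring
      · show ∑ t : Fin 5, _ = _
        rw [Fin.sum_univ_five]
        show ((-1 : ℤ) : K) * (u 9) * ((-u 3 * u 8 + u 5 * u 6 - u 12 * u 18 - u 13 * u 21) / u 24) + ((1 : ℤ) : K) * ((u 4 * u 8 - u 5 * u 7 - u 9 * u 18 - u 10 * u 21) / u 24) * (u 12) + ((-1 : ℤ) : K) * (u 21) * ((u 9 * u 13 - u 10 * u 12 - u 25 * u 5 - u 26 * u 8) / u 24) + ((-1 : ℤ) : K) * ((u 21 * u 25 - u 6 * u 9 - u 7 * u 12 - u 8 * u 15) / u 24) * (u 5) + ((-1 : ℤ) : K) * ((u 21 * u 26 + u 3 * u 9 + u 4 * u 12 + u 5 * u 15) / u 24) * (u 8) = 0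
        push_cast
        field_simp
        ring
      · show ∑ t : Fin 5, _ = _
        rw [Fin.sum_univ_five]
        show ((1 : ℤ) : K) * (u 12) * (u 16) + ((-1 : ℤ) : K) * (u 13) * (u 15) + ((-1 : ℤ) : K) * (u 24) * ((u 12 * u 16 - u 13 * u 15 - u 25 * u 3 - u 26 * u 6) / u 24) + ((-1 : ℤ) : K) * (u 25) * (u 3) + ((-1 : ℤ) : K) * (u 26) * (u 6) = 0
        push_cast
        field_simp
        ring
      · show ∑ t : Fin 5, _ = _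
        rw [Fin.sum_univ_five]
        show ((-1 : ℤ) : K) * (u 9) * (u 16) + ((1 : ℤ) : K) * (u 10) * (u 15) + ((-1 : ℤ) : K) * (u 24) * ((-u 9 * u 16 + u 10 * u 15 - u 25 * u 4 - u 26 * u 7) / u 24) + ((-1 : ℤ) : K) * (u 25) * (u 4) + ((-1 : ℤ) : K) * (u 26) * (u 7) = 0
        push_cast
        field_simp
        ring
      · show ∑ t : Fin 5, _ = _
        rw [Fin.sum_univ_five]
        show ((1 : ℤ) : K) * (u 9) * (u 13) + ((-1 : ℤ) : K) * (u 10) * (u 12) + ((-1 : ℤ) : K) * (u 24) * ((u 9 * u 13 - u 10 * u 12 - u 25 * u 5 - u 26 * u 8) / u 24) + ((-1 : ℤ) : K) * (u 25) * (u 5) + ((-1 : ℤ) : K) * (u 26) * (u 8) = 0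
        push_cast
        field_simp
        ring
      · show ∑ t : Fin 5, _ = _
        rw [Fin.sum_univ_five]
        show ((1 : ℤ) : K) * ((u 21 * u 25 - u 6 * u 9 - u 7 * u 12 - u 8 * u 15) / u 24) * (u 26) + ((-1 : ℤ) : K) * ((u 21 * u 26 + u 3 * u 9 + u 4 * u 12 + u 5 * u 15) / u 24) * (u 25) + ((-1 : ℤ) : K) * ((u 12 * u 16 - u 13 * u 15 - u 25 * u 3 - u 26 * u 6) / u 24) * (u 9) + ((-1 : ℤ) : K) * ((-u 9 * u 16 + u 10 * u 15 - u 25 * u 4 - u 26 * u 7) / u 24) * (u 12) + ((-1 : ℤ) : K) * ((u 9 * u 13 - u 10 * u 12 - u 25 * u 5 - u 26 * u 8) / u 24) * (u 15) = 0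
        push_cast
        field_simp
        ring
      · show ∑ t : Fin 5, _ = _
        rw [Fin.sum_univ_five]
        show ((-1 : ℤ) : K) * ((u 18 * u 25 + u 6 * u 10 + u 7 * u 13 + u 8 * u 16) / u 24) * (u 26) + ((1 : ℤ) : K) * ((u 18 * u 26 - u 3 * u 10 - u 4 * u 13 - u 5 * u 16) / u 24) * (u 25) + ((-1 : ℤ) : K) * ((u 12 * u 16 - u 13 * u 15 - u 25 * u 3 - u 26 * u 6) / u 24) * (u 10) + ((-1 : ℤ) : K) * ((-u 9 * u 16 + u 10 * u 15 - u 25 * u 4 - u 26 * u 7) / u 24) * (u 13) + ((-1 : ℤ) : K) * ((u 9 * u 13 - u 10 * u 12 - u 25 * u 5 - u 26 * u 8) / u 24) * (u 16) = 0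
        push_cast
        field_simp
        ring
      · show ∑ t : Fin 5, _ = _
        rw [Fin.sum_univ_five]
        show ((1 : ℤ) : K) * ((u 18 * u 25 + u 6 * u 10 + u 7 * u 13 + u 8 * u 16) / u 24) * ((u 21 * u 26 + u 3 * u 9 + u 4 * u 12 + u 5 * u 15) / u 24) + ((-1 : ℤ) : K) * ((u 18 * u 26 - u 3 * u 10 - u 4 * u 13 - u 5 * u 16) / u 24) * ((u 21 * u 25 - u 6 * u 9 - u 7 * u 12 - u 8 * u 15) / u 24) + ((-1 : ℤ) : K) * ((u 12 * u 16 - u 13 * u 15 - u 25 * u 3 - u 26 * u 6) / u 24) * ((u 4 * u 8 - u 5 * u 7 - u 9 * u 18 - u 10 * u 21) / u 24) + ((-1 : ℤ) : K) * ((-u 9 * u 16 + u 10 * u 15 - u 25 * u 4 - u 26 * u 7) / u 24) * ((-u 3 * u 8 + u 5 * u 6 - u 12 * u 18 - u 13 * u 21) / u 24) + ((-1 : ℤ) : K) * ((u 9 * u 13 - u 10 * u 12 - u 25 * u 5 - u 26 * u 8) / u 24) * ((u 3 * u 7 - u 4 * u 6 - u 15 * u 18 - u 16 * u 21) / u 24) = 0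
        push_cast
        field_simp
        ring
      · show ∑ t : Fin 5, _ = _
        rw [Fin.sum_univ_five]
        show ((-1 : ℤ) : K) * (u 21) * (u 26) + ((1 : ℤ) : K) * ((u 21 * u 26 + u 3 * u 9 + u 4 * u 12 + u 5 * u 15) / u 24) * (u 24) + ((-1 : ℤ) : K) * (u 3) * (u 9) + ((-1 : ℤ) : K) * (u 4) * (u 12) + ((-1 : ℤ) : K) * (u 5) * (u 15) = 0
        push_cast
        field_simp
        ring
      · show ∑ t : Fin 5, _ = _
        rw [Fin.sum_univ_five]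
        show ((1 : ℤ) : K) * (u 18) * (u 26) + ((-1 : ℤ) : K) * ((u 18 * u 26 - u 3 * u 10 - u 4 * u 13 - u 5 * u 16) / u 24) * (u 24) + ((-1 : ℤ) : K) * (u 3) * (u 10) + ((-1 : ℤ) : K) * (u 4) * (u 13) + ((-1 : ℤ) : K) * (u 5) * (u 16) = 0
        push_cast
        field_simp
        ring
      · show ∑ t : Fin 5, _ = _
        rw [Fin.sum_univ_five]
        show ((-1 : ℤ) : K) * (u 18) * ((u 21 * u 26 + u 3 * u 9 + u 4 * u 12 + u 5 * u 15) / u 24) + ((1 : ℤ) : K) * ((u 18 * u 26 - u 3 * u 10 - u 4 * u 13 - u 5 * u 16) / u 24) * (u 21) + ((-1 : ℤ) : K) * (u 3) * ((u 4 * u 8 - u 5 * u 7 - u 9 * u 18 - u 10 * u 21) / u 24) + ((-1 : ℤ) : K) * (u 4) * ((-u 3 * u 8 + u 5 * u 6 - u 12 * u 18 - u 13 * u 21) / u 24) + ((-1 : ℤ) : K) * (u 5) * ((u 3 * u 7 - u 4 * u 6 - u 15 * u 18 - u 16 * u 21) / u 24) = 0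
        push_cast
        field_simp
        ring
      · show ∑ t : Fin 5, _ = _
        rw [Fin.sum_univ_five]
        show ((1 : ℤ) : K) * (u 21) * (u 25) + ((-1 : ℤ) : K) * ((u 21 * u 25 - u 6 * u 9 - u 7 * u 12 - u 8 * u 15) / u 24) * (u 24) + ((-1 : ℤ) : K) * (u 6) * (u 9) + ((-1 : ℤ) : K) * (u 7) * (u 12) + ((-1 : ℤ) : K) * (u 8) * (u 15) = 0
        push_cast
        field_simp
        ring
      · show ∑ t : Fin 5, _ = _
        rw [Fin.sum_univ_five]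
        show ((-1 : ℤ) : K) * (u 18) * (u 25) + ((1 : ℤ) : K) * ((u 18 * u 25 + u 6 * u 10 + u 7 * u 13 + u 8 * u 16) / u 24) * (u 24) + ((-1 : ℤ) : K) * (u 6) * (u 10) + ((-1 : ℤ) : K) * (u 7) * (u 13) + ((-1 : ℤ) : K) * (u 8) * (u 16) = 0
        push_cast
        field_simp
        ring
      · show ∑ t : Fin 5, _ = _
        rw [Fin.sum_univ_five]
        show ((1 : ℤ) : K) * (u 18) * ((u 21 * u 25 - u 6 * u 9 - u 7 * u 12 - u 8 * u 15) / u 24) + ((-1 : ℤ) : K) * ((u 18 * u 25 + u 6 * u 10 + u 7 * u 13 + u 8 * u 16) / u 24) * (u 21) + ((-1 : ℤ) : K) * (u 6) * ((u 4 * u 8 - u 5 * u 7 - u 9 * u 18 - u 10 * u 21) / u 24) + ((-1 : ℤ) : K) * (u 7) * ((-u 3 * u 8 + u 5 * u 6 - u 12 * u 18 - u 13 * u 21) / u 24) + ((-1 : ℤ) : K) * (u 8) * ((u 3 * u 7 - u 4 * u 6 - u 15 * u 18 - u 16 * u 21) / u 24) = 0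
        push_cast
        field_simp
        ring
    exact hl

theorem cayley_pt_25 {K : Type} [Field K] (u : Fin 27 → K) (h : u 25 ≠ 0) :
    ∃ y : Fin 27 → K, (∀ j : Fin 27, ¬ cayley.opp (25 : Fin 27) j → y j = u j) ∧
      ∀ l, cayley.val y l = 0 := by
  refine ⟨![u 0, u 1, u 2, (u 12 * u 16 - u 13 * u 15 - u 24 * u 0 - u 26 * u 6) / u 25, (-u 9 * u 16 + u 10 * u 15 - u 24 * u 1 - u 26 * u 7) / u 25, (u 9 * u 13 - u 10 * u 12 - u 24 * u 2 - u 26 * u 8) / u 25, u 6, u 7, u 8, u 9, u 10, (-u 1 * u 8 + u 2 * u 7 - u 9 * u 19 - u 10 * u 22) / u 25, u 12, u 13, (u 0 * u 8 - u 2 * u 6 - u 12 * u 19 - u 13 * u 22) / u 25, u 15, u 16, (-u 0 * u 7 + u 1 * u 6 - u 15 * u 19 - u 16 * u 22) / u 25, (u 19 * u 24 - u 6 * u 10 - u 7 * u 13 - u 8 * u 16) / u 25, u 19, (u 19 * u 26 + u 0 * u 10 + u 1 * u 13 + u 2 * u 16) / u 25, (u 22 * u 24 + u 6 * u 9 + u 7 * u 12 + u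 8 * u 15) / u 25, u 22, (u 22 * u 26 - u 0 * u 9 - u 1 * u 12 - u 2 * u 15) / u 25, u 24, u 25, u 26], ?_, ?_⟩
  · have key : ∀ j : Fin 27, cayley.opp (25 : Fin 27) j ∨ (![u 0, u 1, u 2, (u 12 * u 16 - u 13 * u 15 - u 24 * u 0 - u 26 * u 6) / u 25, (-u 9 * u 16 + u 10 * u 15 - u 24 * u 1 - u 26 * u 7) / u 25, (u 9 * u 13 - u 10 * u 12 - u 24 * u 2 - u 26 * u 8) / u 25, u 6, u 7, u 8, u 9, u 10, (-u 1 * u 8 + u 2 * u 7 - u 9 * u 19 - u 10 * u 22) / u 25, u 12, u 13, (u 0 * u 8 - u 2 * u 6 - u 12 * u 19 - u 13 * u 22) / u 25, u 15, u 16, (-u 0 * u 7 + u 1 * u 6 - u 15 * u 19 - u 16 * u 22) / u 25, (u 19 * u 24 - u 6 * u 10 - u 7 * u 13 - u 8 * u 16) / u 25, u 19, (u 19 * u 26 + u 0 * u 10 + u 1 * u 13 + u 2 * u 16) / u 25, (u 22 * u 24 + u 6 * u 9 + u 7 * u 12 + u 8 * u 15) / u 25, u 22, (u 22 * u 26 - u 0 * u 9 - u 1 * u 12 - u 2 * u 15) / u 25, u 24, u 25,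 u 26] : Fin 27 → K) j = u j := by
      intro j
      fin_cases j
      · exact Or.inr rfl
      · exact Or.inr rfl
      · exact Or.inr rfl
      · exact Or.inl ⟨(15 : Fin 27), (3 : Fin 5), Or.inl ⟨rfl, rfl⟩⟩
      · exact Or.inl ⟨(16 : Fin 27), (3 : Fin 5), Or.inl ⟨rfl, rfl⟩⟩
      · exact Or.inl ⟨(17 : Fin 27), (3 : Fin 5), Or.inl ⟨rfl, rfl⟩⟩
      · exact Or.inr rfl
      · exact Or.inr rfl
      · exact Or.inr rfl
      · exact Or.inr rfl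
      · exact Or.inr rfl
      · exact Or.inl ⟨(1 : Fin 27), (4 : Fin 5), Or.inr ⟨rfl, rfl⟩⟩
      · exact Or.inr rfl
      · exact Or.inr rfl
      · exact Or.inl ⟨(4 : Fin 27), (4 : Fin 5), Or.inr ⟨rfl, rfl⟩⟩
      · exact Or.inr rfl
      · exact Or.inr rfl
      · exact Or.inl ⟨(7 : Fin 27), (4 : Fin 5), Or.inr ⟨rfl, rfl⟩⟩
      · exact Or.inl ⟨(25 : Fin 27), (0 : Fin 5), Or.inr ⟨rfl, rfl⟩⟩
      · exact Or.inr rfl
      · exact Or.inl ⟨(19 : Fin 27), (1 : Fin 5), Or.inr ⟨rfl, rfl⟩⟩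
      · exact Or.inl ⟨(24 : Fin 27), (0 : Fin 5), Or.inr ⟨rfl, rfl⟩⟩
      · exact Or.inr rfl
      · exact Or.inl ⟨(18 : Fin 27), (1 : Fin 5), Or.inr ⟨rfl, rfl⟩⟩
      · exact Or.inr rfl
      · exact Or.inr rfl
      · exact Or.inr rfl
    intro j hj
    exact (key j).resolve_left hj
  · have hl : ∀ l : Fin 27, cayley.val (![u 0, u 1, u 2, (u 12 * u 16 - u 13 * u 15 - u 24 * u 0 - u 26 * u 6) / u 25, (-u 9 * u 16 + u 10 * u 15 - u 24 * u 1 - u 26 * u 7) / u 25, (u 9 * u 13 - u 10 * u 12 - u 24 * u 2 - u 26 * u 8) / u 25, u 6, u 7, u 8, u 9, u 10, (-u 1 * u 8 + u 2 * u 7 - u 9 * u 19 - u 10 * u 22) / u 25, u 12, u 13, (u 0 * u 8 - u 2 * u 6 - u 12 * u 19 - u 13 * u 22) / u 25, u 15, u 16, (-u 0 * u 7 + u 1 * u 6 - u 15 * u 19 - u 16 * u 22) / u 25, (u 19 * u 24 - u 6 * u 10 - u 7 * u 13 - u 8 * u 16) / u 25, u 19, (u 19 * u 26 + u 0 * u 10 + u 1 * u 13 + u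 2 * u 16) / u 25, (u 22 * u 24 + u 6 * u 9 + u 7 * u 12 + u 8 * u 15) / u 25, u 22, (u 22 * u 26 - u 0 * u 9 - u 1 * u 12 - u 2 * u 15) / u 25, u 24, u 25, u 26] : Fin 27 → K) l = 0 := by
      intro l
      unfold QF.val
      fin_cases l
      · show ∑ t : Fin 5, _ = _
        rw [Fin.sum_univ_five]
        show ((1 : ℤ) : K) * ((-u 9 * u 16 + u 10 * u 15 - u 24 * u 1 - u 26 * u 7) / u 25) * (u 8) + ((-1 : ℤ) : K) * ((u 9 * u 13 - u 10 * u 12 - u 24 * u 2 - u 26 * u 8) / u 25) * (u 7) + ((-1 : ℤ) : K) * (u 9) * ((u 19 * u 24 - u 6 * u 10 - u 7 * u 13 - u 8 * u 16) / u 25) + ((-1 : ℤ) : K) * (u 10) * ((u 22 * u 24 + u 6 * u 9 + u 7 * u 12 + u 8 * u 15) / u 25) + ((-1 : ℤ) : K) * ((-u 1 * u 8 + u 2 * u 7 - u 9 * u 19 - u 10 * u 22) / u 25) * (u 24) = 0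
        push_cast
        field_simp
        ring
      · show ∑ t : Fin 5, _ = _
        rw [Fin.sum_univ_five]
        show ((-1 : ℤ) : K) * (u 1) * (u 8) + ((1 : ℤ) : K) * (u 2) * (u 7) + ((-1 : ℤ) : K) * (u 9) * (u 19) + ((-1 : ℤ) : K) * (u 10) * (u 22) + ((-1 : ℤ) : K) * ((-u 1 * u 8 + u 2 * u 7 - u 9 * u 19 - u 10 * u 22) / u 25) * (u 25) = 0
        push_cast
        field_simp
        ring
      · show ∑ t : Fin 5, _ = _
        rw [Fin.sum_univ_five]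
        show ((1 : ℤ) : K) * (u 1) * ((u 9 * u 13 - u 10 * u 12 - u 24 * u 2 - u 26 * u 8) / u 25) + ((-1 : ℤ) : K) * (u 2) * ((-u 9 * u 16 + u 10 * u 15 - u 24 * u 1 - u 26 * u 7) / u 25) + ((-1 : ℤ) : K) * (u 9) * ((u 19 * u 26 + u 0 * u 10 + u 1 * u 13 + u 2 * u 16) / u 25) + ((-1 : ℤ) : K) * (u 10) * ((u 22 * u 26 - u 0 * u 9 - u 1 * u 12 - u 2 * u 15) / u 25) + ((-1 : ℤ) : K) * ((-u 1 * u 8 + u 2 * u 7 - u 9 * u 19 - u 10 * u 22) / u 25) * (u 26) = 0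
        push_cast
        field_simp
        ring
      · show ∑ t : Fin 5, _ = _
        rw [Fin.sum_univ_five]
        show ((-1 : ℤ) : K) * ((u 12 * u 16 - u 13 * u 15 - u 24 * u 0 - u 26 * u 6) / u 25) * (u 8) + ((1 : ℤ) : K) * ((u 9 * u 13 - u 10 * u 12 - u 24 * u 2 - u 26 * u 8) / u 25) * (u 6) + ((-1 : ℤ) : K) * (u 12) * ((u 19 * u 24 - u 6 * u 10 - u 7 * u 13 - u 8 * u 16) / u 25) + ((-1 : ℤ) : K) * (u 13) * ((u 22 * u 24 + u 6 * u 9 + u 7 * u 12 + u 8 * u 15) / u 25) + ((-1 : ℤ) : K) * ((u 0 * u 8 - u 2 * u 6 - u 12 * u 19 - u 13 * u 22) / u 25) * (u 24) = 0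
        push_cast
        field_simp
        ring
      · show ∑ t : Fin 5, _ = _
        rw [Fin.sum_univ_five]
        show ((1 : ℤ) : K) * (u 0) * (u 8) + ((-1 : ℤ) : K) * (u 2) * (u 6) + ((-1 : ℤ) : K) * (u 12) * (u 19) + ((-1 : ℤ) : K) * (u 13) * (u 22) + ((-1 : ℤ) : K) * ((u 0 * u 8 - u 2 * u 6 - u 12 * u 19 - u 13 * u 22) / u 25) * (u 25) = 0
        push_cast
        field_simp
        ring
      · show ∑ t : Fin 5, _ = _
        rw [Fin.sum_univ_five]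
        show ((-1 : ℤ) : K) * (u 0) * ((u 9 * u 13 - u 10 * u 12 - u 24 * u 2 - u 26 * u 8) / u 25) + ((1 : ℤ) : K) * (u 2) * ((u 12 * u 16 - u 13 * u 15 - u 24 * u 0 - u 26 * u 6) / u 25) + ((-1 : ℤ) : K) * (u 12) * ((u 19 * u 26 + u 0 * u 10 + u 1 * u 13 + u 2 * u 16) / u 25) + ((-1 : ℤ) : K) * (u 13) * ((u 22 * u 26 - u 0 * u 9 - u 1 * u 12 - u 2 * u 15) / u 25) + ((-1 : ℤ) : K) * ((u 0 * u 8 - u 2 * u 6 - u 12 * u 19 - u 13 * u 22) / u 25) * (u 26) = 0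
        push_cast
        field_simp
        ring
      · show ∑ t : Fin 5, _ = _
        rw [Fin.sum_univ_five]
        show ((1 : ℤ) : K) * ((u 12 * u 16 - u 13 * u 15 - u 24 * u 0 - u 26 * u 6) / u 25) * (u 7) + ((-1 : ℤ) : K) * ((-u 9 * u 16 + u 10 * u 15 - u 24 * u 1 - u 26 * u 7) / u 25) * (u 6) + ((-1 : ℤ) : K) * (u 15) * ((u 19 * u 24 - u 6 * u 10 - u 7 * u 13 - u 8 * u 16) / u 25) + ((-1 : ℤ) : K) * (u 16) * ((u 22 * u 24 + u 6 * u 9 + u 7 * u 12 + u 8 * u 15) / u 25) + ((-1 : ℤ) : K) * ((-u 0 * u 7 + u 1 * u 6 - u 15 * u 19 - u 16 * u 22) / u 25) * (u 24) = 0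
        push_cast
        field_simp
        ring
      · show ∑ t : Fin 5, _ = _
        rw [Fin.sum_univ_five]
        show ((-1 : ℤ) : K) * (u 0) * (u 7) + ((1 : ℤ) : K) * (u 1) * (u 6) + ((-1 : ℤ) : K) * (u 15) * (u 19) + ((-1 : ℤ) : K) * (u 16) * (u 22) + ((-1 : ℤ) : K) * ((-u 0 * u 7 + u 1 * u 6 - u 15 * u 19 - u 16 * u 22) / u 25) * (u 25) = 0
        push_cast
        field_simp
        ring
      · show ∑ t : Fin 5, _ = _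
        rw [Fin.sum_univ_five]
        show ((1 : ℤ) : K) * (u 0) * ((-u 9 * u 16 + u 10 * u 15 - u 24 * u 1 - u 26 * u 7) / u 25) + ((-1 : ℤ) : K) * (u 1) * ((u 12 * u 16 - u 13 * u 15 - u 24 * u 0 - u 26 * u 6) / u 25) + ((-1 : ℤ) : K) * (u 15) * ((u 19 * u 26 + u 0 * u 10 + u 1 * u 13 + u 2 * u 16) / u 25) + ((-1 : ℤ) : K) * (u 16) * ((u 22 * u 26 - u 0 * u 9 - u 1 * u 12 - u 2 * u 15) / u 25) + ((-1 : ℤ) : K) * ((-u 0 * u 7 + u 1 * u 6 - u 15 * u 19 - u 16 * u 22) / u 25) * (u 26) = 0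
        push_cast
        field_simp
        ring
      · show ∑ t : Fin 5, _ = _
        rw [Fin.sum_univ_five]
        show ((1 : ℤ) : K) * (u 13) * ((-u 0 * u 7 + u 1 * u 6 - u 15 * u 19 - u 16 * u 22) / u 25) + ((-1 : ℤ) : K) * ((u 0 * u 8 - u 2 * u 6 - u 12 * u 19 - u 13 * u 22) / u 25) * (u 16) + ((-1 : ℤ) : K) * ((u 19 * u 24 - u 6 * u 10 - u 7 * u 13 - u 8 * u 16) / u 25) * (u 0) + ((-1 : ℤ) : K) * (u 19) * ((u 12 * u 16 - u 13 * u 15 - u 24 * u 0 - u 26 * u 6) / u 25) + ((-1 : ℤ) : K) * ((u 19 * u 26 + u 0 * u 10 + u 1 * u 13 + u 2 * u 16) / u 25) * (u 6) = 0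
        push_cast
        field_simp
        ring
      · show ∑ t : Fin 5, _ = _
        rw [Fin.sum_univ_five]
        show ((-1 : ℤ) : K) * (u 10) * ((-u 0 * u 7 + u 1 * u 6 - u 15 * u 19 - u 16 * u 22) / u 25) + ((1 : ℤ) : K) * ((-u 1 * u 8 + u 2 * u 7 - u 9 * u 19 - u 10 * u 22) / u 25) * (u 16) + ((-1 : ℤ) : K) * ((u 19 * u 24 - u 6 * u 10 - u 7 * u 13 - u 8 * u 16) / u 25) * (u 1) + ((-1 : ℤ) : K) * (u 19) * ((-u 9 * u 16 + u 10 * u 15 - u 24 * u 1 - u 26 * u 7) / u 25) + ((-1 : ℤ) : K) * ((u 19 * u 26 + u 0 * u 10 + u 1 * u 13 + u 2 * u 16) / u 25) * (u 7) = 0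
        push_cast
        field_simp
        ring
      · show ∑ t : Fin 5, _ = _
        rw [Fin.sum_univ_five]
        show ((1 : ℤ) : K) * (u 10) * ((u 0 * u 8 - u 2 * u 6 - u 12 * u 19 - u 13 * u 22) / u 25) + ((-1 : ℤ) : K) * ((-u 1 * u 8 + u 2 * u 7 - u 9 * u 19 - u 10 * u 22) / u 25) * (u 13) + ((-1 : ℤ) : K) * ((u 19 * u 24 - u 6 * u 10 - u 7 * u 13 - u 8 * u 16) / u 25) * (u 2) + ((-1 : ℤ) : K) * (u 19) * ((u 9 * u 13 - u 10 * u 12 - u 24 * u 2 - u 26 * u 8) / u 25) + ((-1 : ℤ) : K) * ((u 19 * u 26 + u 0 * u 10 + u 1 * u 13 + u 2 * u 16) / u 25) * (u 8) = 0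
        push_cast
        field_simp
        ring
      · show ∑ t : Fin 5, _ = _
        rw [Fin.sum_univ_five]
        show ((-1 : ℤ) : K) * (u 12) * ((-u 0 * u 7 + u 1 * u 6 - u 15 * u 19 - u 16 * u 22) / u 25) + ((1 : ℤ) : K) * ((u 0 * u 8 - u 2 * u 6 - u 12 * u 19 - u 13 * u 22) / u 25) * (u 15) + ((-1 : ℤ) : K) * ((u 22 * u 24 + u 6 * u 9 + u 7 * u 12 + u 8 * u 15) / u 25) * (u 0) + ((-1 : ℤ) : K) * (u 22) * ((u 12 * u 16 - u 13 * u 15 - u 24 * u 0 - u 26 * u 6) / u 25) + ((-1 : ℤ) : K) * ((u 22 * u 26 - u 0 * u 9 - u 1 * u 12 - u 2 * u 15) / u 25) * (u 6) = 0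
        push_cast
        field_simp
        ring
      · show ∑ t : Fin 5, _ = _
        rw [Fin.sum_univ_five]
        show ((1 : ℤ) : K) * (u 9) * ((-u 0 * u 7 + u 1 * u 6 - u 15 * u 19 - u 16 * u 22) / u 25) + ((-1 : ℤ) : K) * ((-u 1 * u 8 + u 2 * u 7 - u 9 * u 19 - u 10 * u 22) / u 25) * (u 15) + ((-1 : ℤ) : K) * ((u 22 * u 24 + u 6 * u 9 + u 7 * u 12 + u 8 * u 15) / u 25) * (u 1) + ((-1 : ℤ) : K) * (u 22) * ((-u 9 * u 16 + u 10 * u 15 - u 24 * u 1 - u 26 * u 7) / u 25) + ((-1 : ℤ) : K) * ((u 22 * u 26 - u 0 * u 9 - u 1 * u 12 - u 2 * u 15) / u 25) * (u 7) = 0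
        push_cast
        field_simp
        ring
      · show ∑ t : Fin 5, _ = _
        rw [Fin.sum_univ_five]
        show ((-1 : ℤ) : K) * (u 9) * ((u 0 * u 8 - u 2 * u 6 - u 12 * u 19 - u 13 * u 22) / u 25) + ((1 : ℤ) : K) * ((-u 1 * u 8 + u 2 * u 7 - u 9 * u 19 - u 10 * u 22) / u 25) * (u 12) + ((-1 : ℤ) : K) * ((u 22 * u 24 + u 6 * u 9 + u 7 * u 12 + u 8 * u 15) / u 25) * (u 2) + ((-1 : ℤ) : K) * (u 22) * ((u 9 * u 13 - u 10 * u 12 - u 24 * u 2 - u 26 * u 8) / u 25) + ((-1 : ℤ) : K) * ((u 22 * u 26 - u 0 * u 9 - u 1 * u 12 - u 2 * u 15) / u 25) * (u 8) = 0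
        push_cast
        field_simp
        ring
      · show ∑ t : Fin 5, _ = _
        rw [Fin.sum_univ_five]
        show ((1 : ℤ) : K) * (u 12) * (u 16) + ((-1 : ℤ) : K) * (u 13) * (u 15) + ((-1 : ℤ) : K) * (u 24) * (u 0) + ((-1 : ℤ) : K) * (u 25) * ((u 12 * u 16 - u 13 * u 15 - u 24 * u 0 - u 26 * u 6) / u 25) + ((-1 : ℤ) : K) * (u 26) * (u 6) = 0
        push_cast
        field_simp
        ring
      · show ∑ t : Fin 5, _ = _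
        rw [Fin.sum_univ_five]
        show ((-1 : ℤ) : K) * (u 9) * (u 16) + ((1 : ℤ) : K) * (u 10) * (u 15) + ((-1 : ℤ) : K) * (u 24) * (u 1) + ((-1 : ℤ) : K) * (u 25) * ((-u 9 * u 16 + u 10 * u 15 - u 24 * u 1 - u 26 * u 7) / u 25) + ((-1 : ℤ) : K) * (u 26) * (u 7) = 0
        push_cast
        field_simp
        ring
      · show ∑ t : Fin 5, _ = _
        rw [Fin.sum_univ_five]
        show ((1 : ℤ) : K) * (u 9) * (u 13) + ((-1 : ℤ) : K) * (u 10) * (u 12) + ((-1 : ℤ) : K) * (u 24) * (u 2) + ((-1 : ℤ) : K) * (u 25) * ((u 9 * u 13 - u 10 * u 12 - u 24 * u 2 - u 26 * u 8) / u 25) + ((-1 : ℤ) : K) * (u 26) * (u 8) = 0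
        push_cast
        field_simp
        ring
      · show ∑ t : Fin 5, _ = _
        rw [Fin.sum_univ_five]
        show ((1 : ℤ) : K) * (u 22) * (u 26) + ((-1 : ℤ) : K) * ((u 22 * u 26 - u 0 * u 9 - u 1 * u 12 - u 2 * u 15) / u 25) * (u 25) + ((-1 : ℤ) : K) * (u 0) * (u 9) + ((-1 : ℤ) : K) * (u 1) * (u 12) + ((-1 : ℤ) : K) * (u 2) * (u 15) = 0
        push_cast
        field_simp
        ring
      · show ∑ t : Fin 5, _ = _
        rw [Fin.sum_univ_five]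
        show ((-1 : ℤ) : K) * (u 19) * (u 26) + ((1 : ℤ) : K) * ((u 19 * u 26 + u 0 * u 10 + u 1 * u 13 + u 2 * u 16) / u 25) * (u 25) + ((-1 : ℤ) : K) * (u 0) * (u 10) + ((-1 : ℤ) : K) * (u 1) * (u 13) + ((-1 : ℤ) : K) * (u 2) * (u 16) = 0
        push_cast
        field_simp
        ring
      · show ∑ t : Fin 5, _ = _
        rw [Fin.sum_univ_five]
        show ((1 : ℤ) : K) * (u 19) * ((u 22 * u 26 - u 0 * u 9 - u 1 * u 12 - u 2 * u 15) / u 25) + ((-1 : ℤ) : K) * ((u 19 * u 26 + u 0 * u 10 + u 1 * u 13 + u 2 * u 16) / u 25) * (u 22) + ((-1 : ℤ) : K) * (u 0) * ((-u 1 * u 8 + u 2 * u 7 - u 9 * u 19 - u 10 * u 22) / u 25) + ((-1 : ℤ) : K) * (u 1) * ((u 0 * u 8 - u 2 * u 6 - u 12 * u 19 - u 13 * u 22) / u 25) + ((-1 : ℤ) : K) * (u 2) * ((-u 0 * u 7 + u 1 * u 6 - u 15 * u 19 - u 16 * u 22) / u 25) = 0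
        push_cast
        field_simp
        ring
      · show ∑ t : Fin 5, _ = _
        rw [Fin.sum_univ_five]
        show ((-1 : ℤ) : K) * ((u 22 * u 24 + u 6 * u 9 + u 7 * u 12 + u 8 * u 15) / u 25) * (u 26) + ((1 : ℤ) : K) * ((u 22 * u 26 - u 0 * u 9 - u 1 * u 12 - u 2 * u 15) / u 25) * (u 24) + ((-1 : ℤ) : K) * ((u 12 * u 16 - u 13 * u 15 - u 24 * u 0 - u 26 * u 6) / u 25) * (u 9) + ((-1 : ℤ) : K) * ((-u 9 * u 16 + u 10 * u 15 - u 24 * u 1 - u 26 * u 7) / u 25) * (u 12) + ((-1 : ℤ) : K) * ((u 9 * u 13 - u 10 * u 12 - u 24 * u 2 - u 26 * u 8) / u 25) * (u 15) = 0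
        push_cast
        field_simp
        ring
      · show ∑ t : Fin 5, _ = _
        rw [Fin.sum_univ_five]
        show ((1 : ℤ) : K) * ((u 19 * u 24 - u 6 * u 10 - u 7 * u 13 - u 8 * u 16) / u 25) * (u 26) + ((-1 : ℤ) : K) * ((u 19 * u 26 + u 0 * u 10 + u 1 * u 13 + u 2 * u 16) / u 25) * (u 24) + ((-1 : ℤ) : K) * ((u 12 * u 16 - u 13 * u 15 - u 24 * u 0 - u 26 * u 6) / u 25) * (u 10) + ((-1 : ℤ) : K) * ((-u 9 * u 16 + u 10 * u 15 - u 24 * u 1 - u 26 * u 7) / u 25) * (u 13) + ((-1 : ℤ) : K) * ((u 9 * u 13 - u 10 * u 12 - u 24 * u 2 - u 26 * u 8) / u 25) * (u 16) = 0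
        push_cast
        field_simp
        ring
      · show ∑ t : Fin 5, _ = _
        rw [Fin.sum_univ_five]
        show ((-1 : ℤ) : K) * ((u 19 * u 24 - u 6 * u 10 - u 7 * u 13 - u 8 * u 16) / u 25) * ((u 22 * u 26 - u 0 * u 9 - u 1 * u 12 - u 2 * u 15) / u 25) + ((1 : ℤ) : K) * ((u 19 * u 26 + u 0 * u 10 + u 1 * u 13 + u 2 * u 16) / u 25) * ((u 22 * u 24 + u 6 * u 9 + u 7 * u 12 + u 8 * u 15) / u 25) + ((-1 : ℤ) : K) * ((u 12 * u 16 - u 13 * u 15 - u 24 * u 0 - u 26 * u 6) / u 25) * ((-u 1 * u 8 + u 2 * u 7 - u 9 * u 19 - u 10 * u 22) / u 25) + ((-1 : ℤ) : K) * ((-u 9 * u 16 + u 10 * u 15 - u 24 * u 1 - u 26 * u 7) / u 25) * ((u 0 * u 8 - u 2 * u 6 - u 12 * u 19 - u 13 * u 22) / u 25) + ((-1 : ℤ) : K) * ((u 9 * u 13 - u 10 * u 12 - u 24 * u 2 - u 26 * u 8) / u 25) * ((-u 0 * u 7 + u 1 * u 6 - u 15 * u 19 - u 16 * u 22) / u 25) = 0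
        push_cast
        field_simp
        ring
      · show ∑ t : Fin 5, _ = _
        rw [Fin.sum_univ_five]
        show ((1 : ℤ) : K) * ((u 22 * u 24 + u 6 * u 9 + u 7 * u 12 + u 8 * u 15) / u 25) * (u 25) + ((-1 : ℤ) : K) * (u 22) * (u 24) + ((-1 : ℤ) : K) * (u 6) * (u 9) + ((-1 : ℤ) : K) * (u 7) * (u 12) + ((-1 : ℤ) : K) * (u 8) * (u 15) = 0
        push_cast
        field_simp
        ring
      · show ∑ t : Fin 5, _ = _
        rw [Fin.sum_univ_five]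
        show ((-1 : ℤ) : K) * ((u 19 * u 24 - u 6 * u 10 - u 7 * u 13 - u 8 * u 16) / u 25) * (u 25) + ((1 : ℤ) : K) * (u 19) * (u 24) + ((-1 : ℤ) : K) * (u 6) * (u 10) + ((-1 : ℤ) : K) * (u 7) * (u 13) + ((-1 : ℤ) : K) * (u 8) * (u 16) = 0
        push_cast
        field_simp
        ring
      · show ∑ t : Fin 5, _ = _
        rw [Fin.sum_univ_five]
        show ((1 : ℤ) : K) * ((u 19 * u 24 - u 6 * u 10 - u 7 * u 13 - u 8 * u 16) / u 25) * (u 22) + ((-1 : ℤ) : K) * (u 19) * ((u 22 * u 24 + u 6 * u 9 + u 7 * u 12 + u 8 * u 15) / u 25) + ((-1 : ℤ) : K) * (u 6) * ((-u 1 * u 8 + u 2 * u 7 - u 9 * u 19 - u 10 * u 22) / u 25) + ((-1 : ℤ) : K) * (u 7) * ((u 0 * u 8 - u 2 * u 6 - u 12 * u 19 - u 13 * u 22) / u 25) + ((-1 : ℤ) : K) * (u 8) * ((-u 0 * u 7 + u 1 * u 6 - u 15 * u 19 - u 16 * u 22) / u 25) = 0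
        push_cast
        field_simp
        ring
    exact hl

theorem cayley_pt_26 {K : Type} [Field K] (u : Fin 27 → K) (h : u 26 ≠ 0) :
    ∃ y : Fin 27 → K, (∀ j : Fin 27, ¬ cayley.opp (26 : Fin 27) j → y j = u j) ∧
      ∀ l, cayley.val y l = 0 := by
  refine ⟨![u 0, u 1, u 2, u 3, u 4, u 5, (u 12 * u 16 - u 13 * u 15 - u 24 * u 0 - u 25 * u 3) / u 26, (-u 9 * u 16 + u 10 * u 15 - u 24 * u 1 - u 25 * u 4) / u 26, (u 9 * u 13 - u 10 * u 12 - u 24 * u 2 - u 25 * u 5) / u 26, u 9, u 10, (u 1 * u 5 - u 2 * u 4 - u 9 * u 20 - u 10 * u 23) / u 26, u 12, u 13, (-u 0 * u 5 + u 2 * u 3 - u 12 * u 20 - u 13 * u 23) / u 26, u 15, u 16, (u 0 * u 4 - u 1 * u 3 - u 15 * u 20 - u 16 * u 23) / u 26, (u 20 * u 24 + u 3 * u 10 + u 4 * u 13 + u 5 * u 16) / u 26, (u 20 * u 25 - u 0 * u 10 - u 1 * u 13 - u 2 * u 16) / u 26, u 20, (u 23 * u 24 - u 3 * u 9 - u 4 * u 12 - u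 5 * u 15) / u 26, (u 23 * u 25 + u 0 * u 9 + u 1 * u 12 + u 2 * u 15) / u 26, u 23, u 24, u 25, u 26], ?_, ?_⟩
  · have key : ∀ j : Fin 27, cayley.opp (26 : Fin 27) j ∨ (![u 0, u 1, u 2, u 3, u 4, u 5, (u 12 * u 16 - u 13 * u 15 - u 24 * u 0 - u 25 * u 3) / u 26, (-u 9 * u 16 + u 10 * u 15 - u 24 * u 1 - u 25 * u 4) / u 26, (u 9 * u 13 - u 10 * u 12 - u 24 * u 2 - u 25 * u 5) / u 26, u 9, u 10, (u 1 * u 5 - u 2 * u 4 - u 9 * u 20 - u 10 * u 23) / u 26, u 12, u 13, (-u 0 * u 5 + u 2 * u 3 - u 12 * u 20 - u 13 * u 23) / u 26, u 15, u 16, (u 0 * u 4 - u 1 * u 3 - u 15 * u 20 - u 16 * u 23) / u 26, (u 20 * u 24 + u 3 * u 10 + u 4 * u 13 + u 5 * u 16) / u 26, (u 20 * u 25 - u 0 * u 10 - u 1 * u 13 - u 2 * u 16) / u 26, u 20, (u 23 * u 24 - u 3 * u 9 - u 4 * u 12 - u 5 * u 15) / u 26, (u 23 * u 25 + u 0 * u 9 + u 1 * u 12 + u 2 * u 15) / u 26, u 23, u 24, u 25, u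 26] : Fin 27 → K) j = u j := by
      intro j
      fin_cases j
      · exact Or.inr rfl
      · exact Or.inr rfl
      · exact Or.inr rfl
      · exact Or.inr rfl
      · exact Or.inr rfl
      · exact Or.inr rfl
      · exact Or.inl ⟨(15 : Fin 27), (4 : Fin 5), Or.inl ⟨rfl, rfl⟩⟩
      · exact Or.inl ⟨(16 : Fin 27), (4 : Fin 5), Or.inl ⟨rfl, rfl⟩⟩
      · exact Or.inl ⟨(17 : Fin 27), (4 : Fin 5), Or.inl ⟨rfl, rfl⟩⟩
      · exact Or.inr rfl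
      · exact Or.inr rfl
      · exact Or.inl ⟨(2 : Fin 27), (4 : Fin 5), Or.inr ⟨rfl, rfl⟩⟩
      · exact Or.inr rfl
      · exact Or.inr rfl
      · exact Or.inl ⟨(5 : Fin 27), (4 : Fin 5), Or.inr ⟨rfl, rfl⟩⟩
      · exact Or.inr rfl
      · exact Or.inr rfl
      · exact Or.inl ⟨(8 : Fin 27), (4 : Fin 5), Or.inr ⟨rfl, rfl⟩⟩
      · exact Or.inl ⟨(22 : Fin 27), (0 : Fin 5), Or.inr ⟨rfl, rfl⟩⟩
      · exact Or.inl ⟨(19 : Fin 27), (0 : Fin 5), Or.inr ⟨rfl, rfl⟩⟩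
      · exact Or.inr rfl
      · exact Or.inl ⟨(21 : Fin 27), (0 : Fin 5), Or.inr ⟨rfl, rfl⟩⟩
      · exact Or.inl ⟨(18 : Fin 27), (0 : Fin 5), Or.inr ⟨rfl, rfl⟩⟩
      · exact Or.inr rfl
      · exact Or.inr rfl
      · exact Or.inr rfl
      · exact Or.inr rfl
    intro j hj
    exact (key j).resolve_left hj
  · have hl : ∀ l : Fin 27, cayley.val (![u 0, u 1, u 2, u 3, u 4, u 5, (u 12 * u 16 - u 13 * u 15 - u 24 * u 0 - u 25 * u 3) / u 26, (-u 9 * u 16 + u 10 * u 15 - u 24 * u 1 - u 25 * u 4) / u 26, (u 9 * u 13 - u 10 * u 12 - u 24 * u 2 - u 25 * u 5) / u 26, u 9, u 10, (u 1 * u 5 - u 2 * u 4 - u 9 * u 20 - u 10 * u 23) / u 26, u 12, u 13, (-u 0 * u 5 + u 2 * u 3 - u 12 * u 20 - u 13 * u 23) / u 26, u 15, u 16, (u 0 * u 4 - u 1 * u 3 - u 15 * u 20 - u 16 * u 23) / u 26, (u 20 * u 24 + u 3 * u 10 + u 4 * u 13 + u 5 * u 16) / u 26, (u 20 * u 25 - u 0 * u 10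 - u 1 * u 13 - u 2 * u 16) / u 26, u 20, (u 23 * u 24 - u 3 * u 9 - u 4 * u 12 - u 5 * u 15) / u 26, (u 23 * u 25 + u 0 * u 9 + u 1 * u 12 + u 2 * u 15) / u 26, u 23, u 24, u 25, u 26] : Fin 27 → K) l = 0 := by
      intro l
      unfold QF.val
      fin_cases l
      · show ∑ t : Fin 5, _ = _
        rw [Fin.sum_univ_five]
        show ((1 : ℤ) : K) * (u 4) * ((u 9 * u 13 - u 10 * u 12 - u 24 * u 2 - u 25 * u 5) / u 26) + ((-1 : ℤ) : K) * (u 5) * ((-u 9 * u 16 + u 10 * u 15 - u 24 * u 1 - u 25 * u 4) / u 26) + ((-1 : ℤ) : K) * (u 9) * ((u 20 * u 24 + u 3 * u 10 + u 4 * u 13 + u 5 * u 16) / u 26) + ((-1 : ℤ) : K) * (u 10) * ((u 23 * u 24 - u 3 * u 9 - u 4 * u 12 - u 5 * u 15) / u 26) + ((-1 : ℤ) : K) * ((u 1 * u 5 - u 2 * u 4 - u 9 * u 20 - u 10 * u 23) / u 26) * (u 24) = 0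
        push_cast
        field_simp
        ring
      · show ∑ t : Fin 5, _ = _
        rw [Fin.sum_univ_five]
        show ((-1 : ℤ) : K) * (u 1) * ((u 9 * u 13 - u 10 * u 12 - u 24 * u 2 - u 25 * u 5) / u 26) + ((1 : ℤ) : K) * (u 2) * ((-u 9 * u 16 + u 10 * u 15 - u 24 * u 1 - u 25 * u 4) / u 26) + ((-1 : ℤ) : K) * (u 9) * ((u 20 * u 25 - u 0 * u 10 - u 1 * u 13 - u 2 * u 16) / u 26) + ((-1 : ℤ) : K) * (u 10) * ((u 23 * u 25 + u 0 * u 9 + u 1 * u 12 + u 2 * u 15) / u 26) + ((-1 : ℤ) : K) * ((u 1 * u 5 - u 2 * u 4 - u 9 * u 20 - u 10 * u 23) / u 26) * (u 25) = 0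
        push_cast
        field_simp
        ring
      · show ∑ t : Fin 5, _ = _
        rw [Fin.sum_univ_five]
        show ((1 : ℤ) : K) * (u 1) * (u 5) + ((-1 : ℤ) : K) * (u 2) * (u 4) + ((-1 : ℤ) : K) * (u 9) * (u 20) + ((-1 : ℤ) : K) * (u 10) * (u 23) + ((-1 : ℤ) : K) * ((u 1 * u 5 - u 2 * u 4 - u 9 * u 20 - u 10 * u 23) / u 26) * (u 26) = 0
        push_cast
        field_simp
        ring
      · show ∑ t : Fin 5, _ = _
        rw [Fin.sum_univ_five]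
        show ((-1 : ℤ) : K) * (u 3) * ((u 9 * u 13 - u 10 * u 12 - u 24 * u 2 - u 25 * u 5) / u 26) + ((1 : ℤ) : K) * (u 5) * ((u 12 * u 16 - u 13 * u 15 - u 24 * u 0 - u 25 * u 3) / u 26) + ((-1 : ℤ) : K) * (u 12) * ((u 20 * u 24 + u 3 * u 10 + u 4 * u 13 + u 5 * u 16) / u 26) + ((-1 : ℤ) : K) * (u 13) * ((u 23 * u 24 - u 3 * u 9 - u 4 * u 12 - u 5 * u 15) / u 26) + ((-1 : ℤ) : K) * ((-u 0 * u 5 + u 2 * u 3 - u 12 * u 20 - u 13 * u 23) / u 26) * (u 24) = 0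
        push_cast
        field_simp
        ring
      · show ∑ t : Fin 5, _ = _
        rw [Fin.sum_univ_five]
        show ((1 : ℤ) : K) * (u 0) * ((u 9 * u 13 - u 10 * u 12 - u 24 * u 2 - u 25 * u 5) / u 26) + ((-1 : ℤ) : K) * (u 2) * ((u 12 * u 16 - u 13 * u 15 - u 24 * u 0 - u 25 * u 3) / u 26) + ((-1 : ℤ) : K) * (u 12) * ((u 20 * u 25 - u 0 * u 10 - u 1 * u 13 - u 2 * u 16) / u 26) + ((-1 : ℤ) : K) * (u 13) * ((u 23 * u 25 + u 0 * u 9 + u 1 * u 12 + u 2 * u 15) / u 26) + ((-1 : ℤ) : K) * ((-u 0 * u 5 + u 2 * u 3 - u 12 * u 20 - u 13 * u 23) / u 26) * (u 25) = 0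
        push_cast
        field_simp
        ring
      · show ∑ t : Fin 5, _ = _
        rw [Fin.sum_univ_five]
        show ((-1 : ℤ) : K) * (u 0) * (u 5) + ((1 : ℤ) : K) * (u 2) * (u 3) + ((-1 : ℤ) : K) * (u 12) * (u 20) + ((-1 : ℤ) : K) * (u 13) * (u 23) + ((-1 : ℤ) : K) * ((-u 0 * u 5 + u 2 * u 3 - u 12 * u 20 - u 13 * u 23) / u 26) * (u 26) = 0
        push_cast
        field_simp
        ring
      · show ∑ t : Fin 5, _ = _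
        rw [Fin.sum_univ_five]
        show ((1 : ℤ) : K) * (u 3) * ((-u 9 * u 16 + u 10 * u 15 - u 24 * u 1 - u 25 * u 4) / u 26) + ((-1 : ℤ) : K) * (u 4) * ((u 12 * u 16 - u 13 * u 15 - u 24 * u 0 - u 25 * u 3) / u 26) + ((-1 : ℤ) : K) * (u 15) * ((u 20 * u 24 + u 3 * u 10 + u 4 * u 13 + u 5 * u 16) / u 26) + ((-1 : ℤ) : K) * (u 16) * ((u 23 * u 24 - u 3 * u 9 - u 4 * u 12 - u 5 * u 15) / u 26) + ((-1 : ℤ) : K) * ((u 0 * u 4 - u 1 * u 3 - u 15 * u 20 - u 16 * u 23) / u 26) * (u 24) = 0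
        push_cast
        field_simp
        ring
      · show ∑ t : Fin 5, _ = _
        rw [Fin.sum_univ_five]
        show ((-1 : ℤ) : K) * (u 0) * ((-u 9 * u 16 + u 10 * u 15 - u 24 * u 1 - u 25 * u 4) / u 26) + ((1 : ℤ) : K) * (u 1) * ((u 12 * u 16 - u 13 * u 15 - u 24 * u 0 - u 25 * u 3) / u 26) + ((-1 : ℤ) : K) * (u 15) * ((u 20 * u 25 - u 0 * u 10 - u 1 * u 13 - u 2 * u 16) / u 26) + ((-1 : ℤ) : K) * (u 16) * ((u 23 * u 25 + u 0 * u 9 + u 1 * u 12 + u 2 * u 15) / u 26) + ((-1 : ℤ) : K) * ((u 0 * u 4 - u 1 * u 3 - u 15 * u 20 - u 16 * u 23) / u 26) * (u 25) = 0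
        push_cast
        field_simp
        ring
      · show ∑ t : Fin 5, _ = _
        rw [Fin.sum_univ_five]
        show ((1 : ℤ) : K) * (u 0) * (u 4) + ((-1 : ℤ) : K) * (u 1) * (u 3) + ((-1 : ℤ) : K) * (u 15) * (u 20) + ((-1 : ℤ) : K) * (u 16) * (u 23) + ((-1 : ℤ) : K) * ((u 0 * u 4 - u 1 * u 3 - u 15 * u 20 - u 16 * u 23) / u 26) * (u 26) = 0
        push_cast
        field_simp
        ring
      · show ∑ t : Fin 5, _ = _
        rw [Fin.sum_univ_five]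
        show ((1 : ℤ) : K) * (u 13) * ((u 0 * u 4 - u 1 * u 3 - u 15 * u 20 - u 16 * u 23) / u 26) + ((-1 : ℤ) : K) * ((-u 0 * u 5 + u 2 * u 3 - u 12 * u 20 - u 13 * u 23) / u 26) * (u 16) + ((-1 : ℤ) : K) * ((u 20 * u 24 + u 3 * u 10 + u 4 * u 13 + u 5 * u 16) / u 26) * (u 0) + ((-1 : ℤ) : K) * ((u 20 * u 25 - u 0 * u 10 - u 1 * u 13 - u 2 * u 16) / u 26) * (u 3) + ((-1 : ℤ) : K) * (u 20) * ((u 12 * u 16 - u 13 * u 15 - u 24 * u 0 - u 25 * u 3) / u 26) = 0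
        push_cast
        field_simp
        ring
      · show ∑ t : Fin 5, _ = _
        rw [Fin.sum_univ_five]
        show ((-1 : ℤ) : K) * (u 10) * ((u 0 * u 4 - u 1 * u 3 - u 15 * u 20 - u 16 * u 23) / u 26) + ((1 : ℤ) : K) * ((u 1 * u 5 - u 2 * u 4 - u 9 * u 20 - u 10 * u 23) / u 26) * (u 16) + ((-1 : ℤ) : K) * ((u 20 * u 24 + u 3 * u 10 + u 4 * u 13 + u 5 * u 16) / u 26) * (u 1) + ((-1 : ℤ) : K) * ((u 20 * u 25 - u 0 * u 10 - u 1 * u 13 - u 2 * u 16) / u 26) * (u 4) + ((-1 : ℤ) : K) * (u 20) * ((-u 9 * u 16 + u 10 * u 15 - u 24 * u 1 - u 25 * u 4) / u 26) = 0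
        push_cast
        field_simp
        ring
      · show ∑ t : Fin 5, _ = _
        rw [Fin.sum_univ_five]
        show ((1 : ℤ) : K) * (u 10) * ((-u 0 * u 5 + u 2 * u 3 - u 12 * u 20 - u 13 * u 23) / u 26) + ((-1 : ℤ) : K) * ((u 1 * u 5 - u 2 * u 4 - u 9 * u 20 - u 10 * u 23) / u 26) * (u 13) + ((-1 : ℤ) : K) * ((u 20 * u 24 + u 3 * u 10 + u 4 * u 13 + u 5 * u 16) / u 26) * (u 2) + ((-1 : ℤ) : K) * ((u 20 * u 25 - u 0 * u 10 - u 1 * u 13 - u 2 * u 16) / u 26) * (u 5) + ((-1 : ℤ) : K) * (u 20) * ((u 9 * u 13 - u 10 * u 12 - u 24 * u 2 - u 25 * u 5) / u 26) = 0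
        push_cast
        field_simp
        ring
      · show ∑ t : Fin 5, _ = _
        rw [Fin.sum_univ_five]
        show ((-1 : ℤ) : K) * (u 12) * ((u 0 * u 4 - u 1 * u 3 - u 15 * u 20 - u 16 * u 23) / u 26) + ((1 : ℤ) : K) * ((-u 0 * u 5 + u 2 * u 3 - u 12 * u 20 - u 13 * u 23) / u 26) * (u 15) + ((-1 : ℤ) : K) * ((u 23 * u 24 - u 3 * u 9 - u 4 * u 12 - u 5 * u 15) / u 26) * (u 0) + ((-1 : ℤ) : K) * ((u 23 * u 25 + u 0 * u 9 + u 1 * u 12 + u 2 * u 15) / u 26) * (u 3) + ((-1 : ℤ) : K) * (u 23) * ((u 12 * u 16 - u 13 * u 15 - u 24 * u 0 - u 25 * u 3) / u 26) = 0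
        push_cast
        field_simp
        ring
      · show ∑ t : Fin 5, _ = _
        rw [Fin.sum_univ_five]
        show ((1 : ℤ) : K) * (u 9) * ((u 0 * u 4 - u 1 * u 3 - u 15 * u 20 - u 16 * u 23) / u 26) + ((-1 : ℤ) : K) * ((u 1 * u 5 - u 2 * u 4 - u 9 * u 20 - u 10 * u 23) / u 26) * (u 15) + ((-1 : ℤ) : K) * ((u 23 * u 24 - u 3 * u 9 - u 4 * u 12 - u 5 * u 15) / u 26) * (u 1) + ((-1 : ℤ) : K) * ((u 23 * u 25 + u 0 * u 9 + u 1 * u 12 + u 2 * u 15) / u 26) * (u 4) + ((-1 : ℤ) : K) * (u 23) * ((-u 9 * u 16 + u 10 * u 15 - u 24 * u 1 - u 25 * u 4) / u 26) = 0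
        push_cast
        field_simp
        ring
      · show ∑ t : Fin 5, _ = _
        rw [Fin.sum_univ_five]
        show ((-1 : ℤ) : K) * (u 9) * ((-u 0 * u 5 + u 2 * u 3 - u 12 * u 20 - u 13 * u 23) / u 26) + ((1 : ℤ) : K) * ((u 1 * u 5 - u 2 * u 4 - u 9 * u 20 - u 10 * u 23) / u 26) * (u 12) + ((-1 : ℤ) : K) * ((u 23 * u 24 - u 3 * u 9 - u 4 * u 12 - u 5 * u 15) / u 26) * (u 2) + ((-1 : ℤ) : K) * ((u 23 * u 25 + u 0 * u 9 + u 1 * u 12 + u 2 * u 15) / u 26) * (u 5) + ((-1 : ℤ) : K) * (u 23) * ((u 9 * u 13 - u 10 * u 12 - u 24 * u 2 - u 25 * u 5) / u 26) = 0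
        push_cast
        field_simp
        ring
      · show ∑ t : Fin 5, _ = _
        rw [Fin.sum_univ_five]
        show ((1 : ℤ) : K) * (u 12) * (u 16) + ((-1 : ℤ) : K) * (u 13) * (u 15) + ((-1 : ℤ) : K) * (u 24) * (u 0) + ((-1 : ℤ) : K) * (u 25) * (u 3) + ((-1 : ℤ) : K) * (u 26) * ((u 12 * u 16 - u 13 * u 15 - u 24 * u 0 - u 25 * u 3) / u 26) = 0
        push_cast
        field_simp
        ring
      · show ∑ t : Fin 5, _ = _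
        rw [Fin.sum_univ_five]
        show ((-1 : ℤ) : K) * (u 9) * (u 16) + ((1 : ℤ) : K) * (u 10) * (u 15) + ((-1 : ℤ) : K) * (u 24) * (u 1) + ((-1 : ℤ) : K) * (u 25) * (u 4) + ((-1 : ℤ) : K) * (u 26) * ((-u 9 * u 16 + u 10 * u 15 - u 24 * u 1 - u 25 * u 4) / u 26) = 0
        push_cast
        field_simp
        ring
      · show ∑ t : Fin 5, _ = _
        rw [Fin.sum_univ_five]
        show ((1 : ℤ) : K) * (u 9) * (u 13) + ((-1 : ℤ) : K) * (u 10) * (u 12) + ((-1 : ℤ) : K) * (u 24) * (u 2) + ((-1 : ℤ) : K) * (u 25) * (u 5) + ((-1 : ℤ) : K) * (u 26) * ((u 9 * u 13 - u 10 * u 12 - u 24 * u 2 - u 25 * u 5) / u 26) = 0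
        push_cast
        field_simp
        ring
      · show ∑ t : Fin 5, _ = _
        rw [Fin.sum_univ_five]
        show ((1 : ℤ) : K) * ((u 23 * u 25 + u 0 * u 9 + u 1 * u 12 + u 2 * u 15) / u 26) * (u 26) + ((-1 : ℤ) : K) * (u 23) * (u 25) + ((-1 : ℤ) : K) * (u 0) * (u 9) + ((-1 : ℤ) : K) * (u 1) * (u 12) + ((-1 : ℤ) : K) * (u 2) * (u 15) = 0
        push_cast
        field_simp
        ring
      · show ∑ t : Fin 5, _ = _
        rw [Fin.sum_univ_five]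
        show ((-1 : ℤ) : K) * ((u 20 * u 25 - u 0 * u 10 - u 1 * u 13 - u 2 * u 16) / u 26) * (u 26) + ((1 : ℤ) : K) * (u 20) * (u 25) + ((-1 : ℤ) : K) * (u 0) * (u 10) + ((-1 : ℤ) : K) * (u 1) * (u 13) + ((-1 : ℤ) : K) * (u 2) * (u 16) = 0
        push_cast
        field_simp
        ring
      · show ∑ t : Fin 5, _ = _
        rw [Fin.sum_univ_five]
        show ((1 : ℤ) : K) * ((u 20 * u 25 - u 0 * u 10 - u 1 * u 13 - u 2 * u 16) / u 26) * (u 23) + ((-1 : ℤ) : K) * (u 20) * ((u 23 * u 25 + u 0 * u 9 + u 1 * u 12 + u 2 * u 15) / u 26) + ((-1 : ℤ) : K) * (u 0) * ((u 1 * u 5 - u 2 * u 4 - u 9 * u 20 - u 10 * u 23) / u 26) + ((-1 : ℤ) : K) * (u 1) * ((-u 0 * u 5 + u 2 * u 3 - u 12 * u 20 - u 13 * u 23) / u 26) + ((-1 : ℤ) : K) * (u 2) * ((u 0 * u 4 - u 1 * u 3 - u 15 * u 20 - u 16 * u 23) / u 26) = 0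
        push_cast
        field_simp
        ring
      · show ∑ t : Fin 5, _ = _
        rw [Fin.sum_univ_five]
        show ((-1 : ℤ) : K) * ((u 23 * u 24 - u 3 * u 9 - u 4 * u 12 - u 5 * u 15) / u 26) * (u 26) + ((1 : ℤ) : K) * (u 23) * (u 24) + ((-1 : ℤ) : K) * (u 3) * (u 9) + ((-1 : ℤ) : K) * (u 4) * (u 12) + ((-1 : ℤ) : K) * (u 5) * (u 15) = 0
        push_cast
        field_simp
        ring
      · show ∑ t : Fin 5, _ = _
        rw [Fin.sum_univ_five]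
        show ((1 : ℤ) : K) * ((u 20 * u 24 + u 3 * u 10 + u 4 * u 13 + u 5 * u 16) / u 26) * (u 26) + ((-1 : ℤ) : K) * (u 20) * (u 24) + ((-1 : ℤ) : K) * (u 3) * (u 10) + ((-1 : ℤ) : K) * (u 4) * (u 13) + ((-1 : ℤ) : K) * (u 5) * (u 16) = 0
        push_cast
        field_simp
        ring
      · show ∑ t : Fin 5, _ = _
        rw [Fin.sum_univ_five]
        show ((-1 : ℤ) : K) * ((u 20 * u 24 + u 3 * u 10 + u 4 * u 13 + u 5 * u 16) / u 26) * (u 23) + ((1 : ℤ) : K) * (u 20) * ((u 23 * u 24 - u 3 * u 9 - u 4 * u 12 - u 5 * u 15) / u 26) + ((-1 : ℤ) : K) * (u 3) * ((u 1 * u 5 - u 2 * u 4 - u 9 * u 20 - u 10 * u 23) / u 26) + ((-1 : ℤ) : K) * (u 4) * ((-u 0 * u 5 + u 2 * u 3 - u 12 * u 20 - u 13 * u 23) / u 26) + ((-1 : ℤ) : K) * (u 5) * ((u 0 * u 4 - u 1 * u 3 - u 15 * u 20 - u 16 * u 23) / u 26) = 0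
        push_cast
        field_simp
        ring
      · show ∑ t : Fin 5, _ = _
        rw [Fin.sum_univ_five]
        show ((1 : ℤ) : K) * ((u 23 * u 24 - u 3 * u 9 - u 4 * u 12 - u 5 * u 15) / u 26) * (u 25) + ((-1 : ℤ) : K) * ((u 23 * u 25 + u 0 * u 9 + u 1 * u 12 + u 2 * u 15) / u 26) * (u 24) + ((-1 : ℤ) : K) * ((u 12 * u 16 - u 13 * u 15 - u 24 * u 0 - u 25 * u 3) / u 26) * (u 9) + ((-1 : ℤ) : K) * ((-u 9 * u 16 + u 10 * u 15 - u 24 * u 1 - u 25 * u 4) / u 26) * (u 12) + ((-1 : ℤ) : K) * ((u 9 * u 13 - u 10 * u 12 - u 24 * u 2 - u 25 * u 5) / u 26) * (u 15) = 0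
        push_cast
        field_simp
        ring
      · show ∑ t : Fin 5, _ = _
        rw [Fin.sum_univ_five]
        show ((-1 : ℤ) : K) * ((u 20 * u 24 + u 3 * u 10 + u 4 * u 13 + u 5 * u 16) / u 26) * (u 25) + ((1 : ℤ) : K) * ((u 20 * u 25 - u 0 * u 10 - u 1 * u 13 - u 2 * u 16) / u 26) * (u 24) + ((-1 : ℤ) : K) * ((u 12 * u 16 - u 13 * u 15 - u 24 * u 0 - u 25 * u 3) / u 26) * (u 10) + ((-1 : ℤ) : K) * ((-u 9 * u 16 + u 10 * u 15 - u 24 * u 1 - u 25 * u 4) / u 26) * (u 13) + ((-1 : ℤ) : K) * ((u 9 * u 13 - u 10 * u 12 - u 24 * u 2 - u 25 * u 5) / u 26) * (u 16) = 0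
        push_cast
        field_simp
        ring
      · show ∑ t : Fin 5, _ = _
        rw [Fin.sum_univ_five]
        show ((1 : ℤ) : K) * ((u 20 * u 24 + u 3 * u 10 + u 4 * u 13 + u 5 * u 16) / u 26) * ((u 23 * u 25 + u 0 * u 9 + u 1 * u 12 + u 2 * u 15) / u 26) + ((-1 : ℤ) : K) * ((u 20 * u 25 - u 0 * u 10 - u 1 * u 13 - u 2 * u 16) / u 26) * ((u 23 * u 24 - u 3 * u 9 - u 4 * u 12 - u 5 * u 15) / u 26) + ((-1 : ℤ) : K) * ((u 12 * u 16 - u 13 * u 15 - u 24 * u 0 - u 25 * u 3) / u 26) * ((u 1 * u 5 - u 2 * u 4 - u 9 * u 20 - u 10 * u 23) / u 26) + ((-1 : ℤ) : K) * ((-u 9 * u 16 + u 10 * u 15 - u 24 * u 1 - u 25 * u 4) / u 26) * ((-u 0 * u 5 + u 2 * u 3 - u 12 * u 20 - u 13 * u 23) / u 26) + ((-1 : ℤ) : K) * ((u 9 * u 13 - u 10 * u 12 - u 24 * u 2 - u 25 * u 5) / u 26) * ((u 0 * u 4 - u 1 * u 3 - u 15 * u 20 - u 16 * u 23) / u 26) = 0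
        push_cast
        field_simp
        ring
    exact hl

end Pool.Agent.Q2.SF
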