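import Pool.Agent.Q2.SF.CayA
import Pool.Agent.Q2.SF.CayB
import Pool.Agent.Q2.SF.CayC

/-!
# The Cayley plane format is nice. Generated.
-/

set_option autoImplicit false

namespace Pool.Agent.Q2.SF

theorem cayley_nice : cayley.Nice where
  unit := by
    have h : ∀ l t, cayleyC l t = 1 ∨ cayleyC l t = -1 := by decide
    exact h
  pt := by
    intro K _ x u h
    have key : ∀ x : Fin 27, u x ≠ 0 → ∃ y : Fin 27 → K,
        (∀ j : Fin 27, ¬ cayley.opp x j → y j = u j) ∧ ∀ l, cayley.val y l = 0 := by
      intro x h
      fin_cases x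
      · exact cayley_pt_0 u h
      · exact cayley_pt_1 u h
      · exact cayley_pt_2 u h
      · exact cayley_pt_3 u h
      · exact cayley_pt_4 u h
      · exact cayley_pt_5 u h
      · exact cayley_pt_6 u h
      · exact cayley_pt_7 u h
      · exact cayley_pt_8 u h
      · exact cayley_pt_9 u h
      · exact cayley_pt_10 u h
      · exact cayley_pt_11 u h
      · exact cayley_pt_12 u h
      · exact cayley_pt_13 u h
      · exact cayley_pt_14 u h
      · exact cayley_pt_15 u h
      · exact cayley_pt_16 u h
      · exact cayley_pt_17 u h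
      · exact cayley_pt_18 u h
      · exact cayley_pt_19 u h
      · exact cayley_pt_20 u h
      · exact cayley_pt_21 u h
      · exact cayley_pt_22 u h
      · exact cayley_pt_23 u h
      · exact cayley_pt_24 u h
      · exact cayley_pt_25 u h
      · exact cayley_pt_26 u h
    exact key x h
  irr := by
    have h : ∀ x, cayleyT x x = false := by decide
    intro x hx
    have h1 := cayleyO_T (x := x) (y := x) hx
    rw [h x] at h1
    exact absurd h1 (by simp)
  nonopp := by
    have h : ∀ l t t', t ≠ t' →
        (cayleyT (cayleyA l t) (cayleyA l t') = false ∧ cayleyT (cayleyA l t) (cayleyB l t') = false ∧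
        cayleyT (cayleyB l t) (cayleyA l t') = false ∧
        cayleyT (cayleyB l t) (cayleyB l t') = false) := by
      decide
    have h2 : ∀ x y : Fin 27, cayleyT x y = false → ¬ cayleyO x y := by
      intro x y hxy h3
      rw [cayleyO_T h3] at hxy
      exact absurd hxy (by simp)
    intro l t t' ht
    obtain ⟨h3, h4, h5, h6⟩ := h l t t' ht
    exact ⟨h2 _ _ h3, h2 _ _ h4, h2 _ _ h5, h2 _ _ h6⟩

end Pool.Agent.Q2.SF
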