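import Pool.Agent.Q2.SF.QF

/-!
# The Cayley plane format

Coordinates: the entries of three matrices `A`, `B`, `C` of size three. Equations: `adj A = B C`,
`adj B = C A`, `adj C = A B`. Generated.
-/

set_option autoImplicit false

namespace Pool.Agent.Q2.SF

/-- the coefficients -/
def cayleyC : Fin 27 → Fin 5 → ℤ :=
  ![![1, -1, -1, -1, -1],
    ![-1, 1, -1, -1, -1],
    ![1, -1, -1, -1, -1],
    ![-1, 1, -1, -1, -1],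
    ![1, -1, -1, -1, -1],
    ![-1, 1, -1, -1, -1],
    ![1, -1, -1, -1, -1],
    ![-1, 1, -1, -1, -1],
    ![1, -1, -1, -1, -1],
    ![1, -1, -1, -1, -1],
    ![-1, 1, -1, -1, -1],
    ![1, -1, -1, -1, -1],
    ![-1, 1, -1, -1, -1],
    ![1, -1, -1, -1, -1],
    ![-1, 1, -1, -1, -1],
    ![1, -1, -1, -1, -1],
    ![-1, 1, -1, -1, -1],
    ![1, -1, -1, -1, -1],
    ![1, -1, -1, -1, -1],
    ![-1, 1, -1, -1, -1],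
    ![1, -1, -1, -1, -1],
    ![-1, 1, -1, -1, -1],
    ![1, -1, -1, -1, -1],
    ![-1, 1, -1, -1, -1],
    ![1, -1, -1, -1, -1],
    ![-1, 1, -1, -1, -1],
    ![1, -1, -1, -1, -1]]

/-- the first coordinates of the monomials -/
def cayleyA : Fin 27 → Fin 5 → Fin 27 :=
  ![![4, 5, 9, 10, 11],
    ![1, 2, 9, 10, 11],
    ![1, 2, 9, 10, 11],
    ![3, 5, 12, 13, 14],
    ![0, 2, 12, 13, 14],
    ![0, 2, 12, 13, 14],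
    ![3, 4, 15, 16, 17],
    ![0, 1, 15, 16, 17],
    ![0, 1, 15, 16, 17],
    ![13, 14, 18, 19, 20],
    ![10, 11, 18, 19, 20],
    ![10, 11, 18, 19, 20],
    ![12, 14, 21, 22, 23],
    ![9, 11, 21, 22, 23],
    ![9, 11, 21, 22, 23],
    ![12, 13, 24, 25, 26],
    ![9, 10, 24, 25, 26],
    ![9, 10, 24, 25, 26],
    ![22, 23, 0, 1, 2],
    ![19, 20, 0, 1, 2],
    ![19, 20, 0, 1, 2],
    ![21, 23, 3, 4, 5],
    ![18, 20, 3, 4, 5],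
    ![18, 20, 3, 4, 5],
    ![21, 22, 6, 7, 8],
    ![18, 19, 6, 7, 8],
    ![18, 19, 6, 7, 8]]

/-- the second coordinates of the monomials -/
def cayleyB : Fin 27 → Fin 5 → Fin 27 :=
  ![![8, 7, 18, 21, 24],
    ![8, 7, 19, 22, 25],
    ![5, 4, 20, 23, 26],
    ![8, 6, 18, 21, 24],
    ![8, 6, 19, 22, 25],
    ![5, 3, 20, 23, 26],
    ![7, 6, 18, 21, 24],
    ![7, 6, 19, 22, 25],
    ![4, 3, 20, 23, 26],
    ![17, 16, 0, 3, 6],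
    ![17, 16, 1, 4, 7],
    ![14, 13, 2, 5, 8],
    ![17, 15, 0, 3, 6],
    ![17, 15, 1, 4, 7],
    ![14, 12, 2, 5, 8],
    ![16, 15, 0, 3, 6],
    ![16, 15, 1, 4, 7],
    ![13, 12, 2, 5, 8],
    ![26, 25, 9, 12, 15],
    ![26, 25, 10, 13, 16],
    ![23, 22, 11, 14, 17],
    ![26, 24, 9, 12, 15],
    ![26, 24, 10, 13, 16],
    ![23, 21, 11, 14, 17],
    ![25, 24, 9, 12, 15],
    ![25, 24, 10, 13, 16],
    ![22, 21, 11, 14, 17]]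

/-- the 27 equations of the cone over the Cayley plane in 27 coordinates -/
def cayley : QF := ⟨27, 27, 5, cayleyC, cayleyA, cayleyB⟩

/-- the pairs of coordinates whose product occurs -/
def cayleyO (x y : Fin 27) : Prop :=
  ∃ l t, (cayleyA l t = x ∧ cayleyB l t = y) ∨ (cayleyA l t = y ∧ cayleyB l t = x)

instance (x y : Fin 27) : Decidable (cayleyO x y) := by
  unfold cayleyO
  infer_instance

/-- the coordinates on a line with the given one, as bits -/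
def cayleyMask : Fin 27 → ℕ :=
  ![19140528,
    19165544,
    19366104,
    38276998,
    38302021,
    38502595,
    76549686,
    76574765,
    76775451,
    2056265,
    14864457,
    117551177,
    2034834,
    14846610,
    117540498,
    1862948,
    14703396,
    117454628,
    113283591,
    94409272,
    56660928,
    102310919,
    85271608,
    51193280,
    14305287,
    11946040,
    7227840]

/-- two coordinates on a line -/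
def cayleyT (x y : Fin 27) : Bool := (cayleyMask x).testBit y

/-- the third point of the line through two points on a line (and `0` otherwise) -/
def cayleyThird : Fin 27 → Fin 27 → Fin 27 :=
  ![![0, 0, 0, 0, 8, 7, 0, 5, 4, 18, 21, 24, 0, 0, 0, 0, 0, 0, 9, 0, 0, 10, 0, 0, 11, 0, 0],
    ![0, 0, 0, 8, 0, 6, 5, 0, 3, 0, 0, 0, 18, 21, 24, 0, 0, 0, 12, 0, 0, 13, 0, 0, 14, 0, 0],
    ![0, 0, 0, 7, 6, 0, 4, 3, 0, 0, 0, 0, 0, 0, 0, 18, 21, 24, 15, 0, 0, 16, 0, 0, 17, 0, 0],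
    ![0, 8, 7, 0, 0, 0, 0, 2, 1, 19, 22, 25, 0, 0, 0, 0, 0, 0, 0, 9, 0, 0, 10, 0, 0, 11, 0],
    ![8, 0, 6, 0, 0, 0, 2, 0, 0, 0, 0, 0, 19, 22, 25, 0, 0, 0, 0, 12, 0, 0, 13, 0, 0, 14, 0],
    ![7, 6, 0, 0, 0, 0, 1, 0, 0, 0, 0, 0, 0, 0, 0, 19, 22, 25, 0, 15, 0, 0, 16, 0, 0, 17, 0],
    ![0, 5, 4, 0, 2, 1, 0, 0, 0, 20, 23, 26, 0, 0, 0, 0, 0, 0, 0, 0, 9, 0, 0, 10, 0, 0, 11],
    ![5, 0, 3, 2, 0, 0, 0, 0, 0, 0, 0, 0, 20, 23, 26, 0, 0, 0, 0, 0, 12, 0, 0, 13, 0, 0, 14],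
    ![4, 3, 0, 1, 0, 0, 0, 0, 0, 0, 0, 0, 0, 0, 0, 20, 23, 26, 0, 0, 15, 0, 0, 16, 0, 0, 17],
    ![18, 0, 0, 19, 0, 0, 20, 0, 0, 0, 0, 0, 0, 17, 16, 0, 14, 13, 0, 3, 6, 0, 0, 0, 0, 0, 0],
    ![21, 0, 0, 22, 0, 0, 23, 0, 0, 0, 0, 0, 17, 0, 15, 14, 0, 12, 0, 0, 0, 0, 3, 6, 0, 0, 0],
    ![24, 0, 0, 25, 0, 0, 26, 0, 0, 0, 0, 0, 16, 15, 0, 13, 12, 0, 0, 0, 0, 0, 0, 0, 0, 3, 6],
    ![0, 18, 0, 0, 19, 0, 0, 20, 0, 0, 17, 16, 0, 0, 0, 0, 11, 10, 1, 4, 7, 0, 0, 0, 0, 0, 0],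
    ![0, 21, 0, 0, 22, 0, 0, 23, 0, 17, 0, 15, 0, 0, 0, 11, 0, 9, 0, 0, 0, 1, 4, 7, 0, 0, 0],
    ![0, 24, 0, 0, 25, 0, 0, 26, 0, 16, 15, 0, 0, 0, 0, 10, 9, 0, 0, 0, 0, 0, 0, 0, 1, 4, 7],
    ![0, 0, 18, 0, 0, 19, 0, 0, 20, 0, 14, 13, 0, 11, 10, 0, 0, 0, 2, 5, 8, 0, 0, 0, 0, 0, 0],
    ![0, 0, 21, 0, 0, 22, 0, 0, 23, 14, 0, 12, 11, 0, 9, 0, 0, 0, 0, 0, 0, 2, 5, 8, 0, 0, 0],
    ![0, 0, 24, 0, 0, 25, 0, 0, 26, 13, 12, 0, 10, 9, 0, 0, 0, 0, 0, 0, 0, 0, 0, 0, 2, 5, 8],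
    ![9, 12, 15, 0, 0, 0, 0, 0, 0, 0, 0, 0, 1, 0, 0, 2, 0, 0, 0, 0, 0, 0, 26, 25, 0, 23, 22],
    ![0, 0, 0, 9, 12, 15, 0, 0, 0, 3, 0, 0, 4, 0, 0, 5, 0, 0, 0, 0, 0, 26, 0, 24, 23, 0, 21],
    ![0, 0, 0, 0, 0, 0, 9, 12, 15, 6, 0, 0, 7, 0, 0, 8, 0, 0, 0, 0, 0, 25, 24, 0, 22, 21, 0],
    ![10, 13, 16, 0, 0, 0, 0, 0, 0, 0, 0, 0, 0, 1, 0, 0, 2, 0, 0, 26, 25, 0, 0, 0, 0, 20, 19],
    ![0, 0, 0, 10, 13, 16, 0, 0, 0, 0, 3, 0, 0, 4, 0, 0, 5, 0, 26, 0, 24, 0, 0, 0, 20, 0, 18],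
    ![0, 0, 0, 0, 0, 0, 10, 13, 16, 0, 6, 0, 0, 7, 0, 0, 8, 0, 25, 24, 0, 0, 0, 0, 19, 18, 0],
    ![11, 14, 17, 0, 0, 0, 0, 0, 0, 0, 0, 0, 0, 0, 1, 0, 0, 2, 0, 23, 22, 0, 20, 19, 0, 0, 0],
    ![0, 0, 0, 11, 14, 17, 0, 0, 0, 0, 0, 3, 0, 0, 4, 0, 0, 5, 23, 0, 21, 20, 0, 18, 0, 0, 0],
    ![0, 0, 0, 0, 0, 0, 11, 14, 17, 0, 0, 6, 0, 0, 7, 0, 0, 8, 22, 21, 0, 19, 18, 0, 0, 0, 0]]

theorem cayleyO_T {x y : Fin 27} (h : cayleyO x y) : cayleyT x y = true := by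
  have h1 : ∀ l t, cayleyT (cayleyA l t) (cayleyB l t) = true ∧
      cayleyT (cayleyB l t) (cayleyA l t) = true := by decide
  obtain ⟨l, t, ⟨rfl, rfl⟩ | ⟨rfl, rfl⟩⟩ := h
  · exact (h1 l t).1
  · exact (h1 l t).2

end Pool.Agent.Q2.SF
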