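import Pool.Agent.Q2.SF.Spin
import Pool.Agent.Q2.SF.CayT

/-!
# The combinatorial inequalities: a vertex of small degree
-/

set_option autoImplicit false

namespace Pool.Agent.Q2.SF

open Finset

/-- the coordinates opposite to the given one, as bits -/
def spinorMask : Fin 16 → ℕ :=
  ![62, 961, 7233, 25729, 43265, 53761, 57350, 38922, 21522, 11298, 33548, 17044, 8612, 4696, 2408, 1264]

/-- two opposite coordinates -/
def spinorT (x y : Fin 16) : Bool := (spinorMask x).testBit y

theorem spinorO_T {x y : Fin 16} (h : spinorO x y) : spinorT x y = true := by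
  have h1 : ∀ l t, spinorT (spinorA l t) (spinorB l t) = true ∧
      spinorT (spinorB l t) (spinorA l t) = true := by decide
  obtain ⟨l, t, ⟨rfl, rfl⟩ | ⟨rfl, rfl⟩⟩ := h
  · exact (h1 l t).1
  · exact (h1 l t).2

/-- there are no triangles -/
theorem spinorT_free {x y w : Fin 16} (h : spinorT x y = true) (hx : spinorT x w = true)
    (hy : spinorT y w = true) : False := by
  have h1 : ∀ x y, spinorT x y = true → spinorMask x &&& spinorMask y = 0 := by decide
  have h2 : (spinorMask x &&& spinorMask y).testBit w = true := by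
    rw [Nat.testBit_and]
    unfold spinorT at hx hy
    rw [hx, hy]
    rfl
  rw [h1 x y h, Nat.zero_testBit] at h2
  exact absurd h2 (by simp)

/-- the third point for the monomials of an equation -/
def cayleyE : Fin 27 → Fin 27 := ![0, 3, 6, 1, 4, 7, 2, 5, 8, 9, 12, 15, 10, 13, 16, 11, 14, 17, 18, 21, 24, 19, 22, 25, 20, 23, 26]

theorem cayleyThird_E (l : Fin 27) (t : Fin 5) : cayleyThird (cayleyA l t) (cayleyB l t) = cayleyE l ∧
    cayleyThird (cayleyB l t) (cayleyA l t) = cayleyE l := by
  revert l t
  decide

theorem cayleyT_third {x y : Fin 27} (h : cayleyT x y = true) :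
    cayleyT x (cayleyThird x y) = true ∧ cayleyT y (cayleyThird x y) = true ∧
      cayleyThird x (cayleyThird x y) = y ∧ cayleyThird y (cayleyThird x y) = x := by
  revert x y
  decide

theorem cayleyT_irr (x : Fin 27) : cayleyT x x = false := by
  revert x
  decide

/-- two points on a line have only one common neighbour -/
theorem cayleyT_common {x y w : Fin 27} (h : cayleyT x y = true) (hx : cayleyT x w = true)
    (hy : cayleyT y w = true) : w = cayleyThird x y := by
  have h1 : ∀ x y, cayleyT x y = true →
      cayleyMask x &&& cayleyMask y = 2 ^ (cayleyThird x y : ℕ) := by decide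
  have h2 : (cayleyMask x &&& cayleyMask y).testBit w = true := by
    rw [Nat.testBit_and]
    unfold cayleyT at hx hy
    rw [hx, hy]
    rfl
  rw [h1 x y h, Nat.testBit_two_pow] at h2
  exact Fin.ext (by simpa using h2 : (cayleyThird x y : ℕ) = w).symm

/-- in a set of coordinates of the spinor format some coordinate is opposite to at most half of the
others -/
theorem spinor_comb (A : Finset (Fin 16)) (hA : A.Nonempty) :
    ∃ x ∈ A, 2 * (A.filter fun i => spinorO x i).card ≤ A.card := by
  by_cases h : ∃ p ∈ A, ∃ q ∈ A, spinorO p q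
  · obtain ⟨p, hp, q, hq, hpq⟩ := h
    have h1 : (A.filter fun i => spinorO p i).card + (A.filter fun i => spinorO q i).card
        ≤ A.card := by
      rw [← Finset.card_union_of_disjoint]
      · exact Finset.card_le_card
          (Finset.union_subset (Finset.filter_subset _ _) (Finset.filter_subset _ _))
      · rw [Finset.disjoint_left]
        intro i hi hi'
        exact spinorT_free (spinorO_T hpq) (spinorO_T (Finset.mem_filter.1 hi).2)
          (spinorO_T (Finset.mem_filter.1 hi').2)
    rcases le_total (A.filter fun i => spinorO p i).card (A.filter fun i => spinorO q i).card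
      with h2 | h2
    · exact ⟨p, hp, by omega⟩
    · exact ⟨q, hq, by omega⟩
  · push Not at h
    obtain ⟨x, hx⟩ := hA
    refine ⟨x, hx, ?_⟩
    rw [Finset.filter_false_of_mem fun i hi => h x hx i hi]
    simp

/-- in a set of coordinates of the Cayley format some coordinate is opposite to at most half of the
others, or the set contains a line and the bound is by one half larger -/
theorem cayley_comb (A : Finset (Fin 27)) (hA : A.Nonempty) :
    (∃ x ∈ A, 2 * (A.filter fun i => cayleyO x i).card ≤ A.card) ∨
    ((∃ x ∈ A, 2 * (A.filter fun i => cayleyO x i).card ≤ A.card + 1) ∧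
      ∃ p ∈ A, ∃ q ∈ A, cayleyO p q ∧ cayleyThird p q ∈ A) := by
  by_cases h : ∃ p ∈ A, ∃ q ∈ A, cayleyO p q
  swap
  · left
    push Not at h
    obtain ⟨x, hx⟩ := hA
    refine ⟨x, hx, ?_⟩
    rw [Finset.filter_false_of_mem fun i hi => h x hx i hi]
    simp
  obtain ⟨p, hp, q, hq, hpq⟩ := h
  have hT := cayleyO_T hpq
  by_cases hz : cayleyThird p q ∈ A
  · right
    refine ⟨?_, p, hp, q, hq, hpq, hz⟩
    obtain ⟨h1, h2, h3, h4⟩ := cayleyT_third hT
    set r := cayleyThird p q with hr
    have key : ∀ i ∈ A, ((if cayleyO p i then 1 else 0) + (if cayleyO q i then 1 else 0) +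
        (if cayleyO r i then 1 else 0) : ℕ) ≤ 1 + ((if i = p then 1 else 0) +
          (if i = q then 1 else 0) + (if i = r then 1 else 0)) := by
      intro i _
      by_cases hpi : cayleyO p i
      · by_cases hqi : cayleyO q i
        · have e1 : i = r := cayleyT_common hT (cayleyO_T hpi) (cayleyO_T hqi)
          have e2 : ¬ cayleyO r i := by
            intro h5
            have h6 := cayleyO_T h5
            rw [e1, cayleyT_irr] at h6
            exact absurd h6 (by simp)
          rw [if_pos hpi, if_pos hqi, if_neg e2, if_pos e1]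
          omega
        · by_cases hri : cayleyO r i
          · have e1 : i = q := by
              rw [cayleyT_common h1 (cayleyO_T hpi) (cayleyO_T hri), h3]
            rw [if_pos hpi, if_neg hqi, if_pos hri, if_pos e1]
            omega
          · rw [if_pos hpi, if_neg hqi, if_neg hri]
            omega
      · by_cases hqi : cayleyO q i
        · by_cases hri : cayleyO r i
          · have e1 : i = p := by
              rw [cayleyT_common h2 (cayleyO_T hqi) (cayleyO_T hri), h4]
            rw [if_neg hpi, if_pos hqi, if_pos hri, if_pos e1]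
            omega
          · rw [if_neg hpi, if_pos hqi, if_neg hri]
            omega
        · rw [if_neg hpi, if_neg hqi]
          split_ifs <;> omega
    have h5 := Finset.sum_le_sum key
    simp only [Finset.sum_add_distrib, ← Finset.card_filter] at h5
    have h6 : ∀ v : Fin 27, (A.filter fun i => i = v).card ≤ 1 := by
      intro v
      rw [Finset.card_le_one]
      intro a ha b hb
      rw [(Finset.mem_filter.1 ha).2, (Finset.mem_filter.1 hb).2]
    have h7 := h6 p
    have h8 := h6 q
    have h9 := h6 r
    have h10 : ∑ i ∈ A, 1 = A.card := by simp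
    have h11 : 0 < A.card := hA.card_pos
    by_contra hcon
    push Not at hcon
    have c1 := hcon p hp
    have c2 := hcon q hq
    have c3 := hcon r hz
    omega
  · left
    have h1 : (A.filter fun i => cayleyO p i).card + (A.filter fun i => cayleyO q i).card
        ≤ A.card := by
      rw [← Finset.card_union_of_disjoint]
      · exact Finset.card_le_card
          (Finset.union_subset (Finset.filter_subset _ _) (Finset.filter_subset _ _))
      · rw [Finset.disjoint_left]
        intro i hi hi'
        have e1 := cayleyT_common hT (cayleyO_T (Finset.mem_filter.1 hi).2)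
          (cayleyO_T (Finset.mem_filter.1 hi').2)
        rw [e1] at hi
        exact hz (Finset.mem_filter.1 hi).1
    rcases le_total (A.filter fun i => cayleyO p i).card (A.filter fun i => cayleyO q i).card
      with h2 | h2
    · exact ⟨p, hp, by omega⟩
    · exact ⟨q, hq, by omega⟩

theorem spinor_comb' (Z : Fin 16 → Prop) (h : ∃ i, Z i) :
    ∃ x, Z x ∧ ∀ (i₁ : DecidablePred fun i => Z i ∧ spinor.opp x i) (i₂ : DecidablePred Z),
      2 * (@Finset.filter _ (fun i => Z i ∧ spinor.opp x i) i₁ univ).card ≤
        (@Finset.filter _ Z i₂ univ).card := by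
  classical
  obtain ⟨i, hi⟩ := h
  obtain ⟨A, hA⟩ : ∃ A : Finset (Fin 16), ∀ i, i ∈ A ↔ Z i := ⟨univ.filter Z, by simp⟩
  obtain ⟨x, hx, hc⟩ := spinor_comb A ⟨i, (hA i).2 hi⟩
  refine ⟨x, (hA x).1 hx, fun i₁ i₂ => ?_⟩
  have e1 : @Finset.filter _ (fun i => Z i ∧ spinor.opp x i) i₁ univ
      = A.filter fun i => spinorO x i := by
    ext i
    rw [Finset.mem_filter, Finset.mem_filter, hA]
    exact and_iff_right (mem_univ _)
  have e2 : @Finset.filter _ Z i₂ univ = A := by
    ext i
    rw [Finset.mem_filter, hA]
    exact and_iff_right (mem_univ _)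
  rw [e1, e2]
  exact hc

theorem cayley_comb' (Z : Fin 27 → Prop) (h : ∃ i, Z i) :
    (∃ x, Z x ∧ ∀ (i₁ : DecidablePred fun i => Z i ∧ cayley.opp x i) (i₂ : DecidablePred Z),
      2 * (@Finset.filter _ (fun i => Z i ∧ cayley.opp x i) i₁ univ).card ≤
        (@Finset.filter _ Z i₂ univ).card) ∨
    ((∃ x, Z x ∧ ∀ (i₁ : DecidablePred fun i => Z i ∧ cayley.opp x i) (i₂ : DecidablePred Z),
      2 * (@Finset.filter _ (fun i => Z i ∧ cayley.opp x i) i₁ univ).card ≤
        (@Finset.filter _ Z i₂ univ).card + 1) ∧
      ∃ l t, Z (cayleyA l t) ∧ Z (cayleyB l t) ∧ Z (cayleyE l)) := by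
  classical
  obtain ⟨i, hi⟩ := h
  obtain ⟨A, hA⟩ : ∃ A : Finset (Fin 27), ∀ i, i ∈ A ↔ Z i := ⟨univ.filter Z, by simp⟩
  have key : ∀ (x : Fin 27) (c : ℕ), 2 * (A.filter fun i => cayleyO x i).card ≤ A.card + c →
      ∀ (i₁ : DecidablePred fun i => Z i ∧ cayley.opp x i) (i₂ : DecidablePred Z),
      2 * (@Finset.filter _ (fun i => Z i ∧ cayley.opp x i) i₁ univ).card ≤
        (@Finset.filter _ Z i₂ univ).card + c := by
    intro x c hc i₁ i₂
    have e1 : @Finset.filter _ (fun i => Z i ∧ cayley.opp x i) i₁ univ
        = A.filter fun i => cayleyO x i := by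
      ext i
      rw [Finset.mem_filter, Finset.mem_filter, hA]
      exact and_iff_right (mem_univ _)
    have e2 : @Finset.filter _ Z i₂ univ = A := by
      ext i
      rw [Finset.mem_filter, hA]
      exact and_iff_right (mem_univ _)
    rw [e1, e2]
    exact hc
  rcases cayley_comb A ⟨i, (hA i).2 hi⟩ with
    ⟨x, hx, hc⟩ | ⟨⟨x, hx, hc⟩, p, hp, q, hq, ⟨l, t, ho⟩, hr⟩
  · exact Or.inl ⟨x, (hA x).1 hx, key x 0 hc⟩
  · refine Or.inr ⟨⟨x, (hA x).1 hx, key x 1 hc⟩, l, t, ?_⟩
    rcases ho with ⟨rfl, rfl⟩ | ⟨rfl, rfl⟩
    · rw [(cayleyThird_E l t).1] at hr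
      exact ⟨(hA _).1 hp, (hA _).1 hq, (hA _).1 hr⟩
    · rw [(cayleyThird_E l t).2] at hr
      exact ⟨(hA _).1 hq, (hA _).1 hp, (hA _).1 hr⟩

end Pool.Agent.Q2.SF
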