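import Pool.Agent.Q2.TF.Gen

/-!
# Quadratic formats and their products: the count of the fixed coordinates
-/

set_option autoImplicit false

namespace Pool.Agent.Q2.SF

open Finset MvPolynomial Pool.Agent.Q35.PX Pool.Agent.Q2.TF

/-- Quadratic equations `∑ t, c l t * y (a l t) * y (b l t)` in `n` coordinates. -/
structure QF where
  n : ℕ
  L : ℕ
  t : ℕ
  c : Fin L → Fin t → ℤ
  a : Fin L → Fin t → Fin n
  b : Fin L → Fin t → Fin n

namespace QF

/-- the product of the two coordinates occurs in an equation -/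
def opp (F : QF) (x y : Fin F.n) : Prop :=
  ∃ l t, (F.a l t = x ∧ F.b l t = y) ∨ (F.a l t = y ∧ F.b l t = x)

instance (F : QF) (x y : Fin F.n) : Decidable (F.opp x y) := by
  unfold opp
  infer_instance

/-- the value of an equation -/
def val (F : QF) {R : Type} [CommRing R] (y : Fin F.n → R) (l : Fin F.L) : R :=
  ∑ t, (F.c l t : R) * y (F.a l t) * y (F.b l t)

/-- The equations define a variety which is rational in the expected way: if the coordinate `x` is
not zero, the coordinates not opposite to `x` can be prescribed. -/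
structure Nice (F : QF) : Prop where
  unit : ∀ l t, F.c l t = 1 ∨ F.c l t = -1
  pt : ∀ (K : Type) [Field K] (x : Fin F.n) (u : Fin F.n → K), u x ≠ 0 →
    ∃ y : Fin F.n → K, (∀ j, ¬ F.opp x j → y j = u j) ∧ ∀ l, F.val y l = 0
  irr : ∀ x, ¬ F.opp x x
  nonopp : ∀ l t t', t ≠ t' → (¬ F.opp (F.a l t) (F.a l t') ∧ ¬ F.opp (F.a l t) (F.b l t') ∧
    ¬ F.opp (F.b l t) (F.a l t') ∧ ¬ F.opp (F.b l t) (F.b l t'))

variable {F : QF}

theorem opp_symm {x y : Fin F.n} (h : F.opp x y) : F.opp y x := by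
  obtain ⟨l, t, h | h⟩ := h
  · exact ⟨l, t, Or.inr h⟩
  · exact ⟨l, t, Or.inl h⟩

/-- a solution with support in a closed set -/
theorem Nice.support (hF : F.Nice) {K B : Type} [Field K] [CommGroup B] {z : Fin F.n → B}
    (hz : ∀ l t t', z (F.a l t) * z (F.b l t) = z (F.a l t') * z (F.b l t'))
    {x : Fin F.n} (hx : z x = 1) {y : Fin F.n → K} (hyx : y x ≠ 0)
    (hy : ∀ j, ¬ F.opp x j → z j ≠ 1 → y j = 0) (hval : ∀ l, F.val y l = 0) (j : Fin F.n)
    (hj : z j ≠ 1) : y j = 0 := by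
  by_cases ho : F.opp x j
  swap
  · exact hy j ho hj
  obtain ⟨l, t, h⟩ := ho
  have hprod : z (F.a l t) * z (F.b l t) = z j := by
    rcases h with ⟨h1, h2⟩ | ⟨h1, h2⟩
    · rw [h1, h2, hx, one_mul]
    · rw [h1, h2, hx, mul_one]
  -- the other monomials vanish
  have hother : ∀ t', t' ≠ t → (F.c l t' : K) * y (F.a l t') * y (F.b l t') = 0 := by
    intro t' ht
    obtain ⟨n1, n2, n3, n4⟩ := hF.nonopp l t t' (Ne.symm ht)
    have ha : ¬ F.opp x (F.a l t') := by
      rcases h with ⟨h1, h2⟩ | ⟨h1, h2⟩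
      · rw [h1] at n1; exact n1
      · rw [h2] at n3; exact n3
    have hb : ¬ F.opp x (F.b l t') := by
      rcases h with ⟨h1, h2⟩ | ⟨h1, h2⟩
      · rw [h1] at n2; exact n2
      · rw [h2] at n4; exact n4
    by_cases h5 : z (F.a l t') = 1
    · have h6 : z (F.b l t') ≠ 1 := by
        intro h7
        apply hj
        rw [← hprod, hz l t t', h5, h7, one_mul]
      rw [hy _ hb h6, mul_zero]
    · rw [hy _ ha h5, mul_zero, zero_mul]
  have h1 := hval l
  unfold val at h1
  rw [Finset.sum_eq_single t (fun t' _ ht => hother t' ht)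
    (fun h => absurd (mem_univ t) h)] at h1
  have hc : ((F.c l t : ℤ) : K) ≠ 0 := by
    rcases hF.unit l t with h2 | h2 <;> rw [h2] <;> norm_num
  rcases mul_eq_zero.1 h1 with h2 | h2
  · rcases mul_eq_zero.1 h2 with h3 | h3
    · exact absurd h3 hc
    · rcases h with ⟨h4, h5⟩ | ⟨h4, h5⟩
      · rw [h4] at h3; exact absurd h3 hyx
      · rw [h4] at h3; exact h3
  · rcases h with ⟨h4, h5⟩ | ⟨h4, h5⟩
    · rw [h5] at h2; exact h2
    · rw [h5] at h2; exact absurd h2 hyx

/-- the polynomial of an equation, in the coordinates of one factor of a product -/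
noncomputable def poly (F : QF) {k ι : Type} [Field k] (e : Fin F.n → ι) (l : Fin F.L) :
    MvPolynomial ι k :=
  ∑ t, (F.c l t : MvPolynomial ι k) * X (e (F.a l t)) * X (e (F.b l t))

theorem aeval_poly {k ι R : Type} [Field k] [CommRing R] [Algebra k R] (e : Fin F.n → ι)
    (l : Fin F.L) (y : ι → R) : aeval y (F.poly (k := k) e l) = F.val (y ∘ e) l := by
  unfold poly val
  rw [map_sum]
  refine Finset.sum_congr rfl fun t _ => ?_
  rw [map_mul, map_mul, aeval_X, aeval_X, map_intCast]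
  rfl

theorem eval_poly {k ι : Type} [Field k] (e : Fin F.n → ι)
    (l : Fin F.L) (y : ι → k) : eval y (F.poly (k := k) e l) = F.val (y ∘ e) l := by
  rw [← coe_aeval_eq_eval, RingHom.coe_coe]
  exact aeval_poly e l y

theorem poly_hom {k ι : Type} [Field k] {e : Fin F.n → ι} {wt : ι → ℕ} {l : Fin F.L} {m : ℕ}
    (h : ∀ t, wt (e (F.a l t)) + wt (e (F.b l t)) = m) :
    IsWeightedHomogeneous wt (F.poly (k := k) e l) m := by
  refine IsWeightedHomogeneous.sum _ _ _ fun t _ => ?_
  rw [← h t]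
  have h1 : IsWeightedHomogeneous wt (((F.c l t : ℤ) : MvPolynomial ι k)) 0 := by
    have h2 := isWeightedHomogeneous_C (R := k) wt ((F.c l t : ℤ) : k)
    simpa using h2
  have h2 := (h1.mul (isWeightedHomogeneous_X k wt (e (F.a l t)))).mul
    (isWeightedHomogeneous_X k wt (e (F.b l t)))
  rwa [zero_add] at h2

end QF

attribute [irreducible] QF.poly

/-- the degrees of the coordinates of a product -/
def wtS {α : Type} {q : ℕ} (F : α → QF) (d : ∀ a, Fin (F a).n → ℕ) (δ : Fin q → ℕ) :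
    (Σ a, Fin (F a).n) ⊕ Fin q → ℕ := Sum.elim (fun s => d s.1 s.2) δ

/-- the equations of a product -/
noncomputable def eqS {α : Type} {q : ℕ} (k : Type) [Field k] (F : α → QF) :
    (Σ a, Fin (F a).L) ⊕ Fin q → MvPolynomial ((Σ a, Fin (F a).n) ⊕ Fin q) k :=
  Sum.elim (fun s => (F s.1).poly (fun i => Sum.inl ⟨s.1, i⟩) s.2) (fun j => X (Sum.inr j))

/-- the degrees of the equations of a product -/
def muS {α : Type} {q : ℕ} (F : α → QF) (d : ∀ a, Fin (F a).n → ℕ) (δ : Fin q → ℕ) :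
    (Σ a, Fin (F a).L) ⊕ Fin q → ℕ :=
  Sum.elim (fun s => if h : 0 < (F s.1).t then d s.1 ((F s.1).a s.2 ⟨0, h⟩)
      + d s.1 ((F s.1).b s.2 ⟨0, h⟩) else 0) δ

theorem eqS_hom {α : Type} {q : ℕ} {k : Type} [Field k] (F : α → QF)
    (d : ∀ a, Fin (F a).n → ℕ) (hd : ∀ a l t t', d a ((F a).a l t) + d a ((F a).b l t)
      = d a ((F a).a l t') + d a ((F a).b l t'))
    (δ : Fin q → ℕ) (x : (Σ a, Fin (F a).L) ⊕ Fin q) :
    IsWeightedHomogeneous (wtS F d δ) (eqS k F x) (muS F d δ x) := by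
  rcases x with ⟨a, l⟩ | j
  · have h1 : ∀ t, wtS F d δ (Sum.inl ⟨a, (F a).a l t⟩) + wtS F d δ (Sum.inl ⟨a, (F a).b l t⟩)
        = muS F d δ (Sum.inl ⟨a, l⟩) := by
      intro t
      have ht : 0 < (F a).t := lt_of_le_of_lt (Nat.zero_le _) t.2
      show d a ((F a).a l t) + d a ((F a).b l t) = if h : 0 < (F a).t then
        d a ((F a).a l ⟨0, h⟩) + d a ((F a).b l ⟨0, h⟩) else 0
      rw [dif_pos ht]
      exact hd a l t ⟨0, ht⟩
    have e1 : eqS k F (Sum.inl ⟨a, l⟩)
        = (F a).poly (k := k) (fun i => (Sum.inl ⟨a, i⟩ : (Σ a, Fin (F a).n) ⊕ Fin q)) l := rfl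
    rw [e1]
    exact QF.poly_hom h1
  · exact isWeightedHomogeneous_X k (wtS F d δ) (Sum.inr j)

open Classical in
/-- **The count for a product of quadratic formats and a complete intersection.** -/
theorem count_prod {k : Type} [Field k] [IsAlgClosed k] (hDim : S_Dim) {N q : ℕ} {α : Type}
    [Fintype α] (F : α → QF) (hF : ∀ a, (F a).Nice) {w : Fin N → ℕ} (hw : ∀ i, 0 < w i)
    (d : ∀ a, Fin (F a).n → ℕ) (hd0 : ∀ a i, 0 < d a i)
    (hd : ∀ a l t t', d a ((F a).a l t) + d a ((F a).b l t)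
      = d a ((F a).a l t') + d a ((F a).b l t'))
    (δ : Fin q → ℕ) (hδ : ∀ j, 0 < δ j)
    (f : ∀ a, Fin (F a).n → MvPolynomial (Fin N) k) (g : Fin q → MvPolynomial (Fin N) k)
    (hf : ∀ a i, IsWeightedHomogeneous w (f a i) (d a i))
    (hg : ∀ j, IsWeightedHomogeneous w (g j) (δ j))
    (T : Finset (Fin N)) (z : ∀ a, Fin (F a).n → kˣ)
    (hz : ∀ a l t t', z a ((F a).a l t) * z a ((F a).b l t)
      = z a ((F a).a l t') * z a ((F a).b l t')) (B : Finset (Fin q))
    (hA : ∀ a i, z a i ≠ 1 → ∀ p : Fin N → k, (∀ i, i ∉ T → p i = 0) → eval p (f a i) = 0)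
    (hB : ∀ j, j ∉ B → ∀ p : Fin N → k, (∀ i, i ∉ T → p i = 0) → eval p (g j) = 0)
    (hT : ∀ p : Fin N → k, (∀ i, i ∉ T → p i = 0) →
      (∀ a l, (F a).val (fun i => eval p (f a i)) l = 0) → (∀ j, eval p (g j) = 0) → p = 0)
    -- a vertex in each factor
    (x : ∀ a, Option (Fin (F a).n)) (hx : ∀ a i, x a = some i → z a i = 1) :
    T.card ≤ ∑ a, (univ.filter fun i => z a i = 1 ∧ ∀ j, x a = some j → (F a).opp j i).card
      + B.card := by
  let ι := Σ a, Fin (F a).n
  let R := MvPolynomial ι k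
  let K := FractionRing R
  have hinj : Function.Injective (algebraMap R K) := IsFractionRing.injective _ _
  -- the generic point
  let u : ∀ a, Fin (F a).n → K := fun a i => if z a i = 1 then algebraMap R K (X ⟨a, i⟩) else 0
  have hu0 : ∀ a i, z a i = 1 → u a i ≠ 0 := by
    intro a i hi
    show (if z a i = 1 then algebraMap R K (X ⟨a, i⟩) else 0) ≠ 0
    rw [if_pos hi]
    intro h0
    exact X_ne_zero _ (hinj (by rw [h0, map_zero]))
  have hex : ∀ a, ∃ y : Fin (F a).n → K, (∀ l, (F a).val y l = 0) ∧ (∀ i, z a i ≠ 1 → y i = 0) ∧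
      ∀ j, x a = some j → ∀ i, ¬ (F a).opp j i → y i = u a i := by
    intro a
    rcases hxa : x a with _ | j
    · refine ⟨0, fun l => ?_, fun i _ => rfl, fun j hj => by simp at hj⟩
      unfold QF.val
      exact Finset.sum_eq_zero fun t _ => by simp
    · obtain ⟨y, hy1, hy2⟩ := (hF a).pt K j (u a) (hu0 a j (hx a j hxa))
      refine ⟨y, hy2, ?_, ?_⟩
      · intro i hi
        refine (hF a).support (hz a) (hx a j hxa) (y := y) ?_ ?_ hy2 i hi
        · rw [hy1 j ((hF a).irr j)]
          exact hu0 a j (hx a j hxa)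
        · intro i' h1 h2
          rw [hy1 i' h1]
          show (if z a i' = 1 then algebraMap R K (X ⟨a, i'⟩) else 0) = 0
          rw [if_neg h2]
      · intro j' hj' i hi
        have : j = j' := by simpa using hj'
        subst this
        exact hy1 i hi
  choose y hy1 hy2 hy3 using hex
  -- the free coordinates
  let κ : Finset ι := univ.filter fun s => z s.1 s.2 = 1 ∧ ∃ j, x s.1 = some j ∧ ¬ (F s.1).opp j s.2
  let A : Finset ι := univ.filter fun s => z s.1 s.2 = 1
  have h1 := count_gen (k := k) (K := K) (Λ := (Σ a, Fin (F a).L) ⊕ Fin q)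
    (κ := {s // s ∈ κ}) hDim hw (wtS F d δ)
    (by rintro (s | j); exacts [hd0 _ _, hδ _]) (Sum.elim (fun s : ι => f s.1 s.2) g)
    (by rintro (s | j); exacts [hf _ _, hg _])
    (eqS k F) (muS F d δ) (eqS_hom F d hd δ) T (A.disjSum B) ?_ ?_
    (Sum.elim (fun s : ι => y s.1 s.2) (fun _ => 0)) ?_ ?_ (fun s => Sum.inl s.1) ?_ ?_ ?_
  · rw [Finset.card_disjSum, Fintype.card_coe] at h1
    have h2 : κ.card + (univ.filter fun s : ι => z s.1 s.2 = 1 ∧
        ∀ j, x s.1 = some j → (F s.1).opp j s.2).card = A.card := by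
      rw [← Finset.card_union_of_disjoint]
      · congr 1
        ext s
        simp only [κ, A, Finset.mem_union, Finset.mem_filter, mem_univ, true_and]
        constructor
        · rintro (h | h)
          · exact h.1
          · exact h.1
        · intro h
          by_cases h3 : ∀ j, x s.1 = some j → (F s.1).opp j s.2
          · exact Or.inr ⟨h, h3⟩
          · push Not at h3
            exact Or.inl ⟨h, h3⟩
      · rw [Finset.disjoint_left]
        intro s hs hs'
        obtain ⟨-, j, hj, hj'⟩ := (Finset.mem_filter.1 hs).2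
        exact hj' ((Finset.mem_filter.1 hs').2.2 j hj)
    have h3 : (univ.filter fun s : ι => z s.1 s.2 = 1 ∧
        ∀ j, x s.1 = some j → (F s.1).opp j s.2).card
        = ∑ a, (univ.filter fun i => z a i = 1 ∧ ∀ j, x a = some j → (F a).opp j i).card := by
      rw [← Finset.card_sigma]
      congr 1
      ext s
      rw [Finset.mem_sigma, Finset.mem_filter, Finset.mem_filter]
      simp only [mem_univ, true_and]
    omega
  · rintro (s | j) hi p hp
    · refine hA s.1 s.2 ?_ p hp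
      intro h
      exact hi (Finset.inl_mem_disjSum.2 (Finset.mem_filter.2 ⟨mem_univ _, h⟩))
    · exact hB j (fun h => hi (Finset.inr_mem_disjSum.2 h)) p hp
  · intro p hp h2
    apply hT p hp
    · intro a l
      have h3 := h2 (Sum.inl ⟨a, l⟩)
      have e1 : eqS k F (Sum.inl ⟨a, l⟩)
        = (F a).poly (k := k) (fun i => (Sum.inl ⟨a, i⟩ : ι ⊕ Fin q)) l := rfl
      rw [e1, QF.eval_poly] at h3
      exact h3
    · intro j
      have h3 := h2 (Sum.inr j)
      have e1 : eqS k F (Sum.inr j) = (X (Sum.inr j) : MvPolynomial (ι ⊕ Fin q) k) := rfl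
      rw [e1, eval_X] at h3
      exact h3
  · rintro (s | j) hi
    · refine hy2 s.1 s.2 ?_
      intro h
      exact hi (Finset.inl_mem_disjSum.2 (Finset.mem_filter.2 ⟨mem_univ _, h⟩))
    · rfl
  · rintro (s | j)
    · have e1 : eqS k F (Sum.inl s)
        = (F s.1).poly (k := k) (fun i => (Sum.inl ⟨s.1, i⟩ : ι ⊕ Fin q)) s.2 := rfl
      rw [e1, QF.aeval_poly]
      exact hy1 s.1 s.2
    · have e1 : eqS k F (Sum.inr j) = (X (Sum.inr j) : MvPolynomial (ι ⊕ Fin q) k) := rfl
      rw [e1, aeval_X]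
      rfl
  · intro s s' h
    exact Subtype.ext (Sum.inl_injective h)
  · intro s
    exact Finset.inl_mem_disjSum.2 (Finset.mem_filter.2 ⟨mem_univ _, (Finset.mem_filter.1 s.2).2.1⟩)
  · have h2 : AlgebraicIndependent k (fun s : {s // s ∈ κ} => (X s.1 : R)) :=
      (MvPolynomial.algebraicIndependent_X ι k).comp _ Subtype.val_injective
    have h3 := h2.map' (f := IsScalarTower.toAlgHom k R K) hinj
    have h4 : (Sum.elim (fun s : ι => y s.1 s.2) (fun _ => 0) : ι ⊕ Fin q → K) ∘
        (fun s : {s // s ∈ κ} => Sum.inl s.1)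
        = ⇑(IsScalarTower.toAlgHom k R K) ∘ (fun s : {s // s ∈ κ} => (X s.1 : R)) := by
      funext s
      obtain ⟨hs, j, hj, hj'⟩ := (Finset.mem_filter.1 s.2).2
      show y s.1.1 s.1.2 = algebraMap R K (X s.1)
      rw [hy3 _ j hj _ hj']
      show (if z s.1.1 s.1.2 = 1 then algebraMap R K (X ⟨s.1.1, s.1.2⟩) else 0) = _
      rw [if_pos hs]
    rw [h4]
    exact h3

end Pool.Agent.Q2.SF
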