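import Pool.Agent.Q2.SF.Comb
import Pool.Agent.Q2.SF.Fac

/-!
# The spinor format in terms of a skew-symmetric matrix of size five. Generated.
-/

set_option autoImplicit false

namespace Pool.Agent.Q2.SF

open Finset MvPolynomial

/-- the Pfaffians of the skew-symmetric submatrices of size four of a skew-symmetric matrix of size
five, with the usual signs -/
def pfaffians {R : Type} [CommRing R] (M : Matrix (Fin 5) (Fin 5) R) : Fin 5 → R :=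
  ![M 1 2 * M 3 4 - M 1 3 * M 2 4 + M 1 4 * M 2 3,
    -(M 0 2 * M 3 4 - M 0 3 * M 2 4 + M 0 4 * M 2 3),
    M 0 1 * M 3 4 - M 0 3 * M 1 4 + M 0 4 * M 1 3,
    -(M 0 1 * M 2 4 - M 0 2 * M 1 4 + M 0 4 * M 1 2),
    M 0 1 * M 2 3 - M 0 2 * M 1 3 + M 0 3 * M 1 2]

/-- the 16 coordinates -/
def spinorV {R : Type} (s : R) (v : Fin 5 → R) (M : Matrix (Fin 5) (Fin 5) R) : Fin 16 → R :=
  ![s, v 0, v 1, v 2, v 3, v 4, M 0 1, M 0 2, M 0 3, M 0 4, M 1 2, M 1 3, M 1 4, M 2 3, M 2 4, M 3 4]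

/-- their weights -/
def spinorW {W : Type} [AddCommGroup W] (b : Fin 5 → W) (c : W) : Fin 16 → W :=
  ![c + c - (b 0 + b 1 + b 2 + b 3 + b 4),
    b 0,
    b 1,
    b 2,
    b 3,
    b 4,
    c - b 0 - b 1,
    c - b 0 - b 2,
    c - b 0 - b 3,
    c - b 0 - b 4,
    c - b 1 - b 2,
    c - b 1 - b 3,
    c - b 1 - b 4,
    c - b 2 - b 3,
    c - b 2 - b 4,
    c - b 3 - b 4]

theorem spinor_link {R : Type} [CommRing R] (s : R) (v : Fin 5 → R) (M : Matrix (Fin 5) (Fin 5) R)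
    (hM : ∀ i j, M j i = - M i j) (h0 : ∀ i, M i i = 0) :
    (∀ i, ∃ l, s * v i - pfaffians M i = spinor.val (spinorV s v M) l) ∧
      ∀ i, ∃ l, (M.mulVec v) i = spinor.val (spinorV s v M) l := by
  constructor
  · intro i
    fin_cases i
    · refine ⟨(0 : Fin 10), ?_⟩
      show s * v 0 - (M 1 2 * M 3 4 - M 1 3 * M 2 4 + M 1 4 * M 2 3) = ∑ t : Fin 4, _
      rw [Fin.sum_univ_four]
      show _ = (((1 : ℤ)) : R) * (s) * (v 0) + (((-1 : ℤ)) : R) * (M 1 2) * (M 3 4) + (((1 : ℤ)) : R) * (M 1 3) * (M 2 4) + (((-1 : ℤ)) : R) * (M 1 4) * (M 2 3)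
      push_cast
      ring
    · refine ⟨(1 : Fin 10), ?_⟩
      show s * v 1 - (-(M 0 2 * M 3 4 - M 0 3 * M 2 4 + M 0 4 * M 2 3)) = ∑ t : Fin 4, _
      rw [Fin.sum_univ_four]
      show _ = (((1 : ℤ)) : R) * (s) * (v 1) + (((1 : ℤ)) : R) * (M 0 2) * (M 3 4) + (((-1 : ℤ)) : R) * (M 0 3) * (M 2 4) + (((1 : ℤ)) : R) * (M 0 4) * (M 2 3)
      push_cast
      ring
    · refine ⟨(2 : Fin 10), ?_⟩
      show s * v 2 - (M 0 1 * M 3 4 - M 0 3 * M 1 4 + M 0 4 * M 1 3) = ∑ t : Fin 4, _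
      rw [Fin.sum_univ_four]
      show _ = (((1 : ℤ)) : R) * (s) * (v 2) + (((-1 : ℤ)) : R) * (M 0 1) * (M 3 4) + (((1 : ℤ)) : R) * (M 0 3) * (M 1 4) + (((-1 : ℤ)) : R) * (M 0 4) * (M 1 3)
      push_cast
      ring
    · refine ⟨(3 : Fin 10), ?_⟩
      show s * v 3 - (-(M 0 1 * M 2 4 - M 0 2 * M 1 4 + M 0 4 * M 1 2)) = ∑ t : Fin 4, _
      rw [Fin.sum_univ_four]
      show _ = (((1 : ℤ)) : R) * (s) * (v 3) + (((1 : ℤ)) : R) * (M 0 1) * (M 2 4) + (((-1 : ℤ)) : R) * (M 0 2) * (M 1 4) + (((1 : ℤ)) : R) * (M 0 4) * (M 1 2)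
      push_cast
      ring
    · refine ⟨(4 : Fin 10), ?_⟩
      show s * v 4 - (M 0 1 * M 2 3 - M 0 2 * M 1 3 + M 0 3 * M 1 2) = ∑ t : Fin 4, _
      rw [Fin.sum_univ_four]
      show _ = (((1 : ℤ)) : R) * (s) * (v 4) + (((-1 : ℤ)) : R) * (M 0 1) * (M 2 3) + (((1 : ℤ)) : R) * (M 0 2) * (M 1 3) + (((-1 : ℤ)) : R) * (M 0 3) * (M 1 2)
      push_cast
      ring
  · intro i
    fin_cases i
    · refine ⟨(5 : Fin 10), ?_⟩
      show ∑ j : Fin 5, M 0 j * v j = ∑ t : Fin 4, _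
      rw [Fin.sum_univ_five, Fin.sum_univ_four, h0 0]
      show _ = (((1 : ℤ)) : R) * (M 0 1) * (v 1) + (((1 : ℤ)) : R) * (M 0 2) * (v 2) + (((1 : ℤ)) : R) * (M 0 3) * (v 3) + (((1 : ℤ)) : R) * (M 0 4) * (v 4)
      push_cast
      ring
    · refine ⟨(6 : Fin 10), ?_⟩
      show ∑ j : Fin 5, M 1 j * v j = ∑ t : Fin 4, _
      rw [Fin.sum_univ_five, Fin.sum_univ_four, hM 0 1, h0 1]
      show _ = (((-1 : ℤ)) : R) * (M 0 1) * (v 0) + (((1 : ℤ)) : R) * (M 1 2) * (v 2) + (((1 : ℤ)) : R) * (M 1 3) * (v 3) + (((1 : ℤ)) : R) * (M 1 4) * (v 4)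
      push_cast
      ring
    · refine ⟨(7 : Fin 10), ?_⟩
      show ∑ j : Fin 5, M 2 j * v j = ∑ t : Fin 4, _
      rw [Fin.sum_univ_five, Fin.sum_univ_four, hM 0 2, hM 1 2, h0 2]
      show _ = (((-1 : ℤ)) : R) * (M 0 2) * (v 0) + (((-1 : ℤ)) : R) * (M 1 2) * (v 1) + (((1 : ℤ)) : R) * (M 2 3) * (v 3) + (((1 : ℤ)) : R) * (M 2 4) * (v 4)
      push_cast
      ring
    · refine ⟨(8 : Fin 10), ?_⟩
      show ∑ j : Fin 5, M 3 j * v j = ∑ t : Fin 4, _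
      rw [Fin.sum_univ_five, Fin.sum_univ_four, hM 0 3, hM 1 3, hM 2 3, h0 3]
      show _ = (((-1 : ℤ)) : R) * (M 0 3) * (v 0) + (((-1 : ℤ)) : R) * (M 1 3) * (v 1) + (((-1 : ℤ)) : R) * (M 2 3) * (v 2) + (((1 : ℤ)) : R) * (M 3 4) * (v 4)
      push_cast
      ring
    · refine ⟨(9 : Fin 10), ?_⟩
      show ∑ j : Fin 5, M 4 j * v j = ∑ t : Fin 4, _
      rw [Fin.sum_univ_five, Fin.sum_univ_four, hM 0 4, hM 1 4, hM 2 4, hM 3 4, h0 4]
      show _ = (((-1 : ℤ)) : R) * (M 0 4) * (v 0) + (((-1 : ℤ)) : R) * (M 1 4) * (v 1) + (((-1 : ℤ)) : R) * (M 2 4) * (v 2) + (((-1 : ℤ)) : R) * (M 3 4) * (v 3)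
      push_cast
      ring

theorem spinor_rel {W : Type} [AddCommGroup W] (b : Fin 5 → W) (c : W) (l : Fin 10) (t : Fin 4) :
    spinorW b c (spinorA l t) + spinorW b c (spinorB l t)
      = spinorW b c (spinorA l 0) + spinorW b c (spinorB l 0) := by
  fin_cases l
  · fin_cases t
    · show (c + c - (b 0 + b 1 + b 2 + b 3 + b 4)) + (b 0) = (c + c - (b 0 + b 1 + b 2 + b 3 + b 4)) + (b 0)
      abel
    · show (c - b 1 - b 2) + (c - b 3 - b 4) = (c + c - (b 0 + b 1 + b 2 + b 3 + b 4)) + (b 0)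
      abel
    · show (c - b 1 - b 3) + (c - b 2 - b 4) = (c + c - (b 0 + b 1 + b 2 + b 3 + b 4)) + (b 0)
      abel
    · show (c - b 1 - b 4) + (c - b 2 - b 3) = (c + c - (b 0 + b 1 + b 2 + b 3 + b 4)) + (b 0)
      abel
  · fin_cases t
    · show (c + c - (b 0 + b 1 + b 2 + b 3 + b 4)) + (b 1) = (c + c - (b 0 + b 1 + b 2 + b 3 + b 4)) + (b 1)
      abel
    · show (c - b 0 - b 2) + (c - b 3 - b 4) = (c + c - (b 0 + b 1 + b 2 + b 3 + b 4)) + (b 1)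
      abel
    · show (c - b 0 - b 3) + (c - b 2 - b 4) = (c + c - (b 0 + b 1 + b 2 + b 3 + b 4)) + (b 1)
      abel
    · show (c - b 0 - b 4) + (c - b 2 - b 3) = (c + c - (b 0 + b 1 + b 2 + b 3 + b 4)) + (b 1)
      abel
  · fin_cases t
    · show (c + c - (b 0 + b 1 + b 2 + b 3 + b 4)) + (b 2) = (c + c - (b 0 + b 1 + b 2 + b 3 + b 4)) + (b 2)
      abel
    · show (c - b 0 - b 1) + (c - b 3 - b 4) = (c + c - (b 0 + b 1 + b 2 + b 3 + b 4)) + (b 2)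
      abel
    · show (c - b 0 - b 3) + (c - b 1 - b 4) = (c + c - (b 0 + b 1 + b 2 + b 3 + b 4)) + (b 2)
      abel
    · show (c - b 0 - b 4) + (c - b 1 - b 3) = (c + c - (b 0 + b 1 + b 2 + b 3 + b 4)) + (b 2)
      abel
  · fin_cases t
    · show (c + c - (b 0 + b 1 + b 2 + b 3 + b 4)) + (b 3) = (c + c - (b 0 + b 1 + b 2 + b 3 + b 4)) + (b 3)
      abel
    · show (c - b 0 - b 1) + (c - b 2 - b 4) = (c + c - (b 0 + b 1 + b 2 + b 3 + b 4)) + (b 3)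
      abel
    · show (c - b 0 - b 2) + (c - b 1 - b 4) = (c + c - (b 0 + b 1 + b 2 + b 3 + b 4)) + (b 3)
      abel
    · show (c - b 0 - b 4) + (c - b 1 - b 2) = (c + c - (b 0 + b 1 + b 2 + b 3 + b 4)) + (b 3)
      abel
  · fin_cases t
    · show (c + c - (b 0 + b 1 + b 2 + b 3 + b 4)) + (b 4) = (c + c - (b 0 + b 1 + b 2 + b 3 + b 4)) + (b 4)
      abel
    · show (c - b 0 - b 1) + (c - b 2 - b 3) = (c + c - (b 0 + b 1 + b 2 + b 3 + b 4)) + (b 4)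
      abel
    · show (c - b 0 - b 2) + (c - b 1 - b 3) = (c + c - (b 0 + b 1 + b 2 + b 3 + b 4)) + (b 4)
      abel
    · show (c - b 0 - b 3) + (c - b 1 - b 2) = (c + c - (b 0 + b 1 + b 2 + b 3 + b 4)) + (b 4)
      abel
  · fin_cases t
    · show (c - b 0 - b 1) + (b 1) = (c - b 0 - b 1) + (b 1)
      abel
    · show (c - b 0 - b 2) + (b 2) = (c - b 0 - b 1) + (b 1)
      abel
    · show (c - b 0 - b 3) + (b 3) = (c - b 0 - b 1) + (b 1)
      abel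
    · show (c - b 0 - b 4) + (b 4) = (c - b 0 - b 1) + (b 1)
      abel
  · fin_cases t
    · show (c - b 0 - b 1) + (b 0) = (c - b 0 - b 1) + (b 0)
      abel
    · show (c - b 1 - b 2) + (b 2) = (c - b 0 - b 1) + (b 0)
      abel
    · show (c - b 1 - b 3) + (b 3) = (c - b 0 - b 1) + (b 0)
      abel
    · show (c - b 1 - b 4) + (b 4) = (c - b 0 - b 1) + (b 0)
      abel
  · fin_cases t
    · show (c - b 0 - b 2) + (b 0) = (c - b 0 - b 2) + (b 0)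
      abel
    · show (c - b 1 - b 2) + (b 1) = (c - b 0 - b 2) + (b 0)
      abel
    · show (c - b 2 - b 3) + (b 3) = (c - b 0 - b 2) + (b 0)
      abel
    · show (c - b 2 - b 4) + (b 4) = (c - b 0 - b 2) + (b 0)
      abel
  · fin_cases t
    · show (c - b 0 - b 3) + (b 0) = (c - b 0 - b 3) + (b 0)
      abel
    · show (c - b 1 - b 3) + (b 1) = (c - b 0 - b 3) + (b 0)
      abel
    · show (c - b 2 - b 3) + (b 2) = (c - b 0 - b 3) + (b 0)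
      abel
    · show (c - b 3 - b 4) + (b 4) = (c - b 0 - b 3) + (b 0)
      abel
  · fin_cases t
    · show (c - b 0 - b 4) + (b 0) = (c - b 0 - b 4) + (b 0)
      abel
    · show (c - b 1 - b 4) + (b 1) = (c - b 0 - b 4) + (b 0)
      abel
    · show (c - b 2 - b 4) + (b 2) = (c - b 0 - b 4) + (b 0)
      abel
    · show (c - b 3 - b 4) + (b 3) = (c - b 0 - b 4) + (b 0)
      abel

theorem sum_spinorW {W : Type} [AddCommGroup W] (b : Fin 5 → W) (c : W) :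
    ∑ i, spinorW b c i = 12 • c - 4 • (b 0 + b 1 + b 2 + b 3 + b 4) := by
  simp only [Fin.sum_univ_succ, Fin.sum_univ_zero]
  show (c + c - (b 0 + b 1 + b 2 + b 3 + b 4)) + ((b 0) + ((b 1) + ((b 2) + ((b 3) + ((b 4) + ((c - b 0 - b 1) + ((c - b 0 - b 2) + ((c - b 0 - b 3) + ((c - b 0 - b 4) + ((c - b 1 - b 2) + ((c - b 1 - b 3) + ((c - b 1 - b 4) + ((c - b 2 - b 3) + ((c - b 2 - b 4) + ((c - b 3 - b 4) + 0))))))))))))))) = _
  abel

end Pool.Agent.Q2.SF
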