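import Pool.Agent.Q2.SF.QF

/-!
# The spinor format

Coordinates: `s`, `v 0`, …, `v 4`, `M i j` (`i < j`, in the lexicographic order). Equations:
`s v = Pf M` and `M v = 0`. Generated.
-/

set_option autoImplicit false

namespace Pool.Agent.Q2.SF

/-- the coefficients -/
def spinorC : Fin 10 → Fin 4 → ℤ :=
  ![![1, -1, 1, -1],
    ![1, 1, -1, 1],
    ![1, -1, 1, -1],
    ![1, 1, -1, 1],
    ![1, -1, 1, -1],
    ![1, 1, 1, 1],
    ![-1, 1, 1, 1],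
    ![-1, -1, 1, 1],
    ![-1, -1, -1, 1],
    ![-1, -1, -1, -1]]

/-- the first coordinates of the monomials -/
def spinorA : Fin 10 → Fin 4 → Fin 16 :=
  ![![0, 10, 11, 12],
    ![0, 7, 8, 9],
    ![0, 6, 8, 9],
    ![0, 6, 7, 9],
    ![0, 6, 7, 8],
    ![6, 7, 8, 9],
    ![6, 10, 11, 12],
    ![7, 10, 13, 14],
    ![8, 11, 13, 15],
    ![9, 12, 14, 15]]

/-- the second coordinates of the monomials -/
def spinorB : Fin 10 → Fin 4 → Fin 16 :=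
  ![![1, 15, 14, 13],
    ![2, 15, 14, 13],
    ![3, 15, 12, 11],
    ![4, 14, 12, 10],
    ![5, 13, 11, 10],
    ![2, 3, 4, 5],
    ![1, 3, 4, 5],
    ![1, 2, 4, 5],
    ![1, 2, 3, 5],
    ![1, 2, 3, 4]]

/-- the ten equations of the spinor variety in 16 coordinates -/
def spinor : QF := ⟨16, 10, 4, spinorC, spinorA, spinorB⟩

/-- the pairs of coordinates whose product occurs -/
def spinorO (x y : Fin 16) : Prop :=
  ∃ l t, (spinorA l t = x ∧ spinorB l t = y) ∨ (spinorA l t = y ∧ spinorB l t = x)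

instance (x y : Fin 16) : Decidable (spinorO x y) := by
  unfold spinorO
  infer_instance

theorem spinor_pt_0 {K : Type} [Field K] (u : Fin 16 → K) (h : u 0 ≠ 0) :
    ∃ y : Fin 16 → K, (∀ j : Fin 16, ¬ spinor.opp (0 : Fin 16) j → y j = u j) ∧
      ∀ l, spinor.val y l = 0 := by
  refine ⟨![u 0, (u 10 * u 15 - u 11 * u 14 + u 12 * u 13) / u 0, (-u 7 * u 15 + u 8 * u 14 - u 9 * u 13) / u 0, (u 6 * u 15 - u 8 * u 12 + u 9 * u 11) / u 0, (-u 6 * u 14 + u 7 * u 12 - u 9 * u 10) / u 0, (u 6 * u 13 - u 7 * u 11 + u 8 * u 10) / u 0, u 6, u 7, u 8, u 9, u 10, u 11, u 12, u 13, u 14, u 15], ?_, ?_⟩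
  · have key : ∀ j : Fin 16, spinor.opp (0 : Fin 16) j ∨ (![u 0, (u 10 * u 15 - u 11 * u 14 + u 12 * u 13) / u 0, (-u 7 * u 15 + u 8 * u 14 - u 9 * u 13) / u 0, (u 6 * u 15 - u 8 * u 12 + u 9 * u 11) / u 0, (-u 6 * u 14 + u 7 * u 12 - u 9 * u 10) / u 0, (u 6 * u 13 - u 7 * u 11 + u 8 * u 10) / u 0, u 6, u 7, u 8, u 9, u 10, u 11, u 12, u 13, u 14, u 15] : Fin 16 → K) j = u j := by
      intro j
      fin_cases j
      · exact Or.inr rfl
      · exact Or.inl ⟨(0 : Fin 10), (0 : Fin 4), Or.inl ⟨rfl, rfl⟩⟩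
      · exact Or.inl ⟨(1 : Fin 10), (0 : Fin 4), Or.inl ⟨rfl, rfl⟩⟩
      · exact Or.inl ⟨(2 : Fin 10), (0 : Fin 4), Or.inl ⟨rfl, rfl⟩⟩
      · exact Or.inl ⟨(3 : Fin 10), (0 : Fin 4), Or.inl ⟨rfl, rfl⟩⟩
      · exact Or.inl ⟨(4 : Fin 10), (0 : Fin 4), Or.inl ⟨rfl, rfl⟩⟩
      · exact Or.inr rfl
      · exact Or.inr rfl
      · exact Or.inr rfl
      · exact Or.inr rfl
      · exact Or.inr rfl
      · exact Or.inr rfl
      · exact Or.inr rfl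
      · exact Or.inr rfl
      · exact Or.inr rfl
      · exact Or.inr rfl
    intro j hj
    exact (key j).resolve_left hj
  · have hl : ∀ l : Fin 10, spinor.val (![u 0, (u 10 * u 15 - u 11 * u 14 + u 12 * u 13) / u 0, (-u 7 * u 15 + u 8 * u 14 - u 9 * u 13) / u 0, (u 6 * u 15 - u 8 * u 12 + u 9 * u 11) / u 0, (-u 6 * u 14 + u 7 * u 12 - u 9 * u 10) / u 0, (u 6 * u 13 - u 7 * u 11 + u 8 * u 10) / u 0, u 6, u 7, u 8, u 9, u 10, u 11, u 12, u 13, u 14, u 15] : Fin 16 → K) l = 0 := by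
      intro l
      unfold QF.val
      fin_cases l
      · show ∑ t : Fin 4, _ = _
        rw [Fin.sum_univ_four]
        show ((1 : ℤ) : K) * (u 0) * ((u 10 * u 15 - u 11 * u 14 + u 12 * u 13) / u 0) + ((-1 : ℤ) : K) * (u 10) * (u 15) + ((1 : ℤ) : K) * (u 11) * (u 14) + ((-1 : ℤ) : K) * (u 12) * (u 13) = 0
        push_cast
        field_simp
        ring
      · show ∑ t : Fin 4, _ = _
        rw [Fin.sum_univ_four]
        show ((1 : ℤ) : K) * (u 0) * ((-u 7 * u 15 + u 8 * u 14 - u 9 * u 13) / u 0) + ((1 : ℤ) : K) * (u 7) * (u 15) + ((-1 : ℤ) : K) * (u 8) * (u 14) + ((1 : ℤ) : K) * (u 9) * (u 13) = 0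
        push_cast
        field_simp
        ring
      · show ∑ t : Fin 4, _ = _
        rw [Fin.sum_univ_four]
        show ((1 : ℤ) : K) * (u 0) * ((u 6 * u 15 - u 8 * u 12 + u 9 * u 11) / u 0) + ((-1 : ℤ) : K) * (u 6) * (u 15) + ((1 : ℤ) : K) * (u 8) * (u 12) + ((-1 : ℤ) : K) * (u 9) * (u 11) = 0
        push_cast
        field_simp
        ring
      · show ∑ t : Fin 4, _ = _
        rw [Fin.sum_univ_four]
        show ((1 : ℤ) : K) * (u 0) * ((-u 6 * u 14 + u 7 * u 12 - u 9 * u 10) / u 0) + ((1 : ℤ) : K) * (u 6) * (u 14) + ((-1 : ℤ) : K) * (u 7) * (u 12) + ((1 : ℤ) : K) * (u 9) * (u 10) = 0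
        push_cast
        field_simp
        ring
      · show ∑ t : Fin 4, _ = _
        rw [Fin.sum_univ_four]
        show ((1 : ℤ) : K) * (u 0) * ((u 6 * u 13 - u 7 * u 11 + u 8 * u 10) / u 0) + ((-1 : ℤ) : K) * (u 6) * (u 13) + ((1 : ℤ) : K) * (u 7) * (u 11) + ((-1 : ℤ) : K) * (u 8) * (u 10) = 0
        push_cast
        field_simp
        ring
      · show ∑ t : Fin 4, _ = _
        rw [Fin.sum_univ_four]
        show ((1 : ℤ) : K) * (u 6) * ((-u 7 * u 15 + u 8 * u 14 - u 9 * u 13) / u 0) + ((1 : ℤ) : K) * (u 7) * ((u 6 * u 15 - u 8 * u 12 + u 9 * u 11) / u 0) + ((1 : ℤ) : K) * (u 8) * ((-u 6 * u 14 + u 7 * u 12 - u 9 * u 10) / u 0) + ((1 : ℤ) : K) * (u 9) * ((u 6 * u 13 - u 7 * u 11 + u 8 * u 10) / u 0) = 0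
        push_cast
        field_simp
        ring
      · show ∑ t : Fin 4, _ = _
        rw [Fin.sum_univ_four]
        show ((-1 : ℤ) : K) * (u 6) * ((u 10 * u 15 - u 11 * u 14 + u 12 * u 13) / u 0) + ((1 : ℤ) : K) * (u 10) * ((u 6 * u 15 - u 8 * u 12 + u 9 * u 11) / u 0) + ((1 : ℤ) : K) * (u 11) * ((-u 6 * u 14 + u 7 * u 12 - u 9 * u 10) / u 0) + ((1 : ℤ) : K) * (u 12) * ((u 6 * u 13 - u 7 * u 11 + u 8 * u 10) / u 0) = 0
        push_cast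
        field_simp
        ring
      · show ∑ t : Fin 4, _ = _
        rw [Fin.sum_univ_four]
        show ((-1 : ℤ) : K) * (u 7) * ((u 10 * u 15 - u 11 * u 14 + u 12 * u 13) / u 0) + ((-1 : ℤ) : K) * (u 10) * ((-u 7 * u 15 + u 8 * u 14 - u 9 * u 13) / u 0) + ((1 : ℤ) : K) * (u 13) * ((-u 6 * u 14 + u 7 * u 12 - u 9 * u 10) / u 0) + ((1 : ℤ) : K) * (u 14) * ((u 6 * u 13 - u 7 * u 11 + u 8 * u 10) / u 0) = 0
        push_cast
        field_simp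
        ring
      · show ∑ t : Fin 4, _ = _
        rw [Fin.sum_univ_four]
        show ((-1 : ℤ) : K) * (u 8) * ((u 10 * u 15 - u 11 * u 14 + u 12 * u 13) / u 0) + ((-1 : ℤ) : K) * (u 11) * ((-u 7 * u 15 + u 8 * u 14 - u 9 * u 13) / u 0) + ((-1 : ℤ) : K) * (u 13) * ((u 6 * u 15 - u 8 * u 12 + u 9 * u 11) / u 0) + ((1 : ℤ) : K) * (u 15) * ((u 6 * u 13 - u 7 * u 11 + u 8 * u 10) / u 0) = 0
        push_cast
        field_simp
        ring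
      · show ∑ t : Fin 4, _ = _
        rw [Fin.sum_univ_four]
        show ((-1 : ℤ) : K) * (u 9) * ((u 10 * u 15 - u 11 * u 14 + u 12 * u 13) / u 0) + ((-1 : ℤ) : K) * (u 12) * ((-u 7 * u 15 + u 8 * u 14 - u 9 * u 13) / u 0) + ((-1 : ℤ) : K) * (u 14) * ((u 6 * u 15 - u 8 * u 12 + u 9 * u 11) / u 0) + ((-1 : ℤ) : K) * (u 15) * ((-u 6 * u 14 + u 7 * u 12 - u 9 * u 10) / u 0) = 0
        push_cast
        field_simp
        ring
    exact hl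

theorem spinor_pt_1 {K : Type} [Field K] (u : Fin 16 → K) (h : u 1 ≠ 0) :
    ∃ y : Fin 16 → K, (∀ j : Fin 16, ¬ spinor.opp (1 : Fin 16) j → y j = u j) ∧
      ∀ l, spinor.val y l = 0 := by
  refine ⟨![(u 10 * u 15 - u 11 * u 14 + u 12 * u 13) / u 1, u 1, u 2, u 3, u 4, u 5, (u 10 * u 3 + u 11 * u 4 + u 12 * u 5) / u 1, (-u 10 * u 2 + u 13 * u 4 + u 14 * u 5) / u 1, (-u 11 * u 2 - u 13 * u 3 + u 15 * u 5) / u 1, (-u 12 * u 2 - u 14 * u 3 - u 15 * u 4) / u 1, u 10, u 11, u 12, u 13, u 14, u 15], ?_, ?_⟩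
  · have key : ∀ j : Fin 16, spinor.opp (1 : Fin 16) j ∨ (![(u 10 * u 15 - u 11 * u 14 + u 12 * u 13) / u 1, u 1, u 2, u 3, u 4, u 5, (u 10 * u 3 + u 11 * u 4 + u 12 * u 5) / u 1, (-u 10 * u 2 + u 13 * u 4 + u 14 * u 5) / u 1, (-u 11 * u 2 - u 13 * u 3 + u 15 * u 5) / u 1, (-u 12 * u 2 - u 14 * u 3 - u 15 * u 4) / u 1, u 10, u 11, u 12, u 13, u 14, u 15] : Fin 16 → K) j = u j := by
      intro j
      fin_cases j
      · exact Or.inl ⟨(0 : Fin 10), (0 : Fin 4), Or.inr ⟨rfl, rfl⟩⟩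
      · exact Or.inr rfl
      · exact Or.inr rfl
      · exact Or.inr rfl
      · exact Or.inr rfl
      · exact Or.inr rfl
      · exact Or.inl ⟨(6 : Fin 10), (0 : Fin 4), Or.inr ⟨rfl, rfl⟩⟩
      · exact Or.inl ⟨(7 : Fin 10), (0 : Fin 4), Or.inr ⟨rfl, rfl⟩⟩
      · exact Or.inl ⟨(8 : Fin 10), (0 : Fin 4), Or.inr ⟨rfl, rfl⟩⟩
      · exact Or.inl ⟨(9 : Fin 10), (0 : Fin 4), Or.inr ⟨rfl, rfl⟩⟩
      · exact Or.inr rfl
      · exact Or.inr rfl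
      · exact Or.inr rfl
      · exact Or.inr rfl
      · exact Or.inr rfl
      · exact Or.inr rfl
    intro j hj
    exact (key j).resolve_left hj
  · have hl : ∀ l : Fin 10, spinor.val (![(u 10 * u 15 - u 11 * u 14 + u 12 * u 13) / u 1, u 1, u 2, u 3, u 4, u 5, (u 10 * u 3 + u 11 * u 4 + u 12 * u 5) / u 1, (-u 10 * u 2 + u 13 * u 4 + u 14 * u 5) / u 1, (-u 11 * u 2 - u 13 * u 3 + u 15 * u 5) / u 1, (-u 12 * u 2 - u 14 * u 3 - u 15 * u 4) / u 1, u 10, u 11, u 12, u 13, u 14, u 15] : Fin 16 → K) l = 0 := by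
      intro l
      unfold QF.val
      fin_cases l
      · show ∑ t : Fin 4, _ = _
        rw [Fin.sum_univ_four]
        show ((1 : ℤ) : K) * ((u 10 * u 15 - u 11 * u 14 + u 12 * u 13) / u 1) * (u 1) + ((-1 : ℤ) : K) * (u 10) * (u 15) + ((1 : ℤ) : K) * (u 11) * (u 14) + ((-1 : ℤ) : K) * (u 12) * (u 13) = 0
        push_cast
        field_simp
        ring
      · show ∑ t : Fin 4, _ = _
        rw [Fin.sum_univ_four]
        show ((1 : ℤ) : K) * ((u 10 * u 15 - u 11 * u 14 + u 12 * u 13) / u 1) * (u 2) + ((1 : ℤ) : K) * ((-u 10 * u 2 + u 13 * u 4 + u 14 * u 5) / u 1) * (u 15) + ((-1 : ℤ) : K) * ((-u 11 * u 2 - u 13 * u 3 + u 15 * u 5) / u 1) * (u 14) + ((1 : ℤ) : K) * ((-u 12 * u 2 - u 14 * u 3 - u 15 * u 4) / u 1) * (u 13) = 0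
        push_cast
        field_simp
        ring
      · show ∑ t : Fin 4, _ = _
        rw [Fin.sum_univ_four]
        show ((1 : ℤ) : K) * ((u 10 * u 15 - u 11 * u 14 + u 12 * u 13) / u 1) * (u 3) + ((-1 : ℤ) : K) * ((u 10 * u 3 + u 11 * u 4 + u 12 * u 5) / u 1) * (u 15) + ((1 : ℤ) : K) * ((-u 11 * u 2 - u 13 * u 3 + u 15 * u 5) / u 1) * (u 12) + ((-1 : ℤ) : K) * ((-u 12 * u 2 - u 14 * u 3 - u 15 * u 4) / u 1) * (u 11) = 0
        push_cast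
        field_simp
        ring
      · show ∑ t : Fin 4, _ = _
        rw [Fin.sum_univ_four]
        show ((1 : ℤ) : K) * ((u 10 * u 15 - u 11 * u 14 + u 12 * u 13) / u 1) * (u 4) + ((1 : ℤ) : K) * ((u 10 * u 3 + u 11 * u 4 + u 12 * u 5) / u 1) * (u 14) + ((-1 : ℤ) : K) * ((-u 10 * u 2 + u 13 * u 4 + u 14 * u 5) / u 1) * (u 12) + ((1 : ℤ) : K) * ((-u 12 * u 2 - u 14 * u 3 - u 15 * u 4) / u 1) * (u 10) = 0
        push_cast
        field_simp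
        ring
      · show ∑ t : Fin 4, _ = _
        rw [Fin.sum_univ_four]
        show ((1 : ℤ) : K) * ((u 10 * u 15 - u 11 * u 14 + u 12 * u 13) / u 1) * (u 5) + ((-1 : ℤ) : K) * ((u 10 * u 3 + u 11 * u 4 + u 12 * u 5) / u 1) * (u 13) + ((1 : ℤ) : K) * ((-u 10 * u 2 + u 13 * u 4 + u 14 * u 5) / u 1) * (u 11) + ((-1 : ℤ) : K) * ((-u 11 * u 2 - u 13 * u 3 + u 15 * u 5) / u 1) * (u 10) = 0
        push_cast
        field_simp
        ring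
      · show ∑ t : Fin 4, _ = _
        rw [Fin.sum_univ_four]
        show ((1 : ℤ) : K) * ((u 10 * u 3 + u 11 * u 4 + u 12 * u 5) / u 1) * (u 2) + ((1 : ℤ) : K) * ((-u 10 * u 2 + u 13 * u 4 + u 14 * u 5) / u 1) * (u 3) + ((1 : ℤ) : K) * ((-u 11 * u 2 - u 13 * u 3 + u 15 * u 5) / u 1) * (u 4) + ((1 : ℤ) : K) * ((-u 12 * u 2 - u 14 * u 3 - u 15 * u 4) / u 1) * (u 5) = 0
        push_cast
        field_simp
        ring
      · show ∑ t : Fin 4, _ = _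
        rw [Fin.sum_univ_four]
        show ((-1 : ℤ) : K) * ((u 10 * u 3 + u 11 * u 4 + u 12 * u 5) / u 1) * (u 1) + ((1 : ℤ) : K) * (u 10) * (u 3) + ((1 : ℤ) : K) * (u 11) * (u 4) + ((1 : ℤ) : K) * (u 12) * (u 5) = 0
        push_cast
        field_simp
        ring
      · show ∑ t : Fin 4, _ = _
        rw [Fin.sum_univ_four]
        show ((-1 : ℤ) : K) * ((-u 10 * u 2 + u 13 * u 4 + u 14 * u 5) / u 1) * (u 1) + ((-1 : ℤ) : K) * (u 10) * (u 2) + ((1 : ℤ) : K) * (u 13) * (u 4) + ((1 : ℤ) : K) * (u 14) * (u 5) = 0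
        push_cast
        field_simp
        ring
      · show ∑ t : Fin 4, _ = _
        rw [Fin.sum_univ_four]
        show ((-1 : ℤ) : K) * ((-u 11 * u 2 - u 13 * u 3 + u 15 * u 5) / u 1) * (u 1) + ((-1 : ℤ) : K) * (u 11) * (u 2) + ((-1 : ℤ) : K) * (u 13) * (u 3) + ((1 : ℤ) : K) * (u 15) * (u 5) = 0
        push_cast
        field_simp
        ring
      · show ∑ t : Fin 4, _ = _
        rw [Fin.sum_univ_four]
        show ((-1 : ℤ) : K) * ((-u 12 * u 2 - u 14 * u 3 - u 15 * u 4) / u 1) * (u 1) + ((-1 : ℤ) : K) * (u 12) * (u 2) + ((-1 : ℤ) : K) * (u 14) * (u 3) + ((-1 : ℤ) : K) * (u 15) * (u 4) = 0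
        push_cast
        field_simp
        ring
    exact hl

theorem spinor_pt_2 {K : Type} [Field K] (u : Fin 16 → K) (h : u 2 ≠ 0) :
    ∃ y : Fin 16 → K, (∀ j : Fin 16, ¬ spinor.opp (2 : Fin 16) j → y j = u j) ∧
      ∀ l, spinor.val y l = 0 := by
  refine ⟨![(-u 7 * u 15 + u 8 * u 14 - u 9 * u 13) / u 2, u 1, u 2, u 3, u 4, u 5, (-u 7 * u 3 - u 8 * u 4 - u 9 * u 5) / u 2, u 7, u 8, u 9, (-u 7 * u 1 + u 13 * u 4 + u 14 * u 5) / u 2, (-u 8 * u 1 - u 13 * u 3 + u 15 * u 5) / u 2, (-u 9 * u 1 - u 14 * u 3 - u 15 * u 4) / u 2, u 13, u 14, u 15], ?_, ?_⟩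
  · have key : ∀ j : Fin 16, spinor.opp (2 : Fin 16) j ∨ (![(-u 7 * u 15 + u 8 * u 14 - u 9 * u 13) / u 2, u 1, u 2, u 3, u 4, u 5, (-u 7 * u 3 - u 8 * u 4 - u 9 * u 5) / u 2, u 7, u 8, u 9, (-u 7 * u 1 + u 13 * u 4 + u 14 * u 5) / u 2, (-u 8 * u 1 - u 13 * u 3 + u 15 * u 5) / u 2, (-u 9 * u 1 - u 14 * u 3 - u 15 * u 4) / u 2, u 13, u 14, u 15] : Fin 16 → K) j = u j := by
      intro j
      fin_cases j
      · exact Or.inl ⟨(1 : Fin 10), (0 : Fin 4), Or.inr ⟨rfl, rfl⟩⟩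
      · exact Or.inr rfl
      · exact Or.inr rfl
      · exact Or.inr rfl
      · exact Or.inr rfl
      · exact Or.inr rfl
      · exact Or.inl ⟨(5 : Fin 10), (0 : Fin 4), Or.inr ⟨rfl, rfl⟩⟩
      · exact Or.inr rfl
      · exact Or.inr rfl
      · exact Or.inr rfl
      · exact Or.inl ⟨(7 : Fin 10), (1 : Fin 4), Or.inr ⟨rfl, rfl⟩⟩
      · exact Or.inl ⟨(8 : Fin 10), (1 : Fin 4), Or.inr ⟨rfl, rfl⟩⟩
      · exact Or.inl ⟨(9 : Fin 10), (1 : Fin 4), Or.inr ⟨rfl, rfl⟩⟩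
      · exact Or.inr rfl
      · exact Or.inr rfl
      · exact Or.inr rfl
    intro j hj
    exact (key j).resolve_left hj
  · have hl : ∀ l : Fin 10, spinor.val (![(-u 7 * u 15 + u 8 * u 14 - u 9 * u 13) / u 2, u 1, u 2, u 3, u 4, u 5, (-u 7 * u 3 - u 8 * u 4 - u 9 * u 5) / u 2, u 7, u 8, u 9, (-u 7 * u 1 + u 13 * u 4 + u 14 * u 5) / u 2, (-u 8 * u 1 - u 13 * u 3 + u 15 * u 5) / u 2, (-u 9 * u 1 - u 14 * u 3 - u 15 * u 4) / u 2, u 13, u 14, u 15] : Fin 16 → K) l = 0 := by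
      intro l
      unfold QF.val
      fin_cases l
      · show ∑ t : Fin 4, _ = _
        rw [Fin.sum_univ_four]
        show ((1 : ℤ) : K) * ((-u 7 * u 15 + u 8 * u 14 - u 9 * u 13) / u 2) * (u 1) + ((-1 : ℤ) : K) * ((-u 7 * u 1 + u 13 * u 4 + u 14 * u 5) / u 2) * (u 15) + ((1 : ℤ) : K) * ((-u 8 * u 1 - u 13 * u 3 + u 15 * u 5) / u 2) * (u 14) + ((-1 : ℤ) : K) * ((-u 9 * u 1 - u 14 * u 3 - u 15 * u 4) / u 2) * (u 13) = 0
        push_cast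
        field_simp
        ring
      · show ∑ t : Fin 4, _ = _
        rw [Fin.sum_univ_four]
        show ((1 : ℤ) : K) * ((-u 7 * u 15 + u 8 * u 14 - u 9 * u 13) / u 2) * (u 2) + ((1 : ℤ) : K) * (u 7) * (u 15) + ((-1 : ℤ) : K) * (u 8) * (u 14) + ((1 : ℤ) : K) * (u 9) * (u 13) = 0
        push_cast
        field_simp
        ring
      · show ∑ t : Fin 4, _ = _
        rw [Fin.sum_univ_four]
        show ((1 : ℤ) : K) * ((-u 7 * u 15 + u 8 * u 14 - u 9 * u 13) / u 2) * (u 3) + ((-1 : ℤ) : K) * ((-u 7 * u 3 - u 8 * u 4 - u 9 * u 5) / u 2) * (u 15) + ((1 : ℤ) : K) * (u 8) * ((-u 9 * u 1 - u 14 * u 3 - u 15 * u 4) / u 2) + ((-1 : ℤ) : K) * (u 9) * ((-u 8 * u 1 - u 13 * u 3 + u 15 * u 5) / u 2) = 0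
        push_cast
        field_simp
        ring
      · show ∑ t : Fin 4, _ = _
        rw [Fin.sum_univ_four]
        show ((1 : ℤ) : K) * ((-u 7 * u 15 + u 8 * u 14 - u 9 * u 13) / u 2) * (u 4) + ((1 : ℤ) : K) * ((-u 7 * u 3 - u 8 * u 4 - u 9 * u 5) / u 2) * (u 14) + ((-1 : ℤ) : K) * (u 7) * ((-u 9 * u 1 - u 14 * u 3 - u 15 * u 4) / u 2) + ((1 : ℤ) : K) * (u 9) * ((-u 7 * u 1 + u 13 * u 4 + u 14 * u 5) / u 2) = 0
        push_cast
        field_simp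
        ring
      · show ∑ t : Fin 4, _ = _
        rw [Fin.sum_univ_four]
        show ((1 : ℤ) : K) * ((-u 7 * u 15 + u 8 * u 14 - u 9 * u 13) / u 2) * (u 5) + ((-1 : ℤ) : K) * ((-u 7 * u 3 - u 8 * u 4 - u 9 * u 5) / u 2) * (u 13) + ((1 : ℤ) : K) * (u 7) * ((-u 8 * u 1 - u 13 * u 3 + u 15 * u 5) / u 2) + ((-1 : ℤ) : K) * (u 8) * ((-u 7 * u 1 + u 13 * u 4 + u 14 * u 5) / u 2) = 0
        push_cast
        field_simp
        ring
      · show ∑ t : Fin 4, _ = _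
        rw [Fin.sum_univ_four]
        show ((1 : ℤ) : K) * ((-u 7 * u 3 - u 8 * u 4 - u 9 * u 5) / u 2) * (u 2) + ((1 : ℤ) : K) * (u 7) * (u 3) + ((1 : ℤ) : K) * (u 8) * (u 4) + ((1 : ℤ) : K) * (u 9) * (u 5) = 0
        push_cast
        field_simp
        ring
      · show ∑ t : Fin 4, _ = _
        rw [Fin.sum_univ_four]
        show ((-1 : ℤ) : K) * ((-u 7 * u 3 - u 8 * u 4 - u 9 * u 5) / u 2) * (u 1) + ((1 : ℤ) : K) * ((-u 7 * u 1 + u 13 * u 4 + u 14 * u 5) / u 2) * (u 3) + ((1 : ℤ) : K) * ((-u 8 * u 1 - u 13 * u 3 + u 15 * u 5) / u 2) * (u 4) + ((1 : ℤ) : K) * ((-u 9 * u 1 - u 14 * u 3 - u 15 * u 4) / u 2) * (u 5) = 0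
        push_cast
        field_simp
        ring
      · show ∑ t : Fin 4, _ = _
        rw [Fin.sum_univ_four]
        show ((-1 : ℤ) : K) * (u 7) * (u 1) + ((-1 : ℤ) : K) * ((-u 7 * u 1 + u 13 * u 4 + u 14 * u 5) / u 2) * (u 2) + ((1 : ℤ) : K) * (u 13) * (u 4) + ((1 : ℤ) : K) * (u 14) * (u 5) = 0
        push_cast
        field_simp
        ring
      · show ∑ t : Fin 4, _ = _
        rw [Fin.sum_univ_four]
        show ((-1 : ℤ) : K) * (u 8) * (u 1) + ((-1 : ℤ) : K) * ((-u 8 * u 1 - u 13 * u 3 + u 15 * u 5) / u 2) * (u 2) + ((-1 : ℤ) : K) * (u 13) * (u 3) + ((1 : ℤ) : K) * (u 15) * (u 5) = 0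
        push_cast
        field_simp
        ring
      · show ∑ t : Fin 4, _ = _
        rw [Fin.sum_univ_four]
        show ((-1 : ℤ) : K) * (u 9) * (u 1) + ((-1 : ℤ) : K) * ((-u 9 * u 1 - u 14 * u 3 - u 15 * u 4) / u 2) * (u 2) + ((-1 : ℤ) : K) * (u 14) * (u 3) + ((-1 : ℤ) : K) * (u 15) * (u 4) = 0
        push_cast
        field_simp
        ring
    exact hl

theorem spinor_pt_3 {K : Type} [Field K] (u : Fin 16 → K) (h : u 3 ≠ 0) :
    ∃ y : Fin 16 → K, (∀ j : Fin 16, ¬ spinor.opp (3 : Fin 16) j → y j = u j) ∧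
      ∀ l, spinor.val y l = 0 := by
  refine ⟨![(u 6 * u 15 - u 8 * u 12 + u 9 * u 11) / u 3, u 1, u 2, u 3, u 4, u 5, u 6, (-u 6 * u 2 - u 8 * u 4 - u 9 * u 5) / u 3, u 8, u 9, (u 6 * u 1 - u 11 * u 4 - u 12 * u 5) / u 3, u 11, u 12, (-u 8 * u 1 - u 11 * u 2 + u 15 * u 5) / u 3, (-u 9 * u 1 - u 12 * u 2 - u 15 * u 4) / u 3, u 15], ?_, ?_⟩
  · have key : ∀ j : Fin 16, spinor.opp (3 : Fin 16) j ∨ (![(u 6 * u 15 - u 8 * u 12 + u 9 * u 11) / u 3, u 1, u 2, u 3, u 4, u 5, u 6, (-u 6 * u 2 - u 8 * u 4 - u 9 * u 5) / u 3, u 8, u 9, (u 6 * u 1 - u 11 * u 4 - u 12 * u 5) / u 3, u 11, u 12, (-u 8 * u 1 - u 11 * u 2 + u 15 * u 5) / u 3, (-u 9 * u 1 - u 12 * u 2 - u 15 * u 4) / u 3, u 15] : Fin 16 → K) j = u j := by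
      intro j
      fin_cases j
      · exact Or.inl ⟨(2 : Fin 10), (0 : Fin 4), Or.inr ⟨rfl, rfl⟩⟩
      · exact Or.inr rfl
      · exact Or.inr rfl
      · exact Or.inr rfl
      · exact Or.inr rfl
      · exact Or.inr rfl
      · exact Or.inr rfl
      · exact Or.inl ⟨(5 : Fin 10), (1 : Fin 4), Or.inr ⟨rfl, rfl⟩⟩
      · exact Or.inr rfl
      · exact Or.inr rfl
      · exact Or.inl ⟨(6 : Fin 10), (1 : Fin 4), Or.inr ⟨rfl, rfl⟩⟩
      · exact Or.inr rfl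
      · exact Or.inr rfl
      · exact Or.inl ⟨(8 : Fin 10), (2 : Fin 4), Or.inr ⟨rfl, rfl⟩⟩
      · exact Or.inl ⟨(9 : Fin 10), (2 : Fin 4), Or.inr ⟨rfl, rfl⟩⟩
      · exact Or.inr rfl
    intro j hj
    exact (key j).resolve_left hj
  · have hl : ∀ l : Fin 10, spinor.val (![(u 6 * u 15 - u 8 * u 12 + u 9 * u 11) / u 3, u 1, u 2, u 3, u 4, u 5, u 6, (-u 6 * u 2 - u 8 * u 4 - u 9 * u 5) / u 3, u 8, u 9, (u 6 * u 1 - u 11 * u 4 - u 12 * u 5) / u 3, u 11, u 12, (-u 8 * u 1 - u 11 * u 2 + u 15 * u 5) / u 3, (-u 9 * u 1 - u 12 * u 2 - u 15 * u 4) / u 3, u 15] : Fin 16 → K) l = 0 := by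
      intro l
      unfold QF.val
      fin_cases l
      · show ∑ t : Fin 4, _ = _
        rw [Fin.sum_univ_four]
        show ((1 : ℤ) : K) * ((u 6 * u 15 - u 8 * u 12 + u 9 * u 11) / u 3) * (u 1) + ((-1 : ℤ) : K) * ((u 6 * u 1 - u 11 * u 4 - u 12 * u 5) / u 3) * (u 15) + ((1 : ℤ) : K) * (u 11) * ((-u 9 * u 1 - u 12 * u 2 - u 15 * u 4) / u 3) + ((-1 : ℤ) : K) * (u 12) * ((-u 8 * u 1 - u 11 * u 2 + u 15 * u 5) / u 3) = 0
        push_cast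
        field_simp
        ring
      · show ∑ t : Fin 4, _ = _
        rw [Fin.sum_univ_four]
        show ((1 : ℤ) : K) * ((u 6 * u 15 - u 8 * u 12 + u 9 * u 11) / u 3) * (u 2) + ((1 : ℤ) : K) * ((-u 6 * u 2 - u 8 * u 4 - u 9 * u 5) / u 3) * (u 15) + ((-1 : ℤ) : K) * (u 8) * ((-u 9 * u 1 - u 12 * u 2 - u 15 * u 4) / u 3) + ((1 : ℤ) : K) * (u 9) * ((-u 8 * u 1 - u 11 * u 2 + u 15 * u 5) / u 3) = 0
        push_cast
        field_simp
        ring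
      · show ∑ t : Fin 4, _ = _
        rw [Fin.sum_univ_four]
        show ((1 : ℤ) : K) * ((u 6 * u 15 - u 8 * u 12 + u 9 * u 11) / u 3) * (u 3) + ((-1 : ℤ) : K) * (u 6) * (u 15) + ((1 : ℤ) : K) * (u 8) * (u 12) + ((-1 : ℤ) : K) * (u 9) * (u 11) = 0
        push_cast
        field_simp
        ring
      · show ∑ t : Fin 4, _ = _
        rw [Fin.sum_univ_four]
        show ((1 : ℤ) : K) * ((u 6 * u 15 - u 8 * u 12 + u 9 * u 11) / u 3) * (u 4) + ((1 : ℤ) : K) * (u 6) * ((-u 9 * u 1 - u 12 * u 2 - u 15 * u 4) / u 3) + ((-1 : ℤ) : K) * ((-u 6 * u 2 - u 8 * u 4 - u 9 * u 5) / u 3) * (u 12) + ((1 : ℤ) : K) * (u 9) * ((u 6 * u 1 - u 11 * u 4 - u 12 * u 5) / u 3) = 0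
        push_cast
        field_simp
        ring
      · show ∑ t : Fin 4, _ = _
        rw [Fin.sum_univ_four]
        show ((1 : ℤ) : K) * ((u 6 * u 15 - u 8 * u 12 + u 9 * u 11) / u 3) * (u 5) + ((-1 : ℤ) : K) * (u 6) * ((-u 8 * u 1 - u 11 * u 2 + u 15 * u 5) / u 3) + ((1 : ℤ) : K) * ((-u 6 * u 2 - u 8 * u 4 - u 9 * u 5) / u 3) * (u 11) + ((-1 : ℤ) : K) * (u 8) * ((u 6 * u 1 - u 11 * u 4 - u 12 * u 5) / u 3) = 0
        push_cast
        field_simp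
        ring
      · show ∑ t : Fin 4, _ = _
        rw [Fin.sum_univ_four]
        show ((1 : ℤ) : K) * (u 6) * (u 2) + ((1 : ℤ) : K) * ((-u 6 * u 2 - u 8 * u 4 - u 9 * u 5) / u 3) * (u 3) + ((1 : ℤ) : K) * (u 8) * (u 4) + ((1 : ℤ) : K) * (u 9) * (u 5) = 0
        push_cast
        field_simp
        ring
      · show ∑ t : Fin 4, _ = _
        rw [Fin.sum_univ_four]
        show ((-1 : ℤ) : K) * (u 6) * (u 1) + ((1 : ℤ) : K) * ((u 6 * u 1 - u 11 * u 4 - u 12 * u 5) / u 3) * (u 3) + ((1 : ℤ) : K) * (u 11) * (u 4) + ((1 : ℤ) : K) * (u 12) * (u 5) = 0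
        push_cast
        field_simp
        ring
      · show ∑ t : Fin 4, _ = _
        rw [Fin.sum_univ_four]
        show ((-1 : ℤ) : K) * ((-u 6 * u 2 - u 8 * u 4 - u 9 * u 5) / u 3) * (u 1) + ((-1 : ℤ) : K) * ((u 6 * u 1 - u 11 * u 4 - u 12 * u 5) / u 3) * (u 2) + ((1 : ℤ) : K) * ((-u 8 * u 1 - u 11 * u 2 + u 15 * u 5) / u 3) * (u 4) + ((1 : ℤ) : K) * ((-u 9 * u 1 - u 12 * u 2 - u 15 * u 4) / u 3) * (u 5) = 0
        push_cast
        field_simp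
        ring
      · show ∑ t : Fin 4, _ = _
        rw [Fin.sum_univ_four]
        show ((-1 : ℤ) : K) * (u 8) * (u 1) + ((-1 : ℤ) : K) * (u 11) * (u 2) + ((-1 : ℤ) : K) * ((-u 8 * u 1 - u 11 * u 2 + u 15 * u 5) / u 3) * (u 3) + ((1 : ℤ) : K) * (u 15) * (u 5) = 0
        push_cast
        field_simp
        ring
      · show ∑ t : Fin 4, _ = _
        rw [Fin.sum_univ_four]
        show ((-1 : ℤ) : K) * (u 9) * (u 1) + ((-1 : ℤ) : K) * (u 12) * (u 2) + ((-1 : ℤ) : K) * ((-u 9 * u 1 - u 12 * u 2 - u 15 * u 4) / u 3) * (u 3) + ((-1 : ℤ) : K) * (u 15) * (u 4) = 0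
        push_cast
        field_simp
        ring
    exact hl

theorem spinor_pt_4 {K : Type} [Field K] (u : Fin 16 → K) (h : u 4 ≠ 0) :
    ∃ y : Fin 16 → K, (∀ j : Fin 16, ¬ spinor.opp (4 : Fin 16) j → y j = u j) ∧
      ∀ l, spinor.val y l = 0 := by
  refine ⟨![(-u 6 * u 14 + u 7 * u 12 - u 9 * u 10) / u 4, u 1, u 2, u 3, u 4, u 5, u 6, u 7, (-u 6 * u 2 - u 7 * u 3 - u 9 * u 5) / u 4, u 9, u 10, (u 6 * u 1 - u 10 * u 3 - u 12 * u 5) / u 4, u 12, (u 7 * u 1 + u 10 * u 2 - u 14 * u 5) / u 4, u 14, (-u 9 * u 1 - u 12 * u 2 - u 14 * u 3) / u 4], ?_, ?_⟩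
  · have key : ∀ j : Fin 16, spinor.opp (4 : Fin 16) j ∨ (![(-u 6 * u 14 + u 7 * u 12 - u 9 * u 10) / u 4, u 1, u 2, u 3, u 4, u 5, u 6, u 7, (-u 6 * u 2 - u 7 * u 3 - u 9 * u 5) / u 4, u 9, u 10, (u 6 * u 1 - u 10 * u 3 - u 12 * u 5) / u 4, u 12, (u 7 * u 1 + u 10 * u 2 - u 14 * u 5) / u 4, u 14, (-u 9 * u 1 - u 12 * u 2 - u 14 * u 3) / u 4] : Fin 16 → K) j = u j := by
      intro j
      fin_cases j
      · exact Or.inl ⟨(3 : Fin 10), (0 : Fin 4), Or.inr ⟨rfl, rfl⟩⟩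
      · exact Or.inr rfl
      · exact Or.inr rfl
      · exact Or.inr rfl
      · exact Or.inr rfl
      · exact Or.inr rfl
      · exact Or.inr rfl
      · exact Or.inr rfl
      · exact Or.inl ⟨(5 : Fin 10), (2 : Fin 4), Or.inr ⟨rfl, rfl⟩⟩
      · exact Or.inr rfl
      · exact Or.inr rfl
      · exact Or.inl ⟨(6 : Fin 10), (2 : Fin 4), Or.inr ⟨rfl, rfl⟩⟩
      · exact Or.inr rfl
      · exact Or.inl ⟨(7 : Fin 10), (2 : Fin 4), Or.inr ⟨rfl, rfl⟩⟩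
      · exact Or.inr rfl
      · exact Or.inl ⟨(9 : Fin 10), (3 : Fin 4), Or.inr ⟨rfl, rfl⟩⟩
    intro j hj
    exact (key j).resolve_left hj
  · have hl : ∀ l : Fin 10, spinor.val (![(-u 6 * u 14 + u 7 * u 12 - u 9 * u 10) / u 4, u 1, u 2, u 3, u 4, u 5, u 6, u 7, (-u 6 * u 2 - u 7 * u 3 - u 9 * u 5) / u 4, u 9, u 10, (u 6 * u 1 - u 10 * u 3 - u 12 * u 5) / u 4, u 12, (u 7 * u 1 + u 10 * u 2 - u 14 * u 5) / u 4, u 14, (-u 9 * u 1 - u 12 * u 2 - u 14 * u 3) / u 4] : Fin 16 → K) l = 0 := by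
      intro l
      unfold QF.val
      fin_cases l
      · show ∑ t : Fin 4, _ = _
        rw [Fin.sum_univ_four]
        show ((1 : ℤ) : K) * ((-u 6 * u 14 + u 7 * u 12 - u 9 * u 10) / u 4) * (u 1) + ((-1 : ℤ) : K) * (u 10) * ((-u 9 * u 1 - u 12 * u 2 - u 14 * u 3) / u 4) + ((1 : ℤ) : K) * ((u 6 * u 1 - u 10 * u 3 - u 12 * u 5) / u 4) * (u 14) + ((-1 : ℤ) : K) * (u 12) * ((u 7 * u 1 + u 10 * u 2 - u 14 * u 5) / u 4) = 0
        push_cast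
        field_simp
        ring
      · show ∑ t : Fin 4, _ = _
        rw [Fin.sum_univ_four]
        show ((1 : ℤ) : K) * ((-u 6 * u 14 + u 7 * u 12 - u 9 * u 10) / u 4) * (u 2) + ((1 : ℤ) : K) * (u 7) * ((-u 9 * u 1 - u 12 * u 2 - u 14 * u 3) / u 4) + ((-1 : ℤ) : K) * ((-u 6 * u 2 - u 7 * u 3 - u 9 * u 5) / u 4) * (u 14) + ((1 : ℤ) : K) * (u 9) * ((u 7 * u 1 + u 10 * u 2 - u 14 * u 5) / u 4) = 0
        push_cast
        field_simp
        ring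
      · show ∑ t : Fin 4, _ = _
        rw [Fin.sum_univ_four]
        show ((1 : ℤ) : K) * ((-u 6 * u 14 + u 7 * u 12 - u 9 * u 10) / u 4) * (u 3) + ((-1 : ℤ) : K) * (u 6) * ((-u 9 * u 1 - u 12 * u 2 - u 14 * u 3) / u 4) + ((1 : ℤ) : K) * ((-u 6 * u 2 - u 7 * u 3 - u 9 * u 5) / u 4) * (u 12) + ((-1 : ℤ) : K) * (u 9) * ((u 6 * u 1 - u 10 * u 3 - u 12 * u 5) / u 4) = 0
        push_cast
        field_simp
        ring
      · show ∑ t : Fin 4, _ = _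
        rw [Fin.sum_univ_four]
        show ((1 : ℤ) : K) * ((-u 6 * u 14 + u 7 * u 12 - u 9 * u 10) / u 4) * (u 4) + ((1 : ℤ) : K) * (u 6) * (u 14) + ((-1 : ℤ) : K) * (u 7) * (u 12) + ((1 : ℤ) : K) * (u 9) * (u 10) = 0
        push_cast
        field_simp
        ring
      · show ∑ t : Fin 4, _ = _
        rw [Fin.sum_univ_four]
        show ((1 : ℤ) : K) * ((-u 6 * u 14 + u 7 * u 12 - u 9 * u 10) / u 4) * (u 5) + ((-1 : ℤ) : K) * (u 6) * ((u 7 * u 1 + u 10 * u 2 - u 14 * u 5) / u 4) + ((1 : ℤ) : K) * (u 7) * ((u 6 * u 1 - u 10 * u 3 - u 12 * u 5) / u 4) + ((-1 : ℤ) : K) * ((-u 6 * u 2 - u 7 * u 3 - u 9 * u 5) / u 4) * (u 10) = 0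
        push_cast
        field_simp
        ring
      · show ∑ t : Fin 4, _ = _
        rw [Fin.sum_univ_four]
        show ((1 : ℤ) : K) * (u 6) * (u 2) + ((1 : ℤ) : K) * (u 7) * (u 3) + ((1 : ℤ) : K) * ((-u 6 * u 2 - u 7 * u 3 - u 9 * u 5) / u 4) * (u 4) + ((1 : ℤ) : K) * (u 9) * (u 5) = 0
        push_cast
        field_simp
        ring
      · show ∑ t : Fin 4, _ = _
        rw [Fin.sum_univ_four]
        show ((-1 : ℤ) : K) * (u 6) * (u 1) + ((1 : ℤ) : K) * (u 10) * (u 3) + ((1 : ℤ) : K) * ((u 6 * u 1 - u 10 * u 3 - u 12 * u 5) / u 4) * (u 4) + ((1 : ℤ) : K) * (u 12) * (u 5) = 0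
        push_cast
        field_simp
        ring
      · show ∑ t : Fin 4, _ = _
        rw [Fin.sum_univ_four]
        show ((-1 : ℤ) : K) * (u 7) * (u 1) + ((-1 : ℤ) : K) * (u 10) * (u 2) + ((1 : ℤ) : K) * ((u 7 * u 1 + u 10 * u 2 - u 14 * u 5) / u 4) * (u 4) + ((1 : ℤ) : K) * (u 14) * (u 5) = 0
        push_cast
        field_simp
        ring
      · show ∑ t : Fin 4, _ = _
        rw [Fin.sum_univ_four]
        show ((-1 : ℤ) : K) * ((-u 6 * u 2 - u 7 * u 3 - u 9 * u 5) / u 4) * (u 1) + ((-1 : ℤ) : K) * ((u 6 * u 1 - u 10 * u 3 - u 12 * u 5) / u 4) * (u 2) + ((-1 : ℤ) : K) * ((u 7 * u 1 + u 10 * u 2 - u 14 * u 5) / u 4) * (u 3) + ((1 : ℤ) : K) * ((-u 9 * u 1 - u 12 * u 2 - u 14 * u 3) / u 4) * (u 5) = 0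
        push_cast
        field_simp
        ring
      · show ∑ t : Fin 4, _ = _
        rw [Fin.sum_univ_four]
        show ((-1 : ℤ) : K) * (u 9) * (u 1) + ((-1 : ℤ) : K) * (u 12) * (u 2) + ((-1 : ℤ) : K) * (u 14) * (u 3) + ((-1 : ℤ) : K) * ((-u 9 * u 1 - u 12 * u 2 - u 14 * u 3) / u 4) * (u 4) = 0
        push_cast
        field_simp
        ring
    exact hl

theorem spinor_pt_5 {K : Type} [Field K] (u : Fin 16 → K) (h : u 5 ≠ 0) :
    ∃ y : Fin 16 → K, (∀ j : Fin 16, ¬ spinor.opp (5 : Fin 16) j → y j = u j) ∧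
      ∀ l, spinor.val y l = 0 := by
  refine ⟨![(u 6 * u 13 - u 7 * u 11 + u 8 * u 10) / u 5, u 1, u 2, u 3, u 4, u 5, u 6, u 7, u 8, (-u 6 * u 2 - u 7 * u 3 - u 8 * u 4) / u 5, u 10, u 11, (u 6 * u 1 - u 10 * u 3 - u 11 * u 4) / u 5, u 13, (u 7 * u 1 + u 10 * u 2 - u 13 * u 4) / u 5, (u 8 * u 1 + u 11 * u 2 + u 13 * u 3) / u 5], ?_, ?_⟩
  · have key : ∀ j : Fin 16, spinor.opp (5 : Fin 16) j ∨ (![(u 6 * u 13 - u 7 * u 11 + u 8 * u 10) / u 5, u 1, u 2, u 3, u 4, u 5, u 6, u 7, u 8, (-u 6 * u 2 - u 7 * u 3 - u 8 * u 4) / u 5, u 10, u 11, (u 6 * u 1 - u 10 * u 3 - u 11 * u 4) / u 5, u 13, (u 7 * u 1 + u 10 * u 2 - u 13 * u 4) / u 5, (u 8 * u 1 + u 11 * u 2 + u 13 * u 3) / u 5] : Fin 16 → K) j = u j := by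
      intro j
      fin_cases j
      · exact Or.inl ⟨(4 : Fin 10), (0 : Fin 4), Or.inr ⟨rfl, rfl⟩⟩
      · exact Or.inr rfl
      · exact Or.inr rfl
      · exact Or.inr rfl
      · exact Or.inr rfl
      · exact Or.inr rfl
      · exact Or.inr rfl
      · exact Or.inr rfl
      · exact Or.inr rfl
      · exact Or.inl ⟨(5 : Fin 10), (3 : Fin 4), Or.inr ⟨rfl, rfl⟩⟩
      · exact Or.inr rfl
      · exact Or.inr rfl
      · exact Or.inl ⟨(6 : Fin 10), (3 : Fin 4), Or.inr ⟨rfl, rfl⟩⟩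
      · exact Or.inr rfl
      · exact Or.inl ⟨(7 : Fin 10), (3 : Fin 4), Or.inr ⟨rfl, rfl⟩⟩
      · exact Or.inl ⟨(8 : Fin 10), (3 : Fin 4), Or.inr ⟨rfl, rfl⟩⟩
    intro j hj
    exact (key j).resolve_left hj
  · have hl : ∀ l : Fin 10, spinor.val (![(u 6 * u 13 - u 7 * u 11 + u 8 * u 10) / u 5, u 1, u 2, u 3, u 4, u 5, u 6, u 7, u 8, (-u 6 * u 2 - u 7 * u 3 - u 8 * u 4) / u 5, u 10, u 11, (u 6 * u 1 - u 10 * u 3 - u 11 * u 4) / u 5, u 13, (u 7 * u 1 + u 10 * u 2 - u 13 * u 4) / u 5, (u 8 * u 1 + u 11 * u 2 + u 13 * u 3) / u 5] : Fin 16 → K) l = 0 := by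
      intro l
      unfold QF.val
      fin_cases l
      · show ∑ t : Fin 4, _ = _
        rw [Fin.sum_univ_four]
        show ((1 : ℤ) : K) * ((u 6 * u 13 - u 7 * u 11 + u 8 * u 10) / u 5) * (u 1) + ((-1 : ℤ) : K) * (u 10) * ((u 8 * u 1 + u 11 * u 2 + u 13 * u 3) / u 5) + ((1 : ℤ) : K) * (u 11) * ((u 7 * u 1 + u 10 * u 2 - u 13 * u 4) / u 5) + ((-1 : ℤ) : K) * ((u 6 * u 1 - u 10 * u 3 - u 11 * u 4) / u 5) * (u 13) = 0
        push_cast
        field_simp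
        ring
      · show ∑ t : Fin 4, _ = _
        rw [Fin.sum_univ_four]
        show ((1 : ℤ) : K) * ((u 6 * u 13 - u 7 * u 11 + u 8 * u 10) / u 5) * (u 2) + ((1 : ℤ) : K) * (u 7) * ((u 8 * u 1 + u 11 * u 2 + u 13 * u 3) / u 5) + ((-1 : ℤ) : K) * (u 8) * ((u 7 * u 1 + u 10 * u 2 - u 13 * u 4) / u 5) + ((1 : ℤ) : K) * ((-u 6 * u 2 - u 7 * u 3 - u 8 * u 4) / u 5) * (u 13) = 0
        push_cast
        field_simp
        ring
      · show ∑ t : Fin 4, _ = _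
        rw [Fin.sum_univ_four]
        show ((1 : ℤ) : K) * ((u 6 * u 13 - u 7 * u 11 + u 8 * u 10) / u 5) * (u 3) + ((-1 : ℤ) : K) * (u 6) * ((u 8 * u 1 + u 11 * u 2 + u 13 * u 3) / u 5) + ((1 : ℤ) : K) * (u 8) * ((u 6 * u 1 - u 10 * u 3 - u 11 * u 4) / u 5) + ((-1 : ℤ) : K) * ((-u 6 * u 2 - u 7 * u 3 - u 8 * u 4) / u 5) * (u 11) = 0
        push_cast
        field_simp
        ring
      · show ∑ t : Fin 4, _ = _
        rw [Fin.sum_univ_four]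
        show ((1 : ℤ) : K) * ((u 6 * u 13 - u 7 * u 11 + u 8 * u 10) / u 5) * (u 4) + ((1 : ℤ) : K) * (u 6) * ((u 7 * u 1 + u 10 * u 2 - u 13 * u 4) / u 5) + ((-1 : ℤ) : K) * (u 7) * ((u 6 * u 1 - u 10 * u 3 - u 11 * u 4) / u 5) + ((1 : ℤ) : K) * ((-u 6 * u 2 - u 7 * u 3 - u 8 * u 4) / u 5) * (u 10) = 0
        push_cast
        field_simp
        ring
      · show ∑ t : Fin 4, _ = _
        rw [Fin.sum_univ_four]
        show ((1 : ℤ) : K) * ((u 6 * u 13 - u 7 * u 11 + u 8 * u 10) / u 5) * (u 5) + ((-1 : ℤ) : K) * (u 6) * (u 13) + ((1 : ℤ) : K) * (u 7) * (u 11) + ((-1 : ℤ) : K) * (u 8) * (u 10) = 0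
        push_cast
        field_simp
        ring
      · show ∑ t : Fin 4, _ = _
        rw [Fin.sum_univ_four]
        show ((1 : ℤ) : K) * (u 6) * (u 2) + ((1 : ℤ) : K) * (u 7) * (u 3) + ((1 : ℤ) : K) * (u 8) * (u 4) + ((1 : ℤ) : K) * ((-u 6 * u 2 - u 7 * u 3 - u 8 * u 4) / u 5) * (u 5) = 0
        push_cast
        field_simp
        ring
      · show ∑ t : Fin 4, _ = _
        rw [Fin.sum_univ_four]
        show ((-1 : ℤ) : K) * (u 6) * (u 1) + ((1 : ℤ) : K) * (u 10) * (u 3) + ((1 : ℤ) : K) * (u 11) * (u 4) + ((1 : ℤ) : K) * ((u 6 * u 1 - u 10 * u 3 - u 11 * u 4) / u 5) * (u 5) = 0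
        push_cast
        field_simp
        ring
      · show ∑ t : Fin 4, _ = _
        rw [Fin.sum_univ_four]
        show ((-1 : ℤ) : K) * (u 7) * (u 1) + ((-1 : ℤ) : K) * (u 10) * (u 2) + ((1 : ℤ) : K) * (u 13) * (u 4) + ((1 : ℤ) : K) * ((u 7 * u 1 + u 10 * u 2 - u 13 * u 4) / u 5) * (u 5) = 0
        push_cast
        field_simp
        ring
      · show ∑ t : Fin 4, _ = _
        rw [Fin.sum_univ_four]
        show ((-1 : ℤ) : K) * (u 8) * (u 1) + ((-1 : ℤ) : K) * (u 11) * (u 2) + ((-1 : ℤ) : K) * (u 13) * (u 3) + ((1 : ℤ) : K) * ((u 8 * u 1 + u 11 * u 2 + u 13 * u 3) / u 5) * (u 5) = 0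
        push_cast
        field_simp
        ring
      · show ∑ t : Fin 4, _ = _
        rw [Fin.sum_univ_four]
        show ((-1 : ℤ) : K) * ((-u 6 * u 2 - u 7 * u 3 - u 8 * u 4) / u 5) * (u 1) + ((-1 : ℤ) : K) * ((u 6 * u 1 - u 10 * u 3 - u 11 * u 4) / u 5) * (u 2) + ((-1 : ℤ) : K) * ((u 7 * u 1 + u 10 * u 2 - u 13 * u 4) / u 5) * (u 3) + ((-1 : ℤ) : K) * ((u 8 * u 1 + u 11 * u 2 + u 13 * u 3) / u 5) * (u 4) = 0
        push_cast
        field_simp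
        ring
    exact hl

theorem spinor_pt_6 {K : Type} [Field K] (u : Fin 16 → K) (h : u 6 ≠ 0) :
    ∃ y : Fin 16 → K, (∀ j : Fin 16, ¬ spinor.opp (6 : Fin 16) j → y j = u j) ∧
      ∀ l, spinor.val y l = 0 := by
  refine ⟨![u 0, (u 10 * u 3 + u 11 * u 4 + u 12 * u 5) / u 6, (-u 7 * u 3 - u 8 * u 4 - u 9 * u 5) / u 6, u 3, u 4, u 5, u 6, u 7, u 8, u 9, u 10, u 11, u 12, (u 0 * u 5 + u 7 * u 11 - u 8 * u 10) / u 6, (-u 0 * u 4 + u 7 * u 12 - u 9 * u 10) / u 6, (u 0 * u 3 + u 8 * u 12 - u 9 * u 11) / u 6], ?_, ?_⟩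
  · have key : ∀ j : Fin 16, spinor.opp (6 : Fin 16) j ∨ (![u 0, (u 10 * u 3 + u 11 * u 4 + u 12 * u 5) / u 6, (-u 7 * u 3 - u 8 * u 4 - u 9 * u 5) / u 6, u 3, u 4, u 5, u 6, u 7, u 8, u 9, u 10, u 11, u 12, (u 0 * u 5 + u 7 * u 11 - u 8 * u 10) / u 6, (-u 0 * u 4 + u 7 * u 12 - u 9 * u 10) / u 6, (u 0 * u 3 + u 8 * u 12 - u 9 * u 11) / u 6] : Fin 16 → K) j = u j := by
      intro j
      fin_cases j
      · exact Or.inr rfl
      · exact Or.inl ⟨(6 : Fin 10), (0 : Fin 4), Or.inl ⟨rfl, rfl⟩⟩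
      · exact Or.inl ⟨(5 : Fin 10), (0 : Fin 4), Or.inl ⟨rfl, rfl⟩⟩
      · exact Or.inr rfl
      · exact Or.inr rfl
      · exact Or.inr rfl
      · exact Or.inr rfl
      · exact Or.inr rfl
      · exact Or.inr rfl
      · exact Or.inr rfl
      · exact Or.inr rfl
      · exact Or.inr rfl
      · exact Or.inr rfl
      · exact Or.inl ⟨(4 : Fin 10), (1 : Fin 4), Or.inl ⟨rfl, rfl⟩⟩
      · exact Or.inl ⟨(3 : Fin 10), (1 : Fin 4), Or.inl ⟨rfl, rfl⟩⟩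
      · exact Or.inl ⟨(2 : Fin 10), (1 : Fin 4), Or.inl ⟨rfl, rfl⟩⟩
    intro j hj
    exact (key j).resolve_left hj
  · have hl : ∀ l : Fin 10, spinor.val (![u 0, (u 10 * u 3 + u 11 * u 4 + u 12 * u 5) / u 6, (-u 7 * u 3 - u 8 * u 4 - u 9 * u 5) / u 6, u 3, u 4, u 5, u 6, u 7, u 8, u 9, u 10, u 11, u 12, (u 0 * u 5 + u 7 * u 11 - u 8 * u 10) / u 6, (-u 0 * u 4 + u 7 * u 12 - u 9 * u 10) / u 6, (u 0 * u 3 + u 8 * u 12 - u 9 * u 11) / u 6] : Fin 16 → K) l = 0 := by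
      intro l
      unfold QF.val
      fin_cases l
      · show ∑ t : Fin 4, _ = _
        rw [Fin.sum_univ_four]
        show ((1 : ℤ) : K) * (u 0) * ((u 10 * u 3 + u 11 * u 4 + u 12 * u 5) / u 6) + ((-1 : ℤ) : K) * (u 10) * ((u 0 * u 3 + u 8 * u 12 - u 9 * u 11) / u 6) + ((1 : ℤ) : K) * (u 11) * ((-u 0 * u 4 + u 7 * u 12 - u 9 * u 10) / u 6) + ((-1 : ℤ) : K) * (u 12) * ((u 0 * u 5 + u 7 * u 11 - u 8 * u 10) / u 6) = 0
        push_cast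
        field_simp
        ring
      · show ∑ t : Fin 4, _ = _
        rw [Fin.sum_univ_four]
        show ((1 : ℤ) : K) * (u 0) * ((-u 7 * u 3 - u 8 * u 4 - u 9 * u 5) / u 6) + ((1 : ℤ) : K) * (u 7) * ((u 0 * u 3 + u 8 * u 12 - u 9 * u 11) / u 6) + ((-1 : ℤ) : K) * (u 8) * ((-u 0 * u 4 + u 7 * u 12 - u 9 * u 10) / u 6) + ((1 : ℤ) : K) * (u 9) * ((u 0 * u 5 + u 7 * u 11 - u 8 * u 10) / u 6) = 0
        push_cast
        field_simp
        ring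
      · show ∑ t : Fin 4, _ = _
        rw [Fin.sum_univ_four]
        show ((1 : ℤ) : K) * (u 0) * (u 3) + ((-1 : ℤ) : K) * (u 6) * ((u 0 * u 3 + u 8 * u 12 - u 9 * u 11) / u 6) + ((1 : ℤ) : K) * (u 8) * (u 12) + ((-1 : ℤ) : K) * (u 9) * (u 11) = 0
        push_cast
        field_simp
        ring
      · show ∑ t : Fin 4, _ = _
        rw [Fin.sum_univ_four]
        show ((1 : ℤ) : K) * (u 0) * (u 4) + ((1 : ℤ) : K) * (u 6) * ((-u 0 * u 4 + u 7 * u 12 - u 9 * u 10) / u 6) + ((-1 : ℤ) : K) * (u 7) * (u 12) + ((1 : ℤ) : K) * (u 9) * (u 10) = 0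
        push_cast
        field_simp
        ring
      · show ∑ t : Fin 4, _ = _
        rw [Fin.sum_univ_four]
        show ((1 : ℤ) : K) * (u 0) * (u 5) + ((-1 : ℤ) : K) * (u 6) * ((u 0 * u 5 + u 7 * u 11 - u 8 * u 10) / u 6) + ((1 : ℤ) : K) * (u 7) * (u 11) + ((-1 : ℤ) : K) * (u 8) * (u 10) = 0
        push_cast
        field_simp
        ring
      · show ∑ t : Fin 4, _ = _
        rw [Fin.sum_univ_four]
        show ((1 : ℤ) : K) * (u 6) * ((-u 7 * u 3 - u 8 * u 4 - u 9 * u 5) / u 6) + ((1 : ℤ) : K) * (u 7) * (u 3) + ((1 : ℤ) : K) * (u 8) * (u 4) + ((1 : ℤ) : K) * (u 9) * (u 5) = 0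
        push_cast
        field_simp
        ring
      · show ∑ t : Fin 4, _ = _
        rw [Fin.sum_univ_four]
        show ((-1 : ℤ) : K) * (u 6) * ((u 10 * u 3 + u 11 * u 4 + u 12 * u 5) / u 6) + ((1 : ℤ) : K) * (u 10) * (u 3) + ((1 : ℤ) : K) * (u 11) * (u 4) + ((1 : ℤ) : K) * (u 12) * (u 5) = 0
        push_cast
        field_simp
        ring
      · show ∑ t : Fin 4, _ = _
        rw [Fin.sum_univ_four]
        show ((-1 : ℤ) : K) * (u 7) * ((u 10 * u 3 + u 11 * u 4 + u 12 * u 5) / u 6) + ((-1 : ℤ) : K) * (u 10) * ((-u 7 * u 3 - u 8 * u 4 - u 9 * u 5) / u 6) + ((1 : ℤ) : K) * ((u 0 * u 5 + u 7 * u 11 - u 8 * u 10) / u 6) * (u 4) + ((1 : ℤ) : K) * ((-u 0 * u 4 + u 7 * u 12 - u 9 * u 10) / u 6) * (u 5) = 0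
        push_cast
        field_simp
        ring
      · show ∑ t : Fin 4, _ = _
        rw [Fin.sum_univ_four]
        show ((-1 : ℤ) : K) * (u 8) * ((u 10 * u 3 + u 11 * u 4 + u 12 * u 5) / u 6) + ((-1 : ℤ) : K) * (u 11) * ((-u 7 * u 3 - u 8 * u 4 - u 9 * u 5) / u 6) + ((-1 : ℤ) : K) * ((u 0 * u 5 + u 7 * u 11 - u 8 * u 10) / u 6) * (u 3) + ((1 : ℤ) : K) * ((u 0 * u 3 + u 8 * u 12 - u 9 * u 11) / u 6) * (u 5) = 0
        push_cast
        field_simp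
        ring
      · show ∑ t : Fin 4, _ = _
        rw [Fin.sum_univ_four]
        show ((-1 : ℤ) : K) * (u 9) * ((u 10 * u 3 + u 11 * u 4 + u 12 * u 5) / u 6) + ((-1 : ℤ) : K) * (u 12) * ((-u 7 * u 3 - u 8 * u 4 - u 9 * u 5) / u 6) + ((-1 : ℤ) : K) * ((-u 0 * u 4 + u 7 * u 12 - u 9 * u 10) / u 6) * (u 3) + ((-1 : ℤ) : K) * ((u 0 * u 3 + u 8 * u 12 - u 9 * u 11) / u 6) * (u 4) = 0
        push_cast
        field_simp
        ring
    exact hl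

theorem spinor_pt_7 {K : Type} [Field K] (u : Fin 16 → K) (h : u 7 ≠ 0) :
    ∃ y : Fin 16 → K, (∀ j : Fin 16, ¬ spinor.opp (7 : Fin 16) j → y j = u j) ∧
      ∀ l, spinor.val y l = 0 := by
  refine ⟨![u 0, (-u 10 * u 2 + u 13 * u 4 + u 14 * u 5) / u 7, u 2, (-u 6 * u 2 - u 8 * u 4 - u 9 * u 5) / u 7, u 4, u 5, u 6, u 7, u 8, u 9, u 10, (-u 0 * u 5 + u 6 * u 13 + u 8 * u 10) / u 7, (u 0 * u 4 + u 6 * u 14 + u 9 * u 10) / u 7, u 13, u 14, (-u 0 * u 2 + u 8 * u 14 - u 9 * u 13) / u 7], ?_, ?_⟩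
  · have key : ∀ j : Fin 16, spinor.opp (7 : Fin 16) j ∨ (![u 0, (-u 10 * u 2 + u 13 * u 4 + u 14 * u 5) / u 7, u 2, (-u 6 * u 2 - u 8 * u 4 - u 9 * u 5) / u 7, u 4, u 5, u 6, u 7, u 8, u 9, u 10, (-u 0 * u 5 + u 6 * u 13 + u 8 * u 10) / u 7, (u 0 * u 4 + u 6 * u 14 + u 9 * u 10) / u 7, u 13, u 14, (-u 0 * u 2 + u 8 * u 14 - u 9 * u 13) / u 7] : Fin 16 → K) j = u j := by
      intro j
      fin_cases j
      · exact Or.inr rfl
      · exact Or.inl ⟨(7 : Fin 10), (0 : Fin 4), Or.inl ⟨rfl, rfl⟩⟩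
      · exact Or.inr rfl
      · exact Or.inl ⟨(5 : Fin 10), (1 : Fin 4), Or.inl ⟨rfl, rfl⟩⟩
      · exact Or.inr rfl
      · exact Or.inr rfl
      · exact Or.inr rfl
      · exact Or.inr rfl
      · exact Or.inr rfl
      · exact Or.inr rfl
      · exact Or.inr rfl
      · exact Or.inl ⟨(4 : Fin 10), (2 : Fin 4), Or.inl ⟨rfl, rfl⟩⟩
      · exact Or.inl ⟨(3 : Fin 10), (2 : Fin 4), Or.inl ⟨rfl, rfl⟩⟩
      · exact Or.inr rfl
      · exact Or.inr rfl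
      · exact Or.inl ⟨(1 : Fin 10), (1 : Fin 4), Or.inl ⟨rfl, rfl⟩⟩
    intro j hj
    exact (key j).resolve_left hj
  · have hl : ∀ l : Fin 10, spinor.val (![u 0, (-u 10 * u 2 + u 13 * u 4 + u 14 * u 5) / u 7, u 2, (-u 6 * u 2 - u 8 * u 4 - u 9 * u 5) / u 7, u 4, u 5, u 6, u 7, u 8, u 9, u 10, (-u 0 * u 5 + u 6 * u 13 + u 8 * u 10) / u 7, (u 0 * u 4 + u 6 * u 14 + u 9 * u 10) / u 7, u 13, u 14, (-u 0 * u 2 + u 8 * u 14 - u 9 * u 13) / u 7] : Fin 16 → K) l = 0 := by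
      intro l
      unfold QF.val
      fin_cases l
      · show ∑ t : Fin 4, _ = _
        rw [Fin.sum_univ_four]
        show ((1 : ℤ) : K) * (u 0) * ((-u 10 * u 2 + u 13 * u 4 + u 14 * u 5) / u 7) + ((-1 : ℤ) : K) * (u 10) * ((-u 0 * u 2 + u 8 * u 14 - u 9 * u 13) / u 7) + ((1 : ℤ) : K) * ((-u 0 * u 5 + u 6 * u 13 + u 8 * u 10) / u 7) * (u 14) + ((-1 : ℤ) : K) * ((u 0 * u 4 + u 6 * u 14 + u 9 * u 10) / u 7) * (u 13) = 0
        push_cast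
        field_simp
        ring
      · show ∑ t : Fin 4, _ = _
        rw [Fin.sum_univ_four]
        show ((1 : ℤ) : K) * (u 0) * (u 2) + ((1 : ℤ) : K) * (u 7) * ((-u 0 * u 2 + u 8 * u 14 - u 9 * u 13) / u 7) + ((-1 : ℤ) : K) * (u 8) * (u 14) + ((1 : ℤ) : K) * (u 9) * (u 13) = 0
        push_cast
        field_simp
        ring
      · show ∑ t : Fin 4, _ = _
        rw [Fin.sum_univ_four]
        show ((1 : ℤ) : K) * (u 0) * ((-u 6 * u 2 - u 8 * u 4 - u 9 * u 5) / u 7) + ((-1 : ℤ) : K) * (u 6) * ((-u 0 * u 2 + u 8 * u 14 - u 9 * u 13) / u 7) + ((1 : ℤ) : K) * (u 8) * ((u 0 * u 4 + u 6 * u 14 + u 9 * u 10) / u 7) + ((-1 : ℤ) : K) * (u 9) * ((-u 0 * u 5 + u 6 * u 13 + u 8 * u 10) / u 7) = 0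
        push_cast
        field_simp
        ring
      · show ∑ t : Fin 4, _ = _
        rw [Fin.sum_univ_four]
        show ((1 : ℤ) : K) * (u 0) * (u 4) + ((1 : ℤ) : K) * (u 6) * (u 14) + ((-1 : ℤ) : K) * (u 7) * ((u 0 * u 4 + u 6 * u 14 + u 9 * u 10) / u 7) + ((1 : ℤ) : K) * (u 9) * (u 10) = 0
        push_cast
        field_simp
        ring
      · show ∑ t : Fin 4, _ = _
        rw [Fin.sum_univ_four]
        show ((1 : ℤ) : K) * (u 0) * (u 5) + ((-1 : ℤ) : K) * (u 6) * (u 13) + ((1 : ℤ) : K) * (u 7) * ((-u 0 * u 5 + u 6 * u 13 + u 8 * u 10) / u 7) + ((-1 : ℤ) : K) * (u 8) * (u 10) = 0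
        push_cast
        field_simp
        ring
      · show ∑ t : Fin 4, _ = _
        rw [Fin.sum_univ_four]
        show ((1 : ℤ) : K) * (u 6) * (u 2) + ((1 : ℤ) : K) * (u 7) * ((-u 6 * u 2 - u 8 * u 4 - u 9 * u 5) / u 7) + ((1 : ℤ) : K) * (u 8) * (u 4) + ((1 : ℤ) : K) * (u 9) * (u 5) = 0
        push_cast
        field_simp
        ring
      · show ∑ t : Fin 4, _ = _
        rw [Fin.sum_univ_four]
        show ((-1 : ℤ) : K) * (u 6) * ((-u 10 * u 2 + u 13 * u 4 + u 14 * u 5) / u 7) + ((1 : ℤ) : K) * (u 10) * ((-u 6 * u 2 - u 8 * u 4 - u 9 * u 5) / u 7) + ((1 : ℤ) : K) * ((-u 0 * u 5 + u 6 * u 13 + u 8 * u 10) / u 7) * (u 4) + ((1 : ℤ) : K) * ((u 0 * u 4 + u 6 * u 14 + u 9 * u 10) / u 7) * (u 5) = 0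
        push_cast
        field_simp
        ring
      · show ∑ t : Fin 4, _ = _
        rw [Fin.sum_univ_four]
        show ((-1 : ℤ) : K) * (u 7) * ((-u 10 * u 2 + u 13 * u 4 + u 14 * u 5) / u 7) + ((-1 : ℤ) : K) * (u 10) * (u 2) + ((1 : ℤ) : K) * (u 13) * (u 4) + ((1 : ℤ) : K) * (u 14) * (u 5) = 0
        push_cast
        field_simp
        ring
      · show ∑ t : Fin 4, _ = _
        rw [Fin.sum_univ_four]
        show ((-1 : ℤ) : K) * (u 8) * ((-u 10 * u 2 + u 13 * u 4 + u 14 * u 5) / u 7) + ((-1 : ℤ) : K) * ((-u 0 * u 5 + u 6 * u 13 + u 8 * u 10) / u 7) * (u 2) + ((-1 : ℤ) : K) * (u 13) * ((-u 6 * u 2 - u 8 * u 4 - u 9 * u 5) / u 7) + ((1 : ℤ) : K) * ((-u 0 * u 2 + u 8 * u 14 - u 9 * u 13) / u 7) * (u 5) = 0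
        push_cast
        field_simp
        ring
      · show ∑ t : Fin 4, _ = _
        rw [Fin.sum_univ_four]
        show ((-1 : ℤ) : K) * (u 9) * ((-u 10 * u 2 + u 13 * u 4 + u 14 * u 5) / u 7) + ((-1 : ℤ) : K) * ((u 0 * u 4 + u 6 * u 14 + u 9 * u 10) / u 7) * (u 2) + ((-1 : ℤ) : K) * (u 14) * ((-u 6 * u 2 - u 8 * u 4 - u 9 * u 5) / u 7) + ((-1 : ℤ) : K) * ((-u 0 * u 2 + u 8 * u 14 - u 9 * u 13) / u 7) * (u 4) = 0
        push_cast
        field_simp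
        ring
    exact hl

theorem spinor_pt_8 {K : Type} [Field K] (u : Fin 16 → K) (h : u 8 ≠ 0) :
    ∃ y : Fin 16 → K, (∀ j : Fin 16, ¬ spinor.opp (8 : Fin 16) j → y j = u j) ∧
      ∀ l, spinor.val y l = 0 := by
  refine ⟨![u 0, (-u 11 * u 2 - u 13 * u 3 + u 15 * u 5) / u 8, u 2, u 3, (-u 6 * u 2 - u 7 * u 3 - u 9 * u 5) / u 8, u 5, u 6, u 7, u 8, u 9, (u 0 * u 5 - u 6 * u 13 + u 7 * u 11) / u 8, u 11, (-u 0 * u 3 + u 6 * u 15 + u 9 * u 11) / u 8, u 13, (u 0 * u 2 + u 7 * u 15 + u 9 * u 13) / u 8, u 15], ?_, ?_⟩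
  · have key : ∀ j : Fin 16, spinor.opp (8 : Fin 16) j ∨ (![u 0, (-u 11 * u 2 - u 13 * u 3 + u 15 * u 5) / u 8, u 2, u 3, (-u 6 * u 2 - u 7 * u 3 - u 9 * u 5) / u 8, u 5, u 6, u 7, u 8, u 9, (u 0 * u 5 - u 6 * u 13 + u 7 * u 11) / u 8, u 11, (-u 0 * u 3 + u 6 * u 15 + u 9 * u 11) / u 8, u 13, (u 0 * u 2 + u 7 * u 15 + u 9 * u 13) / u 8, u 15] : Fin 16 → K) j = u j := by
      intro j
      fin_cases j
      · exact Or.inr rfl
      · exact Or.inl ⟨(8 : Fin 10), (0 : Fin 4), Or.inl ⟨rfl, rfl⟩⟩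
      · exact Or.inr rfl
      · exact Or.inr rfl
      · exact Or.inl ⟨(5 : Fin 10), (2 : Fin 4), Or.inl ⟨rfl, rfl⟩⟩
      · exact Or.inr rfl
      · exact Or.inr rfl
      · exact Or.inr rfl
      · exact Or.inr rfl
      · exact Or.inr rfl
      · exact Or.inl ⟨(4 : Fin 10), (3 : Fin 4), Or.inl ⟨rfl, rfl⟩⟩
      · exact Or.inr rfl
      · exact Or.inl ⟨(2 : Fin 10), (2 : Fin 4), Or.inl ⟨rfl, rfl⟩⟩
      · exact Or.inr rfl
      · exact Or.inl ⟨(1 : Fin 10), (2 : Fin 4), Or.inl ⟨rfl, rfl⟩⟩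
      · exact Or.inr rfl
    intro j hj
    exact (key j).resolve_left hj
  · have hl : ∀ l : Fin 10, spinor.val (![u 0, (-u 11 * u 2 - u 13 * u 3 + u 15 * u 5) / u 8, u 2, u 3, (-u 6 * u 2 - u 7 * u 3 - u 9 * u 5) / u 8, u 5, u 6, u 7, u 8, u 9, (u 0 * u 5 - u 6 * u 13 + u 7 * u 11) / u 8, u 11, (-u 0 * u 3 + u 6 * u 15 + u 9 * u 11) / u 8, u 13, (u 0 * u 2 + u 7 * u 15 + u 9 * u 13) / u 8, u 15] : Fin 16 → K) l = 0 := by
      intro l
      unfold QF.val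
      fin_cases l
      · show ∑ t : Fin 4, _ = _
        rw [Fin.sum_univ_four]
        show ((1 : ℤ) : K) * (u 0) * ((-u 11 * u 2 - u 13 * u 3 + u 15 * u 5) / u 8) + ((-1 : ℤ) : K) * ((u 0 * u 5 - u 6 * u 13 + u 7 * u 11) / u 8) * (u 15) + ((1 : ℤ) : K) * (u 11) * ((u 0 * u 2 + u 7 * u 15 + u 9 * u 13) / u 8) + ((-1 : ℤ) : K) * ((-u 0 * u 3 + u 6 * u 15 + u 9 * u 11) / u 8) * (u 13) = 0
        push_cast
        field_simp
        ring
      · show ∑ t : Fin 4, _ = _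
        rw [Fin.sum_univ_four]
        show ((1 : ℤ) : K) * (u 0) * (u 2) + ((1 : ℤ) : K) * (u 7) * (u 15) + ((-1 : ℤ) : K) * (u 8) * ((u 0 * u 2 + u 7 * u 15 + u 9 * u 13) / u 8) + ((1 : ℤ) : K) * (u 9) * (u 13) = 0
        push_cast
        field_simp
        ring
      · show ∑ t : Fin 4, _ = _
        rw [Fin.sum_univ_four]
        show ((1 : ℤ) : K) * (u 0) * (u 3) + ((-1 : ℤ) : K) * (u 6) * (u 15) + ((1 : ℤ) : K) * (u 8) * ((-u 0 * u 3 + u 6 * u 15 + u 9 * u 11) / u 8) + ((-1 : ℤ) : K) * (u 9) * (u 11) = 0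
        push_cast
        field_simp
        ring
      · show ∑ t : Fin 4, _ = _
        rw [Fin.sum_univ_four]
        show ((1 : ℤ) : K) * (u 0) * ((-u 6 * u 2 - u 7 * u 3 - u 9 * u 5) / u 8) + ((1 : ℤ) : K) * (u 6) * ((u 0 * u 2 + u 7 * u 15 + u 9 * u 13) / u 8) + ((-1 : ℤ) : K) * (u 7) * ((-u 0 * u 3 + u 6 * u 15 + u 9 * u 11) / u 8) + ((1 : ℤ) : K) * (u 9) * ((u 0 * u 5 - u 6 * u 13 + u 7 * u 11) / u 8) = 0
        push_cast
        field_simp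
        ring
      · show ∑ t : Fin 4, _ = _
        rw [Fin.sum_univ_four]
        show ((1 : ℤ) : K) * (u 0) * (u 5) + ((-1 : ℤ) : K) * (u 6) * (u 13) + ((1 : ℤ) : K) * (u 7) * (u 11) + ((-1 : ℤ) : K) * (u 8) * ((u 0 * u 5 - u 6 * u 13 + u 7 * u 11) / u 8) = 0
        push_cast
        field_simp
        ring
      · show ∑ t : Fin 4, _ = _
        rw [Fin.sum_univ_four]
        show ((1 : ℤ) : K) * (u 6) * (u 2) + ((1 : ℤ) : K) * (u 7) * (u 3) + ((1 : ℤ) : K) * (u 8) * ((-u 6 * u 2 - u 7 * u 3 - u 9 * u 5) / u 8) + ((1 : ℤ) : K) * (u 9) * (u 5) = 0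
        push_cast
        field_simp
        ring
      · show ∑ t : Fin 4, _ = _
        rw [Fin.sum_univ_four]
        show ((-1 : ℤ) : K) * (u 6) * ((-u 11 * u 2 - u 13 * u 3 + u 15 * u 5) / u 8) + ((1 : ℤ) : K) * ((u 0 * u 5 - u 6 * u 13 + u 7 * u 11) / u 8) * (u 3) + ((1 : ℤ) : K) * (u 11) * ((-u 6 * u 2 - u 7 * u 3 - u 9 * u 5) / u 8) + ((1 : ℤ) : K) * ((-u 0 * u 3 + u 6 * u 15 + u 9 * u 11) / u 8) * (u 5) = 0
        push_cast
        field_simp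
        ring
      · show ∑ t : Fin 4, _ = _
        rw [Fin.sum_univ_four]
        show ((-1 : ℤ) : K) * (u 7) * ((-u 11 * u 2 - u 13 * u 3 + u 15 * u 5) / u 8) + ((-1 : ℤ) : K) * ((u 0 * u 5 - u 6 * u 13 + u 7 * u 11) / u 8) * (u 2) + ((1 : ℤ) : K) * (u 13) * ((-u 6 * u 2 - u 7 * u 3 - u 9 * u 5) / u 8) + ((1 : ℤ) : K) * ((u 0 * u 2 + u 7 * u 15 + u 9 * u 13) / u 8) * (u 5) = 0
        push_cast
        field_simp
        ring
      · show ∑ t : Fin 4, _ = _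
        rw [Fin.sum_univ_four]
        show ((-1 : ℤ) : K) * (u 8) * ((-u 11 * u 2 - u 13 * u 3 + u 15 * u 5) / u 8) + ((-1 : ℤ) : K) * (u 11) * (u 2) + ((-1 : ℤ) : K) * (u 13) * (u 3) + ((1 : ℤ) : K) * (u 15) * (u 5) = 0
        push_cast
        field_simp
        ring
      · show ∑ t : Fin 4, _ = _
        rw [Fin.sum_univ_four]
        show ((-1 : ℤ) : K) * (u 9) * ((-u 11 * u 2 - u 13 * u 3 + u 15 * u 5) / u 8) + ((-1 : ℤ) : K) * ((-u 0 * u 3 + u 6 * u 15 + u 9 * u 11) / u 8) * (u 2) + ((-1 : ℤ) : K) * ((u 0 * u 2 + u 7 * u 15 + u 9 * u 13) / u 8) * (u 3) + ((-1 : ℤ) : K) * (u 15) * ((-u 6 * u 2 - u 7 * u 3 - u 9 * u 5) / u 8) = 0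
        push_cast
        field_simp
        ring
    exact hl

theorem spinor_pt_9 {K : Type} [Field K] (u : Fin 16 → K) (h : u 9 ≠ 0) :
    ∃ y : Fin 16 → K, (∀ j : Fin 16, ¬ spinor.opp (9 : Fin 16) j → y j = u j) ∧
      ∀ l, spinor.val y l = 0 := by
  refine ⟨![u 0, (-u 12 * u 2 - u 14 * u 3 - u 15 * u 4) / u 9, u 2, u 3, u 4, (-u 6 * u 2 - u 7 * u 3 - u 8 * u 4) / u 9, u 6, u 7, u 8, u 9, (-u 0 * u 4 - u 6 * u 14 + u 7 * u 12) / u 9, (u 0 * u 3 - u 6 * u 15 + u 8 * u 12) / u 9, u 12, (-u 0 * u 2 - u 7 * u 15 + u 8 * u 14) / u 9, u 14, u 15], ?_, ?_⟩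
  · have key : ∀ j : Fin 16, spinor.opp (9 : Fin 16) j ∨ (![u 0, (-u 12 * u 2 - u 14 * u 3 - u 15 * u 4) / u 9, u 2, u 3, u 4, (-u 6 * u 2 - u 7 * u 3 - u 8 * u 4) / u 9, u 6, u 7, u 8, u 9, (-u 0 * u 4 - u 6 * u 14 + u 7 * u 12) / u 9, (u 0 * u 3 - u 6 * u 15 + u 8 * u 12) / u 9, u 12, (-u 0 * u 2 - u 7 * u 15 + u 8 * u 14) / u 9, u 14, u 15] : Fin 16 → K) j = u j := by
      intro j
      fin_cases j
      · exact Or.inr rfl
      · exact Or.inl ⟨(9 : Fin 10), (0 : Fin 4), Or.inl ⟨rfl, rfl⟩⟩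
      · exact Or.inr rfl
      · exact Or.inr rfl
      · exact Or.inr rfl
      · exact Or.inl ⟨(5 : Fin 10), (3 : Fin 4), Or.inl ⟨rfl, rfl⟩⟩
      · exact Or.inr rfl
      · exact Or.inr rfl
      · exact Or.inr rfl
      · exact Or.inr rfl
      · exact Or.inl ⟨(3 : Fin 10), (3 : Fin 4), Or.inl ⟨rfl, rfl⟩⟩
      · exact Or.inl ⟨(2 : Fin 10), (3 : Fin 4), Or.inl ⟨rfl, rfl⟩⟩
      · exact Or.inr rfl
      · exact Or.inl ⟨(1 : Fin 10), (3 : Fin 4), Or.inl ⟨rfl, rfl⟩⟩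
      · exact Or.inr rfl
      · exact Or.inr rfl
    intro j hj
    exact (key j).resolve_left hj
  · have hl : ∀ l : Fin 10, spinor.val (![u 0, (-u 12 * u 2 - u 14 * u 3 - u 15 * u 4) / u 9, u 2, u 3, u 4, (-u 6 * u 2 - u 7 * u 3 - u 8 * u 4) / u 9, u 6, u 7, u 8, u 9, (-u 0 * u 4 - u 6 * u 14 + u 7 * u 12) / u 9, (u 0 * u 3 - u 6 * u 15 + u 8 * u 12) / u 9, u 12, (-u 0 * u 2 - u 7 * u 15 + u 8 * u 14) / u 9, u 14, u 15] : Fin 16 → K) l = 0 := by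
      intro l
      unfold QF.val
      fin_cases l
      · show ∑ t : Fin 4, _ = _
        rw [Fin.sum_univ_four]
        show ((1 : ℤ) : K) * (u 0) * ((-u 12 * u 2 - u 14 * u 3 - u 15 * u 4) / u 9) + ((-1 : ℤ) : K) * ((-u 0 * u 4 - u 6 * u 14 + u 7 * u 12) / u 9) * (u 15) + ((1 : ℤ) : K) * ((u 0 * u 3 - u 6 * u 15 + u 8 * u 12) / u 9) * (u 14) + ((-1 : ℤ) : K) * (u 12) * ((-u 0 * u 2 - u 7 * u 15 + u 8 * u 14) / u 9) = 0
        push_cast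
        field_simp
        ring
      · show ∑ t : Fin 4, _ = _
        rw [Fin.sum_univ_four]
        show ((1 : ℤ) : K) * (u 0) * (u 2) + ((1 : ℤ) : K) * (u 7) * (u 15) + ((-1 : ℤ) : K) * (u 8) * (u 14) + ((1 : ℤ) : K) * (u 9) * ((-u 0 * u 2 - u 7 * u 15 + u 8 * u 14) / u 9) = 0
        push_cast
        field_simp
        ring
      · show ∑ t : Fin 4, _ = _
        rw [Fin.sum_univ_four]
        show ((1 : ℤ) : K) * (u 0) * (u 3) + ((-1 : ℤ) : K) * (u 6) * (u 15) + ((1 : ℤ) : K) * (u 8) * (u 12) + ((-1 : ℤ) : K) * (u 9) * ((u 0 * u 3 - u 6 * u 15 + u 8 * u 12) / u 9) = 0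
        push_cast
        field_simp
        ring
      · show ∑ t : Fin 4, _ = _
        rw [Fin.sum_univ_four]
        show ((1 : ℤ) : K) * (u 0) * (u 4) + ((1 : ℤ) : K) * (u 6) * (u 14) + ((-1 : ℤ) : K) * (u 7) * (u 12) + ((1 : ℤ) : K) * (u 9) * ((-u 0 * u 4 - u 6 * u 14 + u 7 * u 12) / u 9) = 0
        push_cast
        field_simp
        ring
      · show ∑ t : Fin 4, _ = _
        rw [Fin.sum_univ_four]
        show ((1 : ℤ) : K) * (u 0) * ((-u 6 * u 2 - u 7 * u 3 - u 8 * u 4) / u 9) + ((-1 : ℤ) : K) * (u 6) * ((-u 0 * u 2 - u 7 * u 15 + u 8 * u 14) / u 9) + ((1 : ℤ) : K) * (u 7) * ((u 0 * u 3 - u 6 * u 15 + u 8 * u 12) / u 9) + ((-1 : ℤ) : K) * (u 8) * ((-u 0 * u 4 - u 6 * u 14 + u 7 * u 12) / u 9) = 0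
        push_cast
        field_simp
        ring
      · show ∑ t : Fin 4, _ = _
        rw [Fin.sum_univ_four]
        show ((1 : ℤ) : K) * (u 6) * (u 2) + ((1 : ℤ) : K) * (u 7) * (u 3) + ((1 : ℤ) : K) * (u 8) * (u 4) + ((1 : ℤ) : K) * (u 9) * ((-u 6 * u 2 - u 7 * u 3 - u 8 * u 4) / u 9) = 0
        push_cast
        field_simp
        ring
      · show ∑ t : Fin 4, _ = _
        rw [Fin.sum_univ_four]
        show ((-1 : ℤ) : K) * (u 6) * ((-u 12 * u 2 - u 14 * u 3 - u 15 * u 4) / u 9) + ((1 : ℤ) : K) * ((-u 0 * u 4 - u 6 * u 14 + u 7 * u 12) / u 9) * (u 3) + ((1 : ℤ) : K) * ((u 0 * u 3 - u 6 * u 15 + u 8 * u 12) / u 9) * (u 4) + ((1 : ℤ) : K) * (u 12) * ((-u 6 * u 2 - u 7 * u 3 - u 8 * u 4) / u 9) = 0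
        push_cast
        field_simp
        ring
      · show ∑ t : Fin 4, _ = _
        rw [Fin.sum_univ_four]
        show ((-1 : ℤ) : K) * (u 7) * ((-u 12 * u 2 - u 14 * u 3 - u 15 * u 4) / u 9) + ((-1 : ℤ) : K) * ((-u 0 * u 4 - u 6 * u 14 + u 7 * u 12) / u 9) * (u 2) + ((1 : ℤ) : K) * ((-u 0 * u 2 - u 7 * u 15 + u 8 * u 14) / u 9) * (u 4) + ((1 : ℤ) : K) * (u 14) * ((-u 6 * u 2 - u 7 * u 3 - u 8 * u 4) / u 9) = 0
        push_cast
        field_simp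
        ring
      · show ∑ t : Fin 4, _ = _
        rw [Fin.sum_univ_four]
        show ((-1 : ℤ) : K) * (u 8) * ((-u 12 * u 2 - u 14 * u 3 - u 15 * u 4) / u 9) + ((-1 : ℤ) : K) * ((u 0 * u 3 - u 6 * u 15 + u 8 * u 12) / u 9) * (u 2) + ((-1 : ℤ) : K) * ((-u 0 * u 2 - u 7 * u 15 + u 8 * u 14) / u 9) * (u 3) + ((1 : ℤ) : K) * (u 15) * ((-u 6 * u 2 - u 7 * u 3 - u 8 * u 4) / u 9) = 0
        push_cast
        field_simp
        ring
      · show ∑ t : Fin 4, _ = _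
        rw [Fin.sum_univ_four]
        show ((-1 : ℤ) : K) * (u 9) * ((-u 12 * u 2 - u 14 * u 3 - u 15 * u 4) / u 9) + ((-1 : ℤ) : K) * (u 12) * (u 2) + ((-1 : ℤ) : K) * (u 14) * (u 3) + ((-1 : ℤ) : K) * (u 15) * (u 4) = 0
        push_cast
        field_simp
        ring
    exact hl

theorem spinor_pt_10 {K : Type} [Field K] (u : Fin 16 → K) (h : u 10 ≠ 0) :
    ∃ y : Fin 16 → K, (∀ j : Fin 16, ¬ spinor.opp (10 : Fin 16) j → y j = u j) ∧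
      ∀ l, spinor.val y l = 0 := by
  refine ⟨![u 0, u 1, (-u 7 * u 1 + u 13 * u 4 + u 14 * u 5) / u 10, (u 6 * u 1 - u 11 * u 4 - u 12 * u 5) / u 10, u 4, u 5, u 6, u 7, (u 0 * u 5 - u 6 * u 13 + u 7 * u 11) / u 10, (-u 0 * u 4 - u 6 * u 14 + u 7 * u 12) / u 10, u 10, u 11, u 12, u 13, u 14, (u 0 * u 1 + u 11 * u 14 - u 12 * u 13) / u 10], ?_, ?_⟩
  · have key : ∀ j : Fin 16, spinor.opp (10 : Fin 16) j ∨ (![u 0, u 1, (-u 7 * u 1 + u 13 * u 4 + u 14 * u 5) / u 10, (u 6 * u 1 - u 11 * u 4 - u 12 * u 5) / u 10, u 4, u 5, u 6, u 7, (u 0 * u 5 - u 6 * u 13 + u 7 * u 11) / u 10, (-u 0 * u 4 - u 6 * u 14 + u 7 * u 12) / u 10, u 10, u 11, u 12, u 13, u 14, (u 0 * u 1 + u 11 * u 14 - u 12 * u 13) / u 10] : Fin 16 → K) j = u j := by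
      intro j
      fin_cases j
      · exact Or.inr rfl
      · exact Or.inr rfl
      · exact Or.inl ⟨(7 : Fin 10), (1 : Fin 4), Or.inl ⟨rfl, rfl⟩⟩
      · exact Or.inl ⟨(6 : Fin 10), (1 : Fin 4), Or.inl ⟨rfl, rfl⟩⟩
      · exact Or.inr rfl
      · exact Or.inr rfl
      · exact Or.inr rfl
      · exact Or.inr rfl
      · exact Or.inl ⟨(4 : Fin 10), (3 : Fin 4), Or.inr ⟨rfl, rfl⟩⟩
      · exact Or.inl ⟨(3 : Fin 10), (3 : Fin 4), Or.inr ⟨rfl, rfl⟩⟩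
      · exact Or.inr rfl
      · exact Or.inr rfl
      · exact Or.inr rfl
      · exact Or.inr rfl
      · exact Or.inr rfl
      · exact Or.inl ⟨(0 : Fin 10), (1 : Fin 4), Or.inl ⟨rfl, rfl⟩⟩
    intro j hj
    exact (key j).resolve_left hj
  · have hl : ∀ l : Fin 10, spinor.val (![u 0, u 1, (-u 7 * u 1 + u 13 * u 4 + u 14 * u 5) / u 10, (u 6 * u 1 - u 11 * u 4 - u 12 * u 5) / u 10, u 4, u 5, u 6, u 7, (u 0 * u 5 - u 6 * u 13 + u 7 * u 11) / u 10, (-u 0 * u 4 - u 6 * u 14 + u 7 * u 12) / u 10, u 10, u 11, u 12, u 13, u 14, (u 0 * u 1 + u 11 * u 14 - u 12 * u 13) / u 10] : Fin 16 → K) l = 0 := by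
      intro l
      unfold QF.val
      fin_cases l
      · show ∑ t : Fin 4, _ = _
        rw [Fin.sum_univ_four]
        show ((1 : ℤ) : K) * (u 0) * (u 1) + ((-1 : ℤ) : K) * (u 10) * ((u 0 * u 1 + u 11 * u 14 - u 12 * u 13) / u 10) + ((1 : ℤ) : K) * (u 11) * (u 14) + ((-1 : ℤ) : K) * (u 12) * (u 13) = 0
        push_cast
        field_simp
        ring
      · show ∑ t : Fin 4, _ = _
        rw [Fin.sum_univ_four]
        show ((1 : ℤ) : K) * (u 0) * ((-u 7 * u 1 + u 13 * u 4 + u 14 * u 5) / u 10) + ((1 : ℤ) : K) * (u 7) * ((u 0 * u 1 + u 11 * u 14 - u 12 * u 13) / u 10) + ((-1 : ℤ) : K) * ((u 0 * u 5 - u 6 * u 13 + u 7 * u 11) / u 10) * (u 14) + ((1 : ℤ) : K) * ((-u 0 * u 4 - u 6 * u 14 + u 7 * u 12) / u 10) * (u 13) = 0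
        push_cast
        field_simp
        ring
      · show ∑ t : Fin 4, _ = _
        rw [Fin.sum_univ_four]
        show ((1 : ℤ) : K) * (u 0) * ((u 6 * u 1 - u 11 * u 4 - u 12 * u 5) / u 10) + ((-1 : ℤ) : K) * (u 6) * ((u 0 * u 1 + u 11 * u 14 - u 12 * u 13) / u 10) + ((1 : ℤ) : K) * ((u 0 * u 5 - u 6 * u 13 + u 7 * u 11) / u 10) * (u 12) + ((-1 : ℤ) : K) * ((-u 0 * u 4 - u 6 * u 14 + u 7 * u 12) / u 10) * (u 11) = 0
        push_cast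
        field_simp
        ring
      · show ∑ t : Fin 4, _ = _
        rw [Fin.sum_univ_four]
        show ((1 : ℤ) : K) * (u 0) * (u 4) + ((1 : ℤ) : K) * (u 6) * (u 14) + ((-1 : ℤ) : K) * (u 7) * (u 12) + ((1 : ℤ) : K) * ((-u 0 * u 4 - u 6 * u 14 + u 7 * u 12) / u 10) * (u 10) = 0
        push_cast
        field_simp
        ring
      · show ∑ t : Fin 4, _ = _
        rw [Fin.sum_univ_four]
        show ((1 : ℤ) : K) * (u 0) * (u 5) + ((-1 : ℤ) : K) * (u 6) * (u 13) + ((1 : ℤ) : K) * (u 7) * (u 11) + ((-1 : ℤ) : K) * ((u 0 * u 5 - u 6 * u 13 + u 7 * u 11) / u 10) * (u 10) = 0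
        push_cast
        field_simp
        ring
      · show ∑ t : Fin 4, _ = _
        rw [Fin.sum_univ_four]
        show ((1 : ℤ) : K) * (u 6) * ((-u 7 * u 1 + u 13 * u 4 + u 14 * u 5) / u 10) + ((1 : ℤ) : K) * (u 7) * ((u 6 * u 1 - u 11 * u 4 - u 12 * u 5) / u 10) + ((1 : ℤ) : K) * ((u 0 * u 5 - u 6 * u 13 + u 7 * u 11) / u 10) * (u 4) + ((1 : ℤ) : K) * ((-u 0 * u 4 - u 6 * u 14 + u 7 * u 12) / u 10) * (u 5) = 0
        push_cast
        field_simp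
        ring
      · show ∑ t : Fin 4, _ = _
        rw [Fin.sum_univ_four]
        show ((-1 : ℤ) : K) * (u 6) * (u 1) + ((1 : ℤ) : K) * (u 10) * ((u 6 * u 1 - u 11 * u 4 - u 12 * u 5) / u 10) + ((1 : ℤ) : K) * (u 11) * (u 4) + ((1 : ℤ) : K) * (u 12) * (u 5) = 0
        push_cast
        field_simp
        ring
      · show ∑ t : Fin 4, _ = _
        rw [Fin.sum_univ_four]
        show ((-1 : ℤ) : K) * (u 7) * (u 1) + ((-1 : ℤ) : K) * (u 10) * ((-u 7 * u 1 + u 13 * u 4 + u 14 * u 5) / u 10) + ((1 : ℤ) : K) * (u 13) * (u 4) + ((1 : ℤ) : K) * (u 14) * (u 5) = 0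
        push_cast
        field_simp
        ring
      · show ∑ t : Fin 4, _ = _
        rw [Fin.sum_univ_four]
        show ((-1 : ℤ) : K) * ((u 0 * u 5 - u 6 * u 13 + u 7 * u 11) / u 10) * (u 1) + ((-1 : ℤ) : K) * (u 11) * ((-u 7 * u 1 + u 13 * u 4 + u 14 * u 5) / u 10) + ((-1 : ℤ) : K) * (u 13) * ((u 6 * u 1 - u 11 * u 4 - u 12 * u 5) / u 10) + ((1 : ℤ) : K) * ((u 0 * u 1 + u 11 * u 14 - u 12 * u 13) / u 10) * (u 5) = 0
        push_cast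
        field_simp
        ring
      · show ∑ t : Fin 4, _ = _
        rw [Fin.sum_univ_four]
        show ((-1 : ℤ) : K) * ((-u 0 * u 4 - u 6 * u 14 + u 7 * u 12) / u 10) * (u 1) + ((-1 : ℤ) : K) * (u 12) * ((-u 7 * u 1 + u 13 * u 4 + u 14 * u 5) / u 10) + ((-1 : ℤ) : K) * (u 14) * ((u 6 * u 1 - u 11 * u 4 - u 12 * u 5) / u 10) + ((-1 : ℤ) : K) * ((u 0 * u 1 + u 11 * u 14 - u 12 * u 13) / u 10) * (u 4) = 0
        push_cast
        field_simp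
        ring
    exact hl

theorem spinor_pt_11 {K : Type} [Field K] (u : Fin 16 → K) (h : u 11 ≠ 0) :
    ∃ y : Fin 16 → K, (∀ j : Fin 16, ¬ spinor.opp (11 : Fin 16) j → y j = u j) ∧
      ∀ l, spinor.val y l = 0 := by
  refine ⟨![u 0, u 1, (-u 8 * u 1 - u 13 * u 3 + u 15 * u 5) / u 11, u 3, (u 6 * u 1 - u 10 * u 3 - u 12 * u 5) / u 11, u 5, u 6, (-u 0 * u 5 + u 6 * u 13 + u 8 * u 10) / u 11, u 8, (u 0 * u 3 - u 6 * u 15 + u 8 * u 12) / u 11, u 10, u 11, u 12, u 13, (-u 0 * u 1 + u 10 * u 15 + u 12 * u 13) / u 11, u 15], ?_, ?_⟩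
  · have key : ∀ j : Fin 16, spinor.opp (11 : Fin 16) j ∨ (![u 0, u 1, (-u 8 * u 1 - u 13 * u 3 + u 15 * u 5) / u 11, u 3, (u 6 * u 1 - u 10 * u 3 - u 12 * u 5) / u 11, u 5, u 6, (-u 0 * u 5 + u 6 * u 13 + u 8 * u 10) / u 11, u 8, (u 0 * u 3 - u 6 * u 15 + u 8 * u 12) / u 11, u 10, u 11, u 12, u 13, (-u 0 * u 1 + u 10 * u 15 + u 12 * u 13) / u 11, u 15] : Fin 16 → K) j = u j := by
      intro j
      fin_cases j
      · exact Or.inr rfl
      · exact Or.inr rfl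
      · exact Or.inl ⟨(8 : Fin 10), (1 : Fin 4), Or.inl ⟨rfl, rfl⟩⟩
      · exact Or.inr rfl
      · exact Or.inl ⟨(6 : Fin 10), (2 : Fin 4), Or.inl ⟨rfl, rfl⟩⟩
      · exact Or.inr rfl
      · exact Or.inr rfl
      · exact Or.inl ⟨(4 : Fin 10), (2 : Fin 4), Or.inr ⟨rfl, rfl⟩⟩
      · exact Or.inr rfl
      · exact Or.inl ⟨(2 : Fin 10), (3 : Fin 4), Or.inr ⟨rfl, rfl⟩⟩
      · exact Or.inr rfl
      · exact Or.inr rfl
      · exact Or.inr rfl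
      · exact Or.inr rfl
      · exact Or.inl ⟨(0 : Fin 10), (2 : Fin 4), Or.inl ⟨rfl, rfl⟩⟩
      · exact Or.inr rfl
    intro j hj
    exact (key j).resolve_left hj
  · have hl : ∀ l : Fin 10, spinor.val (![u 0, u 1, (-u 8 * u 1 - u 13 * u 3 + u 15 * u 5) / u 11, u 3, (u 6 * u 1 - u 10 * u 3 - u 12 * u 5) / u 11, u 5, u 6, (-u 0 * u 5 + u 6 * u 13 + u 8 * u 10) / u 11, u 8, (u 0 * u 3 - u 6 * u 15 + u 8 * u 12) / u 11, u 10, u 11, u 12, u 13, (-u 0 * u 1 + u 10 * u 15 + u 12 * u 13) / u 11, u 15] : Fin 16 → K) l = 0 := by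
      intro l
      unfold QF.val
      fin_cases l
      · show ∑ t : Fin 4, _ = _
        rw [Fin.sum_univ_four]
        show ((1 : ℤ) : K) * (u 0) * (u 1) + ((-1 : ℤ) : K) * (u 10) * (u 15) + ((1 : ℤ) : K) * (u 11) * ((-u 0 * u 1 + u 10 * u 15 + u 12 * u 13) / u 11) + ((-1 : ℤ) : K) * (u 12) * (u 13) = 0
        push_cast
        field_simp
        ring
      · show ∑ t : Fin 4, _ = _
        rw [Fin.sum_univ_four]
        show ((1 : ℤ) : K) * (u 0) * ((-u 8 * u 1 - u 13 * u 3 + u 15 * u 5) / u 11) + ((1 : ℤ) : K) * ((-u 0 * u 5 + u 6 * u 13 + u 8 * u 10) / u 11) * (u 15) + ((-1 : ℤ) : K) * (u 8) * ((-u 0 * u 1 + u 10 * u 15 + u 12 * u 13) / u 11) + ((1 : ℤ) : K) * ((u 0 * u 3 - u 6 * u 15 + u 8 * u 12) / u 11) * (u 13) = 0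
        push_cast
        field_simp
        ring
      · show ∑ t : Fin 4, _ = _
        rw [Fin.sum_univ_four]
        show ((1 : ℤ) : K) * (u 0) * (u 3) + ((-1 : ℤ) : K) * (u 6) * (u 15) + ((1 : ℤ) : K) * (u 8) * (u 12) + ((-1 : ℤ) : K) * ((u 0 * u 3 - u 6 * u 15 + u 8 * u 12) / u 11) * (u 11) = 0
        push_cast
        field_simp
        ring
      · show ∑ t : Fin 4, _ = _
        rw [Fin.sum_univ_four]
        show ((1 : ℤ) : K) * (u 0) * ((u 6 * u 1 - u 10 * u 3 - u 12 * u 5) / u 11) + ((1 : ℤ) : K) * (u 6) * ((-u 0 * u 1 + u 10 * u 15 + u 12 * u 13) / u 11) + ((-1 : ℤ) : K) * ((-u 0 * u 5 + u 6 * u 13 + u 8 * u 10) / u 11) * (u 12) + ((1 : ℤ) : K) * ((u 0 * u 3 - u 6 * u 15 + u 8 * u 12) / u 11) * (u 10) = 0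
        push_cast
        field_simp
        ring
      · show ∑ t : Fin 4, _ = _
        rw [Fin.sum_univ_four]
        show ((1 : ℤ) : K) * (u 0) * (u 5) + ((-1 : ℤ) : K) * (u 6) * (u 13) + ((1 : ℤ) : K) * ((-u 0 * u 5 + u 6 * u 13 + u 8 * u 10) / u 11) * (u 11) + ((-1 : ℤ) : K) * (u 8) * (u 10) = 0
        push_cast
        field_simp
        ring
      · show ∑ t : Fin 4, _ = _
        rw [Fin.sum_univ_four]
        show ((1 : ℤ) : K) * (u 6) * ((-u 8 * u 1 - u 13 * u 3 + u 15 * u 5) / u 11) + ((1 : ℤ) : K) * ((-u 0 * u 5 + u 6 * u 13 + u 8 * u 10) / u 11) * (u 3) + ((1 : ℤ) : K) * (u 8) * ((u 6 * u 1 - u 10 * u 3 - u 12 * u 5) / u 11) + ((1 : ℤ) : K) * ((u 0 * u 3 - u 6 * u 15 + u 8 * u 12) / u 11) * (u 5) = 0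
        push_cast
        field_simp
        ring
      · show ∑ t : Fin 4, _ = _
        rw [Fin.sum_univ_four]
        show ((-1 : ℤ) : K) * (u 6) * (u 1) + ((1 : ℤ) : K) * (u 10) * (u 3) + ((1 : ℤ) : K) * (u 11) * ((u 6 * u 1 - u 10 * u 3 - u 12 * u 5) / u 11) + ((1 : ℤ) : K) * (u 12) * (u 5) = 0
        push_cast
        field_simp
        ring
      · show ∑ t : Fin 4, _ = _
        rw [Fin.sum_univ_four]
        show ((-1 : ℤ) : K) * ((-u 0 * u 5 + u 6 * u 13 + u 8 * u 10) / u 11) * (u 1) + ((-1 : ℤ) : K) * (u 10) * ((-u 8 * u 1 - u 13 * u 3 + u 15 * u 5) / u 11) + ((1 : ℤ) : K) * (u 13) * ((u 6 * u 1 - u 10 * u 3 - u 12 * u 5) / u 11) + ((1 : ℤ) : K) * ((-u 0 * u 1 + u 10 * u 15 + u 12 * u 13) / u 11) * (u 5) = 0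
        push_cast
        field_simp
        ring
      · show ∑ t : Fin 4, _ = _
        rw [Fin.sum_univ_four]
        show ((-1 : ℤ) : K) * (u 8) * (u 1) + ((-1 : ℤ) : K) * (u 11) * ((-u 8 * u 1 - u 13 * u 3 + u 15 * u 5) / u 11) + ((-1 : ℤ) : K) * (u 13) * (u 3) + ((1 : ℤ) : K) * (u 15) * (u 5) = 0
        push_cast
        field_simp
        ring
      · show ∑ t : Fin 4, _ = _
        rw [Fin.sum_univ_four]
        show ((-1 : ℤ) : K) * ((u 0 * u 3 - u 6 * u 15 + u 8 * u 12) / u 11) * (u 1) + ((-1 : ℤ) : K) * (u 12) * ((-u 8 * u 1 - u 13 * u 3 + u 15 * u 5) / u 11) + ((-1 : ℤ) : K) * ((-u 0 * u 1 + u 10 * u 15 + u 12 * u 13) / u 11) * (u 3) + ((-1 : ℤ) : K) * (u 15) * ((u 6 * u 1 - u 10 * u 3 - u 12 * u 5) / u 11) = 0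
        push_cast
        field_simp
        ring
    exact hl

theorem spinor_pt_12 {K : Type} [Field K] (u : Fin 16 → K) (h : u 12 ≠ 0) :
    ∃ y : Fin 16 → K, (∀ j : Fin 16, ¬ spinor.opp (12 : Fin 16) j → y j = u j) ∧
      ∀ l, spinor.val y l = 0 := by
  refine ⟨![u 0, u 1, (-u 9 * u 1 - u 14 * u 3 - u 15 * u 4) / u 12, u 3, u 4, (u 6 * u 1 - u 10 * u 3 - u 11 * u 4) / u 12, u 6, (u 0 * u 4 + u 6 * u 14 + u 9 * u 10) / u 12, (-u 0 * u 3 + u 6 * u 15 + u 9 * u 11) / u 12, u 9, u 10, u 11, u 12, (u 0 * u 1 - u 10 * u 15 + u 11 * u 14) / u 12, u 14, u 15], ?_, ?_⟩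
  · have key : ∀ j : Fin 16, spinor.opp (12 : Fin 16) j ∨ (![u 0, u 1, (-u 9 * u 1 - u 14 * u 3 - u 15 * u 4) / u 12, u 3, u 4, (u 6 * u 1 - u 10 * u 3 - u 11 * u 4) / u 12, u 6, (u 0 * u 4 + u 6 * u 14 + u 9 * u 10) / u 12, (-u 0 * u 3 + u 6 * u 15 + u 9 * u 11) / u 12, u 9, u 10, u 11, u 12, (u 0 * u 1 - u 10 * u 15 + u 11 * u 14) / u 12, u 14, u 15] : Fin 16 → K) j = u j := by
      intro j
      fin_cases j
      · exact Or.inr rfl
      · exact Or.inr rfl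
      · exact Or.inl ⟨(9 : Fin 10), (1 : Fin 4), Or.inl ⟨rfl, rfl⟩⟩
      · exact Or.inr rfl
      · exact Or.inr rfl
      · exact Or.inl ⟨(6 : Fin 10), (3 : Fin 4), Or.inl ⟨rfl, rfl⟩⟩
      · exact Or.inr rfl
      · exact Or.inl ⟨(3 : Fin 10), (2 : Fin 4), Or.inr ⟨rfl, rfl⟩⟩
      · exact Or.inl ⟨(2 : Fin 10), (2 : Fin 4), Or.inr ⟨rfl, rfl⟩⟩
      · exact Or.inr rfl
      · exact Or.inr rfl
      · exact Or.inr rfl
      · exact Or.inr rfl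
      · exact Or.inl ⟨(0 : Fin 10), (3 : Fin 4), Or.inl ⟨rfl, rfl⟩⟩
      · exact Or.inr rfl
      · exact Or.inr rfl
    intro j hj
    exact (key j).resolve_left hj
  · have hl : ∀ l : Fin 10, spinor.val (![u 0, u 1, (-u 9 * u 1 - u 14 * u 3 - u 15 * u 4) / u 12, u 3, u 4, (u 6 * u 1 - u 10 * u 3 - u 11 * u 4) / u 12, u 6, (u 0 * u 4 + u 6 * u 14 + u 9 * u 10) / u 12, (-u 0 * u 3 + u 6 * u 15 + u 9 * u 11) / u 12, u 9, u 10, u 11, u 12, (u 0 * u 1 - u 10 * u 15 + u 11 * u 14) / u 12, u 14, u 15] : Fin 16 → K) l = 0 := by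
      intro l
      unfold QF.val
      fin_cases l
      · show ∑ t : Fin 4, _ = _
        rw [Fin.sum_univ_four]
        show ((1 : ℤ) : K) * (u 0) * (u 1) + ((-1 : ℤ) : K) * (u 10) * (u 15) + ((1 : ℤ) : K) * (u 11) * (u 14) + ((-1 : ℤ) : K) * (u 12) * ((u 0 * u 1 - u 10 * u 15 + u 11 * u 14) / u 12) = 0
        push_cast
        field_simp
        ring
      · show ∑ t : Fin 4, _ = _
        rw [Fin.sum_univ_four]
        show ((1 : ℤ) : K) * (u 0) * ((-u 9 * u 1 - u 14 * u 3 - u 15 * u 4) / u 12) + ((1 : ℤ) : K) * ((u 0 * u 4 + u 6 * u 14 + u 9 * u 10) / u 12) * (u 15) + ((-1 : ℤ) : K) * ((-u 0 * u 3 + u 6 * u 15 + u 9 * u 11) / u 12) * (u 14) + ((1 : ℤ) : K) * (u 9) * ((u 0 * u 1 - u 10 * u 15 + u 11 * u 14) / u 12) = 0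
        push_cast
        field_simp
        ring
      · show ∑ t : Fin 4, _ = _
        rw [Fin.sum_univ_four]
        show ((1 : ℤ) : K) * (u 0) * (u 3) + ((-1 : ℤ) : K) * (u 6) * (u 15) + ((1 : ℤ) : K) * ((-u 0 * u 3 + u 6 * u 15 + u 9 * u 11) / u 12) * (u 12) + ((-1 : ℤ) : K) * (u 9) * (u 11) = 0
        push_cast
        field_simp
        ring
      · show ∑ t : Fin 4, _ = _
        rw [Fin.sum_univ_four]
        show ((1 : ℤ) : K) * (u 0) * (u 4) + ((1 : ℤ) : K) * (u 6) * (u 14) + ((-1 : ℤ) : K) * ((u 0 * u 4 + u 6 * u 14 + u 9 * u 10) / u 12) * (u 12) + ((1 : ℤ) : K) * (u 9) * (u 10) = 0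
        push_cast
        field_simp
        ring
      · show ∑ t : Fin 4, _ = _
        rw [Fin.sum_univ_four]
        show ((1 : ℤ) : K) * (u 0) * ((u 6 * u 1 - u 10 * u 3 - u 11 * u 4) / u 12) + ((-1 : ℤ) : K) * (u 6) * ((u 0 * u 1 - u 10 * u 15 + u 11 * u 14) / u 12) + ((1 : ℤ) : K) * ((u 0 * u 4 + u 6 * u 14 + u 9 * u 10) / u 12) * (u 11) + ((-1 : ℤ) : K) * ((-u 0 * u 3 + u 6 * u 15 + u 9 * u 11) / u 12) * (u 10) = 0
        push_cast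
        field_simp
        ring
      · show ∑ t : Fin 4, _ = _
        rw [Fin.sum_univ_four]
        show ((1 : ℤ) : K) * (u 6) * ((-u 9 * u 1 - u 14 * u 3 - u 15 * u 4) / u 12) + ((1 : ℤ) : K) * ((u 0 * u 4 + u 6 * u 14 + u 9 * u 10) / u 12) * (u 3) + ((1 : ℤ) : K) * ((-u 0 * u 3 + u 6 * u 15 + u 9 * u 11) / u 12) * (u 4) + ((1 : ℤ) : K) * (u 9) * ((u 6 * u 1 - u 10 * u 3 - u 11 * u 4) / u 12) = 0
        push_cast
        field_simp
        ring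
      · show ∑ t : Fin 4, _ = _
        rw [Fin.sum_univ_four]
        show ((-1 : ℤ) : K) * (u 6) * (u 1) + ((1 : ℤ) : K) * (u 10) * (u 3) + ((1 : ℤ) : K) * (u 11) * (u 4) + ((1 : ℤ) : K) * (u 12) * ((u 6 * u 1 - u 10 * u 3 - u 11 * u 4) / u 12) = 0
        push_cast
        field_simp
        ring
      · show ∑ t : Fin 4, _ = _
        rw [Fin.sum_univ_four]
        show ((-1 : ℤ) : K) * ((u 0 * u 4 + u 6 * u 14 + u 9 * u 10) / u 12) * (u 1) + ((-1 : ℤ) : K) * (u 10) * ((-u 9 * u 1 - u 14 * u 3 - u 15 * u 4) / u 12) + ((1 : ℤ) : K) * ((u 0 * u 1 - u 10 * u 15 + u 11 * u 14) / u 12) * (u 4) + ((1 : ℤ) : K) * (u 14) * ((u 6 * u 1 - u 10 * u 3 - u 11 * u 4) / u 12) = 0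
        push_cast
        field_simp
        ring
      · show ∑ t : Fin 4, _ = _
        rw [Fin.sum_univ_four]
        show ((-1 : ℤ) : K) * ((-u 0 * u 3 + u 6 * u 15 + u 9 * u 11) / u 12) * (u 1) + ((-1 : ℤ) : K) * (u 11) * ((-u 9 * u 1 - u 14 * u 3 - u 15 * u 4) / u 12) + ((-1 : ℤ) : K) * ((u 0 * u 1 - u 10 * u 15 + u 11 * u 14) / u 12) * (u 3) + ((1 : ℤ) : K) * (u 15) * ((u 6 * u 1 - u 10 * u 3 - u 11 * u 4) / u 12) = 0
        push_cast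
        field_simp
        ring
      · show ∑ t : Fin 4, _ = _
        rw [Fin.sum_univ_four]
        show ((-1 : ℤ) : K) * (u 9) * (u 1) + ((-1 : ℤ) : K) * (u 12) * ((-u 9 * u 1 - u 14 * u 3 - u 15 * u 4) / u 12) + ((-1 : ℤ) : K) * (u 14) * (u 3) + ((-1 : ℤ) : K) * (u 15) * (u 4) = 0
        push_cast
        field_simp
        ring
    exact hl

theorem spinor_pt_13 {K : Type} [Field K] (u : Fin 16 → K) (h : u 13 ≠ 0) :
    ∃ y : Fin 16 → K, (∀ j : Fin 16, ¬ spinor.opp (13 : Fin 16) j → y j = u j) ∧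
      ∀ l, spinor.val y l = 0 := by
  refine ⟨![u 0, u 1, u 2, (-u 8 * u 1 - u 11 * u 2 + u 15 * u 5) / u 13, (u 7 * u 1 + u 10 * u 2 - u 14 * u 5) / u 13, u 5, (u 0 * u 5 + u 7 * u 11 - u 8 * u 10) / u 13, u 7, u 8, (-u 0 * u 2 - u 7 * u 15 + u 8 * u 14) / u 13, u 10, u 11, (u 0 * u 1 - u 10 * u 15 + u 11 * u 14) / u 13, u 13, u 14, u 15], ?_, ?_⟩
  · have key : ∀ j : Fin 16, spinor.opp (13 : Fin 16) j ∨ (![u 0, u 1, u 2, (-u 8 * u 1 - u 11 * u 2 + u 15 * u 5) / u 13, (u 7 * u 1 + u 10 * u 2 - u 14 * u 5) / u 13, u 5, (u 0 * u 5 + u 7 * u 11 - u 8 * u 10) / u 13, u 7, u 8, (-u 0 * u 2 - u 7 * u 15 + u 8 * u 14) / u 13, u 10, u 11, (u 0 * u 1 - u 10 * u 15 + u 11 * u 14) / u 13, u 13, u 14, u 15] : Fin 16 → K) j = u j := by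
      intro j
      fin_cases j
      · exact Or.inr rfl
      · exact Or.inr rfl
      · exact Or.inr rfl
      · exact Or.inl ⟨(8 : Fin 10), (2 : Fin 4), Or.inl ⟨rfl, rfl⟩⟩
      · exact Or.inl ⟨(7 : Fin 10), (2 : Fin 4), Or.inl ⟨rfl, rfl⟩⟩
      · exact Or.inr rfl
      · exact Or.inl ⟨(4 : Fin 10), (1 : Fin 4), Or.inr ⟨rfl, rfl⟩⟩
      · exact Or.inr rfl
      · exact Or.inr rfl
      · exact Or.inl ⟨(1 : Fin 10), (3 : Fin 4), Or.inr ⟨rfl, rfl⟩⟩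
      · exact Or.inr rfl
      · exact Or.inr rfl
      · exact Or.inl ⟨(0 : Fin 10), (3 : Fin 4), Or.inr ⟨rfl, rfl⟩⟩
      · exact Or.inr rfl
      · exact Or.inr rfl
      · exact Or.inr rfl
    intro j hj
    exact (key j).resolve_left hj
  · have hl : ∀ l : Fin 10, spinor.val (![u 0, u 1, u 2, (-u 8 * u 1 - u 11 * u 2 + u 15 * u 5) / u 13, (u 7 * u 1 + u 10 * u 2 - u 14 * u 5) / u 13, u 5, (u 0 * u 5 + u 7 * u 11 - u 8 * u 10) / u 13, u 7, u 8, (-u 0 * u 2 - u 7 * u 15 + u 8 * u 14) / u 13, u 10, u 11, (u 0 * u 1 - u 10 * u 15 + u 11 * u 14) / u 13, u 13, u 14, u 15] : Fin 16 → K) l = 0 := by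
      intro l
      unfold QF.val
      fin_cases l
      · show ∑ t : Fin 4, _ = _
        rw [Fin.sum_univ_four]
        show ((1 : ℤ) : K) * (u 0) * (u 1) + ((-1 : ℤ) : K) * (u 10) * (u 15) + ((1 : ℤ) : K) * (u 11) * (u 14) + ((-1 : ℤ) : K) * ((u 0 * u 1 - u 10 * u 15 + u 11 * u 14) / u 13) * (u 13) = 0
        push_cast
        field_simp
        ring
      · show ∑ t : Fin 4, _ = _
        rw [Fin.sum_univ_four]
        show ((1 : ℤ) : K) * (u 0) * (u 2) + ((1 : ℤ) : K) * (u 7) * (u 15) + ((-1 : ℤ) : K) * (u 8) * (u 14) + ((1 : ℤ) : K) * ((-u 0 * u 2 - u 7 * u 15 + u 8 * u 14) / u 13) * (u 13) = 0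
        push_cast
        field_simp
        ring
      · show ∑ t : Fin 4, _ = _
        rw [Fin.sum_univ_four]
        show ((1 : ℤ) : K) * (u 0) * ((-u 8 * u 1 - u 11 * u 2 + u 15 * u 5) / u 13) + ((-1 : ℤ) : K) * ((u 0 * u 5 + u 7 * u 11 - u 8 * u 10) / u 13) * (u 15) + ((1 : ℤ) : K) * (u 8) * ((u 0 * u 1 - u 10 * u 15 + u 11 * u 14) / u 13) + ((-1 : ℤ) : K) * ((-u 0 * u 2 - u 7 * u 15 + u 8 * u 14) / u 13) * (u 11) = 0
        push_cast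
        field_simp
        ring
      · show ∑ t : Fin 4, _ = _
        rw [Fin.sum_univ_four]
        show ((1 : ℤ) : K) * (u 0) * ((u 7 * u 1 + u 10 * u 2 - u 14 * u 5) / u 13) + ((1 : ℤ) : K) * ((u 0 * u 5 + u 7 * u 11 - u 8 * u 10) / u 13) * (u 14) + ((-1 : ℤ) : K) * (u 7) * ((u 0 * u 1 - u 10 * u 15 + u 11 * u 14) / u 13) + ((1 : ℤ) : K) * ((-u 0 * u 2 - u 7 * u 15 + u 8 * u 14) / u 13) * (u 10) = 0
        push_cast
        field_simp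
        ring
      · show ∑ t : Fin 4, _ = _
        rw [Fin.sum_univ_four]
        show ((1 : ℤ) : K) * (u 0) * (u 5) + ((-1 : ℤ) : K) * ((u 0 * u 5 + u 7 * u 11 - u 8 * u 10) / u 13) * (u 13) + ((1 : ℤ) : K) * (u 7) * (u 11) + ((-1 : ℤ) : K) * (u 8) * (u 10) = 0
        push_cast
        field_simp
        ring
      · show ∑ t : Fin 4, _ = _
        rw [Fin.sum_univ_four]
        show ((1 : ℤ) : K) * ((u 0 * u 5 + u 7 * u 11 - u 8 * u 10) / u 13) * (u 2) + ((1 : ℤ) : K) * (u 7) * ((-u 8 * u 1 - u 11 * u 2 + u 15 * u 5) / u 13) + ((1 : ℤ) : K) * (u 8) * ((u 7 * u 1 + u 10 * u 2 - u 14 * u 5) / u 13) + ((1 : ℤ) : K) * ((-u 0 * u 2 - u 7 * u 15 + u 8 * u 14) / u 13) * (u 5) = 0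
        push_cast
        field_simp
        ring
      · show ∑ t : Fin 4, _ = _
        rw [Fin.sum_univ_four]
        show ((-1 : ℤ) : K) * ((u 0 * u 5 + u 7 * u 11 - u 8 * u 10) / u 13) * (u 1) + ((1 : ℤ) : K) * (u 10) * ((-u 8 * u 1 - u 11 * u 2 + u 15 * u 5) / u 13) + ((1 : ℤ) : K) * (u 11) * ((u 7 * u 1 + u 10 * u 2 - u 14 * u 5) / u 13) + ((1 : ℤ) : K) * ((u 0 * u 1 - u 10 * u 15 + u 11 * u 14) / u 13) * (u 5) = 0
        push_cast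
        field_simp
        ring
      · show ∑ t : Fin 4, _ = _
        rw [Fin.sum_univ_four]
        show ((-1 : ℤ) : K) * (u 7) * (u 1) + ((-1 : ℤ) : K) * (u 10) * (u 2) + ((1 : ℤ) : K) * (u 13) * ((u 7 * u 1 + u 10 * u 2 - u 14 * u 5) / u 13) + ((1 : ℤ) : K) * (u 14) * (u 5) = 0
        push_cast
        field_simp
        ring
      · show ∑ t : Fin 4, _ = _
        rw [Fin.sum_univ_four]
        show ((-1 : ℤ) : K) * (u 8) * (u 1) + ((-1 : ℤ) : K) * (u 11) * (u 2) + ((-1 : ℤ) : K) * (u 13) * ((-u 8 * u 1 - u 11 * u 2 + u 15 * u 5) / u 13) + ((1 : ℤ) : K) * (u 15) * (u 5) = 0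
        push_cast
        field_simp
        ring
      · show ∑ t : Fin 4, _ = _
        rw [Fin.sum_univ_four]
        show ((-1 : ℤ) : K) * ((-u 0 * u 2 - u 7 * u 15 + u 8 * u 14) / u 13) * (u 1) + ((-1 : ℤ) : K) * ((u 0 * u 1 - u 10 * u 15 + u 11 * u 14) / u 13) * (u 2) + ((-1 : ℤ) : K) * (u 14) * ((-u 8 * u 1 - u 11 * u 2 + u 15 * u 5) / u 13) + ((-1 : ℤ) : K) * (u 15) * ((u 7 * u 1 + u 10 * u 2 - u 14 * u 5) / u 13) = 0
        push_cast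
        field_simp
        ring
    exact hl

theorem spinor_pt_14 {K : Type} [Field K] (u : Fin 16 → K) (h : u 14 ≠ 0) :
    ∃ y : Fin 16 → K, (∀ j : Fin 16, ¬ spinor.opp (14 : Fin 16) j → y j = u j) ∧
      ∀ l, spinor.val y l = 0 := by
  refine ⟨![u 0, u 1, u 2, (-u 9 * u 1 - u 12 * u 2 - u 15 * u 4) / u 14, u 4, (u 7 * u 1 + u 10 * u 2 - u 13 * u 4) / u 14, (-u 0 * u 4 + u 7 * u 12 - u 9 * u 10) / u 14, u 7, (u 0 * u 2 + u 7 * u 15 + u 9 * u 13) / u 14, u 9, u 10, (-u 0 * u 1 + u 10 * u 15 + u 12 * u 13) / u 14, u 12, u 13, u 14, u 15], ?_, ?_⟩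
  · have key : ∀ j : Fin 16, spinor.opp (14 : Fin 16) j ∨ (![u 0, u 1, u 2, (-u 9 * u 1 - u 12 * u 2 - u 15 * u 4) / u 14, u 4, (u 7 * u 1 + u 10 * u 2 - u 13 * u 4) / u 14, (-u 0 * u 4 + u 7 * u 12 - u 9 * u 10) / u 14, u 7, (u 0 * u 2 + u 7 * u 15 + u 9 * u 13) / u 14, u 9, u 10, (-u 0 * u 1 + u 10 * u 15 + u 12 * u 13) / u 14, u 12, u 13, u 14, u 15] : Fin 16 → K) j = u j := by
      intro j
      fin_cases j
      · exact Or.inr rfl
      · exact Or.inr rfl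
      · exact Or.inr rfl
      · exact Or.inl ⟨(9 : Fin 10), (2 : Fin 4), Or.inl ⟨rfl, rfl⟩⟩
      · exact Or.inr rfl
      · exact Or.inl ⟨(7 : Fin 10), (3 : Fin 4), Or.inl ⟨rfl, rfl⟩⟩
      · exact Or.inl ⟨(3 : Fin 10), (1 : Fin 4), Or.inr ⟨rfl, rfl⟩⟩
      · exact Or.inr rfl
      · exact Or.inl ⟨(1 : Fin 10), (2 : Fin 4), Or.inr ⟨rfl, rfl⟩⟩
      · exact Or.inr rfl
      · exact Or.inr rfl
      · exact Or.inl ⟨(0 : Fin 10), (2 : Fin 4), Or.inr ⟨rfl, rfl⟩⟩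
      · exact Or.inr rfl
      · exact Or.inr rfl
      · exact Or.inr rfl
      · exact Or.inr rfl
    intro j hj
    exact (key j).resolve_left hj
  · have hl : ∀ l : Fin 10, spinor.val (![u 0, u 1, u 2, (-u 9 * u 1 - u 12 * u 2 - u 15 * u 4) / u 14, u 4, (u 7 * u 1 + u 10 * u 2 - u 13 * u 4) / u 14, (-u 0 * u 4 + u 7 * u 12 - u 9 * u 10) / u 14, u 7, (u 0 * u 2 + u 7 * u 15 + u 9 * u 13) / u 14, u 9, u 10, (-u 0 * u 1 + u 10 * u 15 + u 12 * u 13) / u 14, u 12, u 13, u 14, u 15] : Fin 16 → K) l = 0 := by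
      intro l
      unfold QF.val
      fin_cases l
      · show ∑ t : Fin 4, _ = _
        rw [Fin.sum_univ_four]
        show ((1 : ℤ) : K) * (u 0) * (u 1) + ((-1 : ℤ) : K) * (u 10) * (u 15) + ((1 : ℤ) : K) * ((-u 0 * u 1 + u 10 * u 15 + u 12 * u 13) / u 14) * (u 14) + ((-1 : ℤ) : K) * (u 12) * (u 13) = 0
        push_cast
        field_simp
        ring
      · show ∑ t : Fin 4, _ = _
        rw [Fin.sum_univ_four]
        show ((1 : ℤ) : K) * (u 0) * (u 2) + ((1 : ℤ) : K) * (u 7) * (u 15) + ((-1 : ℤ) : K) * ((u 0 * u 2 + u 7 * u 15 + u 9 * u 13) / u 14) * (u 14) + ((1 : ℤ) : K) * (u 9) * (u 13) = 0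
        push_cast
        field_simp
        ring
      · show ∑ t : Fin 4, _ = _
        rw [Fin.sum_univ_four]
        show ((1 : ℤ) : K) * (u 0) * ((-u 9 * u 1 - u 12 * u 2 - u 15 * u 4) / u 14) + ((-1 : ℤ) : K) * ((-u 0 * u 4 + u 7 * u 12 - u 9 * u 10) / u 14) * (u 15) + ((1 : ℤ) : K) * ((u 0 * u 2 + u 7 * u 15 + u 9 * u 13) / u 14) * (u 12) + ((-1 : ℤ) : K) * (u 9) * ((-u 0 * u 1 + u 10 * u 15 + u 12 * u 13) / u 14) = 0
        push_cast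
        field_simp
        ring
      · show ∑ t : Fin 4, _ = _
        rw [Fin.sum_univ_four]
        show ((1 : ℤ) : K) * (u 0) * (u 4) + ((1 : ℤ) : K) * ((-u 0 * u 4 + u 7 * u 12 - u 9 * u 10) / u 14) * (u 14) + ((-1 : ℤ) : K) * (u 7) * (u 12) + ((1 : ℤ) : K) * (u 9) * (u 10) = 0
        push_cast
        field_simp
        ring
      · show ∑ t : Fin 4, _ = _
        rw [Fin.sum_univ_four]
        show ((1 : ℤ) : K) * (u 0) * ((u 7 * u 1 + u 10 * u 2 - u 13 * u 4) / u 14) + ((-1 : ℤ) : K) * ((-u 0 * u 4 + u 7 * u 12 - u 9 * u 10) / u 14) * (u 13) + ((1 : ℤ) : K) * (u 7) * ((-u 0 * u 1 + u 10 * u 15 + u 12 * u 13) / u 14) + ((-1 : ℤ) : K) * ((u 0 * u 2 + u 7 * u 15 + u 9 * u 13) / u 14) * (u 10) = 0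
        push_cast
        field_simp
        ring
      · show ∑ t : Fin 4, _ = _
        rw [Fin.sum_univ_four]
        show ((1 : ℤ) : K) * ((-u 0 * u 4 + u 7 * u 12 - u 9 * u 10) / u 14) * (u 2) + ((1 : ℤ) : K) * (u 7) * ((-u 9 * u 1 - u 12 * u 2 - u 15 * u 4) / u 14) + ((1 : ℤ) : K) * ((u 0 * u 2 + u 7 * u 15 + u 9 * u 13) / u 14) * (u 4) + ((1 : ℤ) : K) * (u 9) * ((u 7 * u 1 + u 10 * u 2 - u 13 * u 4) / u 14) = 0
        push_cast
        field_simp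
        ring
      · show ∑ t : Fin 4, _ = _
        rw [Fin.sum_univ_four]
        show ((-1 : ℤ) : K) * ((-u 0 * u 4 + u 7 * u 12 - u 9 * u 10) / u 14) * (u 1) + ((1 : ℤ) : K) * (u 10) * ((-u 9 * u 1 - u 12 * u 2 - u 15 * u 4) / u 14) + ((1 : ℤ) : K) * ((-u 0 * u 1 + u 10 * u 15 + u 12 * u 13) / u 14) * (u 4) + ((1 : ℤ) : K) * (u 12) * ((u 7 * u 1 + u 10 * u 2 - u 13 * u 4) / u 14) = 0
        push_cast
        field_simp
        ring
      · show ∑ t : Fin 4, _ = _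
        rw [Fin.sum_univ_four]
        show ((-1 : ℤ) : K) * (u 7) * (u 1) + ((-1 : ℤ) : K) * (u 10) * (u 2) + ((1 : ℤ) : K) * (u 13) * (u 4) + ((1 : ℤ) : K) * (u 14) * ((u 7 * u 1 + u 10 * u 2 - u 13 * u 4) / u 14) = 0
        push_cast
        field_simp
        ring
      · show ∑ t : Fin 4, _ = _
        rw [Fin.sum_univ_four]
        show ((-1 : ℤ) : K) * ((u 0 * u 2 + u 7 * u 15 + u 9 * u 13) / u 14) * (u 1) + ((-1 : ℤ) : K) * ((-u 0 * u 1 + u 10 * u 15 + u 12 * u 13) / u 14) * (u 2) + ((-1 : ℤ) : K) * (u 13) * ((-u 9 * u 1 - u 12 * u 2 - u 15 * u 4) / u 14) + ((1 : ℤ) : K) * (u 15) * ((u 7 * u 1 + u 10 * u 2 - u 13 * u 4) / u 14) = 0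
        push_cast
        field_simp
        ring
      · show ∑ t : Fin 4, _ = _
        rw [Fin.sum_univ_four]
        show ((-1 : ℤ) : K) * (u 9) * (u 1) + ((-1 : ℤ) : K) * (u 12) * (u 2) + ((-1 : ℤ) : K) * (u 14) * ((-u 9 * u 1 - u 12 * u 2 - u 15 * u 4) / u 14) + ((-1 : ℤ) : K) * (u 15) * (u 4) = 0
        push_cast
        field_simp
        ring
    exact hl

theorem spinor_pt_15 {K : Type} [Field K] (u : Fin 16 → K) (h : u 15 ≠ 0) :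
    ∃ y : Fin 16 → K, (∀ j : Fin 16, ¬ spinor.opp (15 : Fin 16) j → y j = u j) ∧
      ∀ l, spinor.val y l = 0 := by
  refine ⟨![u 0, u 1, u 2, u 3, (-u 9 * u 1 - u 12 * u 2 - u 14 * u 3) / u 15, (u 8 * u 1 + u 11 * u 2 + u 13 * u 3) / u 15, (u 0 * u 3 + u 8 * u 12 - u 9 * u 11) / u 15, (-u 0 * u 2 + u 8 * u 14 - u 9 * u 13) / u 15, u 8, u 9, (u 0 * u 1 + u 11 * u 14 - u 12 * u 13) / u 15, u 11, u 12, u 13, u 14, u 15], ?_, ?_⟩
  · have key : ∀ j : Fin 16, spinor.opp (15 : Fin 16) j ∨ (![u 0, u 1, u 2, u 3, (-u 9 * u 1 - u 12 * u 2 - u 14 * u 3) / u 15, (u 8 * u 1 + u 11 * u 2 + u 13 * u 3) / u 15, (u 0 * u 3 + u 8 * u 12 - u 9 * u 11) / u 15, (-u 0 * u 2 + u 8 * u 14 - u 9 * u 13) / u 15, u 8, u 9, (u 0 * u 1 + u 11 * u 14 - u 12 * u 13) / u 15, u 11, u 12, u 13, u 14, u 15] : Fin 16 → K) j = u j := by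
      intro j
      fin_cases j
      · exact Or.inr rfl
      · exact Or.inr rfl
      · exact Or.inr rfl
      · exact Or.inr rfl
      · exact Or.inl ⟨(9 : Fin 10), (3 : Fin 4), Or.inl ⟨rfl, rfl⟩⟩
      · exact Or.inl ⟨(8 : Fin 10), (3 : Fin 4), Or.inl ⟨rfl, rfl⟩⟩
      · exact Or.inl ⟨(2 : Fin 10), (1 : Fin 4), Or.inr ⟨rfl, rfl⟩⟩
      · exact Or.inl ⟨(1 : Fin 10), (1 : Fin 4), Or.inr ⟨rfl, rfl⟩⟩
      · exact Or.inr rfl
      · exact Or.inr rfl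
      · exact Or.inl ⟨(0 : Fin 10), (1 : Fin 4), Or.inr ⟨rfl, rfl⟩⟩
      · exact Or.inr rfl
      · exact Or.inr rfl
      · exact Or.inr rfl
      · exact Or.inr rfl
      · exact Or.inr rfl
    intro j hj
    exact (key j).resolve_left hj
  · have hl : ∀ l : Fin 10, spinor.val (![u 0, u 1, u 2, u 3, (-u 9 * u 1 - u 12 * u 2 - u 14 * u 3) / u 15, (u 8 * u 1 + u 11 * u 2 + u 13 * u 3) / u 15, (u 0 * u 3 + u 8 * u 12 - u 9 * u 11) / u 15, (-u 0 * u 2 + u 8 * u 14 - u 9 * u 13) / u 15, u 8, u 9, (u 0 * u 1 + u 11 * u 14 - u 12 * u 13) / u 15, u 11, u 12, u 13, u 14, u 15] : Fin 16 → K) l = 0 := by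
      intro l
      unfold QF.val
      fin_cases l
      · show ∑ t : Fin 4, _ = _
        rw [Fin.sum_univ_four]
        show ((1 : ℤ) : K) * (u 0) * (u 1) + ((-1 : ℤ) : K) * ((u 0 * u 1 + u 11 * u 14 - u 12 * u 13) / u 15) * (u 15) + ((1 : ℤ) : K) * (u 11) * (u 14) + ((-1 : ℤ) : K) * (u 12) * (u 13) = 0
        push_cast
        field_simp
        ring
      · show ∑ t : Fin 4, _ = _
        rw [Fin.sum_univ_four]
        show ((1 : ℤ) : K) * (u 0) * (u 2) + ((1 : ℤ) : K) * ((-u 0 * u 2 + u 8 * u 14 - u 9 * u 13) / u 15) * (u 15) + ((-1 : ℤ) : K) * (u 8) * (u 14) + ((1 : ℤ) : K) * (u 9) * (u 13) = 0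
        push_cast
        field_simp
        ring
      · show ∑ t : Fin 4, _ = _
        rw [Fin.sum_univ_four]
        show ((1 : ℤ) : K) * (u 0) * (u 3) + ((-1 : ℤ) : K) * ((u 0 * u 3 + u 8 * u 12 - u 9 * u 11) / u 15) * (u 15) + ((1 : ℤ) : K) * (u 8) * (u 12) + ((-1 : ℤ) : K) * (u 9) * (u 11) = 0
        push_cast
        field_simp
        ring
      · show ∑ t : Fin 4, _ = _
        rw [Fin.sum_univ_four]
        show ((1 : ℤ) : K) * (u 0) * ((-u 9 * u 1 - u 12 * u 2 - u 14 * u 3) / u 15) + ((1 : ℤ) : K) * ((u 0 * u 3 + u 8 * u 12 - u 9 * u 11) / u 15) * (u 14) + ((-1 : ℤ) : K) * ((-u 0 * u 2 + u 8 * u 14 - u 9 * u 13) / u 15) * (u 12) + ((1 : ℤ) : K) * (u 9) * ((u 0 * u 1 + u 11 * u 14 - u 12 * u 13) / u 15) = 0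
        push_cast
        field_simp
        ring
      · show ∑ t : Fin 4, _ = _
        rw [Fin.sum_univ_four]
        show ((1 : ℤ) : K) * (u 0) * ((u 8 * u 1 + u 11 * u 2 + u 13 * u 3) / u 15) + ((-1 : ℤ) : K) * ((u 0 * u 3 + u 8 * u 12 - u 9 * u 11) / u 15) * (u 13) + ((1 : ℤ) : K) * ((-u 0 * u 2 + u 8 * u 14 - u 9 * u 13) / u 15) * (u 11) + ((-1 : ℤ) : K) * (u 8) * ((u 0 * u 1 + u 11 * u 14 - u 12 * u 13) / u 15) = 0
        push_cast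
        field_simp
        ring
      · show ∑ t : Fin 4, _ = _
        rw [Fin.sum_univ_four]
        show ((1 : ℤ) : K) * ((u 0 * u 3 + u 8 * u 12 - u 9 * u 11) / u 15) * (u 2) + ((1 : ℤ) : K) * ((-u 0 * u 2 + u 8 * u 14 - u 9 * u 13) / u 15) * (u 3) + ((1 : ℤ) : K) * (u 8) * ((-u 9 * u 1 - u 12 * u 2 - u 14 * u 3) / u 15) + ((1 : ℤ) : K) * (u 9) * ((u 8 * u 1 + u 11 * u 2 + u 13 * u 3) / u 15) = 0
        push_cast
        field_simp
        ring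
      · show ∑ t : Fin 4, _ = _
        rw [Fin.sum_univ_four]
        show ((-1 : ℤ) : K) * ((u 0 * u 3 + u 8 * u 12 - u 9 * u 11) / u 15) * (u 1) + ((1 : ℤ) : K) * ((u 0 * u 1 + u 11 * u 14 - u 12 * u 13) / u 15) * (u 3) + ((1 : ℤ) : K) * (u 11) * ((-u 9 * u 1 - u 12 * u 2 - u 14 * u 3) / u 15) + ((1 : ℤ) : K) * (u 12) * ((u 8 * u 1 + u 11 * u 2 + u 13 * u 3) / u 15) = 0
        push_cast
        field_simp
        ring
      · show ∑ t : Fin 4, _ = _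
        rw [Fin.sum_univ_four]
        show ((-1 : ℤ) : K) * ((-u 0 * u 2 + u 8 * u 14 - u 9 * u 13) / u 15) * (u 1) + ((-1 : ℤ) : K) * ((u 0 * u 1 + u 11 * u 14 - u 12 * u 13) / u 15) * (u 2) + ((1 : ℤ) : K) * (u 13) * ((-u 9 * u 1 - u 12 * u 2 - u 14 * u 3) / u 15) + ((1 : ℤ) : K) * (u 14) * ((u 8 * u 1 + u 11 * u 2 + u 13 * u 3) / u 15) = 0
        push_cast
        field_simp
        ring
      · show ∑ t : Fin 4, _ = _
        rw [Fin.sum_univ_four]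
        show ((-1 : ℤ) : K) * (u 8) * (u 1) + ((-1 : ℤ) : K) * (u 11) * (u 2) + ((-1 : ℤ) : K) * (u 13) * (u 3) + ((1 : ℤ) : K) * (u 15) * ((u 8 * u 1 + u 11 * u 2 + u 13 * u 3) / u 15) = 0
        push_cast
        field_simp
        ring
      · show ∑ t : Fin 4, _ = _
        rw [Fin.sum_univ_four]
        show ((-1 : ℤ) : K) * (u 9) * (u 1) + ((-1 : ℤ) : K) * (u 12) * (u 2) + ((-1 : ℤ) : K) * (u 14) * (u 3) + ((-1 : ℤ) : K) * (u 15) * ((-u 9 * u 1 - u 12 * u 2 - u 14 * u 3) / u 15) = 0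
        push_cast
        field_simp
        ring
    exact hl

theorem spinor_nice : spinor.Nice where
  unit := by
    have h : ∀ l t, spinorC l t = 1 ∨ spinorC l t = -1 := by decide
    exact h
  pt := by
    intro K _ x u h
    have key : ∀ x : Fin 16, u x ≠ 0 → ∃ y : Fin 16 → K,
        (∀ j : Fin 16, ¬ spinor.opp x j → y j = u j) ∧ ∀ l, spinor.val y l = 0 := by
      intro x h
      fin_cases x
      · exact spinor_pt_0 u h
      · exact spinor_pt_1 u h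
      · exact spinor_pt_2 u h
      · exact spinor_pt_3 u h
      · exact spinor_pt_4 u h
      · exact spinor_pt_5 u h
      · exact spinor_pt_6 u h
      · exact spinor_pt_7 u h
      · exact spinor_pt_8 u h
      · exact spinor_pt_9 u h
      · exact spinor_pt_10 u h
      · exact spinor_pt_11 u h
      · exact spinor_pt_12 u h
      · exact spinor_pt_13 u h
      · exact spinor_pt_14 u h
      · exact spinor_pt_15 u h
    exact key x h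
  irr := by
    have h : ∀ x, ¬ spinorO x x := by decide
    exact h
  nonopp := by
    have h : ∀ l t t', t ≠ t' →
        (¬ spinorO (spinorA l t) (spinorA l t') ∧ ¬ spinorO (spinorA l t) (spinorB l t') ∧
        ¬ spinorO (spinorB l t) (spinorA l t') ∧ ¬ spinorO (spinorB l t) (spinorB l t')) := by
      decide
    exact h

end Pool.Agent.Q2.SF
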